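import Pool.Agent.Work.MP_dc37f8_rf.InterfaceC

/-!
# MP_dc37f8_co, project rf: block NEGC
-/

set_option autoImplicit false

open Finset

namespace Pool.RF

open Pool.BK Pool.BD

namespace NEGC

/-- the linear part -/
theorem dir_form {g : Gp} (h : IsDir g) : ‖g 1 - g 0‖ = 1 ∧ ∀ z, g z = (g 1 - g 0) * z + g 0 := by
  obtain ⟨w, t, hw, hg⟩ := h
  have h1 : g 1 - g 0 = w := by rw [hg 1, hg 0]; ring
  rw [h1]
  refine ⟨hw, fun z => ?_⟩
  rw [hg z, hg 0]; ring

/-- `g h⁻¹` is a translation: `g` and `h` have the same linear part -/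
theorem lin_eq {g h : Gp} (ht : IsTr (g * h⁻¹)) : g 1 - g 0 = h 1 - h 0 := by
  obtain ⟨t, ht⟩ := ht
  have e : ∀ z, g z = h z + t := by
    intro z
    have := ht (h z)
    simpa [Equiv.Perm.mul_apply] using this
  rw [e 1, e 0]; ring

open Classical in
/-- isometries with a given linear part -/
theorem type_h (Q : Finset ℂ) (w : ℂ) (H : Finset Gp) (hH : ∀ g ∈ H, IsDir g ∧ g 1 - g 0 = w) :
    ∑ g ∈ H, ((st Q g).card : ℝ) ^ 3 ≤ (SX Q w : ℝ) := by
  have h1 : ∑ g ∈ H, (st Q g).card ^ 3 =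
      (H.sigma (fun g => (st Q g) ×ˢ (st Q g) ×ˢ (st Q g))).card := by
    rw [Finset.card_sigma]
    refine Finset.sum_congr rfl (fun g _ => ?_)
    rw [Finset.card_product, Finset.card_product]; ring
  have h2 : (H.sigma (fun g => (st Q g) ×ˢ (st Q g) ×ˢ (st Q g))).card ≤ SX Q w := by
    unfold SX
    refine Finset.card_le_card_of_injOn (fun y => (y.2, act y.1 y.2)) ?_ ?_
    · rintro ⟨g, x⟩ hy
      rw [Finset.mem_coe, Finset.mem_sigma, Finset.mem_product, Finset.mem_product] at hy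
      obtain ⟨hg, hx1, hx2, hx3⟩ := hy
      simp only at hg hx1 hx2 hx3
      unfold st at hx1 hx2 hx3
      rw [Finset.mem_filter] at hx1 hx2 hx3
      obtain ⟨hd, hw⟩ := hH g hg
      obtain ⟨_, hf⟩ := dir_form hd
      rw [hw] at hf
      rw [Finset.mem_coe, Finset.mem_filter, Finset.mem_product, Finset.mem_product,
        Finset.mem_product, Finset.mem_product, Finset.mem_product]
      refine ⟨⟨⟨hx1.1, hx2.1, hx3.1⟩, hx1.2, hx2.2, hx3.2⟩, ?_, ?_⟩
      · show g x.1 - g x.2.1 = w * (x.1 - x.2.1)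
        rw [hf x.1, hf x.2.1]; ring
      · show g x.1 - g x.2.2 = w * (x.1 - x.2.2)
        rw [hf x.1, hf x.2.2]; ring
    · rintro ⟨g, x⟩ hy ⟨g', x'⟩ hy' hxx
      simp only [Prod.mk.injEq] at hxx
      obtain ⟨hx, ha⟩ := hxx
      subst hx
      rw [Finset.mem_coe, Finset.mem_sigma] at hy hy'
      obtain ⟨hd, hw⟩ := hH g hy.1
      obtain ⟨hd', hw'⟩ := hH g' hy'.1
      obtain ⟨_, hf⟩ := dir_form hd
      obtain ⟨_, hf'⟩ := dir_form hd'
      rw [hw] at hf
      rw [hw'] at hf'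
      have ha1 : g x.1 = g' x.1 := congrArg Prod.fst ha
      have h0 : g 0 = g' 0 := by
        have e1 := hf x.1
        have e2 := hf' x.1
        rw [ha1, e2] at e1
        exact (add_left_cancel e1).symm
      have : g = g' := by
        apply Equiv.ext
        intro z
        rw [hf z, hf' z, h0]
      subst this
      rfl
  have h3 : (∑ g ∈ H, ((st Q g).card : ℝ) ^ 3) = ((∑ g ∈ H, (st Q g).card ^ 3 : ℕ) : ℝ) := by
    push_cast; rfl
  rw [h3, h1]
  exact_mod_cast h2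

theorem st_mono {P Q : Finset ℂ} (h : Q ⊆ P) (g : Gp) : st Q g ⊆ st P g := by
  intro x hx
  unfold st at hx ⊢
  rw [Finset.mem_filter] at hx ⊢
  exact ⟨h hx.1, h hx.2⟩

end NEGC

open NEGC in
open Classical in
theorem stmt_NEGC (hCENZ : Stmt_CENZ) : Stmt_NEGC := by
  intro δ L hδ
  refine ⟨125000000 * L ^ 2 + 1, ?_⟩
  intro P Q 𝒢 𝒬 𝒲 hn hctx hQP hQc hSX
  obtain ⟨hG, hQL, hWL, hWd, hrich, huns⟩ := hctx
  set n : ℝ := (P.card : ℝ) with hndef
  have hn1 : (125000000 : ℝ) * L ^ 2 + 1 ≤ n := by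
    rw [hndef]; exact_mod_cast hn
  have hL0 : (0 : ℝ) ≤ L := Nat.cast_nonneg _
  have hn0 : (0 : ℝ) < n := by nlinarith [sq_nonneg (L : ℝ)]
  have hcard3 : ∀ g, ((st Q g).card : ℝ) ^ 3 ≤ ((st P g).card : ℝ) ^ 3 := by
    intro g
    have : (st Q g).card ≤ (st P g).card := Finset.card_le_card (st_mono hQP g)
    have h2 : ((st Q g).card : ℝ) ≤ ((st P g).card : ℝ) := by exact_mod_cast this
    exact pow_le_pow_left₀ (Nat.cast_nonneg _) h2 3
  set 𝒢' := 𝒢.filter (fun g => ¬ (g 1 - g 0 = 1 ∨ g 1 - g 0 = -1)) with h𝒢'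
  set f : Gp → ℝ := fun g => ((st Q g).card : ℝ) ^ 3 with hf
  have hf0 : ∀ g, 0 ≤ f g := fun g => by positivity
  -- pointwise decomposition
  have hpt : ∀ g ∈ 𝒢', f g ≤
      (if ¬ ((∃ h ∈ 𝒲, IsTr (g * h⁻¹)) ∨
        (δ * P.card ≤ ((st P g).card : ℝ) ∧ ∃ z ∈ 𝒬, g z.1 = z.2)) then
          ((st P g).card : ℝ) ^ 3 else 0) +
      ∑ h ∈ 𝒲, (if IsTr (g * h⁻¹) then f g else 0) +
      ∑ z ∈ 𝒬, (if δ * P.card ≤ ((st P g).card : ℝ) ∧ g z.1 = z.2 then f g else 0) := by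
    intro g hg
    have s1 : 0 ≤ ∑ h ∈ 𝒲, (if IsTr (g * h⁻¹) then f g else 0) :=
      Finset.sum_nonneg (fun h _ => by split_ifs <;> [exact hf0 g; exact le_rfl])
    have s2 : 0 ≤ ∑ z ∈ 𝒬, (if δ * P.card ≤ ((st P g).card : ℝ) ∧ g z.1 = z.2 then f g else 0) :=
      Finset.sum_nonneg (fun h _ => by split_ifs <;> [exact hf0 g; exact le_rfl])
    by_cases hA : ∃ h ∈ 𝒲, IsTr (g * h⁻¹)
    · obtain ⟨h, hh, hht⟩ := hA
      have : f g ≤ ∑ h ∈ 𝒲, (if IsTr (g * h⁻¹) then f g else 0) := by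
        have := Finset.single_le_sum (f := fun h => if IsTr (g * h⁻¹) then f g else 0)
          (fun h _ => by split_ifs <;> [exact hf0 g; exact le_rfl]) hh
        simpa [hht] using this
      have s0 : 0 ≤ (if ¬ ((∃ h ∈ 𝒲, IsTr (g * h⁻¹)) ∨
        (δ * P.card ≤ ((st P g).card : ℝ) ∧ ∃ z ∈ 𝒬, g z.1 = z.2)) then
          ((st P g).card : ℝ) ^ 3 else 0) := by split_ifs <;> positivity
      linarith
    · by_cases hB : δ * P.card ≤ ((st P g).card : ℝ) ∧ ∃ z ∈ 𝒬, g z.1 = z.2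
      · obtain ⟨hB1, z, hz, hgz⟩ := hB
        have : f g ≤ ∑ z ∈ 𝒬,
            (if δ * P.card ≤ ((st P g).card : ℝ) ∧ g z.1 = z.2 then f g else 0) := by
          have := Finset.single_le_sum
            (f := fun z : ℂ × ℂ => if δ * P.card ≤ ((st P g).card : ℝ) ∧ g z.1 = z.2 then f g else 0)
            (fun h _ => by split_ifs <;> [exact hf0 g; exact le_rfl]) hz
          simpa [hB1, hgz] using this
        have s0 : 0 ≤ (if ¬ ((∃ h ∈ 𝒲, IsTr (g * h⁻¹)) ∨
          (δ * P.card ≤ ((st P g).card : ℝ) ∧ ∃ z ∈ 𝒬, g z.1 = z.2)) then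
            ((st P g).card : ℝ) ^ 3 else 0) := by split_ifs <;> positivity
        linarith
      · have hcond : ¬ ((∃ h ∈ 𝒲, IsTr (g * h⁻¹)) ∨
          (δ * P.card ≤ ((st P g).card : ℝ) ∧ ∃ z ∈ 𝒬, g z.1 = z.2)) := by
          rintro (h | h)
          · exact hA h
          · exact hB h
        rw [if_pos hcond]
        have := hcard3 g
        show ((st Q g).card : ℝ) ^ 3 ≤ _
        linarith
  have hsum := Finset.sum_le_sum hpt
  rw [Finset.sum_add_distrib, Finset.sum_add_distrib] at hsum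
  -- part 1
  have p1 : ∑ g ∈ 𝒢', (if ¬ ((∃ h ∈ 𝒲, IsTr (g * h⁻¹)) ∨
        (δ * P.card ≤ ((st P g).card : ℝ) ∧ ∃ z ∈ 𝒬, g z.1 = z.2)) then
          ((st P g).card : ℝ) ^ 3 else 0) ≤ 1 / 10 ^ 8 * n ^ 4 := by
    refine le_trans ?_ huns
    rw [← Finset.sum_filter]
    refine Finset.sum_le_sum_of_subset_of_nonneg ?_ (fun g _ _ => by positivity)
    intro g hg
    rw [Finset.mem_filter] at hg ⊢
    exact ⟨(Finset.mem_filter.1 hg.1).1, hg.2⟩
  -- part 2
  have p2 : ∑ g ∈ 𝒢', ∑ h ∈ 𝒲, (if IsTr (g * h⁻¹) then f g else 0) ≤ 1 / 10 ^ 8 * n ^ 4 := by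
    rw [Finset.sum_comm]
    have hb : ∀ h ∈ 𝒲, ∑ g ∈ 𝒢', (if IsTr (g * h⁻¹) then f g else 0) ≤
        1 / (10 ^ 8 * (L + 1)) * n ^ 4 := by
      intro h hh
      rw [← Finset.sum_filter]
      by_cases hw : h 1 - h 0 = 1 ∨ h 1 - h 0 = -1
      · have he : 𝒢'.filter (fun g => IsTr (g * h⁻¹)) = ∅ := by
          rw [Finset.filter_eq_empty_iff]
          intro g hg hgt
          have := lin_eq hgt
          have h2 := (Finset.mem_filter.1 hg).2
          rw [this] at h2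
          exact h2 hw
        rw [he, Finset.sum_empty]
        positivity
      · have hw' := not_or.1 hw
        have := type_h Q (h 1 - h 0) (𝒢'.filter (fun g => IsTr (g * h⁻¹))) (by
          intro g hg
          rw [Finset.mem_filter] at hg
          exact ⟨(hG g (Finset.mem_filter.1 hg.1).1).1, lin_eq hg.2⟩)
        exact this.trans (hSX _ (dir_form (hWd h hh)).1 hw'.1 hw'.2)
    refine (Finset.sum_le_card_nsmul _ _ _ hb).trans ?_
    rw [nsmul_eq_mul]
    have hWr : (𝒲.card : ℝ) ≤ L := by exact_mod_cast hWL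
    have : (𝒲.card : ℝ) * (1 / (10 ^ 8 * (L + 1)) * n ^ 4) ≤
        (L + 1) * (1 / (10 ^ 8 * (L + 1)) * n ^ 4) := by
      apply mul_le_mul_of_nonneg_right _ (by positivity)
      linarith
    refine this.trans (le_of_eq ?_)
    field_simp
  -- part 3
  have p3 : ∑ g ∈ 𝒢', ∑ z ∈ 𝒬,
      (if δ * P.card ≤ ((st P g).card : ℝ) ∧ g z.1 = z.2 then f g else 0) ≤
      2 / 10 ^ 9 * n ^ 4 + L ^ 2 * n ^ 3 := by
    rw [Finset.sum_comm]
    have hb : ∀ z ∈ 𝒬, ∑ g ∈ 𝒢',
        (if δ * P.card ≤ ((st P g).card : ℝ) ∧ g z.1 = z.2 then f g else 0) ≤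
        n ^ 2 * (2 * bb L * n ^ 2 + L * n) := by
      intro z hz
      rw [← Finset.sum_filter]
      set H := 𝒢'.filter (fun g => δ * P.card ≤ ((st P g).card : ℝ) ∧ g z.1 = z.2) with hH
      have hHc : (H.card : ℝ) ≤ L * n := by
        refine le_trans ?_ hrich
        have : H ⊆ 𝒢.filter (fun g => δ * P.card ≤ ((st P g).card : ℝ)) := by
          intro g hg
          rw [hH, Finset.mem_filter] at hg
          exact Finset.mem_filter.2 ⟨(Finset.mem_filter.1 hg.1).1, hg.2.1⟩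
        exact_mod_cast Finset.card_le_card this
      have hbb : (0 : ℝ) ≤ bb L := by unfold bb; positivity
      have hcz := hCENZ P (bb L) z.1 z.2 H hbb (by
        intro g hg
        rw [hH, Finset.mem_filter] at hg
        exact ⟨(hG g (Finset.mem_filter.1 hg.1).1).1, hg.2.2⟩)
      have hz1 : z.1 ∈ cen 𝒬 := by
        unfold cen
        exact Finset.mem_union_left _ (Finset.mem_image_of_mem _ hz)
      have hle : ∀ g ∈ H, f g ≤ n ^ 2 * (((st P g).filter (fun p =>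
          ¬ (p ∈ UP.R P (bb L * P.card) z.1 ∧ g p ∈ UP.R P (bb L * P.card) z.2))).card : ℝ) := by
        intro g hg
        have hs1 : (st Q g).card ≤ P.card :=
          (Finset.card_le_card (Finset.filter_subset _ _)).trans (Finset.card_le_card hQP)
        have hs1' : ((st Q g).card : ℝ) ≤ n := by rw [hndef]; exact_mod_cast hs1
        have hs2 : st Q g ⊆ (st P g).filter (fun p =>
          ¬ (p ∈ UP.R P (bb L * P.card) z.1 ∧ g p ∈ UP.R P (bb L * P.card) z.2)) := by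
          intro p hp
          refine Finset.mem_filter.2 ⟨st_mono hQP g hp, fun hcon => ?_⟩
          have hpQ : p ∈ Q := (Finset.mem_filter.1 hp).1
          exact hQc z.1 hz1 p hpQ hcon.1
        have hs2' : ((st Q g).card : ℝ) ≤ (((st P g).filter (fun p =>
          ¬ (p ∈ UP.R P (bb L * P.card) z.1 ∧ g p ∈ UP.R P (bb L * P.card) z.2))).card : ℝ) := by
          exact_mod_cast Finset.card_le_card hs2
        have h0 : (0 : ℝ) ≤ ((st Q g).card : ℝ) := Nat.cast_nonneg _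
        calc f g = ((st Q g).card : ℝ) ^ 2 * ((st Q g).card : ℝ) := by
              show ((st Q g).card : ℝ) ^ 3 = _; ring
          _ ≤ n ^ 2 * _ := mul_le_mul (pow_le_pow_left₀ h0 hs1' 2) hs2' h0 (by positivity)
      refine (Finset.sum_le_sum hle).trans ?_
      rw [← Finset.mul_sum]
      apply mul_le_mul_of_nonneg_left _ (by positivity)
      refine hcz.trans ?_
      linarith
    refine (Finset.sum_le_card_nsmul _ _ _ hb).trans ?_
    rw [nsmul_eq_mul]
    have hQr : (𝒬.card : ℝ) ≤ L := by exact_mod_cast hQL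
    have hbb : (0 : ℝ) ≤ bb L := by unfold bb; positivity
    have hnn : 0 ≤ n ^ 2 * (2 * bb L * n ^ 2 + L * n) := by positivity
    refine (mul_le_mul_of_nonneg_right hQr hnn).trans ?_
    have hLb : (L : ℝ) * (2 * bb L) ≤ 2 / 10 ^ 9 := by
      unfold bb
      rw [mul_div_assoc', mul_div_assoc', div_le_div_iff₀ (by positivity) (by positivity)]
      nlinarith
    have e : (L : ℝ) * (n ^ 2 * (2 * bb L * n ^ 2 + L * n)) =
        (L * (2 * bb L)) * n ^ 4 + L ^ 2 * n ^ 3 := by ring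
    rw [e]
    have := mul_le_mul_of_nonneg_right hLb (show (0 : ℝ) ≤ n ^ 4 by positivity)
    linarith
  have p4 : (L : ℝ) ^ 2 * n ^ 3 ≤ 8 / 10 ^ 9 * n ^ 4 := by
    have h1 : (L : ℝ) ^ 2 ≤ 8 / 10 ^ 9 * n := by
      nlinarith
    have := mul_le_mul_of_nonneg_right h1 (show (0 : ℝ) ≤ n ^ 3 by positivity)
    nlinarith
  have hfin : ∑ g ∈ 𝒢', f g ≤ 3 / 10 ^ 8 * n ^ 4 := by
    have hn4 : 0 ≤ n ^ 4 := by positivity
    linarith
  exact hfin

end Pool.RF
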