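import Pool.Agent.Work.MP_dc37f8_rf.InterfaceC

/-!
# MP_dc37f8_co, block NSUM (helper76)
-/

set_option autoImplicit false

open Finset

namespace Pool.RF

open Pool.BK Pool.BD

namespace NSUM

open Classical in
lemma st_card_le (P : Finset ℂ) (g : Gp) : (st P g).card ≤ P.card := by
  classical
  apply Finset.card_le_card
  intro p hp
  unfold st at hp
  exact (Finset.mem_filter.1 hp).1

open Classical in
/-- the sum over a set which is covered by two sets -/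
lemma sum_cover {α : Type} (A B C : Finset α) (f : α → ℝ) (hf : ∀ x, 0 ≤ f x)
    (h : ∀ x ∈ A, x ∈ B ∨ x ∈ C) : ∑ x ∈ A, f x ≤ ∑ x ∈ B, f x + ∑ x ∈ C, f x := by
  have h1 : ∑ x ∈ A, f x ≤ ∑ x ∈ B ∪ C, f x := by
    apply Finset.sum_le_sum_of_subset_of_nonneg
    · intro x hx
      rcases h x hx with h | h
      · exact Finset.mem_union_left _ h
      · exact Finset.mem_union_right _ h
    · intro x _ _
      exact hf x
  have h2 : ∑ x ∈ B ∪ C, f x + ∑ x ∈ B ∩ C, f x = ∑ x ∈ B, f x + ∑ x ∈ C, f x :=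
    Finset.sum_union_inter
  have h3 : 0 ≤ ∑ x ∈ B ∩ C, f x := Finset.sum_nonneg (fun x _ => hf x)
  linarith

end NSUM

open Classical in
theorem stmt_NSUM (hTAIL : Stmt_TAIL) (hSEL : Stmt_SEL) (hRB : Stmt_RB) : Stmt_NSUM := by
  obtain ⟨δ, n₁, hδ, hT⟩ := hTAIL (1 / 10 ^ 8 / 2) (by norm_num)
  obtain ⟨L₁, n₂, hS⟩ := hSEL δ (1 / 10 ^ 8 / 2) hδ (by norm_num)
  obtain ⟨C, n₃, hC, hR⟩ := hRB δ hδ
  refine ⟨δ, max L₁ ⌈C⌉₊, max n₁ (max n₂ n₃), hδ, ?_⟩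
  intro P 𝒢 hn h𝒢
  have hn₁ : n₁ ≤ P.card := le_trans (le_max_left _ _) hn
  have hn₂ : n₂ ≤ P.card := le_trans (le_trans (le_max_left _ _) (le_max_right _ _)) hn
  have hn₃ : n₃ ≤ P.card := le_trans (le_trans (le_max_right _ _) (le_max_right _ _)) hn
  obtain ⟨𝒬, 𝒲, hQ, hW, hWd, hex⟩ := hS P hn₂
    (𝒢.filter (fun g => δ * P.card ≤ ((st P g).card : ℝ)))
    (fun g hg => (h𝒢 g (Finset.mem_filter.1 hg).1).1)
    (fun g hg => (Finset.mem_filter.1 hg).2)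
  have hcnt := hR P (𝒢.filter (fun g => δ * P.card ≤ ((st P g).card : ℝ))) hn₃
    (fun g hg => ⟨(h𝒢 g (Finset.mem_filter.1 hg).1).1, (Finset.mem_filter.1 hg).2⟩)
  have htail := hT P (𝒢.filter (fun g => ((st P g).card : ℝ) ≤ δ * P.card)) hn₁
    (fun g hg => ⟨(h𝒢 g (Finset.mem_filter.1 hg).1).1, (h𝒢 g (Finset.mem_filter.1 hg).1).2,
      (Finset.mem_filter.1 hg).2⟩)
  have hP0 : (0 : ℝ) ≤ (P.card : ℝ) := Nat.cast_nonneg _
  refine ⟨𝒬, 𝒲, h𝒢, le_trans hQ (le_max_left _ _), le_trans hW (le_max_left _ _), hWd, ?_, ?_⟩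
  · refine le_trans hcnt ?_
    apply mul_le_mul_of_nonneg_right _ hP0
    calc C ≤ (⌈C⌉₊ : ℝ) := Nat.le_ceil C
      _ ≤ ((max L₁ ⌈C⌉₊ : ℕ) : ℝ) := by exact_mod_cast le_max_right _ _
  · have hcov := NSUM.sum_cover
      (𝒢.filter (fun g => ¬ ((∃ h ∈ 𝒲, IsTr (g * h⁻¹)) ∨
        (δ * P.card ≤ ((st P g).card : ℝ) ∧ ∃ z ∈ 𝒬, g z.1 = z.2))))
      (𝒢.filter (fun g => ((st P g).card : ℝ) ≤ δ * P.card))
      ((𝒢.filter (fun g => δ * P.card ≤ ((st P g).card : ℝ))).filter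
        (fun g => (∀ z ∈ 𝒬, g z.1 ≠ z.2) ∧ ∀ h ∈ 𝒲, ¬ IsTr (g * h⁻¹)))
      (fun g => ((st P g).card : ℝ) ^ 3) (fun g => by positivity)
      (by
        intro g hg
        obtain ⟨hg1, hg2⟩ := Finset.mem_filter.1 hg
        rcases le_total ((st P g).card : ℝ) (δ * P.card) with h | h
        · exact Or.inl (Finset.mem_filter.2 ⟨hg1, h⟩)
        · right
          refine Finset.mem_filter.2 ⟨Finset.mem_filter.2 ⟨hg1, h⟩, ?_, ?_⟩
          · intro z hz hzz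
            exact hg2 (Or.inr ⟨h, z, hz, hzz⟩)
          · intro k hk hkk
            exact hg2 (Or.inl ⟨k, hk, hkk⟩))
    have hfin : (1 / 10 ^ 8 / 2 * (P.card : ℝ) ^ 4 + 1 / 10 ^ 8 / 2 * (P.card : ℝ) ^ 4) =
        1 / 10 ^ 8 * (P.card : ℝ) ^ 4 := by ring
    refine le_trans hcov (le_trans (add_le_add htail ?_) (le_of_eq hfin))
    refine le_trans (Finset.sum_le_sum (g := fun _ => (P.card : ℝ) ^ 3) ?_) ?_
    · intro g _
      apply pow_le_pow_left₀ (Nat.cast_nonneg _)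
      exact_mod_cast NSUM.st_card_le P g
    · rw [Finset.sum_const, nsmul_eq_mul]
      have h8 : (1 / 10 ^ 8 / 2 * (P.card : ℝ) ^ 4 : ℝ) =
          (1 / 10 ^ 8 / 2 * (P.card : ℝ)) * (P.card : ℝ) ^ 3 := by ring
      rw [h8]
      apply mul_le_mul_of_nonneg_right _ (by positivity)
      refine le_trans (le_of_eq ?_) hex
      congr 2
      ext x
      simp only [Finset.mem_filter]

end Pool.RF
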