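import Pool.Agent.Work.MP_dc37f8_rf.InterfaceC

/-!
# JUNK: few points are not in general position
-/

set_option autoImplicit false

open Finset

namespace Pool.RF

open Pool.BK Pool.BD

namespace JUNK

/-- a line and a circle have at most two common points -/
theorem circle_line (P : Finset ℂ) {l : ℂ × ℂ} (hl : l.2 ≠ 0) (c : ℂ) (ρ : ℝ) :
    ((pts P l).filter (fun y => dist y c = ρ)).card ≤ 2 := by
  classical
  by_contra hcon
  rw [not_le, two_lt_card] at hcon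
  obtain ⟨y₁, h₁, y₂, h₂, y₃, h₃, h12, h13, h23⟩ := hcon
  rw [mem_filter, pts, mem_filter] at h₁ h₂ h₃
  obtain ⟨⟨-, s₁, e₁⟩, d₁⟩ := h₁
  obtain ⟨⟨-, s₂, e₂⟩, d₂⟩ := h₂
  obtain ⟨⟨-, s₃, e₃⟩, d₃⟩ := h₃
  have key : ∀ (s : ℝ) (y : ℂ), y = l.1 + s * l.2 → dist y c = ρ →
      (l.2.re ^ 2 + l.2.im ^ 2) * s ^ 2 + 2 * ((l.1.re - c.re) * l.2.re +
        (l.1.im - c.im) * l.2.im) * s + ((l.1.re - c.re) ^ 2 + (l.1.im - c.im) ^ 2 - ρ ^ 2) = 0 := by
    intro s y hy hd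
    have e1 : dist y c ^ 2 = (y.re - c.re) ^ 2 + (y.im - c.im) ^ 2 := by
      rw [Complex.dist_eq, ← Complex.normSq_eq_norm_sq, Complex.normSq_apply]
      simp
      ring
    rw [hd] at e1
    have e2 : y.re = l.1.re + s * l.2.re := by rw [hy]; simp
    have e3 : y.im = l.1.im + s * l.2.im := by rw [hy]; simp
    rw [e2, e3] at e1
    linarith [e1]
  obtain ⟨A, hA⟩ : ∃ A : ℝ, A = l.2.re ^ 2 + l.2.im ^ 2 := ⟨_, rfl⟩
  obtain ⟨B, hB⟩ : ∃ B : ℝ, B = 2 * ((l.1.re - c.re) * l.2.re + (l.1.im - c.im) * l.2.im) :=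
    ⟨_, rfl⟩
  obtain ⟨D, hD⟩ : ∃ D : ℝ, D = (l.1.re - c.re) ^ 2 + (l.1.im - c.im) ^ 2 - ρ ^ 2 := ⟨_, rfl⟩
  rw [← hA, ← hB, ← hD] at key
  have hA0 : A ≠ 0 := by
    rw [hA]
    intro h
    apply hl
    have h1 : l.2.re = 0 := by nlinarith [sq_nonneg l.2.re, sq_nonneg l.2.im]
    have h2 : l.2.im = 0 := by nlinarith [sq_nonneg l.2.re, sq_nonneg l.2.im]
    exact Complex.ext h1 h2
  have k₁ := key s₁ y₁ e₁ d₁
  have k₂ := key s₂ y₂ e₂ d₂
  have k₃ := key s₃ y₃ e₃ d₃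
  have n12 : s₁ ≠ s₂ := by rintro rfl; exact h12 (e₁.trans e₂.symm)
  have n13 : s₁ ≠ s₃ := by rintro rfl; exact h13 (e₁.trans e₃.symm)
  have n23 : s₂ ≠ s₃ := by rintro rfl; exact h23 (e₂.trans e₃.symm)
  have m12 : A * (s₁ + s₂) + B = 0 := by
    have : (s₁ - s₂) * (A * (s₁ + s₂) + B) = 0 := by linear_combination k₁ - k₂
    rcases mul_eq_zero.1 this with h | h
    · exact absurd (sub_eq_zero.1 h) n12
    · exact h
  have m13 : A * (s₁ + s₃) + B = 0 := by
    have : (s₁ - s₃) * (A * (s₁ + s₃) + B) = 0 := by linear_combination k₁ - k₃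
    rcases mul_eq_zero.1 this with h | h
    · exact absurd (sub_eq_zero.1 h) n13
    · exact h
  have : A * (s₂ - s₃) = 0 := by linear_combination m12 - m13
  rcases mul_eq_zero.1 this with h | h
  · exact hA0 h
  · exact n23 (sub_eq_zero.1 h)

/-- representatives of the rich lines -/
theorem reps (hRL : Stmt_RL) {β : ℝ} (hβ : 0 < β) (P : Finset ℂ) (hn : 0 < P.card)
    (hn4 : 4 / β ^ 2 ≤ (P.card : ℝ)) : ∃ N : Finset (ℂ × ℂ), (∀ l ∈ N, l.2 ≠ 0) ∧
    (∀ l ∈ N, ∀ l' ∈ N, l ≠ l' → (pts P l ∩ pts P l').card ≤ 1) ∧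
    (∀ p v : ℂ, v ≠ 0 → β * P.card ≤ ((pts P (p, v)).card : ℝ) →
      ∃ l ∈ N, pts P l = pts P (p, v) ∧ ∃ s : ℝ, v = s * l.2) ∧
    (N.card : ℝ) ≤ 2 / β := by
  classical
  have hn' : (0 : ℝ) < P.card := by exact_mod_cast hn
  have hK1 : 1 ≤ ⌈β * P.card⌉₊ := Nat.one_le_iff_ne_zero.mpr
    (Nat.pos_iff_ne_zero.mp (Nat.ceil_pos.mpr (by positivity)))
  have hK2 : 4 * P.card ≤ ⌈β * P.card⌉₊ ^ 2 := by
    have h1 : (4 : ℝ) * P.card ≤ (⌈β * P.card⌉₊ : ℝ) ^ 2 := by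
      have h2 : (4 : ℝ) ≤ P.card * β ^ 2 := by
        rwa [div_le_iff₀ (by positivity)] at hn4
      calc (4 : ℝ) * P.card ≤ P.card * β ^ 2 * P.card := by gcongr
        _ = (β * P.card) ^ 2 := by ring
        _ ≤ (⌈β * P.card⌉₊ : ℝ) ^ 2 := by
            gcongr
            exact Nat.le_ceil _
    exact_mod_cast h1
  obtain ⟨N, h1, h2, h3, h4, -⟩ := hRL P ⌈β * P.card⌉₊ hK1 hK2
  refine ⟨N, fun l hl => (h1 l hl).1, h2, fun p v hv h => h3 p v hv (Nat.ceil_le.mpr h), ?_⟩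
  have h5 : (N.card : ℝ) * (β * P.card) ≤ 2 * P.card := by
    calc (N.card : ℝ) * (β * P.card) ≤ N.card * (⌈β * P.card⌉₊ : ℝ) := by
          gcongr
          exact Nat.le_ceil _
      _ ≤ 2 * P.card := by exact_mod_cast h4
  rw [le_div_iff₀ hβ]
  have h6 : ((N.card : ℝ) * β) * P.card ≤ 2 * P.card := by
    calc ((N.card : ℝ) * β) * P.card = (N.card : ℝ) * (β * P.card) := by ring
      _ ≤ 2 * P.card := h5
  exact le_of_mul_le_mul_right h6 hn'

open Classical in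
/-- two rich circles -/
theorem card_A1 (P C : Finset ℂ) {b : ℝ} (hb : 0 < b) (hn : 0 < P.card) :
    ((C.offDiag.biUnion (fun z => UP.R P (b * P.card) z.1 ∩ UP.R P (b * P.card) z.2)).card : ℝ) ≤
      (C.card : ℝ) ^ 2 * (2 / b ^ 2) := by
  have hn' : (0 : ℝ) < P.card := by exact_mod_cast hn
  calc ((C.offDiag.biUnion
        (fun z => UP.R P (b * P.card) z.1 ∩ UP.R P (b * P.card) z.2)).card : ℝ) ≤
        ∑ z ∈ C.offDiag, ((UP.R P (b * P.card) z.1 ∩ UP.R P (b * P.card) z.2).card : ℝ) := by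
        exact_mod_cast card_biUnion_le
    _ ≤ ∑ _z ∈ C.offDiag, (2 / b ^ 2 : ℝ) := by
        refine sum_le_sum fun z hz => ?_
        refine (UP.overlap P (by positivity) (mem_offDiag.mp hz).2.2).trans (le_of_eq ?_)
        field_simp
    _ = (C.offDiag.card : ℝ) * (2 / b ^ 2) := by rw [sum_const, nsmul_eq_mul]
    _ ≤ (C.card : ℝ) ^ 2 * (2 / b ^ 2) := by
        have h1 : C.offDiag.card ≤ C.card ^ 2 := by
          rw [offDiag_card, sq]
          exact Nat.sub_le _ _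
        have h2 : (C.offDiag.card : ℝ) ≤ (C.card : ℝ) ^ 2 := by exact_mod_cast h1
        gcongr

open Classical in
/-- a rich circle and a rich line -/
theorem card_A2 (P C : Finset ℂ) {b : ℝ} (hb : 0 < b) (hn : 0 < P.card) (N : Finset (ℂ × ℂ))
    (hN : ∀ l ∈ N, l.2 ≠ 0) :
    ((C.biUnion (fun c => (((UP.R P (b * P.card) c).image (fun p => dist p c)) ×ˢ N).biUnion
      (fun z => (pts P z.2).filter (fun y => dist y c = z.1)))).card : ℝ) ≤
      (C.card : ℝ) * (1 / b * N.card * 2) := by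
  have hn' : (0 : ℝ) < P.card := by exact_mod_cast hn
  calc ((C.biUnion (fun c => (((UP.R P (b * P.card) c).image (fun p => dist p c)) ×ˢ N).biUnion
      (fun z => (pts P z.2).filter (fun y => dist y c = z.1)))).card : ℝ) ≤
      ∑ c ∈ C, (((((UP.R P (b * P.card) c).image (fun p => dist p c)) ×ˢ N).biUnion
        (fun z => (pts P z.2).filter (fun y => dist y c = z.1))).card : ℝ) := by
        exact_mod_cast card_biUnion_le
    _ ≤ ∑ _c ∈ C, (1 / b * N.card * 2 : ℝ) := by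
        refine sum_le_sum fun c _ => ?_
        have h1 : ((((UP.R P (b * P.card) c).image (fun p => dist p c)) ×ˢ N).biUnion
            (fun z => (pts P z.2).filter (fun y => dist y c = z.1))).card ≤
            (((UP.R P (b * P.card) c).image (fun p => dist p c)) ×ˢ N).card * 2 := by
          refine card_biUnion_le_card_mul _ _ _ fun z hz => ?_
          exact circle_line P (hN z.2 (mem_product.mp hz).2) c z.1
        rw [card_product] at h1
        have h2 : ((((UP.R P (b * P.card) c).image (fun p => dist p c)).card : ℕ) : ℝ) ≤ 1 / b := by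
          have h3 := UP.radii_le P (b := b * P.card) c
          rw [le_div_iff₀ hb]
          have h4 : (((UP.R P (b * P.card) c).image (fun p => dist p c)).card : ℝ) * b * P.card ≤
              1 * P.card := by linarith
          exact le_of_mul_le_mul_right h4 hn'
        calc ((((((UP.R P (b * P.card) c).image (fun p => dist p c)) ×ˢ N).biUnion
            (fun z => (pts P z.2).filter (fun y => dist y c = z.1))).card : ℕ) : ℝ) ≤
            ((((UP.R P (b * P.card) c).image (fun p => dist p c)).card * N.card * 2 : ℕ) : ℝ) := by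
              exact_mod_cast h1
          _ = (((UP.R P (b * P.card) c).image (fun p => dist p c)).card : ℝ) * N.card * 2 := by
              push_cast
              ring
          _ ≤ 1 / b * N.card * 2 := by gcongr
    _ = (C.card : ℝ) * (1 / b * N.card * 2) := by rw [sum_const, nsmul_eq_mul]

open Classical in
/-- two rich lines -/
theorem card_A3 (P : Finset ℂ) (N : Finset (ℂ × ℂ))
    (hN : ∀ l ∈ N, ∀ l' ∈ N, l ≠ l' → (pts P l ∩ pts P l').card ≤ 1) :
    ((N.offDiag.biUnion (fun z => pts P z.1 ∩ pts P z.2)).card : ℝ) ≤ (N.card : ℝ) ^ 2 := by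
  have h1 : (N.offDiag.biUnion (fun z => pts P z.1 ∩ pts P z.2)).card ≤ N.offDiag.card * 1 := by
    refine card_biUnion_le_card_mul _ _ _ fun z hz => ?_
    obtain ⟨hz1, hz2, hz3⟩ := mem_offDiag.mp hz
    exact hN z.1 hz1 z.2 hz2 hz3
  have h2 : N.offDiag.card ≤ N.card ^ 2 := by
    rw [offDiag_card, sq]
    exact Nat.sub_le _ _
  have h3 : (N.offDiag.biUnion (fun z => pts P z.1 ∩ pts P z.2)).card ≤ N.card ^ 2 := by omega
  exact_mod_cast h3

theorem mem_pts {P : Finset ℂ} {p v : ℂ} (hp : p ∈ P) : p ∈ pts P (p, v) := by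
  classical
  exact mem_filter.mpr ⟨hp, 0, by simp⟩

end JUNK

open Classical JUNK in
theorem stmt_JUNK (hRL : Stmt_RL) : Stmt_JUNK := by
  intro L b β β' hb hβ' hββ
  have hβ : 0 < β := hβ'.trans_le hββ
  refine ⟨⌈(L : ℝ) ^ 2 * (2 / b ^ 2) + L * (1 / b * (2 / β') * 2) + (2 / β) ^ 2⌉₊,
    ⌈(4 / β' ^ 2 : ℝ)⌉₊ + 1, ?_⟩
  intro P C hn hC
  have hP : 0 < P.card := by omega
  have hP' : (0 : ℝ) < P.card := by exact_mod_cast hP
  have hC' : (C.card : ℝ) ≤ L := by exact_mod_cast hC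
  have hn' : (4 / β' ^ 2 : ℝ) ≤ (P.card : ℝ) :=
    (Nat.le_ceil (4 / β' ^ 2 : ℝ)).trans (Nat.cast_le.mpr (by omega))
  have hn2 : (4 / β ^ 2 : ℝ) ≤ (P.card : ℝ) := by
    refine le_trans ?_ hn'
    gcongr
  obtain ⟨N', hN'1, hN'2, hN'3, hN'4⟩ := reps hRL hβ' P hP hn'
  obtain ⟨N, hN1, hN2, hN3, hN4⟩ := reps hRL hβ P hP hn2
  set A1 := C.offDiag.biUnion (fun z => UP.R P (b * P.card) z.1 ∩ UP.R P (b * P.card) z.2)
    with hA1
  set A2 := C.biUnion (fun c => (((UP.R P (b * P.card) c).image (fun p => dist p c)) ×ˢ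
    N').biUnion (fun z => (pts P z.2).filter (fun y => dist y c = z.1))) with hA2
  set A3 := N.offDiag.biUnion (fun z => pts P z.1 ∩ pts P z.2) with hA3
  have hsub : P \ Good P C b β β' ⊆ (A1 ∪ (A2 ∪ A3)) ∪ (Lam P β' \ Lam P β) := by
    intro p hp
    obtain ⟨hpP, hpG⟩ := mem_sdiff.mp hp
    by_contra hcon
    rw [mem_union, mem_union, mem_union] at hcon
    push Not at hcon
    obtain ⟨⟨c1, c2, c3⟩, c4⟩ := hcon
    apply hpG
    refine mem_filter.mpr ⟨hpP, ?_, ?_, ?_, ?_⟩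
    · intro c hc c' hc' h h'
      by_contra hne
      exact c1 (mem_biUnion.mpr ⟨(c, c'), mem_offDiag.mpr ⟨hc, hc', hne⟩, mem_inter.mpr ⟨h, h'⟩⟩)
    · intro c hc h hL
      obtain ⟨-, v, hv, hvp⟩ := mem_filter.mp hL
      obtain ⟨l, hl, hl2, -⟩ := hN'3 p v hv hvp
      refine c2 (mem_biUnion.mpr ⟨c, hc, mem_biUnion.mpr ⟨(dist p c, l), ?_, ?_⟩⟩)
      · exact mem_product.mpr ⟨mem_image_of_mem _ h, hl⟩
      · refine mem_filter.mpr ⟨?_, rfl⟩
        change p ∈ pts P l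
        rw [hl2]
        exact mem_pts hpP
    · intro v v' hv hv' h h'
      by_contra hne
      obtain ⟨l, hl, hl2, s, hs⟩ := hN3 p v hv h
      obtain ⟨l', hl', hl2', s', hs'⟩ := hN3 p v' hv' h'
      have hll : l ≠ l' := by
        intro heq
        apply hne
        have hs0 : (s : ℂ) ≠ 0 := by
          intro h0
          rw [h0, zero_mul] at hs
          exact hv hs
        refine ⟨s' / s, ?_⟩
        rw [hs', ← heq, hs]
        push_cast
        field_simp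
      refine c3 (mem_biUnion.mpr ⟨(l, l'), mem_offDiag.mpr ⟨hl, hl', hll⟩, mem_inter.mpr ⟨?_, ?_⟩⟩)
      · change p ∈ pts P l
        rw [hl2]
        exact mem_pts hpP
      · change p ∈ pts P l'
        rw [hl2']
        exact mem_pts hpP
    · intro h
      by_contra h'
      exact c4 (mem_sdiff.mpr ⟨h, h'⟩)
  have h1 := card_A1 P C hb hP
  have h2 := card_A2 P C hb hP N' hN'1
  have h3 := card_A3 P N hN2
  rw [← hA1] at h1
  rw [← hA2] at h2
  rw [← hA3] at h3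
  have h4 : ((A1 ∪ (A2 ∪ A3)).card : ℝ) ≤
      (L : ℝ) ^ 2 * (2 / b ^ 2) + L * (1 / b * (2 / β') * 2) + (2 / β) ^ 2 := by
    calc ((A1 ∪ (A2 ∪ A3)).card : ℝ) ≤ (A1.card : ℝ) + (A2.card + A3.card) := by
          exact_mod_cast (card_union_le _ _).trans (Nat.add_le_add_left (card_union_le _ _) _)
      _ ≤ (C.card : ℝ) ^ 2 * (2 / b ^ 2) + ((C.card : ℝ) * (1 / b * N'.card * 2) +
          (N.card : ℝ) ^ 2) := by gcongr
      _ ≤ (L : ℝ) ^ 2 * (2 / b ^ 2) + (L * (1 / b * (2 / β') * 2) + (2 / β) ^ 2) := by gcongr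
      _ = (L : ℝ) ^ 2 * (2 / b ^ 2) + L * (1 / b * (2 / β') * 2) + (2 / β) ^ 2 := by ring
  have h5 : (A1 ∪ (A2 ∪ A3)).card ≤
      ⌈(L : ℝ) ^ 2 * (2 / b ^ 2) + L * (1 / b * (2 / β') * 2) + (2 / β) ^ 2⌉₊ := by
    have := h4.trans (Nat.le_ceil _)
    exact_mod_cast this
  calc (P \ Good P C b β β').card ≤ ((A1 ∪ (A2 ∪ A3)) ∪ (Lam P β' \ Lam P β)).card :=
        card_le_card hsub
    _ ≤ (A1 ∪ (A2 ∪ A3)).card + (Lam P β' \ Lam P β).card := card_union_le _ _
    _ ≤ _ := Nat.add_le_add_right h5 _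

end Pool.RF
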