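import Pool.Agent.Work.MP_dc37f8_rf.Interface

/-!
Block BIS: all vectors can be bisected (from GEN), by perturbation and compactness.
-/

set_option autoImplicit false

open Finset

namespace Pool.RF

namespace BIS

open Filter Topology

/-- the perturbed vectors -/
def pert {ι : Type} {D : ℕ} (u V : ι → Fin D → ℝ) (t : ℝ) (x : ι) : Fin D → ℝ :=
  u x + t • V x

open Classical in
theorem fin_bad {ι : Type} [Fintype ι] {D : ℕ} (u : ι → Fin D → ℝ) (a : ι → ℝ)
    (ha : Function.Injective a) (T : Finset ι) (hT : T.card = D) :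
    ∃ B : Set ℝ, B.Finite ∧ ∀ t, t ∉ B →
      LinearIndependent ℝ (fun x : T => pert u (fun x i => a x ^ (i : ℕ)) t x) := by
  classical
  have hc : Fintype.card T = D := by rw [Fintype.card_coe, hT]
  let e : Fin D ≃ T := (Fintype.equivFinOfCardEq hc).symm
  let U : Matrix (Fin D) (Fin D) ℝ := fun k => u (e k)
  let W : Matrix (Fin D) (Fin D) ℝ := Matrix.vandermonde (fun k => a (e k))
  let P : Polynomial ℝ :=
    Matrix.det ((Polynomial.X : Polynomial ℝ) • W.map Polynomial.C + U.map Polynomial.C)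
  have hP : P ≠ 0 := by
    intro h0
    have h1 := Polynomial.coeff_det_X_add_C_card W U
    have h2 : P.coeff (Fintype.card (Fin D)) = W.det := h1
    rw [h0, Polynomial.coeff_zero] at h2
    have h3 : W.det ≠ 0 := by
      rw [Matrix.det_vandermonde_ne_zero_iff]
      intro k k' h
      exact e.injective (Subtype.ext (ha h))
    exact h3 h2.symm
  refine ⟨(P.roots.toFinset : Set ℝ), Finset.finite_toSet _, ?_⟩
  intro t ht
  have h4 : P.eval t ≠ 0 := by
    intro h
    apply ht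
    rw [Finset.mem_coe, Multiset.mem_toFinset, Polynomial.mem_roots hP]
    exact h
  have h5 : P.eval t = Matrix.det (t • W + U) := by
    show Polynomial.eval t (Matrix.det _) = _
    rw [← Polynomial.coe_evalRingHom, RingHom.map_det]
    congr 1
    ext i j
    simp [RingHom.mapMatrix_apply, Matrix.map_apply]
    ring
  rw [h5] at h4
  have h6 : LinearIndependent ℝ (t • W + U).row :=
    Matrix.linearIndependent_rows_of_det_ne_zero h4
  have h7 : (fun x : T => pert u (fun x i => a x ^ (i : ℕ)) t x) ∘ e = (t • W + U).row := by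
    funext k
    funext i
    simp only [Function.comp_apply, pert, Pi.add_apply, Pi.smul_apply, smul_eq_mul, Matrix.row,
      Matrix.add_apply, Matrix.smul_apply]
    show u (e k) i + t * a (e k) ^ (i : ℕ) = t * (Matrix.vandermonde (fun k => a (e k)) k i) + u (e k) i
    rw [Matrix.vandermonde_apply]
    ring
  rw [← linearIndependent_equiv e, h7]
  exact h6

open Classical in
theorem good_t {ι : Type} [Fintype ι] {D : ℕ} (u : ι → Fin D → ℝ) (a : ι → ℝ)
    (ha : Function.Injective a) (ε : ℝ) (hε : 0 < ε) :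
    ∃ t : ℝ, 0 < t ∧ t < ε ∧ ∀ T : Finset ι, T.card = D →
      LinearIndependent ℝ (fun x : T => pert u (fun x i => a x ^ (i : ℕ)) t x) := by
  classical
  have h1 : ∀ T : Finset ι, ∃ B : Set ℝ, B.Finite ∧ (T.card = D → ∀ t, t ∉ B →
      LinearIndependent ℝ (fun x : T => pert u (fun x i => a x ^ (i : ℕ)) t x)) := by
    intro T
    by_cases hT : T.card = D
    · obtain ⟨B, hB, h⟩ := fin_bad u a ha T hT
      exact ⟨B, hB, fun _ => h⟩
    · exact ⟨∅, Set.finite_empty, fun h => absurd h hT⟩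
  choose B hB hBt using h1
  have h2 : (⋃ T : Finset ι, B T).Finite := Set.finite_iUnion hB
  have h3 : (Set.Ioo (0 : ℝ) ε \ ⋃ T : Finset ι, B T).Infinite :=
    (Set.Ioo_infinite hε).sdiff h2
  obtain ⟨t, ht, htB⟩ := h3.nonempty
  refine ⟨t, ht.1, ht.2, ?_⟩
  intro T hT
  apply hBt T hT
  intro h
  exact htB (Set.mem_iUnion.2 ⟨T, h⟩)

open Classical in
theorem main (hGEN : Stmt_GEN) (ι κ : Type) [Fintype ι] [Fintype κ] (c : ι → κ) (D : ℕ)
    (u : ι → Fin D → ℝ)
    (hD : D = 1 + ∑ j : κ, min 5 ((univ.filter (fun x => c x = j)).card)) :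
    ∃ p : Fin D → ℝ, p ≠ 0 ∧
      (((univ : Finset (ι × ι)).filter
        (fun z => c z.1 = c z.2 ∧ 0 < (u z.1 ⬝ᵥ p) * (u z.2 ⬝ᵥ p))).card : ℝ) ≤
      4 / 7 * ((univ : Finset (ι × ι)).filter (fun z => c z.1 = c z.2)).card +
        Fintype.card ι := by
  classical
  let a : ι → ℝ := fun x => ((Fintype.equivFin ι x : ℕ) : ℝ)
  have ha : Function.Injective a := by
    intro x y h
    have h1 : (Fintype.equivFin ι x : ℕ) = (Fintype.equivFin ι y : ℕ) := Nat.cast_injective h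
    exact (Fintype.equivFin ι).injective (Fin.ext h1)
  let V : ι → Fin D → ℝ := fun x i => a x ^ (i : ℕ)
  have h1 : ∀ n : ℕ, ∃ t : ℝ, 0 < t ∧ t < 1 / ((n : ℝ) + 1) ∧ ∀ T : Finset ι, T.card = D →
      LinearIndependent ℝ (fun x : T => pert u V t x) := by
    intro n
    exact good_t u a ha _ (by positivity)
  choose t ht0 ht1 htT using h1
  have h2 : ∀ n : ℕ, ∃ p : Fin D → ℝ, p ≠ 0 ∧
      (((univ : Finset (ι × ι)).filter (fun z => c z.1 = c z.2 ∧
        0 < (pert u V (t n) z.1 ⬝ᵥ p) * (pert u V (t n) z.2 ⬝ᵥ p))).card : ℝ) ≤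
      4 / 7 * ((univ : Finset (ι × ι)).filter (fun z => c z.1 = c z.2)).card +
        Fintype.card ι :=
    fun n => hGEN ι κ c D (pert u V (t n)) hD (htT n)
  choose p hp0 hp using h2
  let q : ℕ → Fin D → ℝ := fun n => ‖p n‖⁻¹ • p n
  have hqn : ∀ n, q n ∈ Metric.sphere (0 : Fin D → ℝ) 1 := by
    intro n
    rw [mem_sphere_zero_iff_norm]
    show ‖‖p n‖⁻¹ • p n‖ = 1
    rw [norm_smul, norm_inv, norm_norm]
    exact inv_mul_cancel₀ (norm_ne_zero_iff.2 (hp0 n))
  obtain ⟨w, hw, φ, hφ, hlim⟩ := (isCompact_sphere (0 : Fin D → ℝ) 1).tendsto_subseq hqn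
  have htlim : Tendsto t atTop (𝓝 0) := by
    refine squeeze_zero (fun n => (ht0 n).le) (fun n => (ht1 n).le) ?_
    exact tendsto_one_div_add_atTop_nhds_zero_nat
  have htφ : Tendsto (t ∘ φ) atTop (𝓝 0) := htlim.comp hφ.tendsto_atTop
  have hdot : ∀ x : ι, Tendsto (fun n => pert u V (t (φ n)) x ⬝ᵥ q (φ n)) atTop
      (𝓝 (u x ⬝ᵥ w)) := by
    intro x
    unfold dotProduct
    apply tendsto_finsetSum
    intro i _
    apply Tendsto.mul
    · have h3 : Tendsto (fun n => u x i + t (φ n) * V x i) atTop (𝓝 (u x i + 0 * V x i)) :=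
        tendsto_const_nhds.add (htφ.mul tendsto_const_nhds)
      rw [zero_mul, add_zero] at h3
      exact h3
    · exact (tendsto_pi_nhds.1 hlim) i
  have hev : ∀ z : ι × ι, ∀ᶠ n in atTop, 0 < (u z.1 ⬝ᵥ w) * (u z.2 ⬝ᵥ w) →
      0 < (pert u V (t (φ n)) z.1 ⬝ᵥ q (φ n)) * (pert u V (t (φ n)) z.2 ⬝ᵥ q (φ n)) := by
    intro z
    by_cases hz : 0 < (u z.1 ⬝ᵥ w) * (u z.2 ⬝ᵥ w)
    · have h4 := ((hdot z.1).mul (hdot z.2)).eventually (lt_mem_nhds hz)
      filter_upwards [h4] with n hn _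
      exact hn
    · exact Eventually.of_forall (fun n h => absurd h hz)
  have hev' := Filter.eventually_all.2 hev
  obtain ⟨n, hn⟩ := hev'.exists
  refine ⟨w, ?_, ?_⟩
  · intro h0
    rw [h0] at hw
    simp at hw
  · refine le_trans ?_ (hp (φ n))
    have h5 : ((univ : Finset (ι × ι)).filter
        (fun z => c z.1 = c z.2 ∧ 0 < (u z.1 ⬝ᵥ w) * (u z.2 ⬝ᵥ w))).card ≤
        ((univ : Finset (ι × ι)).filter (fun z => c z.1 = c z.2 ∧
        0 < (pert u V (t (φ n)) z.1 ⬝ᵥ p (φ n)) * (pert u V (t (φ n)) z.2 ⬝ᵥ p (φ n)))).card := by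
      apply card_le_card
      intro z hz
      rw [mem_filter] at hz ⊢
      refine ⟨mem_univ _, hz.2.1, ?_⟩
      have h6 := hn z hz.2.2
      have h7 : ∀ x, pert u V (t (φ n)) x ⬝ᵥ q (φ n) =
          ‖p (φ n)‖⁻¹ * (pert u V (t (φ n)) x ⬝ᵥ p (φ n)) := by
        intro x
        show _ ⬝ᵥ (‖p (φ n)‖⁻¹ • p (φ n)) = _
        rw [dotProduct_smul, smul_eq_mul]
      rw [h7, h7] at h6
      have h8 : 0 < ‖p (φ n)‖⁻¹ := inv_pos.2 (norm_pos_iff.2 (hp0 _))
      have h9 : ‖p (φ n)‖⁻¹ * (pert u V (t (φ n)) z.1 ⬝ᵥ p (φ n)) *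
          (‖p (φ n)‖⁻¹ * (pert u V (t (φ n)) z.2 ⬝ᵥ p (φ n))) =
          (‖p (φ n)‖⁻¹ * ‖p (φ n)‖⁻¹) * ((pert u V (t (φ n)) z.1 ⬝ᵥ p (φ n)) *
          (pert u V (t (φ n)) z.2 ⬝ᵥ p (φ n))) := by ring
      rw [h9] at h6
      exact (mul_pos_iff_of_pos_left (mul_pos h8 h8)).1 h6
    exact_mod_cast h5

end BIS

open Classical in
/-- BIS: all vectors can be bisected (from GEN) -/
theorem stmt_BIS (hGEN : Stmt_GEN) : Stmt_BIS := by
  classical
  intro ι κ _ _ c D u hD
  set D₀ : ℕ := 1 + ∑ j : κ, min 5 ((univ.filter (fun x => c x = j)).card) with hD₀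
  obtain ⟨p, hp0, hp⟩ := BIS.main hGEN ι κ c D₀ (fun x i => u x (Fin.castLE hD i)) hD₀
  let w : Fin D → ℝ := fun i => if h : (i : ℕ) < D₀ then p ⟨i, h⟩ else 0
  have hdot : ∀ x, u x ⬝ᵥ w = (fun i => u x (Fin.castLE hD i)) ⬝ᵥ p := by
    intro x
    unfold dotProduct
    symm
    rw [← Finset.sum_subset (s₁ := univ.image (Fin.castLE hD)) (subset_univ _)]
    · rw [Finset.sum_image (fun i _ j _ h => Fin.castLE_injective hD h)]
      apply Finset.sum_congr rfl
      intro i _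
      have : w (Fin.castLE hD i) = p i := by
        show (if h : ((Fin.castLE hD i : Fin D) : ℕ) < D₀ then p ⟨_, h⟩ else 0) = p i
        rw [dif_pos (by simp)]
        congr 1
      rw [this]
    · intro i _ hi
      have : w i = 0 := by
        show (if h : (i : ℕ) < D₀ then p ⟨i, h⟩ else 0) = 0
        rw [dif_neg]
        intro h
        apply hi
        rw [mem_image]
        exact ⟨⟨i, h⟩, mem_univ _, by ext; rfl⟩
      rw [this, mul_zero]
  refine ⟨w, ?_, ?_⟩
  · intro h0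
    apply hp0
    funext i
    have h1 := congrFun h0 (Fin.castLE hD i)
    have : w (Fin.castLE hD i) = p i := by
      show (if h : ((Fin.castLE hD i : Fin D) : ℕ) < D₀ then p ⟨_, h⟩ else 0) = p i
      rw [dif_pos (by simp)]
      congr 1
    rw [this] at h1
    exact h1
  · simp only [hdot]
    exact hp

end Pool.RF
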