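import Pool.Agent.Work.MP_dc37f8_rf.InterfaceC

/-! CASEA: almost all points on rich circles with the same centre (from NEGA, CIW). -/

set_option autoImplicit false

open Finset

namespace Pool.RF

open Pool.BK Pool.BD

namespace CASEA

open Classical in
/-- triples which stay in `Q` -/
theorem card_act (Q : Finset ℂ) (g : Gp) :
    ((E3.T3 Q).filter (fun x => act g x ∈ E3.T3 Q)).card ≤ (st Q g).card ^ 3 := by
  have h : (E3.T3 Q).filter (fun x => act g x ∈ E3.T3 Q) ⊆ st Q g ×ˢ st Q g ×ˢ st Q g := by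
    intro x hx
    obtain ⟨h1, h2⟩ := mem_filter.1 hx
    obtain ⟨⟨a1, a2, a3⟩, _⟩ := E3.mem_T3.1 h1
    obtain ⟨⟨b1, b2, b3⟩, _⟩ := E3.mem_T3.1 h2
    simp only [act] at b1 b2 b3
    exact mem_product.2 ⟨mem_filter.2 ⟨a1, b1⟩, mem_product.2 ⟨mem_filter.2 ⟨a2, b2⟩,
      mem_filter.2 ⟨a3, b3⟩⟩⟩
  refine (card_le_card h).trans ?_
  rw [card_product, card_product]
  exact le_of_eq (by ring)

theorem T3_mono {P Q : Finset ℂ} (h : Q ⊆ P) : E3.T3 Q ⊆ E3.T3 P := by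
  intro x hx
  obtain ⟨⟨a1, a2, a3⟩, h2⟩ := E3.mem_T3.1 hx
  exact E3.mem_T3.2 ⟨⟨h a1, h a2, h a3⟩, h2⟩

open Classical in
/-- the contribution of the isometries which are negligible -/
theorem neg_part (Q : Finset ℂ) (lam : ℂ × ℂ × ℂ → ℝ) (hlam0 : ∀ x, 0 ≤ lam x) (J : ℝ)
    (hJ : 0 < J) (hlam : ∀ x, lam x ≤ 1 / J) (𝒢 : Finset Gp) (B : ℝ)
    (h : ∑ g ∈ 𝒢, ((st Q g).card : ℝ) ^ 3 ≤ B) :
    ∑ g ∈ 𝒢, ∑ x ∈ (E3.T3 Q).filter (fun x => act g x ∈ E3.T3 Q), lam x * lam (act g x) ≤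
      B / J ^ 2 := by
  have h1 : ∀ g ∈ 𝒢, ∑ x ∈ (E3.T3 Q).filter (fun x => act g x ∈ E3.T3 Q),
      lam x * lam (act g x) ≤ ((st Q g).card : ℝ) ^ 3 * (1 / J ^ 2) := by
    intro g _
    calc ∑ x ∈ (E3.T3 Q).filter (fun x => act g x ∈ E3.T3 Q), lam x * lam (act g x)
        ≤ ∑ _x ∈ (E3.T3 Q).filter (fun x => act g x ∈ E3.T3 Q), (1 / J) * (1 / J) := by
          refine sum_le_sum fun x _ => ?_
          exact mul_le_mul (hlam x) (hlam _) (hlam0 _) (by positivity)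
      _ = (((E3.T3 Q).filter (fun x => act g x ∈ E3.T3 Q)).card : ℝ) * (1 / J ^ 2) := by
          rw [sum_const, nsmul_eq_mul]; ring
      _ ≤ ((st Q g).card : ℝ) ^ 3 * (1 / J ^ 2) := by
          refine mul_le_mul_of_nonneg_right ?_ (by positivity)
          exact_mod_cast card_act Q g
  calc ∑ g ∈ 𝒢, ∑ x ∈ (E3.T3 Q).filter (fun x => act g x ∈ E3.T3 Q), lam x * lam (act g x)
      ≤ ∑ g ∈ 𝒢, ((st Q g).card : ℝ) ^ 3 * (1 / J ^ 2) := sum_le_sum h1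
    _ = (∑ g ∈ 𝒢, ((st Q g).card : ℝ) ^ 3) * (1 / J ^ 2) := by rw [sum_mul]
    _ ≤ B * (1 / J ^ 2) := mul_le_mul_of_nonneg_right h (by positivity)
    _ = B / J ^ 2 := by ring

end CASEA

open Classical in
theorem stmt_CASEA (hNEGA : Stmt_NEGA) (hCIW : Stmt_CIW) : Stmt_CASEA := by
  intro δ L hδ
  obtain ⟨n₁, hn₁⟩ := hNEGA δ L hδ
  refine ⟨max n₁ 90300, ?_⟩
  intro P Q 𝒢 𝒬 𝒲 c hP hCtx hCS hQR hQc hQ hT
  have hP1 : n₁ ≤ P.card := (le_max_left _ _).trans hP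
  have hP2 : 90300 ≤ P.card := (le_max_right _ _).trans hP
  have hQP : Q ⊆ P := fun q hq => UP.R_sub _ _ _ (hQR hq)
  set n : ℝ := (P.card : ℝ) with hn
  have hn2 : (90300 : ℝ) ≤ n := by rw [hn]; exact_mod_cast hP2
  have hqn : (Q.card : ℝ) ≤ n := by rw [hn]; exact_mod_cast card_le_card hQP
  set J : ℕ := P.card / 300 with hJ
  have hJ1 : (J : ℝ) ≤ n / 300 := by
    rw [le_div_iff₀ (by norm_num), hn]
    exact_mod_cast Nat.div_mul_le_self P.card 300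
  have hJ2 : n / 301 ≤ J := by
    have h1 : P.card < 300 * (J + 1) := by omega
    have h2 : n < 300 * ((J : ℝ) + 1) := by rw [hn]; exact_mod_cast h1
    rw [div_le_iff₀ (by norm_num)]
    have h3 : n / 300 - 1 < J := by linarith
    nlinarith
  have hJ300 : (300 : ℝ) ≤ J := by linarith
  have hJpos : (0 : ℝ) < J := by linarith
  have hJ1' : 1 ≤ J := by
    have : (1 : ℝ) ≤ J := by linarith
    exact_mod_cast this
  by_contra hcon
  push Not at hcon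
  have hcQ : c ∉ Q := by
    intro h
    exact (mem_filter.1 (hQR h)).2.1 rfl
  have h2J : 2 * J ≤ Q.card := by
    have : (2 : ℝ) * J ≤ Q.card := by linarith
    exact_mod_cast this
  have hnc : ∀ ρ : ℝ, UP.nc Q c ρ + J ≤ Q.card := by
    intro ρ
    rcases le_or_gt ρ 0 with hρ | hρ
    · have h1 : UP.nc Q c ρ = 0 := by
        unfold UP.nc
        rw [card_eq_zero, filter_eq_empty_iff]
        intro q hq h
        have : dist q c = 0 := le_antisymm (by rw [h]; exact hρ) dist_nonneg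
        exact hcQ (by rw [← dist_eq_zero.1 this]; exact hq)
      rw [h1]; omega
    · have h1 := hcon ρ hρ
      have h2 : (UP.nc Q c ρ : ℝ) ≤ ((P.filter (fun p => dist p c = ρ)).card : ℝ) := by
        have : UP.nc Q c ρ ≤ (P.filter (fun p => dist p c = ρ)).card := by
          refine card_le_card ?_
          intro q hq
          obtain ⟨h3, h4⟩ := mem_filter.1 hq
          exact mem_filter.2 ⟨hQP h3, h4⟩
        exact_mod_cast this
      have h3 : (UP.nc Q c ρ : ℝ) + J ≤ Q.card := by linarith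
      exact_mod_cast h3
  obtain ⟨hA, hB⟩ := hCIW Q c J hJ1' h2J hcQ
  have hA := hA hnc
  set Λ : ℝ := ∑ x ∈ E3.T3 Q, lamC Q c J x with hΛ
  have hΛ1 : 17 / 10 * n ^ 2 ≤ Λ := by
    refine le_trans ?_ hA
    have h1 : 3 * (Q.card : ℝ) ^ 2 / J ≤ 1 / 100 * (Q.card : ℝ) ^ 2 := by
      rw [div_le_iff₀ hJpos]
      have := mul_le_mul_of_nonneg_left hJ300 (sq_nonneg (Q.card : ℝ))
      linarith
    have h2 : (99 / 100 * n) ^ 2 ≤ (Q.card : ℝ) ^ 2 := pow_le_pow_left₀ (by linarith) hQ 2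
    nlinarith [sq_nonneg n]
  -- Cauchy-Schwarz
  have hlam0 : ∀ x, 0 ≤ lamC Q c J x := by
    intro x
    unfold lamC
    have : (0 : ℝ) < max (min (UP.nc Q c (dist x.1 c) : ℝ)
      (min (UP.nc Q c (dist x.2.1 c) : ℝ) (UP.nc Q c (dist x.2.2 c) : ℝ))) J :=
      lt_of_lt_of_le hJpos (le_max_right _ _)
    positivity
  have hlam1 : ∀ x, lamC Q c J x ≤ 1 / J := by
    intro x
    unfold lamC
    exact one_div_le_one_div_of_le hJpos (le_max_right _ _)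
  have hcs := hCS (E3.T3 Q) (CASEA.T3_mono hQP) (lamC Q c J) hlam0
  have hsplit := sum_filter_add_sum_filter_not 𝒢 (fun g : Gp => g c = c)
    (fun g => ∑ x ∈ (E3.T3 Q).filter (fun x => act g x ∈ E3.T3 Q),
      lamC Q c J x * lamC Q c J (act g x))
  have hpos := hB (𝒢.filter (fun g : Gp => g c = c)) (by
    intro g hg
    obtain ⟨h1, h2⟩ := mem_filter.1 hg
    exact ⟨(hCtx.1 g h1).1, h2⟩)
  have hneg := CASEA.neg_part Q (lamC Q c J) hlam0 J hJpos hlam1 (𝒢.filter (fun g : Gp => ¬ g c = c))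
    (3 / 10 ^ 8 * n ^ 4) (hn₁ P Q 𝒢 𝒬 𝒲 c hP1 hCtx hQR hQc)
  have hneg2 : 3 / 10 ^ 8 * n ^ 4 / (J : ℝ) ^ 2 ≤ 3 / 1000 * n ^ 2 := by
    rw [div_le_iff₀ (by positivity)]
    have h1 : (n / 301) ^ 2 ≤ (J : ℝ) ^ 2 := pow_le_pow_left₀ (by linarith) hJ2 2
    have h2 : 3 / 1000 * n ^ 2 * (n / 301) ^ 2 ≤ 3 / 1000 * n ^ 2 * (J : ℝ) ^ 2 :=
      mul_le_mul_of_nonneg_left h1 (by positivity)
    refine le_trans ?_ h2
    have h3 : 0 ≤ n ^ 4 := by positivity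
    have h4 : 3 / 1000 * n ^ 2 * (n / 301) ^ 2 = 3 / 1000 / 301 ^ 2 * n ^ 4 := by ring
    rw [h4]
    exact mul_le_mul_of_nonneg_right (by norm_num) h3
  set S : ℝ := ∑ g ∈ 𝒢, ∑ x ∈ (E3.T3 Q).filter (fun x => act g x ∈ E3.T3 Q),
      lamC Q c J x * lamC Q c J (act g x) with hS
  have hS1 : S ≤ Λ + 3 / 1000 * n ^ 2 := by
    rw [← hsplit]
    linarith
  have hΛ0 : 0 ≤ Λ := le_trans (by positivity) hΛ1
  have h12 : 12 * ((TC P).card : ℝ) ≤ 145 / 100 * n ^ 2 := by linarith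
  have hfin : Λ ^ 2 ≤ 145 / 100 * n ^ 2 * (Λ + 3 / 1000 * n ^ 2) := by
    calc Λ ^ 2 ≤ 12 * (TC P).card * S := hcs
      _ ≤ 12 * (TC P).card * (Λ + 3 / 1000 * n ^ 2) :=
          mul_le_mul_of_nonneg_left hS1 (by positivity)
      _ ≤ 145 / 100 * n ^ 2 * (Λ + 3 / 1000 * n ^ 2) :=
          mul_le_mul_of_nonneg_right h12 (by positivity)
  have hn2pos : 0 < n ^ 2 := by positivity
  nlinarith [mul_le_mul_of_nonneg_right hΛ1 hΛ0, mul_le_mul_of_nonneg_left hΛ1 hn2pos.le,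
    mul_pos hn2pos hn2pos]

end Pool.RF
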