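import Pool.Agent.Work.MP_dc37f8_rf.InterfaceC

/-!
# MP_dc37f8_co, part C, block CASET (helper92)

Only translations and half-turns are relevant: the count from the weights `lamT`.
-/

set_option autoImplicit false

open Finset

namespace Pool.RF

open Pool.BK Pool.BD

namespace CASET

lemma lam_nonneg (Q : Finset ℂ) (J : ℕ) (x : ℂ × ℂ × ℂ) : 0 ≤ lamT Q J x := by
  unfold lamT
  have : (0 : ℝ) ≤ max (rep3 Q (x.2.1 - x.1, x.2.2 - x.1) : ℝ) J :=
    le_max_of_le_right (Nat.cast_nonneg J)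
  positivity

lemma lam_le (Q : Finset ℂ) (J : ℕ) (hJ : 1 ≤ J) (x : ℂ × ℂ × ℂ) : lamT Q J x ≤ 1 / J := by
  unfold lamT
  have h : (0 : ℝ) < J := by exact_mod_cast hJ
  exact one_div_le_one_div_of_le h (le_max_right _ _)

open Classical in
lemma card_le (Q : Finset ℂ) (g : Gp) :
    ((E3.T3 Q).filter (fun x => act g x ∈ E3.T3 Q)).card ≤ (st Q g).card ^ 3 := by
  have h : (E3.T3 Q).filter (fun x => act g x ∈ E3.T3 Q) ⊆ st Q g ×ˢ st Q g ×ˢ st Q g := by
    intro x hx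
    rw [mem_filter] at hx
    obtain ⟨h1, h2⟩ := hx
    rw [E3.mem_T3] at h1 h2
    unfold act at h2
    rw [mem_product, mem_product]
    unfold st
    simp only [mem_filter]
    exact ⟨⟨h1.1.1, h2.1.1⟩, ⟨h1.1.2.1, h2.1.2.1⟩, ⟨h1.1.2.2, h2.1.2.2⟩⟩
  calc _ ≤ (st Q g ×ˢ st Q g ×ˢ st Q g).card := Finset.card_le_card h
    _ = _ := by rw [card_product, card_product]; ring

end CASET

open Classical in
theorem stmt_CASET (hT : Stmt_TRW) : Stmt_CASET := by
  refine ⟨100000, ?_⟩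
  intro P Q 𝒢 hn h𝒢 hCS hQP hQ hneg
  have hn' : (100000 : ℝ) ≤ P.card := by exact_mod_cast hn
  obtain ⟨J, hJdef⟩ : ∃ J : ℕ, J = P.card / 300 := ⟨_, rfl⟩
  have hJ1 : 1 ≤ J := by omega
  have hJn' : J * 300 ≤ P.card := by omega
  have hJn2' : P.card < (J + 1) * 300 := by omega
  have hJn : (J : ℝ) * 300 ≤ P.card := by exact_mod_cast hJn'
  have hJn2 : (P.card : ℝ) < (J + 1) * 300 := by exact_mod_cast hJn2'
  have hQn : (Q.card : ℝ) ≤ P.card := by exact_mod_cast Finset.card_le_card hQP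
  have hJ0 : (0 : ℝ) < J := by exact_mod_cast hJ1
  obtain ⟨n, hndef⟩ : ∃ n : ℝ, n = P.card := ⟨_, rfl⟩
  rw [← hndef] at hn' hJn hJn2 hQn hQ hneg ⊢
  have hn0 : 0 < n := by linarith
  have hJ301 : n / 301 ≤ J := by
    have : n / 301 = n * (1 / 301) := by ring
    linarith
  have hJQ : J ≤ Q.card := by
    have : (J : ℝ) ≤ Q.card := by linarith
    exact_mod_cast this
  obtain ⟨hA, hB⟩ := hT Q J hJ1 hJQ
  have hsub : E3.T3 Q ⊆ E3.T3 P := by
    intro x hx
    rw [E3.mem_T3] at hx ⊢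
    exact ⟨⟨hQP hx.1.1, hQP hx.1.2.1, hQP hx.1.2.2⟩, hx.2⟩
  have hcs := hCS (E3.T3 Q) hsub (lamT Q J) (CASET.lam_nonneg Q J)
  obtain ⟨Λ, hΛ⟩ : ∃ Λ : ℝ, Λ = ∑ x ∈ E3.T3 Q, lamT Q J x := ⟨_, rfl⟩
  rw [← hΛ] at hcs hA
  have hinv : 1 / (J : ℝ) ≤ 301 / n := by
    rw [div_le_div_iff₀ hJ0 hn0]
    have : n / 301 * 301 ≤ J * 301 := by linarith
    have h2 : n / 301 * 301 = n := by ring
    linarith
  have hinv0 : (0 : ℝ) ≤ 1 / J := by positivity
  have hinv2 : (1 / (J : ℝ)) * (1 / J) ≤ (301 / n) * (301 / n) :=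
    mul_le_mul hinv hinv hinv0 (by positivity)
  -- the lower bound for the sum of the weights
  have hΛlow : 292 / 100 * n ^ 2 ≤ Λ := by
    have h1 : 3 * (Q.card : ℝ) ^ 2 / J ≤ 903 * n := by
      have e : 3 * (Q.card : ℝ) ^ 2 / J = 3 * (Q.card : ℝ) ^ 2 * (1 / J) := by ring
      rw [e]
      have h2 : 3 * (Q.card : ℝ) ^ 2 * (1 / J) ≤ 3 * n ^ 2 * (301 / n) := by
        apply mul_le_mul _ hinv hinv0 (by positivity)
        have : (Q.card : ℝ) ^ 2 ≤ n ^ 2 := by
          apply pow_le_pow_left₀ (by positivity) hQn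
        linarith
      have h3 : 3 * n ^ 2 * (301 / n) = 903 * n := by
        field_simp
        ring
      linarith
    have h4 : 3 * (J : ℝ) * Q.card ≤ n ^ 2 / 100 := by
      have : 3 * (J : ℝ) * Q.card ≤ (n / 100) * n := by
        apply mul_le_mul _ hQn (by positivity) (by positivity)
        linarith
      have e : n / 100 * n = n ^ 2 / 100 := by ring
      linarith
    have h5 : (99 / 100 * n) ^ 2 ≤ (Q.card : ℝ) ^ 2 := by
      apply pow_le_pow_left₀ (by positivity) hQ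
    have h6 : 903 * n ≤ 903 / 100000 * n ^ 2 := by
      have : n * 100000 ≤ n * n := by
        apply mul_le_mul_of_nonneg_left hn' hn0.le
      nlinarith
    nlinarith
  -- the sum over the isometries
  have hsplit := Finset.sum_filter_add_sum_filter_not 𝒢
    (fun g : Gp => (g 1 - g 0 = 1 ∨ g 1 - g 0 = -1))
    (fun g => ∑ x ∈ (E3.T3 Q).filter (fun x => act g x ∈ E3.T3 Q),
      lamT Q J x * lamT Q J (act g x))
  have h1 := hB (𝒢.filter (fun g : Gp => (g 1 - g 0 = 1 ∨ g 1 - g 0 = -1))) (by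
    intro g hg
    rw [mem_filter] at hg
    exact ⟨(h𝒢 g hg.1).1, hg.2⟩)
  rw [← hΛ] at h1
  have h2 : ∑ g ∈ 𝒢.filter (fun g : Gp => ¬ (g 1 - g 0 = 1 ∨ g 1 - g 0 = -1)),
      ∑ x ∈ (E3.T3 Q).filter (fun x => act g x ∈ E3.T3 Q),
        lamT Q J x * lamT Q J (act g x) ≤ 3 / 1000 * n ^ 2 := by
    calc _ ≤ ∑ g ∈ 𝒢.filter (fun g : Gp => ¬ (g 1 - g 0 = 1 ∨ g 1 - g 0 = -1)),
          (1 / (J : ℝ)) * (1 / J) * ((st Q g).card : ℝ) ^ 3 := by
          apply Finset.sum_le_sum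
          intro g _
          calc _ ≤ ∑ x ∈ (E3.T3 Q).filter (fun x => act g x ∈ E3.T3 Q),
                (1 / (J : ℝ)) * (1 / J) := by
                apply Finset.sum_le_sum
                intro x _
                exact mul_le_mul (CASET.lam_le Q J hJ1 x) (CASET.lam_le Q J hJ1 _)
                  (CASET.lam_nonneg Q J _) hinv0
            _ = ((E3.T3 Q).filter (fun x => act g x ∈ E3.T3 Q)).card *
                ((1 / (J : ℝ)) * (1 / J)) := by
                rw [Finset.sum_const, nsmul_eq_mul]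
            _ ≤ ((st Q g).card : ℝ) ^ 3 * ((1 / (J : ℝ)) * (1 / J)) := by
                apply mul_le_mul_of_nonneg_right _ (by positivity)
                exact_mod_cast CASET.card_le Q g
            _ = _ := by ring
      _ = (1 / (J : ℝ)) * (1 / J) *
          ∑ g ∈ 𝒢.filter (fun g : Gp => ¬ (g 1 - g 0 = 1 ∨ g 1 - g 0 = -1)),
            ((st Q g).card : ℝ) ^ 3 := by
          rw [Finset.mul_sum]
      _ ≤ (301 / n) * (301 / n) * (3 / 10 ^ 8 * n ^ 4) := by
          apply mul_le_mul hinv2 hneg _ (by positivity)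
          apply Finset.sum_nonneg
          intro g _
          positivity
      _ = 301 ^ 2 * (3 / 10 ^ 8) * n ^ 2 := by
          field_simp
      _ ≤ 3 / 1000 * n ^ 2 := by
          apply mul_le_mul_of_nonneg_right _ (by positivity)
          norm_num
  have h3 : ∑ g ∈ 𝒢, ∑ x ∈ (E3.T3 Q).filter (fun x => act g x ∈ E3.T3 Q),
      lamT Q J x * lamT Q J (act g x) ≤ 2 * Λ + 3 / 1000 * n ^ 2 := by
    rw [← hsplit]
    exact add_le_add h1 h2
  by_contra hcon
  rw [not_lt] at hcon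
  have hT0 : (0 : ℝ) ≤ 12 * (TC P).card := by positivity
  have hT1 : 12 * ((TC P).card : ℝ) ≤ 145 / 100 * n ^ 2 := by linarith
  have hΛ0 : 0 ≤ Λ := le_trans (by positivity) hΛlow
  have h4 : Λ ^ 2 ≤ 145 / 100 * n ^ 2 * (2 * Λ + 3 / 1000 * n ^ 2) := by
    refine le_trans hcs ?_
    refine le_trans (mul_le_mul_of_nonneg_left h3 hT0) ?_
    exact mul_le_mul_of_nonneg_right hT1 (by positivity)
  have hm : 0 < n ^ 2 := by positivity
  have h5 : (292 / 100 * n ^ 2) * (2 / 100 * n ^ 2) ≤ Λ * (Λ - 290 / 100 * n ^ 2) := by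
    apply mul_le_mul hΛlow _ (by positivity) hΛ0
    linarith
  nlinarith [mul_pos hm hm]

end Pool.RF
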