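import Pool.Agent.Work.MP_dc37f8_rf.Interface

/-!
# MP_dc37f8_co, block CELL (helper24): a line meets few cells
-/

set_option autoImplicit false

open Finset

namespace Pool.RF.CELL

/-- the restriction of a polynomial to a line -/
noncomputable def rl {m : ℕ} (l : (Fin m → ℝ) × (Fin m → ℝ)) (F : MvPolynomial (Fin m) ℝ) :
    Polynomial ℝ :=
  MvPolynomial.aeval (fun i => Polynomial.C (l.1 i) + Polynomial.C (l.2 i) * Polynomial.X) F

lemma eval_rl {m : ℕ} (l : (Fin m → ℝ) × (Fin m → ℝ)) (F : MvPolynomial (Fin m) ℝ) (t : ℝ) :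
    (rl l F).eval t = MvPolynomial.eval (l.1 + t • l.2) F := by
  have h : (Polynomial.evalRingHom t).comp (MvPolynomial.aeval (R := ℝ)
      (fun i => Polynomial.C (l.1 i) + Polynomial.C (l.2 i) * Polynomial.X)).toRingHom =
      MvPolynomial.eval (l.1 + t • l.2) := by
    apply MvPolynomial.ringHom_ext
    · intro r
      simp
    · intro i
      show (MvPolynomial.aeval (R := ℝ) (fun i => Polynomial.C (l.1 i) +
        Polynomial.C (l.2 i) * Polynomial.X) (MvPolynomial.X i)).eval t = _
      rw [MvPolynomial.aeval_X, MvPolynomial.eval_X, Polynomial.eval_add, Polynomial.eval_mul,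
        Polynomial.eval_C, Polynomial.eval_C, Polynomial.eval_X, Pi.add_apply, Pi.smul_apply,
        smul_eq_mul, mul_comm]
  exact congrArg (fun f => f F) h

lemma natDegree_rl {m : ℕ} (l : (Fin m → ℝ) × (Fin m → ℝ)) (F : MvPolynomial (Fin m) ℝ) :
    (rl l F).natDegree ≤ F.totalDegree := by
  have h := MvPolynomial.aeval_natDegree_le F le_rfl
    (fun i => Polynomial.C (l.1 i) + Polynomial.C (l.2 i) * Polynomial.X) (n := 1)
    (fun i => by compute_degree)
  rw [mul_one] at h
  exact h

/-- no sign change without a root -/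
lemma sign_eq {q : Polynomial ℝ} {s t : ℝ} (hst : s ≤ t)
    (h : ∀ r, s ≤ r → r ≤ t → q.eval r ≠ 0) :
    SignType.sign (q.eval s) = SignType.sign (q.eval t) := by
  have hc : ContinuousOn (fun r => q.eval r) (Set.Icc s t) := q.continuous.continuousOn
  rcases lt_trichotomy (q.eval s) 0 with h1 | h1 | h1
  · rcases lt_trichotomy (q.eval t) 0 with h2 | h2 | h2
    · rw [sign_neg h1, sign_neg h2]
    · exact absurd h2 (h t hst le_rfl)
    · exfalso
      obtain ⟨r, hr, hr0⟩ := intermediate_value_Icc hst hc ⟨h1.le, h2.le⟩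
      exact h r hr.1 hr.2 hr0
  · exact absurd h1 (h s le_rfl hst)
  · rcases lt_trichotomy (q.eval t) 0 with h2 | h2 | h2
    · exfalso
      obtain ⟨r, hr, hr0⟩ := intermediate_value_Icc' hst hc ⟨h2.le, h1.le⟩
      exact h r hr.1 hr.2 hr0
    · exact absurd h2 (h t hst le_rfl)
    · rw [sign_pos h1, sign_pos h2]

end Pool.RF.CELL

namespace Pool.RF

open Pool.RF.CELL

theorem stmt_CELL : Stmt_CELL := by
  classical
  intro m J F l S hS
  -- the parameter on the line
  have hex : ∀ x : Fin m → ℝ, ∃ t : ℝ, x ∈ S → x = l.1 + t • l.2 := by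
    intro x
    by_cases hx : x ∈ S
    · obtain ⟨t, ht⟩ := (hS x hx).1
      exact ⟨t, fun _ => ht⟩
    · exact ⟨0, fun h => absurd h hx⟩
  choose τ hτ using hex
  have hev : ∀ x ∈ S, ∀ j, (rl l (F j)).eval (τ x) = MvPolynomial.eval x (F j) := by
    intro x hx j
    rw [eval_rl, ← hτ x hx]
  set Z : Finset ℝ := (univ : Finset (Fin J)).biUnion (fun j => (rl l (F j)).roots.toFinset)
    with hZ
  have hZc : Z.card ≤ ∑ j, (F j).totalDegree := by
    refine card_biUnion_le.trans (sum_le_sum fun j _ => ?_)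
    refine (Multiset.toFinset_card_le _).trans ?_
    exact ((rl l (F j)).card_roots').trans (natDegree_rl l (F j))
  set N : (Fin m → ℝ) → ℕ := fun x => (Z.filter (fun r => r < τ x)).card with hN
  set σ : (Fin m → ℝ) → Fin J → SignType :=
    fun x j => SignType.sign (MvPolynomial.eval x (F j)) with hσ
  have hkey : ∀ x ∈ S, ∀ y ∈ S, τ x ≤ τ y → N x = N y → σ x = σ y := by
    intro x hx y hy hxy hNN
    have hsub : Z.filter (fun r => r < τ x) ⊆ Z.filter (fun r => r < τ y) := by
      intro r hr
      rw [mem_filter] at hr ⊢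
      exact ⟨hr.1, hr.2.trans_le hxy⟩
    have heq := eq_of_subset_of_card_le hsub (le_of_eq hNN.symm)
    funext j
    rw [hσ]
    show SignType.sign (MvPolynomial.eval x (F j)) = SignType.sign (MvPolynomial.eval y (F j))
    rw [← hev x hx j, ← hev y hy j]
    apply sign_eq hxy
    intro r hr1 hr2 hr0
    have hq0 : rl l (F j) ≠ 0 := by
      intro h0
      have := hev x hx j
      rw [h0, Polynomial.eval_zero] at this
      exact (hS x hx).2 j this.symm
    have hrZ : r ∈ Z := by
      rw [hZ, mem_biUnion]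
      refine ⟨j, mem_univ _, ?_⟩
      rw [Multiset.mem_toFinset, Polynomial.mem_roots hq0]
      exact hr0
    rcases hr2.lt_or_eq with h | h
    · have h1 : r ∈ Z.filter (fun r => r < τ y) := mem_filter.mpr ⟨hrZ, h⟩
      rw [← heq, mem_filter] at h1
      exact absurd h1.2 (not_lt.mpr hr1)
    · rw [h, hev y hy j] at hr0
      exact (hS y hy).2 j hr0
  have hkey' : ∀ x ∈ S, ∀ y ∈ S, N x = N y → σ x = σ y := by
    intro x hx y hy h
    rcases le_total (τ x) (τ y) with h1 | h1
    · exact hkey x hx y hy h1 h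
    · exact (hkey y hy x hx h1 h.symm).symm
  have hfac : ∀ n : ℕ, ∃ v : Fin J → SignType, ∀ x ∈ S, N x = n → σ x = v := by
    intro n
    by_cases hn : ∃ x ∈ S, N x = n
    · obtain ⟨x, hx, hxn⟩ := hn
      exact ⟨σ x, fun y hy hyn => hkey' y hy x hx (hyn.trans hxn.symm)⟩
    · push Not at hn
      exact ⟨fun _ => 0, fun x hx h => absurd h (hn x hx)⟩
  choose g hg using hfac
  have hsub : S.image σ ⊆ (range (Z.card + 1)).image g := by
    intro v hv
    rw [mem_image] at hv ⊢
    obtain ⟨x, hx, rfl⟩ := hv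
    refine ⟨N x, ?_, (hg (N x) x hx rfl).symm⟩
    rw [mem_range]
    exact Nat.lt_succ_of_le (card_filter_le _ _)
  calc (S.image σ).card ≤ ((range (Z.card + 1)).image g).card := card_le_card hsub
    _ ≤ (range (Z.card + 1)).card := card_image_le
    _ = 1 + Z.card := by rw [card_range, add_comm]
    _ ≤ 1 + ∑ j, (F j).totalDegree := by omega

end Pool.RF
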