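import Pool.Agent.Work.MP_dc37f8_rf.InterfaceC

/-!
# MP_dc37f8_co, project rf, block CENZ (helper64)
-/

set_option autoImplicit false

open Finset

namespace Pool.RF

open Pool.BK Pool.BD

namespace CENZ

theorem dir_eq {c c' p : ℂ} {g h : Gp} (hg : IsDir g) (hh : IsDir h) (hgc : g c = c')
    (hhc : h c = c') (hp : p ≠ c) (hgh : g p = h p) : g = h := by
  obtain ⟨w, t, _, hw⟩ := hg
  obtain ⟨v, s, _, hv⟩ := hh
  rw [hw] at hgc
  rw [hv] at hhc
  rw [hw, hv] at hgh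
  have h1 : (w - v) * (p - c) = 0 := by linear_combination hgh - hgc + hhc
  have h2 : w = v := by
    rcases mul_eq_zero.1 h1 with h | h
    · exact sub_eq_zero.1 h
    · exact absurd (sub_eq_zero.1 h) hp
  subst h2
  have h3 : t = s := by linear_combination hgc - hhc
  subst h3
  apply Equiv.ext
  intro z
  rw [hw, hv]

theorem dir_dist {c c' : ℂ} {g : Gp} (hg : IsDir g) (hgc : g c = c') (p : ℂ) :
    dist (g p) c' = dist p c := by
  obtain ⟨w, t, hw1, hw⟩ := hg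
  rw [← hgc, dist_eq_norm, dist_eq_norm, hw, hw]
  have h : w * p + t - (w * c + t) = w * (p - c) := by ring
  rw [h, norm_mul, hw1, one_mul]

open Classical in
theorem inc {c c' : ℂ} {H : Finset Gp} (hH : ∀ g ∈ H, IsDir g ∧ g c = c')
    (P : Finset ℂ) (S : Finset (ℂ × ℂ)) (hS : ∀ s ∈ S, s.1 ≠ c) :
    ∑ g ∈ H, (P.filter (fun p => (p, g p) ∈ S)).card ≤ S.card := by
  have h1 : ∑ g ∈ H, (P.filter (fun p => (p, g p) ∈ S)).card =
      ((H ×ˢ P).filter (fun z => (z.2, z.1 z.2) ∈ S)).card := by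
    rw [card_filter, sum_product]
    refine sum_congr rfl fun g _ => ?_
    rw [card_filter]
  rw [h1]
  refine card_le_card_of_injOn (fun z : Gp × ℂ => (z.2, z.1 z.2))
    (fun z hz => (mem_filter.1 hz).2) ?_
  rintro ⟨g, p⟩ hg ⟨h, q⟩ hh heq
  have hg' := mem_filter.1 (mem_coe.1 hg)
  have hh' := mem_filter.1 (mem_coe.1 hh)
  have e1 : p = q := congrArg Prod.fst heq
  have e2 : g p = h q := congrArg Prod.snd heq
  subst e1
  have h3 := hH g (mem_product.1 hg'.1).1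
  have h4 := hH h (mem_product.1 hh'.1).1
  have h5 : g = h := dir_eq h3.1 h4.1 h3.2 h4.2 (hS _ hg'.2) e2
  rw [h5]

open Classical in
theorem pairs_left (P : Finset ℂ) (c c' : ℂ) (m : ℝ) (hm : 0 ≤ m) :
    (((P ×ˢ P).filter (fun s => s.1 ≠ c ∧ dist s.1 c = dist s.2 c' ∧
      (UP.nc P c (dist s.1 c) : ℝ) < m)).card : ℝ) ≤ P.card * m := by
  have h1 := card_eq_sum_card_fiberwise (f := fun s : ℂ × ℂ => s.2) (t := P)
    (s := (P ×ˢ P).filter (fun s => s.1 ≠ c ∧ dist s.1 c = dist s.2 c' ∧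
      (UP.nc P c (dist s.1 c) : ℝ) < m))
    (fun s hs => (mem_product.1 (mem_filter.1 (mem_coe.1 hs)).1).2)
  rw [h1]
  push_cast
  refine (sum_le_sum (g := fun _ => m) ?_).trans (by simp)
  intro q _
  rcases Finset.eq_empty_or_nonempty
    (((P ×ˢ P).filter (fun s => s.1 ≠ c ∧ dist s.1 c = dist s.2 c' ∧
      (UP.nc P c (dist s.1 c) : ℝ) < m)).filter (fun s => s.2 = q)) with h0 | ⟨s, hs⟩
  · rw [h0]; simpa using hm
  · obtain ⟨hs1, hs2⟩ := mem_filter.1 hs
    obtain ⟨_, _, hs4, hs5⟩ := mem_filter.1 hs1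
    have h2 : (((P ×ˢ P).filter (fun s => s.1 ≠ c ∧ dist s.1 c = dist s.2 c' ∧
      (UP.nc P c (dist s.1 c) : ℝ) < m)).filter (fun s => s.2 = q)).card ≤
        UP.nc P c (dist q c') := by
      unfold UP.nc
      refine card_le_card_of_injOn (fun s : ℂ × ℂ => s.1) ?_ ?_
      · intro u hu
        obtain ⟨hu1, hu2⟩ := mem_filter.1 (mem_coe.1 hu)
        obtain ⟨hu3, _, hu4, _⟩ := mem_filter.1 hu1
        refine mem_coe.2 (mem_filter.2 ⟨(mem_product.1 hu3).1, ?_⟩)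
        rw [← hu2]
        exact hu4
      · intro u hu v hv huv
        have hu2 := (mem_filter.1 (mem_coe.1 hu)).2
        have hv2 := (mem_filter.1 (mem_coe.1 hv)).2
        exact Prod.ext huv (hu2.trans hv2.symm)
    have h3 : (UP.nc P c (dist q c') : ℝ) < m := by
      rw [← hs2, ← hs4]
      exact hs5
    have h4 : ((((P ×ˢ P).filter (fun s => s.1 ≠ c ∧ dist s.1 c = dist s.2 c' ∧
      (UP.nc P c (dist s.1 c) : ℝ) < m)).filter (fun s => s.2 = q)).card : ℝ) ≤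
        UP.nc P c (dist q c') := by exact_mod_cast h2
    exact h4.trans h3.le

open Classical in
theorem pairs_right (P : Finset ℂ) (c c' : ℂ) (m : ℝ) (hm : 0 ≤ m) :
    (((P ×ˢ P).filter (fun s => s.1 ≠ c ∧ dist s.1 c = dist s.2 c' ∧
      (UP.nc P c' (dist s.2 c') : ℝ) < m)).card : ℝ) ≤ P.card * m := by
  have h1 := card_eq_sum_card_fiberwise (f := fun s : ℂ × ℂ => s.1) (t := P)
    (s := (P ×ˢ P).filter (fun s => s.1 ≠ c ∧ dist s.1 c = dist s.2 c' ∧
      (UP.nc P c' (dist s.2 c') : ℝ) < m))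
    (fun s hs => (mem_product.1 (mem_filter.1 (mem_coe.1 hs)).1).1)
  rw [h1]
  push_cast
  refine (sum_le_sum (g := fun _ => m) ?_).trans (by simp)
  intro p _
  rcases Finset.eq_empty_or_nonempty
    (((P ×ˢ P).filter (fun s => s.1 ≠ c ∧ dist s.1 c = dist s.2 c' ∧
      (UP.nc P c' (dist s.2 c') : ℝ) < m)).filter (fun s => s.1 = p)) with h0 | ⟨s, hs⟩
  · rw [h0]; simpa using hm
  · obtain ⟨hs1, hs2⟩ := mem_filter.1 hs
    obtain ⟨_, _, hs4, hs5⟩ := mem_filter.1 hs1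
    have h2 : (((P ×ˢ P).filter (fun s => s.1 ≠ c ∧ dist s.1 c = dist s.2 c' ∧
      (UP.nc P c' (dist s.2 c') : ℝ) < m)).filter (fun s => s.1 = p)).card ≤
        UP.nc P c' (dist p c) := by
      unfold UP.nc
      refine card_le_card_of_injOn (fun s : ℂ × ℂ => s.2) ?_ ?_
      · intro u hu
        obtain ⟨hu1, hu2⟩ := mem_filter.1 (mem_coe.1 hu)
        obtain ⟨hu3, _, hu4, _⟩ := mem_filter.1 hu1
        refine mem_coe.2 (mem_filter.2 ⟨(mem_product.1 hu3).2, ?_⟩)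
        rw [← hu2]
        exact hu4.symm
      · intro u hu v hv huv
        have hu2 := (mem_filter.1 (mem_coe.1 hu)).2
        have hv2 := (mem_filter.1 (mem_coe.1 hv)).2
        exact Prod.ext (hu2.trans hv2.symm) huv
    have h3 : (UP.nc P c' (dist p c) : ℝ) < m := by
      rw [← hs2, hs4]
      exact hs5
    have h4 : ((((P ×ˢ P).filter (fun s => s.1 ≠ c ∧ dist s.1 c = dist s.2 c' ∧
      (UP.nc P c' (dist s.2 c') : ℝ) < m)).filter (fun s => s.1 = p)).card : ℝ) ≤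
        UP.nc P c' (dist p c) := by exact_mod_cast h2
    exact h4.trans h3.le

end CENZ

open Classical in
theorem stmt_CENZ : Stmt_CENZ := by
  intro P b c c' 𝒢 hb hG
  obtain ⟨m, hm⟩ : ∃ m : ℝ, m = b * P.card := ⟨_, rfl⟩
  rw [← hm]
  have hm0 : 0 ≤ m := by rw [hm]; positivity
  obtain ⟨S1, hS1⟩ : ∃ S1, S1 = (P ×ˢ P).filter (fun s => s.1 ≠ c ∧ dist s.1 c = dist s.2 c' ∧
      (UP.nc P c (dist s.1 c) : ℝ) < m) := ⟨_, rfl⟩
  obtain ⟨S2, hS2⟩ : ∃ S2, S2 = (P ×ˢ P).filter (fun s => s.1 ≠ c ∧ dist s.1 c = dist s.2 c' ∧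
      (UP.nc P c' (dist s.2 c') : ℝ) < m) := ⟨_, rfl⟩
  have e1 := CENZ.inc hG P S1 (fun s hs => by rw [hS1] at hs; exact (mem_filter.1 hs).2.1)
  have e2 := CENZ.inc hG P S2 (fun s hs => by rw [hS2] at hs; exact (mem_filter.1 hs).2.1)
  have s1 : (S1.card : ℝ) ≤ P.card * m := by
    rw [hS1]; exact CENZ.pairs_left P c c' m hm0
  have s2 : (S2.card : ℝ) ≤ P.card * m := by
    rw [hS2]; exact CENZ.pairs_right P c c' m hm0
  have h : ∀ g ∈ 𝒢, ((st P g).filter (fun p => ¬ (p ∈ UP.R P m c ∧ g p ∈ UP.R P m c'))).card ≤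
      (P.filter (fun p => (p, g p) ∈ S1)).card + (P.filter (fun p => (p, g p) ∈ S2)).card + 1 := by
    intro g hg
    obtain ⟨hd, hgc⟩ := hG g hg
    have hsub : (st P g).filter (fun p => ¬ (p ∈ UP.R P m c ∧ g p ∈ UP.R P m c')) ⊆
        insert c ((P.filter (fun p => (p, g p) ∈ S1)) ∪ (P.filter (fun p => (p, g p) ∈ S2))) := by
      intro p hp
      obtain ⟨hpst, hbad⟩ := mem_filter.1 hp
      have hpP : p ∈ P := (mem_filter.1 hpst).1
      have hgp : g p ∈ P := (mem_filter.1 hpst).2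
      have hdist : dist p c = dist (g p) c' := (CENZ.dir_dist hd hgc p).symm
      by_cases hpc : p = c
      · exact mem_insert.2 (Or.inl hpc)
      · refine mem_insert.2 (Or.inr (mem_union.2 ?_))
        have hgpc : g p ≠ c' := by
          intro h
          apply hpc
          apply g.injective
          rw [h, hgc]
        by_cases h1 : p ∈ UP.R P m c
        · right
          have h2 : g p ∉ UP.R P m c' := fun h => hbad ⟨h1, h⟩
          refine mem_filter.2 ⟨hpP, ?_⟩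
          rw [hS2]
          refine mem_filter.2 ⟨mem_product.2 ⟨hpP, hgp⟩, hpc, hdist, ?_⟩
          by_contra hcon
          exact h2 (mem_filter.2 ⟨hgp, hgpc, not_lt.1 hcon⟩)
        · left
          refine mem_filter.2 ⟨hpP, ?_⟩
          rw [hS1]
          refine mem_filter.2 ⟨mem_product.2 ⟨hpP, hgp⟩, hpc, hdist, ?_⟩
          by_contra hcon
          exact h1 (mem_filter.2 ⟨hpP, hpc, not_lt.1 hcon⟩)
    refine (card_le_card hsub).trans ((card_insert_le _ _).trans ?_)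
    have h3 := card_union_le (P.filter (fun p => (p, g p) ∈ S1))
      (P.filter (fun p => (p, g p) ∈ S2))
    omega
  have h4 : ∑ g ∈ 𝒢, ((st P g).filter (fun p => ¬ (p ∈ UP.R P m c ∧ g p ∈ UP.R P m c'))).card ≤
      S1.card + S2.card + 𝒢.card := by
    calc ∑ g ∈ 𝒢, ((st P g).filter (fun p => ¬ (p ∈ UP.R P m c ∧ g p ∈ UP.R P m c'))).card
        ≤ ∑ g ∈ 𝒢, ((P.filter (fun p => (p, g p) ∈ S1)).card +
            (P.filter (fun p => (p, g p) ∈ S2)).card + 1) := sum_le_sum h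
      _ = ∑ g ∈ 𝒢, (P.filter (fun p => (p, g p) ∈ S1)).card +
            ∑ g ∈ 𝒢, (P.filter (fun p => (p, g p) ∈ S2)).card + 𝒢.card := by
          rw [sum_add_distrib, sum_add_distrib, sum_const, smul_eq_mul, mul_one]
      _ ≤ _ := by omega
  have h5 : ∑ g ∈ 𝒢, (((st P g).filter
      (fun p => ¬ (p ∈ UP.R P m c ∧ g p ∈ UP.R P m c'))).card : ℝ) ≤
      S1.card + S2.card + 𝒢.card := by
    exact_mod_cast h4
  have h6 : 2 * b * (P.card : ℝ) ^ 2 = P.card * m + P.card * m := by rw [hm]; ring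
  rw [h6]
  linarith

end Pool.RF
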