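import Pool.Agent.Work.MP_dc37f8_rf.InterfaceC

/-!
# CIW: weights for triples on circles about a point
-/

set_option autoImplicit false

open Finset

namespace Pool.RF

open Pool.BK Pool.BD

namespace CIW

/-- the smallest number of points on the three circles -/
noncomputable def mn (Q : Finset ℂ) (c : ℂ) (x : ℂ × ℂ × ℂ) : ℕ :=
  min (UP.nc Q c (dist x.1 c)) (min (UP.nc Q c (dist x.2.1 c)) (UP.nc Q c (dist x.2.2 c)))

theorem lamC_eq (Q : Finset ℂ) (c : ℂ) (J : ℕ) (x : ℂ × ℂ × ℂ) :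
    lamC Q c J x = 1 / ((max (mn Q c x) J : ℕ) : ℝ) := by
  unfold lamC mn
  push_cast
  rfl

theorem lamC_nonneg (Q : Finset ℂ) (c : ℂ) (J : ℕ) (x : ℂ × ℂ × ℂ) : 0 ≤ lamC Q c J x := by
  rw [lamC_eq]
  positivity

/-- lower bound for the weight -/
theorem lamC_ge (Q : Finset ℂ) (c : ℂ) (J : ℕ) (x : ℂ × ℂ × ℂ) (K : ℝ) (hJ : 1 ≤ J)
    (h1 : (mn Q c x : ℝ) ≤ K) (h2 : (J : ℝ) ≤ K) : 1 / K ≤ lamC Q c J x := by
  rw [lamC_eq]
  have h3 : ((max (mn Q c x) J : ℕ) : ℝ) ≤ K := by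
    push_cast
    exact max_le h1 h2
  have h4 : (1 : ℝ) ≤ ((max (mn Q c x) J : ℕ) : ℝ) := by
    exact_mod_cast hJ.trans (le_max_right _ _)
  exact one_div_le_one_div_of_le (by linarith) h3

/-- direct isometries with a fixed point `c` preserve the distance to `c` -/
theorem dist_fix {g : Gp} {c : ℂ} (hg : IsDir g) (hc : g c = c) (z : ℂ) :
    dist (g z) c = dist z c := by
  obtain ⟨w, t, hw, h⟩ := hg
  have h1 : g z - c = w * (z - c) := by
    have h2 := h c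
    rw [hc] at h2
    have h3 : t = c - w * c := by linear_combination -h2
    rw [h z, h3]
    ring
  rw [dist_eq_norm, dist_eq_norm, h1, norm_mul, hw, one_mul]

/-- such an isometry is determined by the image of one other point -/
theorem eq_of_eq {g g' : Gp} {c z : ℂ} (hg : IsDir g) (hc : g c = c) (hg' : IsDir g')
    (hc' : g' c = c) (hz : z ≠ c) (h : g z = g' z) : g = g' := by
  obtain ⟨w, t, -, h1⟩ := hg
  obtain ⟨w', t', -, h1'⟩ := hg'
  have e1 := h1 c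
  have e2 := h1' c
  rw [hc] at e1
  rw [hc'] at e2
  rw [h1 z, h1' z] at h
  have h5 : (w - w') * (z - c) = 0 := by linear_combination h + e1 - e2
  have h6 : w = w' := by
    rcases mul_eq_zero.1 h5 with h7 | h7
    · exact sub_eq_zero.1 h7
    · exact absurd (sub_eq_zero.1 h7) hz
  have h7 : t = t' := by
    subst h6
    linear_combination e2 - e1
  ext y
  rw [h1 y, h1' y, h6, h7]

theorem mn_act {Q : Finset ℂ} {c : ℂ} {g : Gp} (hg : IsDir g) (hc : g c = c) (x : ℂ × ℂ × ℂ) :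
    mn Q c (act g x) = mn Q c x := by
  unfold mn act
  simp only [dist_fix hg hc]

theorem lamC_act {Q : Finset ℂ} {c : ℂ} {g : Gp} (hg : IsDir g) (hc : g c = c) (J : ℕ)
    (x : ℂ × ℂ × ℂ) : lamC Q c J (act g x) = lamC Q c J x := by
  rw [lamC_eq, lamC_eq, mn_act hg hc]

open Classical in
/-- the number of the isometries which move `p` into `Q` -/
theorem card_move {Q : Finset ℂ} {c : ℂ} {𝒢 : Finset Gp} (h𝒢 : ∀ g ∈ 𝒢, IsDir g ∧ g c = c)
    {p : ℂ} (hp : p ≠ c) (𝒜 : Finset Gp) (hA : 𝒜 ⊆ 𝒢) (hAQ : ∀ g ∈ 𝒜, g p ∈ Q) :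
    𝒜.card ≤ UP.nc Q c (dist p c) := by
  unfold UP.nc
  refine card_le_card_of_injOn (fun g => g p) ?_ ?_
  · intro g hg
    have hg' := h𝒢 g (hA hg)
    simp only [coe_filter, Set.mem_ofPred_eq]
    exact ⟨hAQ g hg, dist_fix hg'.1 hg'.2 p⟩
  · intro g hg g' hg' h
    have h1 := h𝒢 g (hA hg)
    have h2 := h𝒢 g' (hA hg')
    exact eq_of_eq h1.1 h1.2 h2.1 h2.2 hp h

open Classical in
/-- the second part -/
theorem part2 (Q : Finset ℂ) (c : ℂ) (J : ℕ) (hJ : 1 ≤ J) (hcQ : c ∉ Q) (𝒢 : Finset Gp)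
    (h𝒢 : ∀ g ∈ 𝒢, IsDir g ∧ g c = c) :
    ∑ g ∈ 𝒢, ∑ x ∈ (E3.T3 Q).filter (fun x => act g x ∈ E3.T3 Q),
      lamC Q c J x * lamC Q c J (act g x) ≤ ∑ x ∈ E3.T3 Q, lamC Q c J x := by
  have h1 : ∑ g ∈ 𝒢, ∑ x ∈ (E3.T3 Q).filter (fun x => act g x ∈ E3.T3 Q),
      lamC Q c J x * lamC Q c J (act g x) =
      ∑ x ∈ E3.T3 Q, ∑ g ∈ 𝒢.filter (fun g => act g x ∈ E3.T3 Q),
        lamC Q c J x * lamC Q c J (act g x) := by
    simp only [sum_filter]
    exact sum_comm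
  rw [h1]
  refine sum_le_sum fun x hx => ?_
  have hx' := E3.mem_T3.1 hx
  have h2 : ∑ g ∈ 𝒢.filter (fun g => act g x ∈ E3.T3 Q),
      lamC Q c J x * lamC Q c J (act g x) =
      ((𝒢.filter (fun g => act g x ∈ E3.T3 Q)).card : ℝ) * lamC Q c J x * lamC Q c J x := by
    rw [sum_congr rfl (g := fun _ => lamC Q c J x * lamC Q c J x)]
    · rw [sum_const, nsmul_eq_mul]
      ring
    · intro g hg
      have hg' := h𝒢 g (mem_filter.1 hg).1
      rw [lamC_act hg'.1 hg'.2]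
  rw [h2]
  have hsub : 𝒢.filter (fun g => act g x ∈ E3.T3 Q) ⊆ 𝒢 := filter_subset _ _
  have hne : ∀ p ∈ Q, p ≠ c := fun p hp h => hcQ (h ▸ hp)
  have hA : (𝒢.filter (fun g => act g x ∈ E3.T3 Q)).card ≤ mn Q c x := by
    unfold mn
    refine le_min ?_ (le_min ?_ ?_)
    · exact card_move h𝒢 (hne _ hx'.1.1) _ hsub
        fun g hg => (E3.mem_T3.1 (mem_filter.1 hg).2).1.1
    · exact card_move h𝒢 (hne _ hx'.1.2.1) _ hsub
        fun g hg => (E3.mem_T3.1 (mem_filter.1 hg).2).1.2.1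
    · exact card_move h𝒢 (hne _ hx'.1.2.2) _ hsub
        fun g hg => (E3.mem_T3.1 (mem_filter.1 hg).2).1.2.2
  have hle : ((𝒢.filter (fun g => act g x ∈ E3.T3 Q)).card : ℝ) * lamC Q c J x ≤ 1 := by
    rw [lamC_eq, mul_one_div]
    have h4 : (1 : ℝ) ≤ ((max (mn Q c x) J : ℕ) : ℝ) := by
      exact_mod_cast hJ.trans (le_max_right _ _)
    rw [div_le_one (by linarith)]
    exact_mod_cast hA.trans (le_max_left _ _)
  have := mul_le_mul_of_nonneg_right hle (lamC_nonneg Q c J x)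
  rwa [one_mul] at this

open Classical in
/-- there is a richest circle -/
theorem exists_max (Q : Finset ℂ) (c : ℂ) (hQ : Q.Nonempty) :
    ∃ ρ₀ : ℝ, ∀ ρ : ℝ, UP.nc Q c ρ ≤ UP.nc Q c ρ₀ := by
  obtain ⟨p, hp, hmax⟩ := exists_max_image Q (fun p => UP.nc Q c (dist p c)) hQ
  refine ⟨dist p c, fun ρ => ?_⟩
  by_cases h : ∃ q ∈ Q, dist q c = ρ
  · obtain ⟨q, hq, rfl⟩ := h
    exact hmax q hq
  · have : UP.nc Q c ρ = 0 := by
      unfold UP.nc
      rw [card_eq_zero, filter_eq_empty_iff]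
      intro q hq hq'
      exact h ⟨q, hq, hq'⟩
    omega

theorem card_T3_ge (Q : Finset ℂ) :
    (Q.card : ℝ) ^ 3 - 3 * (Q.card : ℝ) ^ 2 ≤ ((E3.T3 Q).card : ℝ) := by
  rw [E3.card_T3]
  have : (0 : ℝ) ≤ Q.card := by positivity
  nlinarith

open Classical in
/-- the first part -/
theorem part1 (Q : Finset ℂ) (c : ℂ) (J : ℕ) (hJ : 1 ≤ J) (hJQ : 2 * J ≤ Q.card)
    (hM : ∀ ρ : ℝ, UP.nc Q c ρ + J ≤ Q.card) :
    7 / 4 * (Q.card : ℝ) ^ 2 - 3 * (Q.card : ℝ) ^ 2 / J ≤ ∑ x ∈ E3.T3 Q, lamC Q c J x := by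
  have hQ : Q.Nonempty := by
    rw [← card_pos]
    omega
  obtain ⟨ρ₀, hρ₀⟩ := exists_max Q c hQ
  obtain ⟨q, hq⟩ : ∃ q : ℝ, q = Q.card := ⟨_, rfl⟩
  obtain ⟨M, hMe⟩ : ∃ M : ℝ, M = UP.nc Q c ρ₀ := ⟨_, rfl⟩
  obtain ⟨j, hj⟩ : ∃ j : ℝ, j = J := ⟨_, rfl⟩
  have hj1 : 1 ≤ j := by rw [hj]; exact_mod_cast hJ
  have hjq : 2 * j ≤ q := by rw [hj, hq]; exact_mod_cast hJQ
  have hMj : M + j ≤ q := by rw [hj, hq, hMe]; exact_mod_cast hM ρ₀
  have hM0 : 0 ≤ M := by rw [hMe]; positivity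
  have hcT := card_T3_ge Q
  rw [← hq] at hcT
  have hmn : ∀ x : ℂ × ℂ × ℂ, (mn Q c x : ℝ) ≤ M := by
    intro x
    rw [hMe]
    exact_mod_cast (min_le_left _ _).trans (hρ₀ _)
  rw [← hq, ← hj]
  have hdiv : 3 * q ^ 2 / j = 3 * (q ^ 2 / j) := by ring
  rcases le_or_gt (2 * M) q with h2 | h2
  · -- all circles are small
    have h3 : ∀ x ∈ E3.T3 Q, 2 / q ≤ lamC Q c J x := by
      intro x _
      have := lamC_ge Q c J x (q / 2) hJ (by linarith [hmn x]) (by rw [← hj]; linarith)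
      rwa [one_div_div] at this
    have h4 : ((E3.T3 Q).card : ℝ) * (2 / q) ≤ ∑ x ∈ E3.T3 Q, lamC Q c J x := by
      rw [← nsmul_eq_mul]
      exact card_nsmul_le_sum _ _ _ h3
    have h5 : (q ^ 3 - 3 * q ^ 2) * (2 / q) = 2 * q ^ 2 - 6 * q := by
      have : q ≠ 0 := by linarith
      field_simp
      ring
    have hq0 : 0 < q := by linarith
    have h6 : (q ^ 3 - 3 * q ^ 2) * (2 / q) ≤ ((E3.T3 Q).card : ℝ) * (2 / q) :=
      mul_le_mul_of_nonneg_right hcT (by positivity)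
    have h7 : 2 * q ≤ q ^ 2 / j := by
      rw [le_div_iff₀ (by linarith)]
      nlinarith
    rw [hdiv]
    nlinarith
  · -- there is a big circle
    have hd : 0 < q - M := by linarith
    have h3 : ∀ x ∈ (E3.T3 Q).filter (fun x => ¬ (dist x.1 c = ρ₀ ∧ dist x.2.1 c = ρ₀ ∧
        dist x.2.2 c = ρ₀)), 1 / (q - M) ≤ lamC Q c J x := by
      intro x hx
      refine lamC_ge Q c J x (q - M) hJ ?_ (by rw [← hj]; linarith)
      have key : ∀ ρ : ℝ, ρ ≠ ρ₀ → (UP.nc Q c ρ : ℝ) ≤ q - M := by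
        intro ρ hρ
        have hdis : Disjoint (Q.filter (fun p => dist p c = ρ))
            (Q.filter (fun p => dist p c = ρ₀)) := by
          rw [disjoint_left]
          intro p hp hp'
          exact hρ ((mem_filter.1 hp).2.symm.trans (mem_filter.1 hp').2)
        have h5 : UP.nc Q c ρ + UP.nc Q c ρ₀ ≤ Q.card := by
          unfold UP.nc
          rw [← card_union_of_disjoint hdis]
          exact card_le_card (union_subset (filter_subset _ _) (filter_subset _ _))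
        have h6 : (UP.nc Q c ρ : ℝ) + UP.nc Q c ρ₀ ≤ Q.card := by exact_mod_cast h5
        rw [hq, hMe]
        linarith
      have hx2 := (mem_filter.1 hx).2
      unfold mn
      push_cast
      by_cases a1 : dist x.1 c = ρ₀
      · by_cases a2 : dist x.2.1 c = ρ₀
        · have a3 : dist x.2.2 c ≠ ρ₀ := fun h => hx2 ⟨a1, a2, h⟩
          exact ((min_le_right _ _).trans (min_le_right _ _)).trans (key _ a3)
        · exact ((min_le_right _ _).trans (min_le_left _ _)).trans (key _ a2)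
      · exact (min_le_left _ _).trans (key _ a1)
    have h4 : (((E3.T3 Q).filter (fun x => ¬ (dist x.1 c = ρ₀ ∧ dist x.2.1 c = ρ₀ ∧
        dist x.2.2 c = ρ₀))).card : ℝ) * (1 / (q - M)) ≤ ∑ x ∈ E3.T3 Q, lamC Q c J x := by
      refine le_trans ?_ (sum_le_sum_of_subset_of_nonneg (filter_subset (fun x =>
        ¬ (dist x.1 c = ρ₀ ∧ dist x.2.1 c = ρ₀ ∧ dist x.2.2 c = ρ₀)) _)
        fun x _ _ => lamC_nonneg Q c J x)
      rw [← nsmul_eq_mul]
      exact card_nsmul_le_sum _ _ _ h3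
    have h5 : (((E3.T3 Q).filter (fun x => (dist x.1 c = ρ₀ ∧ dist x.2.1 c = ρ₀ ∧
        dist x.2.2 c = ρ₀))).card : ℝ) ≤ M ^ 3 := by
      have h6 : (E3.T3 Q).filter (fun x => (dist x.1 c = ρ₀ ∧ dist x.2.1 c = ρ₀ ∧
          dist x.2.2 c = ρ₀)) ⊆ (Q.filter (fun p => dist p c = ρ₀)) ×ˢ
          (Q.filter (fun p => dist p c = ρ₀)) ×ˢ (Q.filter (fun p => dist p c = ρ₀)) := by
        intro x hx
        obtain ⟨hx1, hx2⟩ := mem_filter.1 hx
        have hx3 := (E3.mem_T3.1 hx1).1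
        rw [mem_product, mem_product, mem_filter, mem_filter, mem_filter]
        exact ⟨⟨hx3.1, hx2.1⟩, ⟨hx3.2.1, hx2.2.1⟩, ⟨hx3.2.2, hx2.2.2⟩⟩
      have h7 := card_le_card h6
      rw [card_product, card_product] at h7
      have h8 : (((E3.T3 Q).filter (fun x => (dist x.1 c = ρ₀ ∧ dist x.2.1 c = ρ₀ ∧
        dist x.2.2 c = ρ₀))).card : ℝ) ≤ (UP.nc Q c ρ₀ : ℝ) * ((UP.nc Q c ρ₀ : ℝ) *
          (UP.nc Q c ρ₀ : ℝ)) := by
        unfold UP.nc
        exact_mod_cast h7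
      rw [← hMe] at h8
      calc _ ≤ _ := h8
        _ = M ^ 3 := by ring
    have h6 : (((E3.T3 Q).filter (fun x => (dist x.1 c = ρ₀ ∧ dist x.2.1 c = ρ₀ ∧
        dist x.2.2 c = ρ₀))).card : ℝ) + (((E3.T3 Q).filter (fun x => ¬ (dist x.1 c = ρ₀ ∧
        dist x.2.1 c = ρ₀ ∧ dist x.2.2 c = ρ₀))).card : ℝ) = ((E3.T3 Q).card : ℝ) := by
      exact_mod_cast card_filter_add_card_filter_not (s := E3.T3 Q) (fun x =>
        (dist x.1 c = ρ₀ ∧ dist x.2.1 c = ρ₀ ∧ dist x.2.2 c = ρ₀))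
    have h7 : (q ^ 3 - 3 * q ^ 2 - M ^ 3) * (1 / (q - M)) ≤ ∑ x ∈ E3.T3 Q, lamC Q c J x := by
      refine le_trans ?_ h4
      exact mul_le_mul_of_nonneg_right (by linarith) (by positivity)
    have h8 : (q ^ 3 - 3 * q ^ 2 - M ^ 3) * (1 / (q - M)) =
        q ^ 2 + q * M + M ^ 2 - 3 * (q ^ 2 / (q - M)) := by
      have : q - M ≠ 0 := hd.ne'
      field_simp
      ring
    have h9 : q ^ 2 / (q - M) ≤ q ^ 2 / j :=
      div_le_div_of_nonneg_left (by positivity) (by linarith) (by linarith)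
    rw [hdiv]
    rw [h8] at h7
    nlinarith

end CIW

/-- **CIW**: weights for triples on circles about a point. -/
theorem stmt_CIW : Stmt_CIW := by
  intro Q c J hJ hJQ hcQ
  exact ⟨fun hM => CIW.part1 Q c J hJ hJQ hM, fun 𝒢 h𝒢 => CIW.part2 Q c J hJ hcQ 𝒢 h𝒢⟩

end Pool.RF
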