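import Pool.Agent.Work.MP_dc37f8_rf.Interface

/-!
# Block CT3 (helper58): few collinear triples on poor lines
-/

set_option autoImplicit false
set_option maxHeartbeats 4000000

open Finset

namespace Pool.RF

open Pool.BK Pool.BD

namespace CT3

theorem line_iff {l : ℂ × ℂ} {a b : ℂ} (ha : On l a) (hb : On l b) (hab : a ≠ b) (y : ℂ) :
    On (a, b - a) y ↔ On l y := by
  obtain ⟨s, hs⟩ := ha
  obtain ⟨t, ht⟩ := hb
  have hst : t - s ≠ 0 := by
    intro h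
    apply hab
    have : t = s := by linarith
    rw [hs, ht, this]
  have hst' : ((t : ℂ) - s) ≠ 0 := by
    intro h
    apply hst
    have : ((t - s : ℝ) : ℂ) = 0 := by push_cast; exact h
    exact_mod_cast this
  constructor
  · rintro ⟨r, hr⟩
    refine ⟨s + r * (t - s), ?_⟩
    rw [hr]
    simp only
    rw [hs, ht]
    push_cast
    ring
  · rintro ⟨u, hu⟩
    refine ⟨(u - s) / (t - s), ?_⟩
    rw [hu]
    simp only
    rw [hs, ht]
    push_cast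
    field_simp
    ring

theorem pts_eq {P : Finset ℂ} {l : ℂ × ℂ} {a b : ℂ} (ha : On l a) (hb : On l b) (hab : a ≠ b) :
    pts P (a, b - a) = pts P l := by
  classical
  unfold pts
  apply Finset.filter_congr
  intro y _
  exact line_iff ha hb hab y

theorem on_left (a b : ℂ) : On (a, b - a) a := ⟨0, by simp⟩

theorem on_right (a b : ℂ) : On (a, b - a) b := ⟨1, by simp⟩

open Classical in
/-- the triples with `k ≤ m < R` -/
noncomputable def Tr (P : Finset ℂ) (k R : ℕ) : Finset (ℂ × ℂ × ℂ) :=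
  (P ×ˢ P ×ˢ P).filter (fun z => z.1 ≠ z.2.1 ∧ On (z.1, z.2.1 - z.1) z.2.2 ∧
    k ≤ (pts P (z.1, z.2.1 - z.1)).card ∧ (pts P (z.1, z.2.1 - z.1)).card < R)

theorem mem_Tr {P : Finset ℂ} {k R : ℕ} {z : ℂ × ℂ × ℂ} : z ∈ Tr P k R ↔
    (z.1 ∈ P ∧ z.2.1 ∈ P ∧ z.2.2 ∈ P) ∧ z.1 ≠ z.2.1 ∧ On (z.1, z.2.1 - z.1) z.2.2 ∧
    k ≤ (pts P (z.1, z.2.1 - z.1)).card ∧ (pts P (z.1, z.2.1 - z.1)).card < R := by
  classical
  simp only [Tr, mem_filter, mem_product]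

theorem poor (P : Finset ℂ) (R : ℕ) : (Tr P 0 R).card ≤ P.card ^ 2 * R := by
  classical
  have h1 : (Tr P 0 R).card ≤ ((P ×ˢ P).sigma
      (fun q => if (pts P (q.1, q.2 - q.1)).card < R then pts P (q.1, q.2 - q.1) else ∅)).card := by
    apply card_le_card_of_injOn (fun z : ℂ × ℂ × ℂ => (⟨(z.1, z.2.1), z.2.2⟩ : Σ _ : ℂ × ℂ, ℂ))
    · intro z hz
      have hz' := mem_coe.1 hz
      rw [mem_Tr] at hz'
      obtain ⟨⟨ha, hb, hc⟩, hab, hon, -, hR⟩ := hz'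
      rw [mem_coe, mem_sigma]
      refine ⟨mem_product.2 ⟨ha, hb⟩, ?_⟩
      simp only
      rw [if_pos hR]
      unfold pts
      exact mem_filter.2 ⟨hc, hon⟩
    · intro z _ w _ hzw
      simp only [Sigma.mk.injEq, heq_eq_eq, Prod.mk.injEq] at hzw
      obtain ⟨⟨h1, h2⟩, h3⟩ := hzw
      exact Prod.ext h1 (Prod.ext h2 h3)
  refine h1.trans ?_
  rw [card_sigma]
  calc ∑ q ∈ P ×ˢ P, (if (pts P (q.1, q.2 - q.1)).card < R then pts P (q.1, q.2 - q.1)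
        else ∅).card ≤ ∑ q ∈ P ×ˢ P, R := by
        apply sum_le_sum
        intro q _
        split_ifs with h
        · exact h.le
        · simp
    _ = P.card ^ 2 * R := by
        rw [sum_const, card_product, smul_eq_mul]
        ring

theorem classb {C : ℝ} (hC : ∀ (P : Finset ℂ) (k : ℕ) (𝓝 : Finset (ℂ × ℂ)), 28 ≤ k →
      (∀ l ∈ 𝓝, l.2 ≠ 0 ∧ k ≤ (pts P l).card) →
      (∀ l ∈ 𝓝, ∀ l' ∈ 𝓝, l ≠ l' → (pts P l ∩ pts P l').card ≤ 1) →
      (𝓝.card : ℝ) * (k : ℝ) ^ 5 ≤ C * ((P.card : ℝ) ^ 3 + P.card * (k : ℝ) ^ 4))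
    (P : Finset ℂ) (k R : ℕ) (hk : 28 ≤ k) :
    ((Tr P k R).card : ℝ) * (k : ℝ) ^ 5 ≤
      C * ((P.card : ℝ) ^ 3 + P.card * (k : ℝ) ^ 4) * (R : ℝ) ^ 3 := by
  classical
  obtain ⟨S, hS⟩ : ∃ S : Finset (Finset ℂ), S = (Tr P k R).image
      (fun z => pts P (z.1, z.2.1 - z.1)) := ⟨_, rfl⟩
  have hSm : ∀ s ∈ S, ∃ l : ℂ × ℂ, l.2 ≠ 0 ∧ pts P l = s ∧ k ≤ s.card ∧ s.card < R := by
    intro s hs
    rw [hS, mem_image] at hs
    obtain ⟨z, hz, rfl⟩ := hs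
    rw [mem_Tr] at hz
    obtain ⟨-, hab, -, h1, h2⟩ := hz
    exact ⟨(z.1, z.2.1 - z.1), sub_ne_zero.2 (Ne.symm hab), rfl, h1, h2⟩
  have hex : ∀ s : Finset ℂ, ∃ l : ℂ × ℂ, s ∈ S → l.2 ≠ 0 ∧ pts P l = s ∧ k ≤ s.card ∧
      s.card < R := by
    intro s
    by_cases hs : s ∈ S
    · obtain ⟨l, hl⟩ := hSm s hs
      exact ⟨l, fun _ => hl⟩
    · exact ⟨0, fun h => absurd h hs⟩
  choose f hf using hex
  have hinj : Set.InjOn f (S : Set (Finset ℂ)) := by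
    intro s hs s' hs' hss
    rw [← (hf s (mem_coe.1 hs)).2.1, ← (hf s' (mem_coe.1 hs')).2.1, hss]
  have hcard : (S.image f).card = S.card := card_image_of_injOn hinj
  have h1 := hC P k (S.image f) hk (by
    intro l hl
    rw [mem_image] at hl
    obtain ⟨s, hs, rfl⟩ := hl
    obtain ⟨h1, h2, h3, -⟩ := hf s hs
    exact ⟨h1, by rw [h2]; exact h3⟩) (by
    intro l hl l' hl' hne
    rw [mem_image] at hl hl'
    obtain ⟨s, hs, rfl⟩ := hl
    obtain ⟨s', hs', rfl⟩ := hl'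
    rw [card_le_one]
    intro a ha b hb
    by_contra hab
    apply hne
    have e1 : pts P (a, b - a) = pts P (f s) := by
      apply pts_eq _ _ hab
      · have := (mem_inter.1 ha).1
        unfold pts at this
        exact (mem_filter.1 this).2
      · have := (mem_inter.1 hb).1
        unfold pts at this
        exact (mem_filter.1 this).2
    have e2 : pts P (a, b - a) = pts P (f s') := by
      apply pts_eq _ _ hab
      · have := (mem_inter.1 ha).2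
        unfold pts at this
        exact (mem_filter.1 this).2
      · have := (mem_inter.1 hb).2
        unfold pts at this
        exact (mem_filter.1 this).2
    have e3 : s = s' := by
      rw [← (hf s hs).2.1, ← (hf s' hs').2.1, ← e1, e2]
    rw [e3])
  rw [hcard] at h1
  have h2 : (Tr P k R).card ≤ S.card * R ^ 3 := by
    have h3 : Tr P k R ⊆ S.biUnion (fun s => s ×ˢ s ×ˢ s) := by
      intro z hz
      have hz' := hz
      rw [mem_Tr] at hz'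
      obtain ⟨⟨ha, hb, hc⟩, hab, hon, -, -⟩ := hz'
      rw [mem_biUnion]
      refine ⟨pts P (z.1, z.2.1 - z.1), ?_, ?_⟩
      · rw [hS]
        exact mem_image_of_mem _ hz
      · rw [mem_product, mem_product]
        unfold pts
        exact ⟨mem_filter.2 ⟨ha, on_left _ _⟩, mem_filter.2 ⟨hb, on_right _ _⟩,
          mem_filter.2 ⟨hc, hon⟩⟩
    refine (card_le_card h3).trans ?_
    refine card_biUnion_le.trans ?_
    calc ∑ s ∈ S, (s ×ˢ s ×ˢ s).card ≤ ∑ s ∈ S, R ^ 3 := by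
          apply sum_le_sum
          intro s hs
          rw [card_product, card_product]
          have h4 := (hf s hs).2.2.2.le
          calc s.card * (s.card * s.card) ≤ R * (R * R) :=
                Nat.mul_le_mul h4 (Nat.mul_le_mul h4 h4)
            _ = R ^ 3 := by ring
      _ = S.card * R ^ 3 := by rw [sum_const, smul_eq_mul]
  calc ((Tr P k R).card : ℝ) * (k : ℝ) ^ 5 ≤ (S.card * (R : ℝ) ^ 3) * (k : ℝ) ^ 5 := by
        apply mul_le_mul_of_nonneg_right _ (by positivity)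
        exact_mod_cast h2
    _ = (S.card * (k : ℝ) ^ 5) * (R : ℝ) ^ 3 := by ring
    _ ≤ C * ((P.card : ℝ) ^ 3 + P.card * (k : ℝ) ^ 4) * (R : ℝ) ^ 3 :=
        mul_le_mul_of_nonneg_right h1 (by positivity)

theorem root16 {n S₀ : ℕ} (h : S₀ ^ 16 ≤ n) :
    ∃ s : ℕ, S₀ ≤ s ∧ s ^ 16 ≤ n ∧ n < (s + 1) ^ 16 := by
  refine ⟨Nat.findGreatest (fun s => s ^ 16 ≤ n) n, ?_, ?_, ?_⟩
  · exact Nat.le_findGreatest (P := fun s => s ^ 16 ≤ n)
      ((Nat.le_self_pow (by norm_num) S₀).trans h) h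
  · exact Nat.findGreatest_spec (P := fun s => s ^ 16 ≤ n)
      ((Nat.le_self_pow (by norm_num) S₀).trans h) h
  · by_contra hlt
    have hle : (Nat.findGreatest (fun s => s ^ 16 ≤ n) n + 1) ^ 16 ≤ n := not_lt.1 hlt
    have h1 : Nat.findGreatest (fun s => s ^ 16 ≤ n) n + 1 ≤ n :=
      (Nat.le_self_pow (by norm_num) _).trans hle
    have h2 := Nat.le_findGreatest (P := fun s => s ^ 16 ≤ n) h1 hle
    omega

/-- the final computation -/
theorem fin_calc {C ε s x t₀ t₇ t₈ : ℝ} (hC : 0 < C) (hε : 0 < ε) (hs : 1 ≤ s)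
    (hsC : (1 + 514 * C) / ε ≤ s) (hx1 : s ^ 8 ≤ x) (hx2 : x ≤ 256 * s ^ 8)
    (h0 : t₀ ≤ x ^ 4 * s ^ 7)
    (h7 : t₇ * s ^ 35 ≤ C * (x ^ 6 + x ^ 2 * s ^ 28) * s ^ 24)
    (h8 : t₈ * s ^ 40 ≤ C * (x ^ 6 + x ^ 2 * s ^ 32) * s ^ 27) :
    t₀ + t₇ + t₈ ≤ ε * (x ^ 4 * x) := by
  have hs0 : 0 < s := by linarith
  have hx0 : 0 < x := lt_of_lt_of_le (by positivity) hx1
  have hx3 : s ^ 24 ≤ x ^ 3 := by
    calc s ^ 24 = (s ^ 8) ^ 3 := by ring
      _ ≤ x ^ 3 := pow_le_pow_left₀ (by positivity) hx1 3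
  have hs18 : s ^ 18 ≤ x ^ 3 := (pow_le_pow_right₀ hs (by norm_num)).trans hx3
  have hs20 : s ^ 20 ≤ x ^ 3 := (pow_le_pow_right₀ hs (by norm_num)).trans hx3
  have e0 : t₀ * s ≤ x ^ 5 := by
    calc t₀ * s ≤ (x ^ 4 * s ^ 7) * s := mul_le_mul_of_nonneg_right h0 hs0.le
      _ = x ^ 4 * s ^ 8 := by ring
      _ ≤ x ^ 4 * x := mul_le_mul_of_nonneg_left hx1 (by positivity)
      _ = x ^ 5 := by ring
  have e7 : t₇ * s ≤ 257 * C * x ^ 5 := by
    have h1 : (t₇ * s) * s ^ 34 ≤ (257 * C * x ^ 5) * s ^ 34 := by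
      calc (t₇ * s) * s ^ 34 = t₇ * s ^ 35 := by ring
        _ ≤ C * (x ^ 6 + x ^ 2 * s ^ 28) * s ^ 24 := h7
        _ = C * (x * (x ^ 5 * s ^ 24) + s ^ 18 * (x ^ 2 * s ^ 34)) := by ring
        _ ≤ C * ((256 * s ^ 8) * (x ^ 5 * s ^ 24) + x ^ 3 * (x ^ 2 * s ^ 34)) := by
            apply mul_le_mul_of_nonneg_left _ hC.le
            apply add_le_add
            · exact mul_le_mul_of_nonneg_right hx2 (by positivity)
            · exact mul_le_mul_of_nonneg_right hs18 (by positivity)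
        _ = C * x ^ 5 * (256 * s ^ 32 + s ^ 34) := by ring
        _ ≤ C * x ^ 5 * (256 * s ^ 34 + s ^ 34) := by
            apply mul_le_mul_of_nonneg_left _ (by positivity)
            have := pow_le_pow_right₀ hs (show 32 ≤ 34 by norm_num)
            linarith
        _ = (257 * C * x ^ 5) * s ^ 34 := by ring
    exact le_of_mul_le_mul_right h1 (by positivity)
  have e8 : t₈ * s ≤ 257 * C * x ^ 5 := by
    have h1 : (t₈ * s) * s ^ 39 ≤ (257 * C * x ^ 5) * s ^ 39 := by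
      calc (t₈ * s) * s ^ 39 = t₈ * s ^ 40 := by ring
        _ ≤ C * (x ^ 6 + x ^ 2 * s ^ 32) * s ^ 27 := h8
        _ = C * (x * (x ^ 5 * s ^ 27) + s ^ 20 * (x ^ 2 * s ^ 39)) := by ring
        _ ≤ C * ((256 * s ^ 8) * (x ^ 5 * s ^ 27) + x ^ 3 * (x ^ 2 * s ^ 39)) := by
            apply mul_le_mul_of_nonneg_left _ hC.le
            apply add_le_add
            · exact mul_le_mul_of_nonneg_right hx2 (by positivity)
            · exact mul_le_mul_of_nonneg_right hs20 (by positivity)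
        _ = C * x ^ 5 * (256 * s ^ 35 + s ^ 39) := by ring
        _ ≤ C * x ^ 5 * (256 * s ^ 39 + s ^ 39) := by
            apply mul_le_mul_of_nonneg_left _ (by positivity)
            have := pow_le_pow_right₀ hs (show 35 ≤ 39 by norm_num)
            linarith
        _ = (257 * C * x ^ 5) * s ^ 39 := by ring
    exact le_of_mul_le_mul_right h1 (by positivity)
  have e9 : (t₀ + t₇ + t₈) * s ≤ (ε * (x ^ 4 * x)) * s := by
    calc (t₀ + t₇ + t₈) * s = t₀ * s + t₇ * s + t₈ * s := by ring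
      _ ≤ x ^ 5 + 257 * C * x ^ 5 + 257 * C * x ^ 5 := by linarith
      _ = (1 + 514 * C) * x ^ 5 := by ring
      _ ≤ (ε * s) * x ^ 5 := by
          apply mul_le_mul_of_nonneg_right _ (by positivity)
          rw [div_le_iff₀ hε] at hsC
          linarith
      _ = (ε * (x ^ 4 * x)) * s := by ring
  exact le_of_mul_le_mul_right e9 hs0

end CT3

open CT3

/-- CT3 -/
theorem stmt_CT3 (hLC : Stmt_LCOUNT) : Stmt_CT3 := by
  classical
  intro ε hε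
  obtain ⟨C, hC0, hC⟩ := hLC
  obtain ⟨S₀, hS₀⟩ : ∃ S₀ : ℕ, S₀ = max 512 (Nat.ceil ((1 + 514 * C) / ε)) := ⟨_, rfl⟩
  refine ⟨S₀ ^ 16, ?_⟩
  intro P hP
  obtain ⟨s, hs1, hs2, hs3⟩ := root16 hP
  have hs512 : 512 ≤ s := by
    refine le_trans ?_ hs1
    rw [hS₀]; exact le_max_left _ _
  have hsC : (1 + 514 * C) / ε ≤ s := by
    refine (Nat.le_ceil _).trans ?_
    have : Nat.ceil ((1 + 514 * C) / ε) ≤ s := by
      refine le_trans ?_ hs1
      rw [hS₀]; exact le_max_right _ _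
    exact_mod_cast this
  have hs4 : P.card ≤ (2 * s) ^ 16 := by
    refine hs3.le.trans ?_
    apply Nat.pow_le_pow_left
    omega
  refine ⟨s ^ 9, ?_, ?_⟩
  · calc 4 * P.card ≤ 4 * (2 * s) ^ 16 := Nat.mul_le_mul_left _ hs4
      _ = (512 ^ 2) * s ^ 16 := by ring
      _ ≤ s ^ 2 * s ^ 16 := Nat.mul_le_mul_right _ (Nat.pow_le_pow_left hs512 2)
      _ = (s ^ 9) ^ 2 := by ring
  · have hsub : (P ×ˢ P ×ˢ P).filter (fun z => z.1 ≠ z.2.1 ∧ On (z.1, z.2.1 - z.1) z.2.2 ∧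
        (pts P (z.1, z.2.1 - z.1)).card < s ^ 9) ⊆
        (Tr P 0 (s ^ 7) ∪ Tr P (s ^ 7) (s ^ 8)) ∪ Tr P (s ^ 8) (s ^ 9) := by
      intro z hz
      rw [mem_filter, mem_product, mem_product] at hz
      obtain ⟨hP3, hab, hon, hlt⟩ := hz
      rw [mem_union, mem_union, mem_Tr, mem_Tr, mem_Tr]
      by_cases h1 : (pts P (z.1, z.2.1 - z.1)).card < s ^ 7
      · exact Or.inl (Or.inl ⟨hP3, hab, hon, Nat.zero_le _, h1⟩)
      · by_cases h2 : (pts P (z.1, z.2.1 - z.1)).card < s ^ 8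
        · exact Or.inl (Or.inr ⟨hP3, hab, hon, not_lt.1 h1, h2⟩)
        · exact Or.inr ⟨hP3, hab, hon, not_lt.1 h2, hlt⟩
    have hcard : (((P ×ˢ P ×ˢ P).filter (fun z => z.1 ≠ z.2.1 ∧ On (z.1, z.2.1 - z.1) z.2.2 ∧
        (pts P (z.1, z.2.1 - z.1)).card < s ^ 9)).card : ℝ) ≤
        (Tr P 0 (s ^ 7)).card + (Tr P (s ^ 7) (s ^ 8)).card + (Tr P (s ^ 8) (s ^ 9)).card := by
      have h1 := (card_le_card hsub).trans ((card_union_le _ _).trans
        (Nat.add_le_add_right (card_union_le _ _) _))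
      exact_mod_cast h1
    refine hcard.trans ?_
    have hn0 : (0 : ℝ) ≤ P.card := Nat.cast_nonneg _
    have hx : Real.sqrt P.card ^ 2 = P.card := Real.sq_sqrt hn0
    obtain ⟨x, hxd⟩ : ∃ x, x = Real.sqrt (P.card : ℝ) := ⟨_, rfl⟩
    rw [← hxd] at hx ⊢
    have hs1' : (1 : ℝ) ≤ s := by
      have : 1 ≤ s := by omega
      exact_mod_cast this
    have hx1 : (s : ℝ) ^ 8 ≤ x := by
      rw [hxd]
      apply Real.le_sqrt_of_sq_le
      calc ((s : ℝ) ^ 8) ^ 2 = (s : ℝ) ^ 16 := by ring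
        _ ≤ (P.card : ℝ) := by exact_mod_cast hs2
    have hx2 : x ≤ 256 * (s : ℝ) ^ 8 := by
      rw [hxd]
      apply Real.sqrt_le_iff.2
      refine ⟨by positivity, ?_⟩
      calc (P.card : ℝ) ≤ (2 * (s : ℝ)) ^ 16 := by exact_mod_cast hs4
        _ = (256 * (s : ℝ) ^ 8) ^ 2 := by ring
    have h28 : 28 ≤ s := by omega
    have hk7 : 28 ≤ s ^ 7 := h28.trans (Nat.le_self_pow (by norm_num) s)
    have hk8 : 28 ≤ s ^ 8 := h28.trans (Nat.le_self_pow (by norm_num) s)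
    have h0 : ((Tr P 0 (s ^ 7)).card : ℝ) ≤ x ^ 4 * (s : ℝ) ^ 7 := by
      have h1 := poor P (s ^ 7)
      calc ((Tr P 0 (s ^ 7)).card : ℝ) ≤ (P.card : ℝ) ^ 2 * (s : ℝ) ^ 7 := by exact_mod_cast h1
        _ = (x ^ 2) ^ 2 * (s : ℝ) ^ 7 := by rw [hx]
        _ = x ^ 4 * (s : ℝ) ^ 7 := by ring
    have h7 : ((Tr P (s ^ 7) (s ^ 8)).card : ℝ) * (s : ℝ) ^ 35 ≤
        C * (x ^ 6 + x ^ 2 * (s : ℝ) ^ 28) * (s : ℝ) ^ 24 := by
      have h1 := classb hC P (s ^ 7) (s ^ 8) hk7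
      rw [← hx] at h1
      push_cast at h1
      calc ((Tr P (s ^ 7) (s ^ 8)).card : ℝ) * (s : ℝ) ^ 35
          = ((Tr P (s ^ 7) (s ^ 8)).card : ℝ) * ((s : ℝ) ^ 7) ^ 5 := by ring
        _ ≤ C * ((x ^ 2) ^ 3 + x ^ 2 * ((s : ℝ) ^ 7) ^ 4) * ((s : ℝ) ^ 8) ^ 3 := h1
        _ = C * (x ^ 6 + x ^ 2 * (s : ℝ) ^ 28) * (s : ℝ) ^ 24 := by ring
    have h8 : ((Tr P (s ^ 8) (s ^ 9)).card : ℝ) * (s : ℝ) ^ 40 ≤
        C * (x ^ 6 + x ^ 2 * (s : ℝ) ^ 32) * (s : ℝ) ^ 27 := by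
      have h1 := classb hC P (s ^ 8) (s ^ 9) hk8
      rw [← hx] at h1
      push_cast at h1
      calc ((Tr P (s ^ 8) (s ^ 9)).card : ℝ) * (s : ℝ) ^ 40
          = ((Tr P (s ^ 8) (s ^ 9)).card : ℝ) * ((s : ℝ) ^ 8) ^ 5 := by ring
        _ ≤ C * ((x ^ 2) ^ 3 + x ^ 2 * ((s : ℝ) ^ 8) ^ 4) * ((s : ℝ) ^ 9) ^ 3 := h1
        _ = C * (x ^ 6 + x ^ 2 * (s : ℝ) ^ 32) * (s : ℝ) ^ 27 := by ring
    have hfin := fin_calc hC0 hε hs1' hsC hx1 hx2 h0 h7 h8
    calc ((Tr P 0 (s ^ 7)).card : ℝ) + (Tr P (s ^ 7) (s ^ 8)).card + (Tr P (s ^ 8) (s ^ 9)).card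
        ≤ ε * (x ^ 4 * x) := hfin
      _ = ε * (x ^ 2) ^ 2 * x := by ring
      _ = ε * (P.card : ℝ) ^ 2 * x := by rw [hx]

end Pool.RF
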