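import Pool.Agent.Work.MP_dc37f8_rf.InterfaceC

set_option autoImplicit false

open Finset

namespace Pool.RF

namespace ECIRC

/-- two different circles of the same radius meet in at most two points -/
theorem two_circles (S : Finset ℂ) (c d : ℂ) (ρ : ℝ) (hd : d ≠ 0)
    (h1 : ∀ p ∈ S, dist p c = ρ) (h2 : ∀ p ∈ S, dist (p - d) c = ρ) : S.card ≤ 2 := by
  classical
  have hN : 0 < d.re ^ 2 + d.im ^ 2 := by
    have := Complex.normSq_pos.mpr hd
    rw [Complex.normSq_apply] at this
    nlinarith
  have e1 : ∀ p ∈ S, (p.re - c.re) ^ 2 + (p.im - c.im) ^ 2 = ρ ^ 2 := by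
    intro p hp
    rw [← h1 p hp, Complex.dist_eq, ← Complex.normSq_eq_norm_sq, Complex.normSq_apply]
    simp only [Complex.sub_re, Complex.sub_im]
    ring
  have e2 : ∀ p ∈ S, (p.re - d.re - c.re) ^ 2 + (p.im - d.im - c.im) ^ 2 = ρ ^ 2 := by
    intro p hp
    rw [← h2 p hp, Complex.dist_eq, ← Complex.normSq_eq_norm_sq, Complex.normSq_apply]
    simp only [Complex.sub_re, Complex.sub_im]
    ring
  -- the sign of the second coordinate determines the point
  set y : ℂ → ℝ := fun p => (p.im - c.im) * d.re - (p.re - c.re) * d.im with hy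
  set K : ℝ := ρ ^ 2 * (d.re ^ 2 + d.im ^ 2) - ((d.re ^ 2 + d.im ^ 2) / 2) ^ 2 with hK
  have hre : ∀ p ∈ S, (p.re - c.re) * d.re + (p.im - c.im) * d.im =
      (d.re ^ 2 + d.im ^ 2) / 2 := by
    intro p hp
    have a := e1 p hp
    have b := e2 p hp
    nlinarith
  have hyK : ∀ p ∈ S, y p ^ 2 = K := by
    intro p hp
    have a := e1 p hp
    have b := hre p hp
    simp only [hy, hK]
    rw [← b, ← a]
    ring
  have hinj : ∀ p ∈ S, ∀ q ∈ S, y p = y q → p = q := by
    intro p hp q hq hpq
    have a := hre p hp
    have b := hre q hq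
    have hab : (p.re - q.re) * d.re + (p.im - q.im) * d.im = 0 := by linarith
    have hc : (p.im - q.im) * d.re - (p.re - q.re) * d.im = 0 := by
      simp only [hy] at hpq
      linarith
    have r1 : (p.re - q.re) * (d.re ^ 2 + d.im ^ 2) = 0 := by
      have h1 : (p.re - q.re) * (d.re ^ 2 + d.im ^ 2) =
          ((p.re - q.re) * d.re + (p.im - q.im) * d.im) * d.re -
          ((p.im - q.im) * d.re - (p.re - q.re) * d.im) * d.im := by ring
      rw [h1, hab, hc]
      ring
    have r2 : (p.im - q.im) * (d.re ^ 2 + d.im ^ 2) = 0 := by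
      have h1 : (p.im - q.im) * (d.re ^ 2 + d.im ^ 2) =
          ((p.re - q.re) * d.re + (p.im - q.im) * d.im) * d.im +
          ((p.im - q.im) * d.re - (p.re - q.re) * d.im) * d.re := by ring
      rw [h1, hab, hc]
      ring
    apply Complex.ext
    · rcases mul_eq_zero.mp r1 with h | h
      · linarith
      · exact absurd h hN.ne'
    · rcases mul_eq_zero.mp r2 with h | h
      · linarith
      · exact absurd h hN.ne'
  have hsub : S.image y ⊆ {Real.sqrt K, - Real.sqrt K} := by
    intro t ht
    obtain ⟨p, hp, rfl⟩ := mem_image.mp ht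
    have h := hyK p hp
    have : |y p| = Real.sqrt K := by rw [← h, Real.sqrt_sq_eq_abs]
    simp only [mem_insert, mem_singleton]
    rcases abs_eq (Real.sqrt_nonneg K) |>.mp this with h | h
    · exact Or.inl h
    · exact Or.inr h
  calc S.card = (S.image y).card := (card_image_of_injOn (by
        intro p hp q hq h
        exact hinj p hp q hq h)).symm
    _ ≤ ({Real.sqrt K, - Real.sqrt K} : Finset ℝ).card := card_le_card hsub
    _ ≤ 2 := card_le_two

end ECIRC

open ECIRC in
theorem stmt_ECIRC : Stmt_ECIRC := by
  classical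
  intro A B c ρ hA
  -- group the pairs by their second components
  have hEn : En (A ×ˢ B) = ∑ w ∈ B ×ˢ B,
      ((A ×ˢ A).filter (fun z => z.1 - w.1 = z.2 - w.2)).card := by
    unfold En
    rw [← card_sigma]
    apply card_nbij' (fun z : (ℂ × ℂ) × (ℂ × ℂ) => (⟨(z.1.2, z.2.2), (z.1.1, z.2.1)⟩ :
        (_ : ℂ × ℂ) × (ℂ × ℂ)))
      (fun s => ((s.2.1, s.1.1), (s.2.2, s.1.2)))
    · intro z hz
      simp only [coe_filter, mem_product, Set.mem_ofPred_eq] at hz
      simp only [coe_sigma, Set.mem_sigma_iff, coe_product, Set.mem_prod, mem_coe, coe_filter,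
        mem_product, Set.mem_ofPred_eq]
      tauto
    · intro s hs
      simp only [coe_sigma, Set.mem_sigma_iff, coe_product, Set.mem_prod, mem_coe, coe_filter,
        mem_product, Set.mem_ofPred_eq] at hs
      simp only [coe_filter, mem_product, Set.mem_ofPred_eq]
      tauto
    · intro z _
      rfl
    · intro s _
      rfl
  rw [hEn, ← sum_filter_add_sum_filter_not (B ×ˢ B) (fun w => w.1 = w.2)]
  apply Nat.add_le_add
  · calc ∑ w ∈ (B ×ˢ B).filter (fun w => w.1 = w.2),
          ((A ×ˢ A).filter (fun z => z.1 - w.1 = z.2 - w.2)).card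
        ≤ ∑ w ∈ (B ×ˢ B).filter (fun w => w.1 = w.2), A.card := by
          apply sum_le_sum
          intro w hw
          have hw' : w.1 = w.2 := (mem_filter.mp hw).2
          calc ((A ×ˢ A).filter (fun z => z.1 - w.1 = z.2 - w.2)).card
              ≤ (A.image (fun p => (p, p))).card := by
                apply card_le_card
                intro z hz
                obtain ⟨hz1, hz2⟩ := mem_filter.mp hz
                rw [hw'] at hz2
                have : z.1 = z.2 := sub_left_injective hz2
                rw [mem_image]
                exact ⟨z.1, (mem_product.mp hz1).1, Prod.ext rfl this⟩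
            _ ≤ A.card := card_image_le
      _ = ((B ×ˢ B).filter (fun w => w.1 = w.2)).card * A.card := by
          rw [sum_const, smul_eq_mul]
      _ ≤ A.card * B.card := by
          rw [mul_comm]
          apply Nat.mul_le_mul_left
          calc ((B ×ˢ B).filter (fun w => w.1 = w.2)).card
              ≤ (B.image (fun p => (p, p))).card := by
                apply card_le_card
                intro z hz
                obtain ⟨hz1, hz2⟩ := mem_filter.mp hz
                rw [mem_image]
                exact ⟨z.1, (mem_product.mp hz1).1, Prod.ext rfl hz2⟩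
            _ ≤ B.card := card_image_le
  · calc ∑ w ∈ (B ×ˢ B).filter (fun w => ¬ w.1 = w.2),
          ((A ×ˢ A).filter (fun z => z.1 - w.1 = z.2 - w.2)).card
        ≤ ∑ w ∈ (B ×ˢ B).filter (fun w => ¬ w.1 = w.2), 2 := by
          apply sum_le_sum
          intro w hw
          have hw' : ¬ w.1 = w.2 := (mem_filter.mp hw).2
          have hd : w.1 - w.2 ≠ 0 := sub_ne_zero.mpr hw'
          have h : ((A ×ˢ A).filter (fun z => z.1 - w.1 = z.2 - w.2)).card =
              (((A ×ˢ A).filter (fun z => z.1 - w.1 = z.2 - w.2)).image Prod.fst).card := by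
            symm
            apply card_image_of_injOn
            intro z hz z' hz' h
            have a := (mem_filter.mp (mem_coe.mp hz)).2
            have b := (mem_filter.mp (mem_coe.mp hz')).2
            apply Prod.ext h
            have : z.2 - w.2 = z'.2 - w.2 := by rw [← a, ← b, h]
            exact sub_left_injective this
          rw [h]
          apply two_circles _ c (w.1 - w.2) ρ hd
          · intro p hp
            obtain ⟨z, hz, rfl⟩ := mem_image.mp hp
            exact hA _ (mem_product.mp (mem_filter.mp hz).1).1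
          · intro p hp
            obtain ⟨z, hz, rfl⟩ := mem_image.mp hp
            have a := (mem_filter.mp hz).2
            have : z.1 - (w.1 - w.2) = z.2 := by linear_combination a
            rw [this]
            exact hA _ (mem_product.mp (mem_filter.mp hz).1).2
      _ = ((B ×ˢ B).filter (fun w => ¬ w.1 = w.2)).card * 2 := by
          rw [sum_const, smul_eq_mul]
      _ ≤ 2 * B.card ^ 2 := by
          rw [mul_comm]
          apply Nat.mul_le_mul_left
          calc ((B ×ˢ B).filter (fun w => ¬ w.1 = w.2)).card ≤ (B ×ˢ B).card :=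
                card_filter_le _ _
            _ = B.card ^ 2 := by rw [card_product, sq]

end Pool.RF
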