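import Pool.Agent.Work.MP_dc37f8_rf.InterfaceC

/-!
# MP_dc37f8_co, block ELINE (helper67): energies of points on a line
-/

set_option autoImplicit false

open Finset

namespace Pool.RF

open Pool.BK Pool.BD

open Classical in
theorem stmt_ELINE : Stmt_ELINE := by
  refine ⟨?_, ?_⟩
  · intro A B l m hA hB
    unfold En
    have hsub : (((A ×ˢ B) ×ˢ (A ×ˢ B)).filter
        (fun z => z.1.1 - z.1.2 = z.2.1 - z.2.2)).card ≤
        ((A ×ˢ B).sigma (fun z => pts B (z.2, l.2))).card := by
      refine Finset.card_le_card_of_injOn (fun z => ⟨z.1, z.2.2⟩) ?_ ?_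
      · intro z hz
        have hz := Finset.mem_coe.1 hz
        simp only [Finset.mem_filter, Finset.mem_product] at hz
        obtain ⟨⟨⟨h1, h2⟩, h3, h4⟩, h⟩ := hz
        refine Finset.mem_coe.2 ?_
        simp only [Finset.mem_sigma, Finset.mem_product, pts, Finset.mem_filter]
        refine ⟨⟨h1, h2⟩, h4, ?_⟩
        obtain ⟨s, hs⟩ := hA _ h1
        obtain ⟨t, ht⟩ := hA _ h3
        refine ⟨t - s, ?_⟩
        show z.2.2 = z.1.2 + ((t - s : ℝ) : ℂ) * l.2
        have e1 : z.2.2 = z.1.2 + (z.2.1 - z.1.1) := by linear_combination h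
        rw [e1, hs, ht]
        push_cast
        ring
      · intro z hz w hw h
        have hz := Finset.mem_coe.1 hz
        have hw := Finset.mem_coe.1 hw
        simp only [Finset.mem_filter, Finset.mem_product] at hz hw
        have h' := Sigma.mk.inj_iff.1 h
        have e1 : z.1 = w.1 := h'.1
        have e2 : z.2.2 = w.2.2 := eq_of_heq h'.2
        have e3 : z.2.1 = w.2.1 := by
          have a := hz.2
          have b := hw.2
          rw [e1, e2] at a
          have : z.2.1 - w.2.2 = w.2.1 - w.2.2 := a.symm.trans b
          exact sub_left_injective this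
        exact Prod.ext e1 (Prod.ext e3 e2)
    refine le_trans hsub ?_
    rw [Finset.card_sigma]
    refine le_trans (Finset.sum_le_card_nsmul _ _ m (fun z _ => hB z.2)) ?_
    rw [Finset.card_product, smul_eq_mul]
  · intro A B l l' hA hB hpar
    unfold En
    have hsub : (((A ×ˢ B) ×ˢ (A ×ˢ B)).filter
        (fun z => z.1.1 - z.1.2 = z.2.1 - z.2.2)).card ≤ (A ×ˢ B).card := by
      refine Finset.card_le_card_of_injOn (fun z => z.1) ?_ ?_
      · intro z hz
        have hz := Finset.mem_coe.1 hz
        simp only [Finset.mem_filter] at hz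
        exact Finset.mem_coe.2 (Finset.mem_product.1 hz.1).1
      · have key : ∀ z : (ℂ × ℂ) × (ℂ × ℂ), z ∈ ((A ×ˢ B) ×ˢ (A ×ˢ B)).filter
            (fun z => z.1.1 - z.1.2 = z.2.1 - z.2.2) → z.2 = z.1 := by
          intro z hz
          simp only [Finset.mem_filter, Finset.mem_product] at hz
          obtain ⟨⟨⟨h1, h2⟩, h3, h4⟩, h⟩ := hz
          obtain ⟨s, hs⟩ := hA _ h1
          obtain ⟨t, ht⟩ := hA _ h3
          obtain ⟨u, hu⟩ := hB _ h2
          obtain ⟨v, hv⟩ := hB _ h4
          have e : (((u - v : ℝ)) : ℂ) * l'.2 = (((s - t : ℝ)) : ℂ) * l.2 := by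
            have : z.1.2 - z.2.2 = z.1.1 - z.2.1 := by linear_combination -h
            rw [hu, hv, hs, ht] at this
            push_cast
            linear_combination this
          by_cases huv : u = v
          · have e2 : z.1.2 = z.2.2 := by rw [hu, hv, huv]
            have e1 : z.1.1 = z.2.1 := by
              rw [e2] at h
              exact sub_left_injective h
            exact (Prod.ext e1 e2).symm
          · exfalso
            apply hpar
            refine ⟨(s - t) / (u - v), ?_⟩
            have hne : (((u - v : ℝ)) : ℂ) ≠ 0 := by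
              exact_mod_cast sub_ne_zero.2 huv
            have : l'.2 = (((s - t : ℝ)) : ℂ) * l.2 / (((u - v : ℝ)) : ℂ) := by
              rw [← e, mul_div_cancel_left₀ _ hne]
            rw [this]
            push_cast
            ring
        intro z hz w hw h
        have a := key z (Finset.mem_coe.1 hz)
        have b := key w (Finset.mem_coe.1 hw)
        have h : z.1 = w.1 := h
        exact Prod.ext h (by rw [a, b, h])
    rwa [Finset.card_product] at hsub

end Pool.RF
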