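import Pool.Agent.Work.MP_dc37f8_rf.InterfaceC

/-!
# MP_dc37f8_co, block ENU (helper67): energies of unions
-/

set_option autoImplicit false

open Finset

namespace Pool.RF

open Pool.BK Pool.BD

namespace ENU

open Classical in
/-- number of pairs with a given difference -/
noncomputable def rp (G : Finset (ℂ × ℂ)) (d : ℂ) : ℕ := (G.filter (fun z => z.1 - z.2 = d)).card

open Classical in
lemma en_eq (G : Finset (ℂ × ℂ)) (D : Finset ℂ) (hD : ∀ z ∈ G, z.1 - z.2 ∈ D) :
    En G = ∑ d ∈ D, rp G d ^ 2 := by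
  unfold En
  rw [Finset.card_eq_sum_card_fiberwise (f := fun z : (ℂ × ℂ) × (ℂ × ℂ) => z.1.1 - z.1.2)
    (t := D)]
  · refine Finset.sum_congr rfl fun d _ => ?_
    rw [sq, rp, ← Finset.card_product]
    congr 1
    ext z
    simp only [Finset.mem_filter, Finset.mem_product]
    constructor
    · rintro ⟨⟨⟨h1, h2⟩, h3⟩, h4⟩
      exact ⟨⟨h1, h4⟩, h2, h3 ▸ h4⟩
    · rintro ⟨⟨h1, h2⟩, h3, h4⟩
      exact ⟨⟨⟨h1, h3⟩, h2.trans h4.symm⟩, h2⟩
  · intro z hz
    have h1 := (Finset.mem_filter.1 (Finset.mem_coe.1 hz)).1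
    exact Finset.mem_coe.2 (hD _ (Finset.mem_product.1 h1).1)

end ENU

open Classical in
theorem stmt_ENU : Stmt_ENU := by
  refine ⟨?_, ?_, ?_⟩
  · intro G G' h
    exact Finset.card_le_card (Finset.filter_subset_filter _ (Finset.product_subset_product h h))
  · intro ι s G
    set D : Finset ℂ := (s.biUnion G).image (fun z => z.1 - z.2) with hD
    have hD1 : ∀ z ∈ s.biUnion G, z.1 - z.2 ∈ D := fun z hz =>
      Finset.mem_image_of_mem _ hz
    have hD2 : ∀ i ∈ s, ∀ z ∈ G i, z.1 - z.2 ∈ D := fun i hi z hz =>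
      hD1 z (Finset.mem_biUnion.2 ⟨i, hi, hz⟩)
    rw [ENU.en_eq _ D hD1]
    have h1 : ∀ d ∈ D, ENU.rp (s.biUnion G) d ^ 2 ≤ s.card * ∑ i ∈ s, ENU.rp (G i) d ^ 2 := by
      intro d _
      have h2 : ENU.rp (s.biUnion G) d ≤ ∑ i ∈ s, ENU.rp (G i) d := by
        unfold ENU.rp
        rw [Finset.filter_biUnion]
        exact Finset.card_biUnion_le
      calc ENU.rp (s.biUnion G) d ^ 2 ≤ (∑ i ∈ s, ENU.rp (G i) d) ^ 2 :=
            Nat.pow_le_pow_left h2 2
        _ ≤ s.card * ∑ i ∈ s, ENU.rp (G i) d ^ 2 := sq_sum_le_card_mul_sum_sq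
    refine le_trans (Finset.sum_le_sum h1) ?_
    rw [← Finset.mul_sum, Finset.sum_comm]
    refine Nat.mul_le_mul_left _ (Finset.sum_le_sum fun i hi => ?_)
    rw [ENU.en_eq (G i) D (hD2 i hi)]
  · intro G
    unfold En
    refine Finset.card_nbij' (fun z => (z.1.swap, z.2.swap)) (fun z => (z.1.swap, z.2.swap))
      ?_ ?_ ?_ ?_
    · intro z hz
      have hz := Finset.mem_coe.1 hz
      simp only [Finset.mem_filter, Finset.mem_product, Finset.mem_image] at hz
      obtain ⟨⟨⟨a, ha, ha'⟩, b, hb, hb'⟩, h⟩ := hz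
      refine Finset.mem_coe.2 ?_
      simp only [Finset.mem_filter, Finset.mem_product]
      rw [← ha', ← hb'] at h ⊢
      simp only [Prod.swap_swap, Prod.fst_swap, Prod.snd_swap] at h ⊢
      exact ⟨⟨ha, hb⟩, by rw [← neg_sub, h, neg_sub]⟩
    · intro z hz
      have hz := Finset.mem_coe.1 hz
      simp only [Finset.mem_filter, Finset.mem_product] at hz
      obtain ⟨⟨h1, h2⟩, h⟩ := hz
      refine Finset.mem_coe.2 ?_
      simp only [Finset.mem_filter, Finset.mem_product, Finset.mem_image]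
      refine ⟨⟨⟨z.1, h1, rfl⟩, z.2, h2, rfl⟩, ?_⟩
      simp only [Prod.fst_swap, Prod.snd_swap]
      rw [← neg_sub, h, neg_sub]
    · intro z _
      simp
    · intro z _
      simp

end Pool.RF
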