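import Pool.Agent.Work.MP_dc37f8_rf.Interface

set_option autoImplicit false
set_option maxHeartbeats 4000000

/-!
# GEN: vectors in general position can be bisected (helper45)
-/

open Finset

namespace Pool.RF.GEN

/-- Fewer than `D` vectors of `ℝ^D` have a common nonzero orthogonal vector. -/
lemma exists_orth {ι : Type} {D : ℕ} (u : ι → Fin D → ℝ) (T : Finset ι) (hT : T.card + 1 = D) :
    ∃ p : Fin D → ℝ, p ≠ 0 ∧ ∀ t ∈ T, u t ⬝ᵥ p = 0 := by
  let f : (Fin D → ℝ) →ₗ[ℝ] (T → ℝ) :=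
    { toFun := fun p t => u t ⬝ᵥ p
      map_add' := fun p q => by ext t; simp [dotProduct_add]
      map_smul' := fun a p => by ext t; simp [dotProduct_smul] }
  have h1 : LinearMap.ker f ≠ ⊥ := by
    apply LinearMap.ker_ne_bot_of_finrank_lt
    simp only [Module.finrank_fintype_fun_eq_card, Fintype.card_coe, Fintype.card_fin]
    omega
  obtain ⟨p, hp, hp0⟩ := (Submodule.ne_bot_iff _).1 h1
  refine ⟨p, hp0, fun t ht => ?_⟩
  have h2 : f p = 0 := hp
  have h3 := congrFun h2 ⟨t, ht⟩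
  exact h3

/-- A vector orthogonal to `D` independent vectors is zero. -/
lemma eq_zero_of_orth {ι : Type} {D : ℕ} (u : ι → Fin D → ℝ) (T : Finset ι) (hT : T.card = D)
    (hl : LinearIndependent ℝ (fun x : T => u x)) (p : Fin D → ℝ)
    (hp : ∀ t ∈ T, u t ⬝ᵥ p = 0) : p = 0 := by
  have h1 : Submodule.span ℝ (Set.range (fun x : T => u x)) = ⊤ := by
    apply hl.span_eq_top_of_card_eq_finrank'
    simp [hT]
  have h2 : ∀ v : Fin D → ℝ, v ⬝ᵥ p = 0 := by
    intro v
    have hv : v ∈ Submodule.span ℝ (Set.range (fun x : T => u x)) := by rw [h1]; trivial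
    induction hv using Submodule.span_induction with
    | mem x hx =>
      obtain ⟨t, rfl⟩ := hx
      exact hp t t.2
    | zero => simp
    | add x y _ _ hx hy => rw [add_dotProduct, hx, hy, add_zero]
    | smul a x _ hx => rw [smul_dotProduct, hx, smul_zero]
  exact dotProduct_self_eq_zero.1 (h2 p)

/-- `D + 1` vectors, each `D` of them independent, have a relation without zero coefficients. -/
lemma exists_rel {ι : Type} [DecidableEq ι] {D : ℕ} (u : ι → Fin D → ℝ) (Y : Finset ι)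
    (hY : Y.card = D + 1)
    (hl : ∀ T : Finset ι, T.card = D → LinearIndependent ℝ (fun x : T => u x)) :
    ∃ μ : ι → ℝ, (∀ x ∈ Y, μ x ≠ 0) ∧ ∑ x ∈ Y, μ x • u x = 0 := by
  have h1 : ¬ LinearIndependent ℝ (fun x : Y => u x) := by
    intro h
    have h2 := h.fintype_card_le_finrank
    simp only [Module.finrank_fintype_fun_eq_card, Fintype.card_coe, Fintype.card_fin] at h2
    omega
  obtain ⟨g, hg, x0, hx0⟩ := Fintype.not_linearIndependent_iff.1 h1
  let μ : ι → ℝ := fun x => if h : x ∈ Y then g ⟨x, h⟩ else 0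
  have hμ : ∀ x (h : x ∈ Y), μ x = g ⟨x, h⟩ := fun x h => by simp [μ, h]
  have hsum : ∑ x ∈ Y, μ x • u x = 0 := by
    rw [← hg, ← Finset.sum_coe_sort Y]
    refine Finset.sum_congr rfl fun x _ => ?_
    rw [hμ x x.2]
  refine ⟨μ, ?_, hsum⟩
  intro x hx h0
  have hc : (Y.erase x).card = D := by
    rw [Finset.card_erase_of_mem hx, hY]; rfl
  have h3 := hl _ hc
  rw [Fintype.linearIndependent_iff] at h3
  have h4 : ∑ y ∈ Y.erase x, μ y • u y = 0 := by
    rw [← hsum, ← Finset.add_sum_erase Y _ hx, h0, zero_smul, zero_add]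
  have h5 := h3 (fun y => μ y) (by
    rw [← h4, ← Finset.sum_coe_sort (Y.erase x)])
  have hxx : (x0 : ι) ≠ x := by
    intro h
    apply hx0
    have := hμ x0 x0.2
    rw [← this, h, h0]
  have h6 := h5 ⟨x0, Finset.mem_erase.2 ⟨hxx, x0.2⟩⟩
  apply hx0
  have := hμ x0 x0.2
  rw [← this]
  exact h6

/-- Seven nonzero numbers: at least 18 of the 42 ordered pairs have the same sign. -/
lemma same_sign {ι : Type} [DecidableEq ι] (X : Finset ι) (hX : X.card = 7) (μ : ι → ℝ)
    (hμ : ∀ x ∈ X, μ x ≠ 0) : 18 ≤ (X.offDiag.filter (fun z => 0 < μ z.1 * μ z.2)).card := by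
  set P := X.filter (fun x => 0 < μ x) with hP
  set N := X.filter (fun x => ¬ 0 < μ x) with hN
  have hc : P.card + N.card = 7 := by
    rw [← hX]
    exact Finset.card_filter_add_card_filter_not _
  have hsub : P.offDiag ∪ N.offDiag ⊆ X.offDiag.filter (fun z => 0 < μ z.1 * μ z.2) := by
    intro z hz
    rw [Finset.mem_union, Finset.mem_offDiag, Finset.mem_offDiag] at hz
    rw [Finset.mem_filter, Finset.mem_offDiag]
    rcases hz with ⟨h1, h2, h3⟩ | ⟨h1, h2, h3⟩
    · rw [hP, Finset.mem_filter] at h1 h2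
      exact ⟨⟨h1.1, h2.1, h3⟩, mul_pos h1.2 h2.2⟩
    · rw [hN, Finset.mem_filter] at h1 h2
      refine ⟨⟨h1.1, h2.1, h3⟩, mul_pos_of_neg_of_neg ?_ ?_⟩
      · exact lt_of_le_of_ne (not_lt.1 h1.2) (hμ _ h1.1)
      · exact lt_of_le_of_ne (not_lt.1 h2.2) (hμ _ h2.1)
  have hdis : Disjoint P.offDiag N.offDiag := by
    rw [Finset.disjoint_left]
    intro z h1 h2
    rw [Finset.mem_offDiag] at h1 h2
    have h3 := h1.1
    have h4 := h2.1
    rw [hP, Finset.mem_filter] at h3
    rw [hN, Finset.mem_filter] at h4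
    exact h4.2 h3.2
  have h1 := Finset.card_le_card hsub
  rw [Finset.card_union_of_disjoint hdis, Finset.offDiag_card, Finset.offDiag_card] at h1
  refine le_trans ?_ h1
  obtain ⟨a, ha⟩ : ∃ a, P.card = a := ⟨_, rfl⟩
  obtain ⟨b, hb⟩ : ∃ b, N.card = b := ⟨_, rfl⟩
  rw [ha, hb] at hc ⊢
  have hb' : b = 7 - a := by omega
  have ha' : a ≤ 7 := by omega
  subst hb'
  interval_cases a <;> norm_num

/-- the sign of the two values -/
lemma sign_of_rel {ι : Type} [DecidableEq ι] {D : ℕ} (u : ι → Fin D → ℝ) (Y : Finset ι)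
    (μ : ι → ℝ) (hs : ∑ x ∈ Y, μ x • u x = 0) (p : Fin D → ℝ) (y z : ι) (hy : y ∈ Y) (hz : z ∈ Y)
    (hyz : y ≠ z) (hT : ∀ t ∈ (Y.erase y).erase z, u t ⬝ᵥ p = 0) (_hy0 : u y ⬝ᵥ p ≠ 0)
    (hz0 : u z ⬝ᵥ p ≠ 0) (hpos : 0 < μ y * μ z) : (u y ⬝ᵥ p) * (u z ⬝ᵥ p) < 0 := by
  have h1 : ∑ x ∈ Y, μ x * (u x ⬝ᵥ p) = 0 := by
    have h2 : (∑ x ∈ Y, μ x • u x) ⬝ᵥ p = 0 := by rw [hs, zero_dotProduct]
    rw [← h2, sum_dotProduct]
    refine Finset.sum_congr rfl fun x _ => ?_
    rw [smul_dotProduct, smul_eq_mul]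
  rw [← Finset.add_sum_erase Y _ hy,
    ← Finset.add_sum_erase (Y.erase y) _ (Finset.mem_erase.2 ⟨hyz.symm, hz⟩),
    Finset.sum_eq_zero (fun x hx => by rw [hT x hx, mul_zero]), add_zero] at h1
  set a := u y ⬝ᵥ p
  set b := u z ⬝ᵥ p
  have h3 : μ y * a = - (μ z * b) := by linarith
  have h4 : (μ y * μ z) * (a * b) = - (μ z * b) ^ 2 := by
    calc (μ y * μ z) * (a * b) = (μ y * a) * (μ z * b) := by ring
      _ = - (μ z * b) ^ 2 := by rw [h3]; ring
  have hμz : μ z ≠ 0 := by
    intro h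
    rw [h, mul_zero] at hpos
    exact lt_irrefl _ hpos
  have h5 : 0 < (μ z * b) ^ 2 := by positivity
  by_contra hcon
  rw [not_lt] at hcon
  have h6 : 0 ≤ (μ y * μ z) * (a * b) := mul_nonneg hpos.le hcon
  linarith

section main

open Classical

variable {ι κ : Type} [Fintype ι] [Fintype κ] (c : ι → κ)

/-- the admissible sets `T` -/
noncomputable def TT : Finset (Finset ι) :=
  univ.filter (fun T => ∀ j, (T.filter (fun x => c x = j)).card =
    min 5 ((univ.filter (fun x => c x = j)).card))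

lemma mem_TT (T : Finset ι) : T ∈ TT c ↔ ∀ j, (T.filter (fun x => c x = j)).card =
    min 5 ((univ.filter (fun x => c x = j)).card) := by
  simp [TT]

lemma card_of_mem {T : Finset ι} (hT : T ∈ TT c) :
    T.card = ∑ j : κ, min 5 ((univ.filter (fun x => c x = j)).card) := by
  rw [Finset.card_eq_sum_card_fiberwise (f := c) (t := univ) (fun x _ => Finset.mem_univ _)]
  exact Finset.sum_congr rfl fun j _ => (mem_TT c T).1 hT j

lemma TT_nonempty : (TT c).Nonempty := by
  have h1 : ∀ j, ∃ U ⊆ univ.filter (fun x => c x = j),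
      U.card = min 5 ((univ.filter (fun x => c x = j)).card) := fun j =>
    Finset.exists_subset_card_eq (min_le_right _ _)
  choose U hU hUc using h1
  refine ⟨univ.filter (fun x => x ∈ U (c x)), ?_⟩
  rw [mem_TT]
  intro j
  rw [← hUc j]
  congr 1
  ext x
  simp only [Finset.mem_filter, Finset.mem_univ, true_and]
  constructor
  · rintro ⟨h1, rfl⟩
    exact h1
  · intro h
    have h2 := hU j h
    rw [Finset.mem_filter] at h2
    exact ⟨by rw [h2.2]; exact h, h2.2⟩

/-- pairs outside `T` in one class -/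
noncomputable def PP : Finset (Finset ι × ι × ι) :=
  (TT c ×ˢ univ ×ˢ univ).filter
    (fun w => c w.2.1 = c w.2.2 ∧ w.2.1 ≠ w.2.2 ∧ w.2.1 ∉ w.1 ∧ w.2.2 ∉ w.1)

lemma mem_PP (w : Finset ι × ι × ι) : w ∈ PP c ↔
    w.1 ∈ TT c ∧ c w.2.1 = c w.2.2 ∧ w.2.1 ≠ w.2.2 ∧ w.2.1 ∉ w.1 ∧ w.2.2 ∉ w.1 := by
  simp [PP]

/-- counting in a fibre -/
lemma fiber_count {D : ℕ} (u : ι → Fin D → ℝ)
    (hD : D = 1 + ∑ j : κ, min 5 ((univ.filter (fun x => c x = j)).card))
    (hl : ∀ T : Finset ι, T.card = D → LinearIndependent ℝ (fun x : T => u x))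
    (p : Finset ι → Fin D → ℝ)
    (hp : ∀ T ∈ TT c, (∀ t ∈ T, u t ⬝ᵥ p T = 0) ∧ ∀ x, x ∉ T → u x ⬝ᵥ p T ≠ 0)
    (Y : Finset ι) :
    3 * ((PP c).filter (fun w => insert w.2.1 (insert w.2.2 w.1) = Y)).card ≤
      7 * ((PP c).filter (fun w => insert w.2.1 (insert w.2.2 w.1) = Y ∧
        (u w.2.1 ⬝ᵥ p w.1) * (u w.2.2 ⬝ᵥ p w.1) < 0)).card := by
  rcases ((PP c).filter (fun w => insert w.2.1 (insert w.2.2 w.1) = Y)).eq_empty_or_nonempty with
    h0 | ⟨⟨T₀, y₀, z₀⟩, h0⟩
  · rw [h0]; simp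
  rw [Finset.mem_filter, mem_PP] at h0
  obtain ⟨⟨hT₀, hc₀, hne₀, hy₀, hz₀⟩, hY₀⟩ := h0
  dsimp only at hT₀ hc₀ hne₀ hy₀ hz₀ hY₀
  set j := c y₀ with hj
  -- the trace of `Y` on a class
  have trace : ∀ (T : Finset ι) (y z : ι), y ∉ T → z ∉ T → y ≠ z → c y = c z →
      (((insert y (insert z T)).filter (fun x => c x = c y)).card =
        (T.filter (fun x => c x = c y)).card + 2) ∧
      ∀ i, i ≠ c y → (insert y (insert z T)).filter (fun x => c x = i) =
        T.filter (fun x => c x = i) := by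
    intro T y z hy hz hyz hcz
    constructor
    · rw [Finset.filter_insert, if_pos rfl, Finset.filter_insert, if_pos hcz.symm]
      rw [Finset.card_insert_of_notMem, Finset.card_insert_of_notMem]
      · intro h; exact hz (Finset.mem_filter.1 h).1
      · intro h
        rcases Finset.mem_insert.1 h with h | h
        · exact hyz h
        · exact hy (Finset.mem_filter.1 h).1
    · intro i hi
      rw [Finset.filter_insert, if_neg (fun h => hi h.symm), Finset.filter_insert,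
        if_neg (fun h => hi (by rw [hcz, h]))]
  have tr0 := trace T₀ y₀ z₀ hy₀ hz₀ hne₀ hc₀
  rw [hY₀, ← hj] at tr0
  -- the class is large
  have hs : min 5 ((univ.filter (fun x => c x = j)).card) = 5 := by
    have h1 := (mem_TT c T₀).1 hT₀ j
    have h2 : (Y.filter (fun x => c x = j)).card ≤ (univ.filter (fun x => c x = j)).card :=
      Finset.card_le_card (Finset.filter_subset_filter _ (Finset.subset_univ _))
    rw [tr0.1, h1] at h2
    omega
  set X := Y.filter (fun x => c x = j) with hX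
  have hX7 : X.card = 7 := by
    rw [tr0.1, (mem_TT c T₀).1 hT₀ j, hs]
  have hYi : ∀ i, i ≠ j → (Y.filter (fun x => c x = i)).card =
      min 5 ((univ.filter (fun x => c x = i)).card) := by
    intro i hi
    rw [tr0.2 i hi, (mem_TT c T₀).1 hT₀ i]
  have hYc : Y.card = D + 1 := by
    rw [← hY₀, Finset.card_insert_of_notMem, Finset.card_insert_of_notMem hz₀,
      card_of_mem c hT₀, hD]
    · omega
    · intro h
      rcases Finset.mem_insert.1 h with h | h
      · exact hne₀ h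
      · exact hy₀ h
  obtain ⟨μ, hμ, hrel⟩ := exists_rel u Y hYc hl
  have h18 := same_sign X hX7 μ (fun x hx => hμ x (Finset.mem_filter.1 hx).1)
  -- upper bound for the fibre
  have hup : ((PP c).filter (fun w => insert w.2.1 (insert w.2.2 w.1) = Y)).card ≤ 42 := by
    have h42 : X.offDiag.card = 42 := by rw [Finset.offDiag_card, hX7]
    rw [← h42]
    apply Finset.card_le_card_of_injOn (fun w => w.2)
    · rintro ⟨T, y, z⟩ hw
      rw [Finset.mem_coe, Finset.mem_filter, mem_PP] at hw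
      obtain ⟨⟨hT, hcz, hyz, hy, hz⟩, hY⟩ := hw
      dsimp only at hT hcz hyz hy hz hY ⊢
      have tr := trace T y z hy hz hyz hcz
      rw [hY] at tr
      have hcy : c y = j := by
        by_contra hne
        have h1 := hYi _ hne
        rw [tr.1, (mem_TT c T).1 hT] at h1
        omega
      rw [Finset.mem_coe, Finset.mem_offDiag, hX, Finset.mem_filter, Finset.mem_filter]
      refine ⟨⟨?_, hcy⟩, ⟨?_, by rw [← hcz, hcy]⟩, hyz⟩
      · rw [← hY]; exact Finset.mem_insert_self _ _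
      · rw [← hY]; exact Finset.mem_insert_of_mem (Finset.mem_insert_self _ _)
    · rintro ⟨T, y, z⟩ hw ⟨T', y', z'⟩ hw' he
      rw [Finset.mem_coe, Finset.mem_filter, mem_PP] at hw hw'
      obtain ⟨⟨hT, hcz, hyz, hy, hz⟩, hY⟩ := hw
      obtain ⟨⟨hT', hcz', hyz', hy', hz'⟩, hY'⟩ := hw'
      dsimp only at hT hcz hyz hy hz hY hT' hcz' hyz' hy' hz' hY' he
      obtain ⟨rfl, rfl⟩ := Prod.mk.inj he
      have e1 : T = (Y.erase y).erase z := by
        rw [← hY, Finset.erase_insert, Finset.erase_insert hz]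
        intro h
        rcases Finset.mem_insert.1 h with h | h
        · exact hyz h
        · exact hy h
      have e2 : T' = (Y.erase y).erase z := by
        rw [← hY', Finset.erase_insert, Finset.erase_insert hz']
        intro h
        rcases Finset.mem_insert.1 h with h | h
        · exact hyz h
        · exact hy' h
      rw [e1, e2]
  -- lower bound for the negative part
  have hlo : 18 ≤ ((PP c).filter (fun w => insert w.2.1 (insert w.2.2 w.1) = Y ∧
        (u w.2.1 ⬝ᵥ p w.1) * (u w.2.2 ⬝ᵥ p w.1) < 0)).card := by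
    refine le_trans h18 ?_
    apply Finset.card_le_card_of_injOn (fun z => ((Y.erase z.1).erase z.2, z.1, z.2))
    · rintro ⟨y, z⟩ hw
      rw [Finset.mem_coe, Finset.mem_filter, Finset.mem_offDiag] at hw
      obtain ⟨⟨hy, hz, hyz⟩, hpos⟩ := hw
      dsimp only at hy hz hyz hpos ⊢
      rw [hX, Finset.mem_filter] at hy hz
      set T := (Y.erase y).erase z with hTd
      have hyT : y ∉ T := by
        rw [hTd]
        intro h
        exact Finset.notMem_erase y Y (Finset.mem_of_mem_erase h)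
      have hzT : z ∉ T := Finset.notMem_erase z _
      have hzY : z ∈ Y.erase y := Finset.mem_erase.2 ⟨hyz.symm, hz.1⟩
      have hYe : insert y (insert z T) = Y := by
        rw [hTd, Finset.insert_erase hzY, Finset.insert_erase hy.1]
      have hcz : c y = c z := by rw [hy.2, hz.2]
      have tr := trace T y z hyT hzT hyz hcz
      rw [hYe, hy.2] at tr
      have hT : T ∈ TT c := by
        rw [mem_TT]
        intro i
        by_cases hi : i = j
        · subst hi
          have h1 := tr.1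
          rw [← hX, hX7] at h1
          rw [hs]
          omega
        · rw [← tr.2 i hi, hYi i hi]
      rw [Finset.mem_coe, Finset.mem_filter, mem_PP]
      refine ⟨⟨hT, hcz, hyz, hyT, hzT⟩, hYe, ?_⟩
      exact sign_of_rel u Y μ hrel (p T) y z hy.1 hz.1 hyz (fun t ht => (hp T hT).1 t ht)
        ((hp T hT).2 y hyT) ((hp T hT).2 z hzT) hpos
    · rintro ⟨y, z⟩ _ ⟨y', z'⟩ _ he
      exact (Prod.mk.inj he).2
  omega

end main

end Pool.RF.GEN

namespace Pool.RF

open GEN

open Classical in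
theorem stmt_GEN : Stmt_GEN := by
  intro ι κ _ _ c D u hD hl
  -- the vectors `p T`
  have h1 : ∀ T : Finset ι, ∃ p : Fin D → ℝ, T ∈ TT c →
      p ≠ 0 ∧ (∀ t ∈ T, u t ⬝ᵥ p = 0) ∧ ∀ x, x ∉ T → u x ⬝ᵥ p ≠ 0 := by
    intro T
    by_cases hT : T ∈ TT c
    · have hc := card_of_mem c hT
      obtain ⟨p, hp0, hp⟩ := exists_orth u T (by rw [hc, hD, add_comm])
      refine ⟨p, fun _ => ⟨hp0, hp, ?_⟩⟩
      intro x hx h0
      apply hp0
      have hc' : (insert x T).card = D := by
        rw [Finset.card_insert_of_notMem hx, hc, hD, add_comm]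
      apply eq_zero_of_orth u (insert x T) hc' (hl _ hc')
      intro t ht
      rcases Finset.mem_insert.1 ht with h | h
      · rw [h]; exact h0
      · exact hp t h
    · exact ⟨0, fun h => absurd h hT⟩
  choose p hp using h1
  -- the averaging
  set E := (univ : Finset (ι × ι)).filter (fun z => c z.1 = c z.2) with hE
  let pos : Finset ι → ℕ := fun T => ((univ : Finset (ι × ι)).filter
    (fun z => c z.1 = c z.2 ∧ 0 < (u z.1 ⬝ᵥ p T) * (u z.2 ⬝ᵥ p T))).card
  let tot : Finset ι → Finset (ι × ι) := fun T => (univ : Finset (ι × ι)).filter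
    (fun z => c z.1 = c z.2 ∧ z.1 ≠ z.2 ∧ z.1 ∉ T ∧ z.2 ∉ T)
  let neg : Finset ι → Finset (ι × ι) := fun T => (tot T).filter
    (fun z => (u z.1 ⬝ᵥ p T) * (u z.2 ⬝ᵥ p T) < 0)
  have hpos : ∀ T ∈ TT c, pos T + (neg T).card ≤ (tot T).card + Fintype.card ι := by
    intro T hT
    have hsub : ((univ : Finset (ι × ι)).filter
        (fun z => c z.1 = c z.2 ∧ 0 < (u z.1 ⬝ᵥ p T) * (u z.2 ⬝ᵥ p T))) ⊆
        ((tot T).filter (fun z => ¬ (u z.1 ⬝ᵥ p T) * (u z.2 ⬝ᵥ p T) < 0)) ∪
          (univ : Finset ι).image (fun x => (x, x)) := by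
      intro z hz
      rw [Finset.mem_filter] at hz
      obtain ⟨_, hc, hpos⟩ := hz
      rw [Finset.mem_union]
      by_cases hzz : z.1 = z.2
      · right
        rw [Finset.mem_image]
        exact ⟨z.1, Finset.mem_univ _, Prod.ext rfl hzz⟩
      · left
        rw [Finset.mem_filter, Finset.mem_filter]
        refine ⟨⟨Finset.mem_univ _, hc, hzz, ?_, ?_⟩, not_lt.2 hpos.le⟩
        · intro h
          rw [(hp T hT).2.1 _ h, zero_mul] at hpos
          exact lt_irrefl _ hpos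
        · intro h
          rw [(hp T hT).2.1 _ h, mul_zero] at hpos
          exact lt_irrefl _ hpos
    have h2 := Finset.card_le_card hsub
    have h3 := Finset.card_union_le
      ((tot T).filter (fun z => ¬ (u z.1 ⬝ᵥ p T) * (u z.2 ⬝ᵥ p T) < 0))
      ((univ : Finset ι).image (fun x => (x, x)))
    have h4 : ((univ : Finset ι).image (fun x => (x, x))).card ≤ Fintype.card ι :=
      Finset.card_image_le
    have h5 : (neg T).card + ((tot T).filter
        (fun z => ¬ (u z.1 ⬝ᵥ p T) * (u z.2 ⬝ᵥ p T) < 0)).card = (tot T).card :=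
      Finset.card_filter_add_card_filter_not _
    change ((univ : Finset (ι × ι)).filter
        (fun z => c z.1 = c z.2 ∧ 0 < (u z.1 ⬝ᵥ p T) * (u z.2 ⬝ᵥ p T))).card + _ ≤ _
    omega
  have htot : ∀ T, (tot T).card ≤ E.card := by
    intro T
    apply Finset.card_le_card
    intro z hz
    rw [Finset.mem_filter] at hz
    rw [hE, Finset.mem_filter]
    exact ⟨hz.1, hz.2.1⟩
  -- the double counting
  have hsum1 : ∑ T ∈ TT c, (tot T).card = (PP c).card := by
    rw [← Finset.card_sigma]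
    apply Finset.card_bij (fun w _ => (w.1, w.2))
    · rintro ⟨T, z⟩ hw
      rw [Finset.mem_sigma, Finset.mem_filter] at hw
      rw [mem_PP]
      exact ⟨hw.1, hw.2.2⟩
    · rintro ⟨T, z⟩ _ ⟨T', z'⟩ _ he
      obtain ⟨rfl, rfl⟩ := Prod.mk.inj he
      rfl
    · rintro ⟨T, z⟩ hw
      rw [mem_PP] at hw
      refine ⟨⟨T, z⟩, ?_, rfl⟩
      rw [Finset.mem_sigma, Finset.mem_filter]
      exact ⟨hw.1, Finset.mem_univ _, hw.2⟩
  have hsum2 : ∑ T ∈ TT c, (neg T).card = ((PP c).filter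
      (fun w => (u w.2.1 ⬝ᵥ p w.1) * (u w.2.2 ⬝ᵥ p w.1) < 0)).card := by
    rw [← Finset.card_sigma]
    apply Finset.card_bij (fun w _ => (w.1, w.2))
    · rintro ⟨T, z⟩ hw
      rw [Finset.mem_sigma, Finset.mem_filter, Finset.mem_filter] at hw
      rw [Finset.mem_filter, mem_PP]
      exact ⟨⟨hw.1, hw.2.1.2⟩, hw.2.2⟩
    · rintro ⟨T, z⟩ _ ⟨T', z'⟩ _ he
      obtain ⟨rfl, rfl⟩ := Prod.mk.inj he
      rfl
    · rintro ⟨T, z⟩ hw
      rw [Finset.mem_filter, mem_PP] at hw
      refine ⟨⟨T, z⟩, ?_, rfl⟩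
      rw [Finset.mem_sigma, Finset.mem_filter, Finset.mem_filter]
      exact ⟨hw.1.1, ⟨Finset.mem_univ _, hw.1.2⟩, hw.2⟩
  have hdc : 3 * (PP c).card ≤ 7 * ((PP c).filter
      (fun w => (u w.2.1 ⬝ᵥ p w.1) * (u w.2.2 ⬝ᵥ p w.1) < 0)).card := by
    have e1 : (PP c).card = ∑ Y : Finset ι,
        ((PP c).filter (fun w => insert w.2.1 (insert w.2.2 w.1) = Y)).card :=
      Finset.card_eq_sum_card_fiberwise (f := fun w : Finset ι × ι × ι =>
        insert w.2.1 (insert w.2.2 w.1)) (fun x _ => Finset.mem_univ _)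
    have e2 : ((PP c).filter (fun w => (u w.2.1 ⬝ᵥ p w.1) * (u w.2.2 ⬝ᵥ p w.1) < 0)).card =
        ∑ Y : Finset ι, ((PP c).filter (fun w => insert w.2.1 (insert w.2.2 w.1) = Y ∧
          (u w.2.1 ⬝ᵥ p w.1) * (u w.2.2 ⬝ᵥ p w.1) < 0)).card := by
      rw [Finset.card_eq_sum_card_fiberwise (f := fun w : Finset ι × ι × ι =>
        insert w.2.1 (insert w.2.2 w.1)) (t := univ) (fun x _ => Finset.mem_univ _)]
      refine Finset.sum_congr rfl fun Y _ => ?_
      rw [Finset.filter_filter]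
      congr 1
      ext w
      simp only [Finset.mem_filter]
      tauto
    rw [e1, e2, Finset.mul_sum, Finset.mul_sum]
    exact Finset.sum_le_sum fun Y _ =>
      fiber_count c u hD hl p (fun T hT => (hp T hT).2) Y
  rw [← hsum1, ← hsum2] at hdc
  -- the best `T`
  by_contra hcon
  push Not at hcon
  have hbig : ∀ T ∈ TT c, (4 / 7 : ℝ) * E.card + Fintype.card ι < pos T := by
    intro T hT
    exact hcon (p T) (hp T hT).1
  have hS : ∑ T ∈ TT c, ((4 / 7 : ℝ) * E.card + Fintype.card ι) < ∑ T ∈ TT c, (pos T : ℝ) :=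
    Finset.sum_lt_sum_of_nonempty (TT_nonempty c) hbig
  rw [Finset.sum_const, nsmul_eq_mul] at hS
  have h6 : ∑ T ∈ TT c, (pos T : ℝ) + ∑ T ∈ TT c, ((neg T).card : ℝ) ≤
      ∑ T ∈ TT c, ((tot T).card : ℝ) + (TT c).card * Fintype.card ι := by
    rw [← Finset.sum_add_distrib, ← nsmul_eq_mul, ← Finset.sum_const, ← Finset.sum_add_distrib]
    refine Finset.sum_le_sum fun T hT => ?_
    have := hpos T hT
    exact_mod_cast this
  have h7 : (3 : ℝ) * ∑ T ∈ TT c, ((tot T).card : ℝ) ≤ 7 * ∑ T ∈ TT c, ((neg T).card : ℝ) := by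
    exact_mod_cast hdc
  have h8 : ∑ T ∈ TT c, ((tot T).card : ℝ) ≤ (TT c).card * E.card := by
    rw [← nsmul_eq_mul, ← Finset.sum_const]
    refine Finset.sum_le_sum fun T _ => ?_
    exact_mod_cast htot T
  nlinarith [h6, h7, h8, hS]

end Pool.RF
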