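import Pool.Agent.Work.MP_dc37f8_rf.Interface

/-!
# Block HCP (helper58): the third moment over half-collinear isometries
-/

set_option autoImplicit false
set_option maxHeartbeats 4000000

open Finset

namespace Pool.RF

open Pool.BK Pool.BD

namespace HCP

theorem line_iff {l : ℂ × ℂ} {a b : ℂ} (ha : On l a) (hb : On l b) (hab : a ≠ b) (y : ℂ) :
    On (a, b - a) y ↔ On l y := by
  obtain ⟨s, hs⟩ := ha
  obtain ⟨t, ht⟩ := hb
  have hst : t - s ≠ 0 := by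
    intro h
    apply hab
    have : t = s := by linarith
    rw [hs, ht, this]
  have hst' : ((t : ℂ) - s) ≠ 0 := by
    intro h
    apply hst
    have : ((t - s : ℝ) : ℂ) = 0 := by push_cast; exact h
    exact_mod_cast this
  constructor
  · rintro ⟨r, hr⟩
    refine ⟨s + r * (t - s), ?_⟩
    rw [hr]
    simp only
    rw [hs, ht]
    push_cast
    ring
  · rintro ⟨u, hu⟩
    refine ⟨(u - s) / (t - s), ?_⟩
    rw [hu]
    simp only
    rw [hs, ht]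
    push_cast
    field_simp
    ring

theorem pts_eq {P : Finset ℂ} {l : ℂ × ℂ} {a b : ℂ} (ha : On l a) (hb : On l b) (hab : a ≠ b) :
    pts P (a, b - a) = pts P l := by
  classical
  unfold pts
  apply Finset.filter_congr
  intro y _
  exact line_iff ha hb hab y

theorem on_img {g : Gp} (hg : IsDir g) {l : ℂ × ℂ} {a : ℂ} (ha : On l a) :
    On (g l.1, g (l.1 + l.2) - g l.1) (g a) := by
  obtain ⟨w, t, -, h⟩ := hg
  obtain ⟨s, hs⟩ := ha
  refine ⟨s, ?_⟩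
  simp only
  rw [h, h, h, hs]
  ring

theorem dir_dist {g : Gp} (hg : IsDir g) (a b : ℂ) : dist (g a) (g b) = dist a b := by
  obtain ⟨w, t, hw, h⟩ := hg
  rw [Complex.dist_eq, Complex.dist_eq, h, h]
  have : w * a + t - (w * b + t) = w * (a - b) := by ring
  rw [this, norm_mul, hw, one_mul]

theorem dir_two {g g' : Gp} (hg : IsDir g) (hg' : IsDir g') {a b : ℂ} (hab : a ≠ b)
    (h1 : g a = g' a) (h2 : g b = g' b) : g = g' := by
  obtain ⟨w, t, -, h⟩ := hg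
  obtain ⟨w', t', -, h'⟩ := hg'
  rw [h, h'] at h1 h2
  have hab' : a - b ≠ 0 := sub_ne_zero.2 hab
  have e1 : (w - w') * (a - b) = 0 := by linear_combination h1 - h2
  have e2 : w = w' := by
    rcases mul_eq_zero.1 e1 with h3 | h3
    · exact sub_eq_zero.1 h3
    · exact absurd h3 hab'
  have e3 : t = t' := by
    rw [e2] at h1
    linear_combination h1
  apply Equiv.ext
  intro z
  rw [h, h', e2, e3]

open Classical in
theorem cnt (hUD : Stmt_UD) {P : Finset ℂ} (𝒜 : Finset Gp) (M : Gp → Finset ℂ)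
    (Z : Finset (ℂ × ℂ × ℂ)) (F : Gp → (ℂ × ℂ) × ℂ → (ℂ × ℂ × ℂ) × (ℂ × ℂ))
    (hF : ∀ g ∈ 𝒜, ∀ t ∈ (M g).offDiag ×ˢ M g, (F g t).1 ∈ Z ∧ (F g t).2 ∈ P ×ˢ P ∧
      dist (F g t).2.1 (F g t).2.2 = dist (F g t).1.1 (F g t).1.2.1)
    (hinj : ∀ g ∈ 𝒜, ∀ g' ∈ 𝒜, ∀ t ∈ (M g).offDiag ×ˢ M g, ∀ t' ∈ (M g').offDiag ×ˢ M g',
      F g t = F g' t' → g = g' ∧ t = t')
    (hZ : ∀ z ∈ Z, z.1 ≠ z.2.1) :
    ∑ g ∈ 𝒜, ((M g).card : ℝ) ^ 2 * ((M g).card - 1) ≤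
      Z.card * (3 * P.card * Real.sqrt P.card) := by
  have h1 : ∀ g ∈ 𝒜, ((M g).card : ℝ) ^ 2 * ((M g).card - 1) =
      ((((M g).offDiag ×ˢ M g).card : ℕ) : ℝ) := by
    intro g _
    rw [card_product, offDiag_card]
    have h2 : (M g).card ≤ (M g).card * (M g).card := Nat.le_mul_self _
    rw [Nat.cast_mul, Nat.cast_sub h2]
    push_cast
    ring
  rw [sum_congr rfl h1]
  have h3 : ∑ g ∈ 𝒜, ((((M g).offDiag ×ˢ M g).card : ℕ) : ℝ) =
      (((𝒜.sigma (fun g => (M g).offDiag ×ˢ M g)).card : ℕ) : ℝ) := by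
    rw [card_sigma]
    push_cast
    rfl
  rw [h3]
  have h4 : (𝒜.sigma (fun g => (M g).offDiag ×ˢ M g)).card ≤
      (Z.sigma (fun z => (P ×ˢ P).filter (fun q => dist q.1 q.2 = dist z.1 z.2.1))).card := by
    apply card_le_card_of_injOn (fun x : (Σ _ : Gp, (ℂ × ℂ) × ℂ) =>
      (⟨(F x.1 x.2).1, (F x.1 x.2).2⟩ : Σ _ : ℂ × ℂ × ℂ, ℂ × ℂ))
    · intro x hx
      have hx' := mem_coe.1 hx
      rw [mem_sigma] at hx'
      obtain ⟨hx1, hx2⟩ := hx'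
      obtain ⟨h5, h6, h7⟩ := hF x.1 hx1 x.2 hx2
      rw [mem_coe, mem_sigma]
      exact ⟨h5, mem_filter.2 ⟨h6, h7⟩⟩
    · intro x hx y hy hxy
      have hx' := mem_coe.1 hx
      have hy' := mem_coe.1 hy
      rw [mem_sigma] at hx' hy'
      obtain ⟨hx1, hx2⟩ := hx'
      obtain ⟨hy1, hy2⟩ := hy'
      have h5 : F x.1 x.2 = F y.1 y.2 := by
        simp only [Sigma.mk.injEq, heq_eq_eq] at hxy
        exact Prod.ext hxy.1 hxy.2
      obtain ⟨h6, h7⟩ := hinj x.1 hx1 y.1 hy1 x.2 hx2 y.2 hy2 h5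
      exact Sigma.ext h6 (heq_of_eq h7)
  have h5 : (((Z.sigma (fun z => (P ×ˢ P).filter
      (fun q => dist q.1 q.2 = dist z.1 z.2.1))).card : ℕ) : ℝ) ≤
      Z.card * (3 * P.card * Real.sqrt P.card) := by
    rw [card_sigma]
    push_cast
    calc ∑ z ∈ Z, ((((P ×ˢ P).filter (fun q => dist q.1 q.2 = dist z.1 z.2.1)).card : ℕ) : ℝ)
        ≤ ∑ z ∈ Z, (3 * P.card * Real.sqrt P.card) := by
          apply sum_le_sum
          intro z hz
          exact hUD P _ (dist_pos.2 (hZ z hz))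
      _ = Z.card * (3 * P.card * Real.sqrt P.card) := by rw [sum_const, nsmul_eq_mul]
  calc (((𝒜.sigma (fun g => (M g).offDiag ×ˢ M g)).card : ℕ) : ℝ)
      ≤ (((Z.sigma (fun z => (P ×ˢ P).filter
          (fun q => dist q.1 q.2 = dist z.1 z.2.1))).card : ℕ) : ℝ) := by exact_mod_cast h4
    _ ≤ _ := h5

theorem cube_le {r m : ℕ} (h1 : r ≤ 2 * m) (h2 : 8 ≤ r) :
    (r : ℝ) ^ 3 ≤ 11 * ((m : ℝ) ^ 2 * (m - 1)) := by
  have h3 : (4 : ℝ) ≤ m := by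
    have : 4 ≤ m := by omega
    exact_mod_cast this
  have h4 : (r : ℝ) ≤ 2 * m := by exact_mod_cast h1
  calc (r : ℝ) ^ 3 ≤ (2 * (m : ℝ)) ^ 3 := pow_le_pow_left₀ (Nat.cast_nonneg _) h4 3
    _ = (m : ℝ) ^ 2 * (8 * m) := by ring
    _ ≤ (m : ℝ) ^ 2 * (11 * (m - 1)) := by
        apply mul_le_mul_of_nonneg_left _ (by positivity)
        linarith
    _ = 11 * ((m : ℝ) ^ 2 * (m - 1)) := by ring

end HCP

open HCP

/-- HCP -/
theorem stmt_HCP (hCT3 : Stmt_CT3) (hUD : Stmt_UD) (hRR : Stmt_RR) : Stmt_HCP := by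
  classical
  intro ε hε
  obtain ⟨n₀, hn₀⟩ := hCT3 (ε / 66) (by positivity)
  refine ⟨n₀, ?_⟩
  intro P δ 𝒢 hP hδ h𝒢
  obtain ⟨K, hK, hZc⟩ := hn₀ P hP
  -- the lines
  have hex : ∀ g : Gp, ∃ l : ℂ × ℂ, g ∈ 𝒢 → l.2 ≠ 0 ∧ (st P g).card ≤ 2 * (pts (st P g) l).card := by
    intro g
    by_cases hg : g ∈ 𝒢
    · obtain ⟨l, hl⟩ := (h𝒢 g hg).2.1
      exact ⟨l, fun _ => hl⟩
    · exact ⟨0, fun h => absurd h hg⟩
  choose L hL using hex
  obtain ⟨Z, hZ⟩ : ∃ Z, Z = (P ×ˢ P ×ˢ P).filter (fun z => z.1 ≠ z.2.1 ∧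
      On (z.1, z.2.1 - z.1) z.2.2 ∧ (pts P (z.1, z.2.1 - z.1)).card < K) := ⟨_, rfl⟩
  rw [← hZ] at hZc
  have hZne : ∀ z ∈ Z, z.1 ≠ z.2.1 := by
    intro z hz
    rw [hZ, mem_filter] at hz
    exact hz.2.1
  obtain ⟨M, hM⟩ : ∃ M : Gp → Finset ℂ, M = fun g => pts (st P g) (L g) := ⟨_, rfl⟩
  have hMm : ∀ g a, a ∈ M g ↔ (a ∈ P ∧ g a ∈ P) ∧ On (L g) a := by
    intro g a
    rw [hM]
    unfold pts st
    rw [mem_filter, mem_filter]
  obtain ⟨A, hA⟩ : ∃ A, A = 𝒢.filter (fun g => (pts P (L g)).card < K) := ⟨_, rfl⟩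
  obtain ⟨A', hA'⟩ : ∃ A', A' = 𝒢.filter (fun g => ¬ (pts P (L g)).card < K) := ⟨_, rfl⟩
  obtain ⟨B, hB⟩ : ∃ B, B = A'.filter (fun g =>
    (pts P (g (L g).1, g ((L g).1 + (L g).2) - g (L g).1)).card < K) := ⟨_, rfl⟩
  obtain ⟨C, hC⟩ : ∃ C, C = A'.filter (fun g =>
    ¬ (pts P (g (L g).1, g ((L g).1 + (L g).2) - g (L g).1)).card < K) := ⟨_, rfl⟩
  have hsplit : ∑ g ∈ 𝒢, ((st P g).card : ℝ) ^ 3 = ∑ g ∈ A, ((st P g).card : ℝ) ^ 3 +
      (∑ g ∈ B, ((st P g).card : ℝ) ^ 3 + ∑ g ∈ C, ((st P g).card : ℝ) ^ 3) := by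
    rw [hB, hC, sum_filter_add_sum_filter_not, hA, hA', sum_filter_add_sum_filter_not]
  have hA'G : A' ⊆ 𝒢 := by rw [hA']; exact filter_subset _ _
  have hAG : A ⊆ 𝒢 := by rw [hA]; exact filter_subset _ _
  have hBG : B ⊆ 𝒢 := by
    rw [hB]; exact (filter_subset _ _).trans hA'G
  have hCG : C ⊆ 𝒢 := by
    rw [hC]; exact (filter_subset _ _).trans hA'G
  have hn0 : (0 : ℝ) ≤ P.card := Nat.cast_nonneg _
  have hsq : Real.sqrt P.card * Real.sqrt P.card = P.card := Real.mul_self_sqrt hn0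
  have hcub : ∀ 𝒜 ⊆ 𝒢, ∑ g ∈ 𝒜, ((M g).card : ℝ) ^ 2 * ((M g).card - 1) ≤
      Z.card * (3 * P.card * Real.sqrt P.card) →
      ∑ g ∈ 𝒜, ((st P g).card : ℝ) ^ 3 ≤ ε / 2 * (P.card : ℝ) ^ 4 := by
    intro 𝒜 h𝒜 hsum
    calc ∑ g ∈ 𝒜, ((st P g).card : ℝ) ^ 3
        ≤ ∑ g ∈ 𝒜, 11 * (((M g).card : ℝ) ^ 2 * ((M g).card - 1)) := by
          apply sum_le_sum
          intro g hg
          have h1 := (hL g (h𝒜 hg)).2
          have h2 := (h𝒢 g (h𝒜 hg)).2.2.1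
          have h3 : (M g).card = (pts (st P g) (L g)).card := by rw [hM]
          rw [h3]
          exact cube_le h1 h2
      _ = 11 * ∑ g ∈ 𝒜, ((M g).card : ℝ) ^ 2 * ((M g).card - 1) := by rw [mul_sum]
      _ ≤ 11 * (Z.card * (3 * P.card * Real.sqrt P.card)) := by gcongr
      _ ≤ 11 * ((ε / 66 * (P.card : ℝ) ^ 2 * Real.sqrt P.card) *
            (3 * P.card * Real.sqrt P.card)) := by gcongr
      _ = ε / 2 * (P.card : ℝ) ^ 3 * (Real.sqrt P.card * Real.sqrt P.card) := by ring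
      _ = ε / 2 * (P.card : ℝ) ^ 4 := by rw [hsq]; ring
  -- poor lines
  have hSA : ∑ g ∈ A, ((st P g).card : ℝ) ^ 3 ≤ ε / 2 * (P.card : ℝ) ^ 4 := by
    apply hcub A hAG
    apply cnt hUD A M Z (fun g t => ((t.1.1, t.1.2, t.2), (g t.1.1, g t.1.2)))
    · intro g hg t ht
      rw [mem_product, mem_offDiag] at ht
      obtain ⟨⟨ha, hb, hab⟩, hc⟩ := ht
      rw [hMm] at ha hb hc
      have hgA := hg
      rw [hA, mem_filter] at hgA
      refine ⟨?_, ?_, ?_⟩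
      · rw [hZ, mem_filter, mem_product, mem_product]
        refine ⟨⟨ha.1.1, hb.1.1, hc.1.1⟩, hab, ?_, ?_⟩
        · exact (line_iff ha.2 hb.2 hab _).2 hc.2
        · change (pts P (t.1.1, t.1.2 - t.1.1)).card < K
          rw [pts_eq ha.2 hb.2 hab]
          exact hgA.2
      · rw [mem_product]
        exact ⟨ha.1.2, hb.1.2⟩
      · exact dir_dist (h𝒢 g (hAG hg)).1 _ _
    · intro g hg g' hg' t ht t' ht' hFF
      rw [mem_product, mem_offDiag] at ht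
      obtain ⟨⟨ha, hb, hab⟩, hc⟩ := ht
      simp only [Prod.mk.injEq] at hFF
      obtain ⟨⟨h1, h2, h3⟩, h4, h5⟩ := hFF
      have h6 : g = g' := by
        apply dir_two (h𝒢 g (hAG hg)).1 (h𝒢 g' (hAG hg')).1 hab
        · rw [h4, h1]
        · rw [h5, h2]
      exact ⟨h6, Prod.ext (Prod.ext h1 h2) h3⟩
    · exact hZne
  have hSB : ∑ g ∈ B, ((st P g).card : ℝ) ^ 3 ≤ ε / 2 * (P.card : ℝ) ^ 4 := by
    apply hcub B hBG
    apply cnt hUD B M Z (fun g t => ((g t.1.1, g t.1.2, g t.2), (t.1.1, t.1.2)))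
    · intro g hg t ht
      rw [mem_product, mem_offDiag] at ht
      obtain ⟨⟨ha, hb, hab⟩, hc⟩ := ht
      rw [hMm] at ha hb hc
      have hdir := (h𝒢 g (hBG hg)).1
      have hgB := hg
      rw [hB, mem_filter] at hgB
      have hgab : g t.1.1 ≠ g t.1.2 := fun h => hab (g.injective h)
      refine ⟨?_, ?_, ?_⟩
      · rw [hZ, mem_filter, mem_product, mem_product]
        refine ⟨⟨ha.1.2, hb.1.2, hc.1.2⟩, hgab, ?_, ?_⟩
        · exact (line_iff (on_img hdir ha.2) (on_img hdir hb.2) hgab _).2 (on_img hdir hc.2)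
        · change (pts P (g t.1.1, g t.1.2 - g t.1.1)).card < K
          rw [pts_eq (on_img hdir ha.2) (on_img hdir hb.2) hgab]
          exact hgB.2
      · rw [mem_product]
        exact ⟨ha.1.1, hb.1.1⟩
      · exact (dir_dist hdir _ _).symm
    · intro g hg g' hg' t ht t' ht' hFF
      rw [mem_product, mem_offDiag] at ht
      obtain ⟨⟨ha, hb, hab⟩, hc⟩ := ht
      simp only [Prod.mk.injEq] at hFF
      obtain ⟨⟨h1, h2, h3⟩, h4, h5⟩ := hFF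
      have h6 : g = g' := by
        apply dir_two (h𝒢 g (hBG hg)).1 (h𝒢 g' (hBG hg')).1 hab
        · rw [h1, h4]
        · rw [h2, h5]
      refine ⟨h6, Prod.ext (Prod.ext h4 h5) ?_⟩
      rw [← h6] at h3
      exact g.injective h3
    · exact hZne
  -- rich lines
  have hSC : ∑ g ∈ C, ((st P g).card : ℝ) ^ 3 ≤ 16 * δ ^ 2 * (P.card : ℝ) ^ 4 := by
    have h1 : ∑ g ∈ C, (pts (st P g) (L g)).card ≤ 8 * P.card ^ 2 := by
      apply hRR P K C L hK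
      intro g hg
      have hgC := hg
      rw [hC, mem_filter] at hgC
      obtain ⟨hgA', hg2⟩ := hgC
      rw [hA', mem_filter] at hgA'
      exact ⟨(h𝒢 g (hCG hg)).1, (hL g (hCG hg)).1, not_lt.1 hgA'.2, not_lt.1 hg2⟩
    have h1' : ∑ g ∈ C, ((pts (st P g) (L g)).card : ℝ) ≤ 8 * (P.card : ℝ) ^ 2 := by
      exact_mod_cast h1
    calc ∑ g ∈ C, ((st P g).card : ℝ) ^ 3
        ≤ ∑ g ∈ C, 2 * (δ * P.card) ^ 2 * ((pts (st P g) (L g)).card : ℝ) := by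
          apply sum_le_sum
          intro g hg
          have h2 : ((st P g).card : ℝ) ≤ 2 * ((pts (st P g) (L g)).card : ℝ) := by
            exact_mod_cast (hL g (hCG hg)).2
          have h3 := (h𝒢 g (hCG hg)).2.2.2
          calc ((st P g).card : ℝ) ^ 3 = ((st P g).card : ℝ) ^ 2 * ((st P g).card : ℝ) := by ring
            _ ≤ (δ * P.card) ^ 2 * (2 * ((pts (st P g) (L g)).card : ℝ)) := by gcongr
            _ = 2 * (δ * P.card) ^ 2 * ((pts (st P g) (L g)).card : ℝ) := by ring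
      _ = 2 * (δ * P.card) ^ 2 * ∑ g ∈ C, ((pts (st P g) (L g)).card : ℝ) := by rw [mul_sum]
      _ ≤ 2 * (δ * P.card) ^ 2 * (8 * (P.card : ℝ) ^ 2) := by gcongr
      _ = 16 * δ ^ 2 * (P.card : ℝ) ^ 4 := by ring
  rw [hsplit]
  linarith

end Pool.RF
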