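import Pool.Agent.Work.MP_dc37f8_rf.Interface

/-!
Block HS: a polynomial of small degree which bisects `N` classes (from BIS).
-/

set_option autoImplicit false

open Finset

namespace Pool.RF

namespace HS

theorem card_sub {α : Type} (R : Finset α) (Q : α → α → Prop)
    [DecidablePred (fun z : {x // x ∈ R} × {x // x ∈ R} => Q z.1 z.2)]
    [DecidablePred (fun z : α × α => Q z.1 z.2)] :
    ((univ : Finset ({x // x ∈ R} × {x // x ∈ R})).filter (fun z => Q z.1 z.2)).card =
      ((R ×ˢ R).filter (fun z => Q z.1 z.2)).card := by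
  refine Finset.card_bij (fun z _ => ((z.1 : α), (z.2 : α))) ?_ ?_ ?_
  · intro z hz
    rw [mem_filter] at hz ⊢
    exact ⟨mem_product.2 ⟨z.1.2, z.2.2⟩, hz.2⟩
  · intro z _ z' _ h
    have h1 := congrArg Prod.fst h
    have h2 := congrArg Prod.snd h
    exact Prod.ext (Subtype.ext h1) (Subtype.ext h2)
  · intro z hz
    rw [mem_filter, mem_product] at hz
    exact ⟨(⟨z.1, hz.1.1⟩, ⟨z.2, hz.1.2⟩), mem_filter.2 ⟨mem_univ _, hz.2⟩, rfl⟩

/-- the exponent with number `k` -/
noncomputable def ex (m e : ℕ) (k : Fin (e ^ m)) : Fin m →₀ ℕ :=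
  Finsupp.equivFunOnFinite.symm (fun i => ((finFunctionFinEquiv.symm k i : Fin e) : ℕ))

theorem ex_apply (m e : ℕ) (k : Fin (e ^ m)) (i : Fin m) :
    ex m e k i = ((finFunctionFinEquiv.symm k i : Fin e) : ℕ) := rfl

theorem ex_inj (m e : ℕ) : Function.Injective (ex m e) := by
  intro k k' h
  apply finFunctionFinEquiv.symm.injective
  funext i
  apply Fin.ext
  have := DFunLike.congr_fun h i
  exact this

/-- the polynomial with coefficients `v` -/
noncomputable def pol (m e : ℕ) (v : Fin (e ^ m) → ℝ) : MvPolynomial (Fin m) ℝ :=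
  ∑ k, MvPolynomial.monomial (ex m e k) (v k)

theorem pol_ne (m e : ℕ) (v : Fin (e ^ m) → ℝ) (hv : v ≠ 0) : pol m e v ≠ 0 := by
  obtain ⟨k, hk⟩ := Function.ne_iff.1 hv
  intro h
  apply hk
  have h1 := congrArg (MvPolynomial.coeff (ex m e k)) h
  unfold pol at h1
  rw [MvPolynomial.coeff_sum, MvPolynomial.coeff_zero] at h1
  rw [Pi.zero_apply, ← h1]
  rw [sum_eq_single k]
  · rw [MvPolynomial.coeff_monomial, if_pos rfl]
  · intro k' _ hk'
    rw [MvPolynomial.coeff_monomial, if_neg]
    intro h2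
    exact hk' (ex_inj m e h2)
  · intro h2
    exact absurd (mem_univ _) h2

theorem pol_deg (m e : ℕ) (v : Fin (e ^ m) → ℝ) : (pol m e v).totalDegree ≤ m * e := by
  unfold pol
  apply MvPolynomial.totalDegree_finsetSum_le
  intro k _
  refine (MvPolynomial.totalDegree_monomial_le _ _).trans ?_
  rw [Finsupp.sum_fintype _ _ (fun _ => rfl)]
  simp only [id]
  calc ∑ i, ex m e k i ≤ ∑ _i : Fin m, e := by
        apply sum_le_sum
        intro i _
        rw [ex_apply]
        exact (finFunctionFinEquiv.symm k i).isLt.le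
    _ = m * e := by rw [sum_const, card_univ, Fintype.card_fin, smul_eq_mul]

theorem pol_eval (m e : ℕ) (v : Fin (e ^ m) → ℝ) (x : Fin m → ℝ) :
    MvPolynomial.eval x (pol m e v) = (fun k => ∏ i, x i ^ (ex m e k i)) ⬝ᵥ v := by
  unfold pol dotProduct
  rw [map_sum]
  refine sum_congr rfl (fun k _ => ?_)
  rw [MvPolynomial.eval_monomial, mul_comm]
  congr 1
  rw [Finsupp.prod_fintype]
  intro i
  exact pow_zero _

end HS

theorem stmt_HS (hBIS : Stmt_BIS) : Stmt_HS := by
  classical
  intro m e N R c hm hc hN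
  obtain ⟨v, hv, hcount⟩ := hBIS {x // x ∈ R} (Fin N) (fun x => ⟨c x.1, hc x.1 x.2⟩) (e ^ m)
    (fun x k => ∏ i, x.1 i ^ (HS.ex m e k i)) (by
      refine le_trans (Nat.add_le_add_left (sum_le_sum (g := fun _ => 5)
        (fun j _ => min_le_left _ _)) 1) ?_
      rw [sum_const, card_univ, Fintype.card_fin, smul_eq_mul]
      omega)
  refine ⟨HS.pol m e v, HS.pol_ne m e v hv, HS.pol_deg m e v, ?_⟩
  have h1 := HS.card_sub R (fun x y => c x = c y ∧
    0 < MvPolynomial.eval x (HS.pol m e v) * MvPolynomial.eval y (HS.pol m e v))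
  have h2 := HS.card_sub R (fun x y => c x = c y)
  rw [Fintype.card_coe] at hcount
  rw [← h1, ← h2]
  simp only [HS.pol_eval]
  simp only [Fin.mk.injEq] at hcount
  exact hcount

end Pool.RF
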