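import Pool.Agent.Work.MP_dc37f8_rf.Interface

/-! Block INC2: incidences in the plane. -/

set_option autoImplicit false

open Finset

namespace Pool.RF

open Pool.BK Pool.BD

theorem stmt_INC2 (h : Stmt_INCX) : Stmt_INC2 := by
  classical
  refine ⟨36 * 132 ^ 3, by norm_num, ?_⟩
  intro k R 𝓛 hk hLF hJT
  have hex : ∃ i : ℕ, 6 * R.card ≤ 3 ^ i * k := by
    refine ⟨6 * R.card, ?_⟩
    have h1 : 6 * R.card < 3 ^ (6 * R.card) := Nat.lt_pow_self (by norm_num)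
    calc 6 * R.card ≤ 3 ^ (6 * R.card) * 1 := by omega
      _ ≤ 3 ^ (6 * R.card) * k := Nat.mul_le_mul_left _ (by omega)
  set i := Nat.find hex with hi
  have hspec : 6 * R.card ≤ 3 ^ i * k := Nat.find_spec hex
  have hk0 : (0 : ℝ) < k := by exact_mod_cast (by omega : 0 < k)
  have hL0 : (0 : ℝ) ≤ 𝓛.card := Nat.cast_nonneg _
  have hR0 : (0 : ℝ) ≤ R.card := Nat.cast_nonneg _
  have hcond : 6 * (4 / 7 : ℝ) ^ (2 * i) * R.card ≤ k := by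
    have h2 : ((4 / 7 : ℝ)) ^ (2 * i) ≤ (1 / 3) ^ i := by
      rw [pow_mul]
      exact pow_le_pow_left₀ (by norm_num) (by norm_num) i
    have h3 : (6 : ℝ) * R.card ≤ 3 ^ i * k := by exact_mod_cast hspec
    have h4 : ((1 : ℝ) / 3) ^ i * 3 ^ i = 1 := by
      rw [← mul_pow]; norm_num
    calc 6 * (4 / 7 : ℝ) ^ (2 * i) * R.card = (4 / 7 : ℝ) ^ (2 * i) * (6 * R.card) := by ring
      _ ≤ (1 / 3) ^ i * (6 * R.card) := mul_le_mul_of_nonneg_right h2 (by positivity)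
      _ ≤ (1 / 3) ^ i * (3 ^ i * k) := mul_le_mul_of_nonneg_left h3 (by positivity)
      _ = ((1 / 3) ^ i * 3 ^ i) * k := by ring
      _ = k := by rw [h4, one_mul]
  have hmain := h 2 i k R 𝓛 (le_refl 2) hk hLF hJT hcond
  push_cast at hmain
  rcases Nat.eq_zero_or_pos i with h0 | hpos
  · rw [h0] at hmain
    norm_num at hmain
    have h5 : (k : ℝ) * R.card ≤ 68 * 𝓛.card := by linarith
    have hk4 : (0 : ℝ) ≤ (k : ℝ) ^ 4 := by positivity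
    have h6 : (R.card : ℝ) * (k : ℝ) ^ 5 ≤ 68 * (𝓛.card * (k : ℝ) ^ 4) := by
      calc (R.card : ℝ) * (k : ℝ) ^ 5 = ((k : ℝ) * R.card) * (k : ℝ) ^ 4 := by ring
        _ ≤ (68 * 𝓛.card) * (k : ℝ) ^ 4 := mul_le_mul_of_nonneg_right h5 hk4
        _ = 68 * (𝓛.card * (k : ℝ) ^ 4) := by ring
    have h7 : (0 : ℝ) ≤ (𝓛.card : ℝ) ^ 3 := by positivity
    have h8 : (0 : ℝ) ≤ 𝓛.card * (k : ℝ) ^ 4 := by positivity
    nlinarith
  · obtain ⟨j, hj⟩ : ∃ j, i = j + 1 := ⟨i - 1, by omega⟩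
    have hmin : ¬ (6 * R.card ≤ 3 ^ j * k) := Nat.find_min hex (by omega)
    have hlt : (3 : ℝ) ^ j * k < 6 * R.card := by exact_mod_cast not_le.1 hmin
    rw [hj] at hmain
    have hone : (1 : ℝ) ≤ 2 ^ j := one_le_pow₀ (by norm_num)
    have h5 : (k : ℝ) * R.card ≤ 132 * 𝓛.card * 2 ^ j := by
      have e : (4 : ℝ) * 𝓛.card * (1 + 4 * 2 ^ 2 * 2 ^ (j + 1)) ≤ 132 * 𝓛.card * 2 ^ j := by
        have hs : (2 : ℝ) ^ (j + 1) = 2 * 2 ^ j := by ring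
        have : (1 : ℝ) + 4 * 2 ^ 2 * 2 ^ (j + 1) ≤ 33 * 2 ^ j := by
          rw [hs]; linarith
        calc (4 : ℝ) * 𝓛.card * (1 + 4 * 2 ^ 2 * 2 ^ (j + 1)) ≤ 4 * 𝓛.card * (33 * 2 ^ j) :=
              mul_le_mul_of_nonneg_left this (by positivity)
          _ = 132 * 𝓛.card * 2 ^ j := by ring
      exact hmain.trans e
    have h6 : ((2 : ℝ) ^ j) ^ 3 * (k : ℝ) ^ 2 ≤ 36 * (R.card : ℝ) ^ 2 := by
      have a1 : ((2 : ℝ) ^ j) ^ 3 ≤ ((3 : ℝ) ^ j) ^ 2 := by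
        rw [← pow_mul, ← pow_mul, mul_comm j 3, mul_comm j 2, pow_mul, pow_mul]
        exact pow_le_pow_left₀ (by norm_num) (by norm_num) j
      calc ((2 : ℝ) ^ j) ^ 3 * (k : ℝ) ^ 2 ≤ ((3 : ℝ) ^ j) ^ 2 * (k : ℝ) ^ 2 :=
            mul_le_mul_of_nonneg_right a1 (by positivity)
        _ = (3 ^ j * k) ^ 2 := by ring
        _ ≤ (6 * (R.card : ℝ)) ^ 2 := pow_le_pow_left₀ (by positivity) hlt.le 2
        _ = 36 * (R.card : ℝ) ^ 2 := by ring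
    have h7 : ((k : ℝ) * R.card) ^ 3 * (k : ℝ) ^ 2 ≤
        (132 ^ 3 * (𝓛.card : ℝ) ^ 3) * (36 * (R.card : ℝ) ^ 2) := by
      calc ((k : ℝ) * R.card) ^ 3 * (k : ℝ) ^ 2 ≤ (132 * 𝓛.card * 2 ^ j) ^ 3 * (k : ℝ) ^ 2 :=
            mul_le_mul_of_nonneg_right (pow_le_pow_left₀ (by positivity) h5 3) (by positivity)
        _ = (132 ^ 3 * (𝓛.card : ℝ) ^ 3) * (((2 : ℝ) ^ j) ^ 3 * (k : ℝ) ^ 2) := by ring
        _ ≤ _ := mul_le_mul_of_nonneg_left h6 (by positivity)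
    have h8 : (0 : ℝ) ≤ (36 * 132 ^ 3) * (𝓛.card * (k : ℝ) ^ 4) := by positivity
    rcases hR0.eq_or_lt with hz | hp
    · rw [← hz, zero_mul]
      positivity
    · have h9 : (R.card : ℝ) ^ 2 * ((R.card : ℝ) * (k : ℝ) ^ 5) ≤
          (R.card : ℝ) ^ 2 * (36 * 132 ^ 3 * (𝓛.card : ℝ) ^ 3) := by
        calc (R.card : ℝ) ^ 2 * ((R.card : ℝ) * (k : ℝ) ^ 5) =
            ((k : ℝ) * R.card) ^ 3 * (k : ℝ) ^ 2 := by ring
          _ ≤ _ := h7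
          _ = _ := by ring
      have h10 := le_of_mul_le_mul_left h9 (by positivity)
      linarith

end Pool.RF
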