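import Pool.Agent.Work.MP_dc37f8_rf.Interface

/-! # INCX: incidences (helper44) -/

set_option autoImplicit false

open Finset

namespace Pool.RF

namespace INCX

/-- a set is at most the number of classes plus the number of ordered pairs of equivalent
different elements -/
lemma card_le_classes {α κ : Type} [DecidableEq α] [DecidableEq κ] (A : Finset α) (c : α → κ) :
    A.card ≤ (A.image c).card +
      ((A ×ˢ A).filter (fun z => z.1 ≠ z.2 ∧ c z.1 = c z.2)).card := by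
  rcases A.eq_empty_or_nonempty with h0 | ⟨a₀, -⟩
  · rw [h0, Finset.card_empty]
    exact Nat.zero_le _
  have hrep : ∀ k : κ, ∃ a : α, k ∈ A.image c → a ∈ A ∧ c a = k := by
    intro k
    by_cases hk : k ∈ A.image c
    · obtain ⟨a, ha, hak⟩ := Finset.mem_image.1 hk
      exact ⟨a, fun _ => ⟨ha, hak⟩⟩
    · exact ⟨a₀, fun h => absurd h hk⟩
  choose rep hrep using hrep
  have h1 : A ⊆ (A.image c).image rep ∪
      ((A ×ˢ A).filter (fun z => z.1 ≠ z.2 ∧ c z.1 = c z.2)).image (fun z => z.1) := by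
    intro x hx
    by_cases h : rep (c x) = x
    · apply Finset.mem_union_left
      rw [Finset.mem_image]
      exact ⟨c x, Finset.mem_image_of_mem c hx, h⟩
    · apply Finset.mem_union_right
      rw [Finset.mem_image]
      refine ⟨(x, rep (c x)), ?_, rfl⟩
      rw [Finset.mem_filter, Finset.mem_product]
      refine ⟨⟨hx, (hrep _ (Finset.mem_image_of_mem c hx)).1⟩, ?_, ?_⟩
      · intro h'
        exact h h'.symm
      · exact (hrep _ (Finset.mem_image_of_mem c hx)).2.symm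
  calc A.card ≤ ((A.image c).image rep ∪
      ((A ×ˢ A).filter (fun z => z.1 ≠ z.2 ∧ c z.1 = c z.2)).image (fun z => z.1)).card :=
        Finset.card_le_card h1
    _ ≤ ((A.image c).image rep).card + (((A ×ˢ A).filter
          (fun z => z.1 ≠ z.2 ∧ c z.1 = c z.2)).image (fun z => z.1)).card :=
        Finset.card_union_le _ _
    _ ≤ (A.image c).card + ((A ×ˢ A).filter (fun z => z.1 ≠ z.2 ∧ c z.1 = c z.2)).card :=
        Nat.add_le_add Finset.card_image_le Finset.card_image_le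

/-- membership in a filter, for every decidability instance -/
lemma mem_filter_any {α : Type} (p : α → Prop) (h : DecidablePred p) (s : Finset α) (a : α) :
    a ∈ @Finset.filter α p h s ↔ a ∈ s ∧ p a := @Finset.mem_filter α p h s a

open Classical in
/-- the first case: many points off the polynomials -/
lemma count {m J : ℕ} (hCELL : Stmt_CELL) (F : Fin J → MvPolynomial (Fin m) ℝ)
    (R : Finset (Fin m → ℝ)) (𝓛 : Finset ((Fin m → ℝ) × (Fin m → ℝ))) (hL : LF 𝓛) (k : ℕ)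
    (hk : ∀ x ∈ R, k ≤ (thr 𝓛 x).card) :
    k * (R.filter (fun x => ∀ j, MvPolynomial.eval x (F j) ≠ 0)).card ≤
      𝓛.card * (1 + ∑ j, (F j).totalDegree) +
      ((R ×ˢ R).filter (fun z => ∀ j,
        0 < MvPolynomial.eval z.1 (F j) * MvPolynomial.eval z.2 (F j))).card := by
  set R1 := R.filter (fun x => ∀ j, MvPolynomial.eval x (F j) ≠ 0) with hR1
  set sg : (Fin m → ℝ) → Fin J → SignType :=
    fun x j => SignType.sign (MvPolynomial.eval x (F j)) with hsg
  set D := ∑ j, (F j).totalDegree with hD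
  set Q := (R ×ˢ R).filter (fun z => ∀ j,
        0 < MvPolynomial.eval z.1 (F j) * MvPolynomial.eval z.2 (F j)) with hQ
  -- the sum over the lines
  have hdc : ∑ x ∈ R1, (thr 𝓛 x).card = ∑ l ∈ 𝓛, (R1.filter (fun x => OnM l x)).card := by
    unfold thr
    exact Finset.sum_card_bipartiteAbove_eq_sum_card_bipartiteBelow (s := R1) (t := 𝓛)
      (fun x l => OnM l x)
  have hlow : k * R1.card ≤ ∑ x ∈ R1, (thr 𝓛 x).card := by
    rw [mul_comm, ← smul_eq_mul]
    apply Finset.card_nsmul_le_sum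
    intro x hx
    exact hk x (Finset.mem_filter.1 hx).1
  -- each line
  have hline : ∀ l ∈ 𝓛, (R1.filter (fun x => OnM l x)).card ≤ (1 + D) +
      (Q.filter (fun z => z.1 ≠ z.2 ∧ OnM l z.1 ∧ OnM l z.2)).card := by
    intro l _
    have h1 := card_le_classes (R1.filter (fun x => OnM l x)) sg
    have h2 : ((R1.filter (fun x => OnM l x)).image sg).card ≤ 1 + D := by
      apply hCELL m J F l
      intro x hx
      rw [Finset.mem_filter, hR1, Finset.mem_filter] at hx
      exact ⟨hx.2, hx.1.2⟩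
    have h3 : (((R1.filter (fun x => OnM l x)) ×ˢ (R1.filter (fun x => OnM l x))).filter
        (fun z => z.1 ≠ z.2 ∧ sg z.1 = sg z.2)).card ≤
        (Q.filter (fun z => z.1 ≠ z.2 ∧ OnM l z.1 ∧ OnM l z.2)).card := by
      apply Finset.card_le_card
      intro z hz
      rw [Finset.mem_filter, Finset.mem_product, Finset.mem_filter, Finset.mem_filter, hR1,
        Finset.mem_filter, Finset.mem_filter] at hz
      obtain ⟨⟨⟨⟨hz1, hz1'⟩, hz1o⟩, ⟨⟨hz2, hz2'⟩, hz2o⟩⟩, hne, hs⟩ := hz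
      rw [Finset.mem_filter, hQ, Finset.mem_filter, Finset.mem_product]
      refine ⟨⟨⟨hz1, hz2⟩, ?_⟩, hne, hz1o, hz2o⟩
      intro j
      have hsj : SignType.sign (MvPolynomial.eval z.1 (F j)) =
          SignType.sign (MvPolynomial.eval z.2 (F j)) := congrFun hs j
      rcases lt_or_gt_of_ne (hz1' j) with h | h
      · have h' : MvPolynomial.eval z.2 (F j) < 0 := by
          rw [sign_neg h] at hsj
          exact sign_eq_neg_one_iff.1 hsj.symm
        exact mul_pos_of_neg_of_neg h h'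
      · have h' : 0 < MvPolynomial.eval z.2 (F j) := by
          rw [sign_pos h] at hsj
          exact sign_eq_one_iff.1 hsj.symm
        exact mul_pos h h'
    exact h1.trans (Nat.add_le_add h2 h3)
  -- the pairs
  have hpairs : ∑ l ∈ 𝓛, (Q.filter (fun z => z.1 ≠ z.2 ∧ OnM l z.1 ∧ OnM l z.2)).card ≤
      Q.card := by
    have h1 : ∑ l ∈ 𝓛, (Q.filter (fun z => z.1 ≠ z.2 ∧ OnM l z.1 ∧ OnM l z.2)).card =
        ∑ z ∈ Q, (𝓛.filter (fun l => z.1 ≠ z.2 ∧ OnM l z.1 ∧ OnM l z.2)).card :=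
      (Finset.sum_card_bipartiteAbove_eq_sum_card_bipartiteBelow (s := Q) (t := 𝓛)
        (fun (z : (Fin m → ℝ) × (Fin m → ℝ)) l =>
          z.1 ≠ z.2 ∧ OnM l z.1 ∧ OnM l z.2)).symm
    rw [h1]
    have h2 : ∀ z ∈ Q, (𝓛.filter (fun l => z.1 ≠ z.2 ∧ OnM l z.1 ∧ OnM l z.2)).card ≤ 1 := by
      intro z _
      rw [Finset.card_le_one]
      intro l hl l' hl'
      rw [Finset.mem_filter] at hl hl'
      by_contra hne
      exact hl.2.1 (hL.2 l hl.1 l' hl'.1 hne z.1 z.2 hl.2.2.1 hl.2.2.2 hl'.2.2.1 hl'.2.2.2)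
    calc ∑ z ∈ Q, (𝓛.filter (fun l => z.1 ≠ z.2 ∧ OnM l z.1 ∧ OnM l z.2)).card
        ≤ ∑ _z ∈ Q, 1 := Finset.sum_le_sum h2
      _ = Q.card := by simp
  calc k * R1.card ≤ ∑ l ∈ 𝓛, (R1.filter (fun x => OnM l x)).card := hlow.trans hdc.le
    _ ≤ ∑ l ∈ 𝓛, ((1 + D) +
      (Q.filter (fun z => z.1 ≠ z.2 ∧ OnM l z.1 ∧ OnM l z.2)).card) := Finset.sum_le_sum hline
    _ = 𝓛.card * (1 + D) +
      ∑ l ∈ 𝓛, (Q.filter (fun z => z.1 ≠ z.2 ∧ OnM l z.1 ∧ OnM l z.2)).card := by
        rw [Finset.sum_add_distrib, Finset.sum_const, smul_eq_mul]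
    _ ≤ 𝓛.card * (1 + D) + Q.card := Nat.add_le_add_left hpairs _

open Classical in
/-- the second case: many points on the polynomials -/
lemma vanish {m J : ℕ} (hPRUNE : Stmt_PRUNE) (hVAN : Stmt_VAN)
    (F : Fin J → MvPolynomial (Fin m) ℝ) (hF : ∀ j, F j ≠ 0)
    (R : Finset (Fin m → ℝ)) (𝓛 : Finset ((Fin m → ℝ) × (Fin m → ℝ))) (k : ℕ)
    (hJ : JT k R 𝓛)
    (hlt : 2 * (𝓛.card * (∑ j, (F j).totalDegree)) <
      k * (R.filter (fun x => ¬ ∀ j, MvPolynomial.eval x (F j) ≠ 0)).card) : False := by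
  set R2 := R.filter (fun x => ¬ ∀ j, MvPolynomial.eval x (F j) ≠ 0) with hR2
  set D := ∑ j, (F j).totalDegree with hD
  obtain ⟨S, hS, hSne, hSx⟩ := hPRUNE _ _ R2 𝓛 (fun x => thr 𝓛 x) k D
    (fun x hx => ⟨Finset.filter_subset _ _, (hJ x (Finset.mem_filter.1 hx).1).1⟩) hlt
  refine hVAN m D S (∏ j, F j) (Finset.prod_ne_zero_iff.2 (fun j _ => hF j))
    (MvPolynomial.totalDegree_finsetProd _ _) hSne ?_ ?_
  · intro x hx
    have hx2 := hS hx
    rw [hR2, Finset.mem_filter] at hx2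
    have hx3 := hx2.2
    rw [not_forall] at hx3
    obtain ⟨j, hj⟩ := hx3
    rw [map_prod]
    exact Finset.prod_eq_zero (Finset.mem_univ j) (not_not.1 hj)
  · intro x hx
    have hxR : x ∈ R := (Finset.mem_filter.1 (hS hx)).1
    obtain ⟨b, hb, hbi⟩ := (hJ x hxR).2 _ (Finset.filter_subset _ _) (hSx x hx)
    refine ⟨fun i => (b i).2, hbi, ?_⟩
    intro i
    obtain ⟨hb1, hb2⟩ := (mem_filter_any _ _ _ _).1 (hb i)
    refine lt_of_lt_of_le hb2 (Finset.card_le_card ?_)
    intro y hy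
    obtain ⟨hy1, hy2⟩ := (mem_filter_any _ _ _ _).1 hy
    rw [Finset.mem_filter]
    refine ⟨hy1, ?_⟩
    obtain ⟨s, hs⟩ := ((mem_filter_any _ _ _ _).1 hb1).2
    obtain ⟨s', hs'⟩ := ((mem_filter_any _ _ _ _).1 hy2).2
    refine ⟨s' - s, ?_⟩
    rw [hs', hs, sub_smul]
    abel

end INCX

open Classical in
theorem stmt_INCX (hPART : Stmt_PART) (hCELL : Stmt_CELL) (hPRUNE : Stmt_PRUNE)
    (hVAN : Stmt_VAN) : Stmt_INCX := by
  intro m i k R 𝓛 hm hk hL hJ h6
  obtain ⟨F, hF, hFd, hFp⟩ := hPART m i R hm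
  set R1 := R.filter (fun x => ∀ j, MvPolynomial.eval x (F j) ≠ 0) with hR1
  set R2 := R.filter (fun x => ¬ ∀ j, MvPolynomial.eval x (F j) ≠ 0) with hR2
  set D := ∑ j, (F j).totalDegree with hD
  have hsum : R1.card + R2.card = R.card := Finset.card_filter_add_card_filter_not _
  have hkR : (28 : ℝ) ≤ k := by exact_mod_cast hk
  have hDr : (D : ℝ) ≤ 4 * (m : ℝ) ^ 2 * 2 ^ i := by exact_mod_cast hFd
  have hR0 : (0 : ℝ) ≤ R.card := Nat.cast_nonneg _
  have hL0 : (0 : ℝ) ≤ 𝓛.card := Nat.cast_nonneg _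
  suffices hmain : (k : ℝ) * R.card ≤ 4 * 𝓛.card * (1 + D) by
    refine hmain.trans ?_
    apply mul_le_mul_of_nonneg_left _ (by positivity)
    linarith
  by_cases hcase : R.card ≤ 2 * R1.card
  · have h1 := INCX.count hCELL F R 𝓛 hL k (fun x hx => (hJ x hx).1)
    have h2 : (k : ℝ) * R1.card ≤ 𝓛.card * (1 + D) +
        ((4 / 7) ^ (m * i) * (R.card : ℝ) ^ 2 + 7 / 3 * R.card) := by
      refine le_trans ?_ (add_le_add_right hFp _)
      exact_mod_cast h1
    have h3 : (4 / 7 : ℝ) ^ (m * i) * (R.card : ℝ) ^ 2 ≤ k * R.card / 6 := by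
      have := mul_le_mul_of_nonneg_right h6 hR0
      nlinarith
    have h4 : (7 / 3 : ℝ) * R.card ≤ k * R.card / 12 := by
      have := mul_le_mul_of_nonneg_right hkR hR0
      nlinarith
    have h5 : (k : ℝ) * R.card ≤ 2 * (k * R1.card) := by
      have h6 : (R.card : ℝ) ≤ 2 * R1.card := by exact_mod_cast hcase
      have := mul_le_mul_of_nonneg_left h6 (by linarith : (0 : ℝ) ≤ k)
      nlinarith
    nlinarith
  · by_contra hcon
    rw [not_le] at hcase hcon
    have h1 : R.card < 2 * R2.card := by omega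
    have h2 : 4 * 𝓛.card * (1 + D) < k * R.card := by exact_mod_cast hcon
    refine INCX.vanish hPRUNE hVAN F hF R 𝓛 k hJ ?_
    rw [← hR2, ← hD]
    have h3 : k * R.card ≤ k * (2 * R2.card) := Nat.mul_le_mul_left _ h1.le
    have h4 : 4 * 𝓛.card * (1 + D) = 4 * 𝓛.card + 4 * (𝓛.card * D) := by ring
    have h5 : k * (2 * R2.card) = 2 * (k * R2.card) := by ring
    omega

end Pool.RF
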