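import Pool.Agent.Work.MP_dc37f8_rf.Interface

/-! Block LCOUNT (helper27) -/

set_option autoImplicit false

open Finset

namespace Pool.RF.LCOUNT

open Pool.BK Pool.BD

/-- slope and intercept of a line which is not vertical -/
noncomputable def slp (l : ℂ × ℂ) : ℝ := l.2.im / l.2.re

noncomputable def icp (l : ℂ × ℂ) : ℝ := l.1.im - slp l * l.1.re

noncomputable def xi (l : ℂ × ℂ) : Fin 2 → ℝ := ![slp l, icp l]

noncomputable def dl (q : ℂ) : (Fin 2 → ℝ) × (Fin 2 → ℝ) := (![0, q.im], ![1, -q.re])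

theorem on_iff (l : ℂ × ℂ) (h : l.2.re ≠ 0) (q : ℂ) :
    On l q ↔ q.im = slp l * q.re + icp l := by
  unfold On icp slp
  constructor
  · rintro ⟨s, rfl⟩
    simp only [Complex.add_re, Complex.add_im, Complex.mul_re, Complex.mul_im, Complex.ofReal_re,
      Complex.ofReal_im]
    field_simp
    ring
  · intro hq
    refine ⟨(q.re - l.1.re) / l.2.re, ?_⟩
    apply Complex.ext
    · simp only [Complex.add_re, Complex.mul_re, Complex.ofReal_re, Complex.ofReal_im]
      field_simp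
      ring
    · simp only [Complex.add_im, Complex.mul_im, Complex.ofReal_re, Complex.ofReal_im]
      rw [hq]
      field_simp
      ring

theorem onM_iff (x : Fin 2 → ℝ) (q : ℂ) : OnM (dl q) x ↔ x 1 = q.im - x 0 * q.re := by
  unfold OnM dl
  constructor
  · rintro ⟨s, rfl⟩
    simp
    ring
  · intro h
    refine ⟨x 0, ?_⟩
    ext i
    fin_cases i
    · simp
    · simp
      rw [h]
      ring

theorem dual_iff (l : ℂ × ℂ) (h : l.2.re ≠ 0) (q : ℂ) : OnM (dl q) (xi l) ↔ On l q := by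
  rw [onM_iff, on_iff l h]
  simp only [xi, Matrix.cons_val_zero, Matrix.cons_val_one]
  constructor
  · intro h1; linarith
  · intro h1; linarith

theorem dl_inj : Function.Injective dl := by
  intro q q' h
  unfold dl at h
  have h1 := congrArg (fun z => z.1 1) h
  have h2 := congrArg (fun z => z.2 1) h
  simp at h1 h2
  exact Complex.ext h2 h1

open Classical in
theorem nonvert (C : ℝ) (hC : 0 < C)
    (hinc : ∀ (k : ℕ) (R : Finset (Fin 2 → ℝ)) (𝓛 : Finset ((Fin 2 → ℝ) × (Fin 2 → ℝ))),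
      28 ≤ k → LF 𝓛 → JT k R 𝓛 →
      (R.card : ℝ) * (k : ℝ) ^ 5 ≤ C * ((𝓛.card : ℝ) ^ 3 + 𝓛.card * (k : ℝ) ^ 4))
    (P : Finset ℂ) (k : ℕ) (𝓝 : Finset (ℂ × ℂ)) (hk : 28 ≤ k)
    (h1 : ∀ l ∈ 𝓝, l.2.re ≠ 0 ∧ k ≤ (pts P l).card)
    (h2 : ∀ l ∈ 𝓝, ∀ l' ∈ 𝓝, l ≠ l' → (pts P l ∩ pts P l').card ≤ 1) :
    (𝓝.card : ℝ) * (k : ℝ) ^ 5 ≤ C * ((P.card : ℝ) ^ 3 + P.card * (k : ℝ) ^ 4) := by
  have hinj : Set.InjOn xi (𝓝 : Set (ℂ × ℂ)) := by
    intro l hl l' hl' he
    by_contra hne
    have h3 := h2 l hl l' hl' hne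
    have h4 : pts P l = pts P l' := by
      unfold pts
      apply Finset.filter_congr
      intro q _
      rw [← dual_iff l (h1 l hl).1, ← dual_iff l' (h1 l' hl').1, he]
    rw [← h4, Finset.inter_self] at h3
    have h5 := (h1 l hl).2
    omega
  have hcard : (𝓝.image xi).card = 𝓝.card := Finset.card_image_of_injOn hinj
  have hL : (P.image dl).card = P.card := Finset.card_image_of_injective _ dl_inj
  have hLF : LF (P.image dl) := by
    refine ⟨?_, ?_⟩
    · intro l hl h0
      obtain ⟨q, _, rfl⟩ := Finset.mem_image.1 hl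
      have h3 := congrFun h0 0
      simp [dl] at h3
    · intro l hl l' hl' hne x y hx hy hx' hy'
      obtain ⟨q, _, rfl⟩ := Finset.mem_image.1 hl
      obtain ⟨q', _, rfl⟩ := Finset.mem_image.1 hl'
      rw [onM_iff] at hx hy hx' hy'
      by_cases hxy : x 0 = y 0
      · ext i
        fin_cases i
        · exact hxy
        · change x 1 = y 1
          rw [hx, hy, hxy]
      · exfalso
        apply hne
        have e1 : (x 0 - y 0) * (q.re - q'.re) = 0 := by nlinarith
        have e2 : q.re = q'.re := by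
          rcases mul_eq_zero.1 e1 with h | h
          · exact absurd (sub_eq_zero.1 h) hxy
          · exact sub_eq_zero.1 h
        have e3 : q.im = q'.im := by
          rw [e2] at hx
          linarith
        rw [Complex.ext e2 e3]
  have hthr : ∀ l ∈ 𝓝, ∀ m ∈ thr (P.image dl) (xi l), ∃ q ∈ pts P l, m = dl q := by
    intro l hl m hm
    unfold thr at hm
    rw [Finset.mem_filter] at hm
    obtain ⟨q, hq, rfl⟩ := Finset.mem_image.1 hm.1
    refine ⟨q, ?_, rfl⟩
    unfold pts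
    rw [Finset.mem_filter]
    exact ⟨hq, (dual_iff l (h1 l hl).1 q).1 hm.2⟩
  have hJT : JT k (𝓝.image xi) (P.image dl) := by
    intro x hx
    obtain ⟨l, hl, rfl⟩ := Finset.mem_image.1 hx
    have hk2 : k ≤ (thr (P.image dl) (xi l)).card := by
      refine (h1 l hl).2.trans ?_
      rw [← Finset.card_image_of_injective (pts P l) dl_inj]
      apply Finset.card_le_card
      intro m hm
      obtain ⟨q, hq, rfl⟩ := Finset.mem_image.1 hm
      unfold pts at hq
      rw [Finset.mem_filter] at hq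
      unfold thr
      rw [Finset.mem_filter]
      exact ⟨Finset.mem_image_of_mem _ hq.1, (dual_iff l (h1 l hl).1 q).2 hq.2⟩
    refine ⟨hk2, ?_⟩
    intro 𝓜 hM hMc
    have hM2 : 1 < 𝓜.card := by omega
    obtain ⟨m, hm, m', hm', hmm⟩ := Finset.one_lt_card.1 hM2
    obtain ⟨q, hq, rfl⟩ := hthr l hl m (hM hm)
    obtain ⟨q', hq', rfl⟩ := hthr l hl m' (hM hm')
    have hqre : q.re ≠ q'.re := by
      intro he
      apply hmm
      unfold pts at hq hq'
      rw [Finset.mem_filter] at hq hq'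
      have e1 := (on_iff l (h1 l hl).1 q).1 hq.2
      have e2 := (on_iff l (h1 l hl).1 q').1 hq'.2
      rw [Complex.ext he (by rw [e1, e2, he])]
    refine ⟨![dl q, dl q'], ?_, ?_⟩
    · intro i
      fin_cases i
      · exact hm
      · exact hm'
    · rw [Fintype.linearIndependent_iff]
      intro g hg
      rw [Fin.sum_univ_two] at hg
      have g0 := congrFun hg 0
      have g1 := congrFun hg 1
      simp [dl] at g0 g1
      have g2 : g 0 * (q'.re - q.re) = 0 := by
        have e : g 1 = - g 0 := by linarith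
        rw [e] at g1
        linarith
      have g3 : g 0 = 0 := by
        rcases mul_eq_zero.1 g2 with h | h
        · exact h
        · exact absurd (sub_eq_zero.1 h).symm hqre
      intro i
      fin_cases i
      · exact g3
      · change g 1 = 0
        linarith
  have := hinc k (𝓝.image xi) (P.image dl) hk hLF hJT
  rw [hcard, hL] at this
  exact this

open Classical in
theorem vert (P : Finset ℂ) (k : ℕ) (𝓝 : Finset (ℂ × ℂ)) (hk : 28 ≤ k)
    (h1 : ∀ l ∈ 𝓝, l.2.re = 0 ∧ l.2 ≠ 0 ∧ k ≤ (pts P l).card)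
    (h2 : ∀ l ∈ 𝓝, ∀ l' ∈ 𝓝, l ≠ l' → (pts P l ∩ pts P l').card ≤ 1) :
    𝓝.card * k ≤ P.card := by
  have him : ∀ l ∈ 𝓝, l.2.im ≠ 0 := by
    intro l hl h0
    exact (h1 l hl).2.1 (Complex.ext (h1 l hl).1 h0)
  have hon : ∀ l ∈ 𝓝, ∀ q, On l q ↔ q.re = l.1.re := by
    intro l hl q
    have hre := (h1 l hl).1
    unfold On
    constructor
    · rintro ⟨s, rfl⟩
      simp [hre]
    · intro hq
      refine ⟨(q.im - l.1.im) / l.2.im, ?_⟩
      have := him l hl
      apply Complex.ext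
      · simp [hre, hq]
      · simp only [Complex.add_im, Complex.mul_im, Complex.ofReal_re, Complex.ofReal_im]
        field_simp
        ring
  have hdisj : ∀ l ∈ 𝓝, ∀ l' ∈ 𝓝, l ≠ l' → Disjoint (pts P l) (pts P l') := by
    intro l hl l' hl' hne
    rw [Finset.disjoint_left]
    intro q hq hq'
    unfold pts at hq hq'
    rw [Finset.mem_filter] at hq hq'
    have e1 := (hon l hl q).1 hq.2
    have e2 := (hon l' hl' q).1 hq'.2
    have h4 : pts P l = pts P l' := by
      unfold pts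
      apply Finset.filter_congr
      intro q _
      rw [hon l hl, hon l' hl', ← e1, ← e2]
    have h3 := h2 l hl l' hl' hne
    rw [← h4, Finset.inter_self] at h3
    have h5 := (h1 l hl).2.2
    omega
  calc 𝓝.card * k = ∑ _l ∈ 𝓝, k := by simp
    _ ≤ ∑ l ∈ 𝓝, (pts P l).card := Finset.sum_le_sum (fun l hl => (h1 l hl).2.2)
    _ = (𝓝.biUnion (fun l => pts P l)).card := by
        rw [Finset.card_biUnion]
        intro l hl l' hl' hne
        exact hdisj l hl l' hl' hne
    _ ≤ P.card := by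
        apply Finset.card_le_card
        intro q hq
        obtain ⟨l, _, hl⟩ := Finset.mem_biUnion.1 hq
        unfold pts at hl
        exact (Finset.mem_filter.1 hl).1

end Pool.RF.LCOUNT

namespace Pool.RF

open Pool.BK Pool.BD

open Classical in
theorem stmt_LCOUNT (h : Stmt_INC2) : Stmt_LCOUNT := by
  obtain ⟨C, hC, hinc⟩ := h
  refine ⟨C + 1, by linarith, ?_⟩
  intro P k 𝓝 hk h1 h2
  have ha := LCOUNT.nonvert C hC hinc P k (𝓝.filter (fun l => l.2.re ≠ 0)) hk
    (fun l hl => ⟨(Finset.mem_filter.1 hl).2, (h1 l (Finset.mem_filter.1 hl).1).2⟩)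
    (fun l hl l' hl' => h2 l (Finset.mem_filter.1 hl).1 l' (Finset.mem_filter.1 hl').1)
  have hb := LCOUNT.vert P k (𝓝.filter (fun l => ¬ l.2.re ≠ 0)) hk
    (fun l hl => ⟨not_not.1 (Finset.mem_filter.1 hl).2, (h1 l (Finset.mem_filter.1 hl).1).1,
      (h1 l (Finset.mem_filter.1 hl).1).2⟩)
    (fun l hl l' hl' => h2 l (Finset.mem_filter.1 hl).1 l' (Finset.mem_filter.1 hl').1)
  have hc := Finset.card_filter_add_card_filter_not (s := 𝓝) (fun l : ℂ × ℂ => l.2.re ≠ 0)
  have hcR : ((𝓝.filter (fun l => l.2.re ≠ 0)).card : ℝ) +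
      ((𝓝.filter (fun l => ¬ l.2.re ≠ 0)).card : ℝ) = 𝓝.card := by exact_mod_cast hc
  have hbR : ((𝓝.filter (fun l => ¬ l.2.re ≠ 0)).card : ℝ) * k ≤ P.card := by exact_mod_cast hb
  have hb4 : ((𝓝.filter (fun l => ¬ l.2.re ≠ 0)).card : ℝ) * (k : ℝ) ^ 5 ≤
      P.card * (k : ℝ) ^ 4 := by
    calc ((𝓝.filter (fun l => ¬ l.2.re ≠ 0)).card : ℝ) * (k : ℝ) ^ 5
        = (((𝓝.filter (fun l => ¬ l.2.re ≠ 0)).card : ℝ) * k) * (k : ℝ) ^ 4 := by ring
      _ ≤ P.card * (k : ℝ) ^ 4 := mul_le_mul_of_nonneg_right hbR (by positivity)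
  have h3 : (0 : ℝ) ≤ (P.card : ℝ) ^ 3 := by positivity
  rw [← hcR, add_mul]
  linarith

end Pool.RF
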