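import Pool.Agent.Work.MP_dc37f8_rf.InterfaceC

/-!
# MP_dc37f8_co, block LINC (helper79)

Isometries with a given linear part and pairs of points.
-/

set_option autoImplicit false

open Finset

namespace Pool.RF

open Pool.BK Pool.BD

namespace LINC

/-- isometries with the same linear part as `h` -/
theorem form {h g : Gp} {w s : ℂ} (hh : ∀ z, h z = w * z + s) (hg : IsTr (g * h⁻¹)) :
    ∃ t : ℂ, ∀ z, g z = w * z + t := by
  obtain ⟨t, ht⟩ := hg
  refine ⟨s + t, fun z => ?_⟩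
  have h1 := ht (h z)
  have h2 : (g * h⁻¹) (h z) = g z := by
    rw [Equiv.Perm.mul_apply, Equiv.Perm.inv_def, Equiv.symm_apply_apply]
  rw [h2, hh] at h1
  rw [h1]
  ring

open Classical in
/-- the pairs of `G` with difference `d` -/
noncomputable def RG (G : Finset (ℂ × ℂ)) (d : ℂ) : Finset (ℂ × ℂ) :=
  G.filter (fun z => z.1 - z.2 = d)

theorem mem_RG (G : Finset (ℂ × ℂ)) (d : ℂ) (z : ℂ × ℂ) :
    z ∈ RG G d ↔ z ∈ G ∧ z.1 - z.2 = d := by
  classical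
  unfold RG
  rw [mem_filter]

theorem energy (G : Finset (ℂ × ℂ)) (D : Finset ℂ) :
    ∑ d ∈ D, (RG G d).card ^ 2 ≤ En G := by
  classical
  have h1 : ∑ d ∈ D, (RG G d).card ^ 2 = (D.sigma (fun d => RG G d ×ˢ RG G d)).card := by
    rw [card_sigma]
    refine sum_congr rfl fun d _ => ?_
    rw [card_product, sq]
  rw [h1]
  unfold En
  refine card_le_card_of_injOn (fun x => x.2) ?_ ?_
  · intro x hx
    have hx' := Finset.mem_sigma.1 (Finset.mem_coe.1 hx)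
    obtain ⟨-, hx2⟩ := hx'
    rw [mem_product, mem_RG, mem_RG] at hx2
    refine Finset.mem_coe.2 (mem_filter.2 ⟨mem_product.2 ⟨hx2.1.1, hx2.2.1⟩, ?_⟩)
    show x.2.1.1 - x.2.1.2 = x.2.2.1 - x.2.2.2
    rw [hx2.1.2, hx2.2.2]
  · rintro ⟨d, z⟩ hx ⟨d', z'⟩ hy hxy
    have hx2 := (Finset.mem_sigma.1 (Finset.mem_coe.1 hx)).2
    have hy2 := (Finset.mem_sigma.1 (Finset.mem_coe.1 hy)).2
    simp only at hxy hx2 hy2
    subst hxy
    rw [mem_product, mem_RG, mem_RG] at hx2 hy2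
    have hd : d = d' := by rw [← hx2.1.2, ← hy2.1.2]
    subst hd
    rfl

theorem energyP (P D : Finset ℂ) (w : ℂ) (hw : w ≠ 0) :
    ∑ d ∈ D, (RG (P ×ˢ P) (w * d)).card ^ 2 ≤ P.card ^ 3 := by
  classical
  have h1 : ∑ d ∈ D, (RG (P ×ˢ P) (w * d)).card ^ 2 =
      (D.sigma (fun d => RG (P ×ˢ P) (w * d) ×ˢ RG (P ×ˢ P) (w * d))).card := by
    rw [card_sigma]
    refine sum_congr rfl fun d _ => ?_
    rw [card_product, sq]
  have h2 : P.card ^ 3 = (P ×ˢ P ×ˢ P).card := by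
    rw [card_product, card_product]
    ring
  rw [h1, h2]
  refine card_le_card_of_injOn (fun x => (x.2.1.1, x.2.1.2, x.2.2.1)) ?_ ?_
  · intro x hx
    obtain ⟨-, hx2⟩ := Finset.mem_sigma.1 (Finset.mem_coe.1 hx)
    rw [mem_product, mem_RG, mem_RG, mem_product, mem_product] at hx2
    exact Finset.mem_coe.2 (mem_product.2 ⟨hx2.1.1.1, mem_product.2 ⟨hx2.1.1.2, hx2.2.1.1⟩⟩)
  · rintro ⟨d, ⟨a, b⟩, ⟨a', b'⟩⟩ hx ⟨e, ⟨u, v⟩, ⟨u', v'⟩⟩ hy hxy
    have hx2 := (Finset.mem_sigma.1 (Finset.mem_coe.1 hx)).2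
    have hy2 := (Finset.mem_sigma.1 (Finset.mem_coe.1 hy)).2
    simp only [Prod.mk.injEq] at hxy hx2 hy2
    obtain ⟨h3, h4, h5⟩ := hxy
    subst h3 h4 h5
    rw [mem_product, mem_RG, mem_RG] at hx2 hy2
    have h6 : a - b = w * d := hx2.1.2
    have h7 : a' - b' = w * d := hx2.2.2
    have h8 : a - b = w * e := hy2.1.2
    have h9 : a' - v' = w * e := hy2.2.2
    have hd : d = e := mul_left_cancel₀ hw (h6.symm.trans h8)
    subst hd
    have hb : b' = v' := by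
      have h10 : a' - b' = a' - v' := by rw [h7, h9]
      linear_combination -h10
    subst hb
    rfl

end LINC

open LINC in
theorem stmt_LINC : Stmt_LINC := by
  classical
  intro P G h 𝒢 hG hh h𝒢
  obtain ⟨w, s, hw1, hh⟩ := hh
  have hw : w ≠ 0 := by
    intro h0
    rw [h0, norm_zero] at hw1
    exact zero_ne_one hw1
  set D : Finset ℂ := G.image (fun z => z.1 - z.2) with hD
  -- the count
  have h1 : ∑ g ∈ 𝒢, (G.filter (fun z => z.1 ∈ st P g ∧ z.2 ∈ st P g)).card ≤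
      ∑ d ∈ D, (RG G d).card * (RG (P ×ˢ P) (w * d)).card := by
    have h2 : ∑ g ∈ 𝒢, (G.filter (fun z => z.1 ∈ st P g ∧ z.2 ∈ st P g)).card =
        (𝒢.sigma (fun g => G.filter (fun z => z.1 ∈ st P g ∧ z.2 ∈ st P g))).card := by
      rw [card_sigma]
    have h3 : ∑ d ∈ D, (RG G d).card * (RG (P ×ˢ P) (w * d)).card =
        (D.sigma (fun d => RG G d ×ˢ RG (P ×ˢ P) (w * d))).card := by
      rw [card_sigma]
      refine sum_congr rfl fun d _ => ?_
      rw [card_product]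
    rw [h2, h3]
    refine card_le_card_of_injOn
      (fun x => ⟨x.2.1 - x.2.2, (x.2, (x.1 x.2.1, x.1 x.2.2))⟩) ?_ ?_
    · rintro ⟨g, z⟩ hx
      obtain ⟨hg, hz⟩ := Finset.mem_sigma.1 (Finset.mem_coe.1 hx)
      simp only at hg hz
      obtain ⟨hz1, hz2, hz3⟩ := mem_filter.1 hz
      obtain ⟨t, ht⟩ := form hh (h𝒢 g hg).2
      unfold st at hz2 hz3
      refine Finset.mem_coe.2 (Finset.mem_sigma.2 ⟨?_, ?_⟩)
      · exact mem_image.2 ⟨z, hz1, rfl⟩
      · refine mem_product.2 ⟨(mem_RG _ _ _).2 ⟨hz1, rfl⟩, (mem_RG _ _ _).2 ⟨?_, ?_⟩⟩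
        · exact mem_product.2 ⟨(mem_filter.1 hz2).2, (mem_filter.1 hz3).2⟩
        · show g z.1 - g z.2 = w * (z.1 - z.2)
          rw [ht, ht]
          ring
    · rintro ⟨g, z⟩ hx ⟨g', z'⟩ hy hxy
      obtain ⟨hg, -⟩ := Finset.mem_sigma.1 (Finset.mem_coe.1 hx)
      obtain ⟨hg', -⟩ := Finset.mem_sigma.1 (Finset.mem_coe.1 hy)
      simp only [Sigma.mk.injEq] at hxy
      obtain ⟨-, h4⟩ := hxy
      have h5 := eq_of_heq h4
      simp only [Prod.mk.injEq] at h5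
      obtain ⟨h6, h7, -⟩ := h5
      subst h6
      obtain ⟨t, ht⟩ := form hh (h𝒢 g hg).2
      obtain ⟨t', ht'⟩ := form hh (h𝒢 g' hg').2
      have h8 : t = t' := by
        rw [ht, ht'] at h7
        exact add_left_cancel h7
      have h9 : g = g' := by
        apply Equiv.ext
        intro y
        rw [ht, ht', h8]
      subst h9
      rfl
  -- Cauchy-Schwarz
  have h2 : (∑ d ∈ D, (RG G d).card * (RG (P ×ˢ P) (w * d)).card) ^ 2 ≤
      (∑ d ∈ D, (RG G d).card ^ 2) * ∑ d ∈ D, (RG (P ×ˢ P) (w * d)).card ^ 2 :=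
    Finset.sum_mul_sq_le_sq_mul_sq _ _ _
  have h3 : (∑ g ∈ 𝒢, (G.filter (fun z => z.1 ∈ st P g ∧ z.2 ∈ st P g)).card) ^ 2 ≤
      En G * P.card ^ 3 :=
    (Nat.pow_le_pow_left h1 2).trans (h2.trans
      (Nat.mul_le_mul (energy G D) (energyP P D w hw)))
  exact_mod_cast h3

end Pool.RF
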