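import Pool.Agent.Work.MP_dc37f8_rf.InterfaceC

set_option autoImplicit false
set_option maxHeartbeats 4000000

/-!
# MIXD: one kind contains almost all points (helper45)
-/

open Finset

namespace Pool.RF.MIXD

open Pool.BK Pool.BD

lemma On_scale {p v v' : ℂ} {s : ℝ} (hv : v' = s * v) (hv' : v' ≠ 0) (y : ℂ) :
    On (p, v') y ↔ On (p, v) y := by
  have hs : s ≠ 0 := by
    rintro rfl
    apply hv'
    rw [hv]; simp
  constructor
  · rintro ⟨t, ht⟩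
    refine ⟨t * s, ?_⟩
    dsimp only at ht ⊢
    rw [ht, hv]; push_cast; ring
  · rintro ⟨t, ht⟩
    refine ⟨t / s, ?_⟩
    dsimp only at ht ⊢
    rw [ht, hv]
    have : (s : ℂ) ≠ 0 := by exact_mod_cast hs
    push_cast
    field_simp

lemma pts_scale (P : Finset ℂ) {p v v' : ℂ} {s : ℝ} (hv : v' = s * v) (hv' : v' ≠ 0) :
    pts P (p, v') = pts P (p, v) := by
  classical
  unfold pts
  ext y
  rw [mem_filter, mem_filter, On_scale hv hv']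

lemma mem_Lam {P : Finset ℂ} {β : ℝ} {p : ℂ} : p ∈ Lam P β ↔
    p ∈ P ∧ ∃ v : ℂ, v ≠ 0 ∧ β * P.card ≤ ((pts P (p, v)).card : ℝ) := by
  classical
  unfold Lam
  rw [mem_filter]

lemma Lam_mono {P : Finset ℂ} {β β' : ℝ} (h : β' ≤ β) {p : ℂ} (hp : p ∈ Lam P β) :
    p ∈ Lam P β' := by
  rw [mem_Lam] at hp ⊢
  obtain ⟨h1, v, hv, h2⟩ := hp
  exact ⟨h1, v, hv, le_trans (mul_le_mul_of_nonneg_right h (Nat.cast_nonneg _)) h2⟩

lemma mem_Good {P C : Finset ℂ} {b β β' : ℝ} {p : ℂ} : p ∈ Good P C b β β' ↔ p ∈ P ∧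
    (∀ c ∈ C, ∀ c' ∈ C, p ∈ UP.R P (b * P.card) c → p ∈ UP.R P (b * P.card) c' → c = c') ∧
    (∀ c ∈ C, p ∈ UP.R P (b * P.card) c → p ∉ Lam P β') ∧
    (∀ v v' : ℂ, v ≠ 0 → v' ≠ 0 → β * P.card ≤ ((pts P (p, v)).card : ℝ) →
      β * P.card ≤ ((pts P (p, v')).card : ℝ) → ∃ s : ℝ, v' = s * v) ∧
    (p ∈ Lam P β' → p ∈ Lam P β) := by
  classical
  unfold Good
  rw [mem_filter]

lemma same_refl {P C : Finset ℂ} {b β β' : ℝ} {p : ℂ} (_hp : p ∈ Good P C b β β') :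
    Same P C b β p p := by
  by_cases h1 : ∃ c ∈ C, p ∈ UP.R P (b * P.card) c
  · obtain ⟨c, hc, h⟩ := h1
    exact Or.inl ⟨c, hc, h, h⟩
  · by_cases h2 : p ∈ Lam P β
    · obtain ⟨_, v, hv, h⟩ := mem_Lam.1 h2
      exact Or.inr (Or.inl ⟨v, hv, h, h⟩)
    · have h3 : (∀ c ∈ C, p ∉ UP.R P (b * P.card) c) := fun c hc h => h1 ⟨c, hc, h⟩
      exact Or.inr (Or.inr ⟨⟨h3, h2⟩, h3, h2⟩)

lemma same_symm {P C : Finset ℂ} {b β : ℝ} {p q : ℂ} (h : Same P C b β p q) :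
    Same P C b β q p := by
  rcases h with ⟨c, hc, h1, h2⟩ | ⟨v, hv, h1, h2⟩ | ⟨h1, h2⟩
  · exact Or.inl ⟨c, hc, h2, h1⟩
  · exact Or.inr (Or.inl ⟨v, hv, h2, h1⟩)
  · exact Or.inr (Or.inr ⟨h2, h1⟩)

lemma same_trans {P C : Finset ℂ} {b β β' : ℝ} (hβ : β' ≤ β) {p q s : ℂ}
    (hp : p ∈ Good P C b β β') (hq : q ∈ Good P C b β β') (hs : s ∈ Good P C b β β')
    (h : Same P C b β p q) (h' : Same P C b β q s) : Same P C b β p s := by
  have hpP := (mem_Good.1 hp).1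
  have hsP := (mem_Good.1 hs).1
  obtain ⟨hqP, q1, q2, q3, q4⟩ := mem_Good.1 hq
  rcases h with ⟨c, hc, h1, h2⟩ | ⟨v, hv, h1, h2⟩ | ⟨h1, h2⟩
  · rcases h' with ⟨c', hc', h3, h4⟩ | ⟨v', hv', h3, h4⟩ | ⟨h3, h4⟩
    · have e := q1 c hc c' hc' h2 h3
      subst e
      exact Or.inl ⟨c, hc, h1, h4⟩
    · exact absurd (Lam_mono hβ (mem_Lam.2 ⟨hqP, v', hv', h3⟩)) (q2 c hc h2)
    · exact absurd h2 (h3.1 c hc)
  · rcases h' with ⟨c', hc', h3, h4⟩ | ⟨v', hv', h3, h4⟩ | ⟨h3, h4⟩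
    · exact absurd (Lam_mono hβ (mem_Lam.2 ⟨hqP, v, hv, h2⟩)) (q2 c' hc' h3)
    · obtain ⟨t, ht⟩ := q3 v v' hv hv' h2 h3
      refine Or.inr (Or.inl ⟨v, hv, h1, ?_⟩)
      rw [← pts_scale P ht hv']
      exact h4
    · exact absurd (mem_Lam.2 ⟨hqP, v, hv, h2⟩) h3.2
  · rcases h' with ⟨c', hc', h3, h4⟩ | ⟨v', hv', h3, h4⟩ | ⟨h3, h4⟩
    · exact absurd h3 (h2.1 c' hc')
    · exact absurd (mem_Lam.2 ⟨hqP, v', hv', h3⟩) h2.2
    · exact Or.inr (Or.inr ⟨h1, h4⟩)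

open Classical in
/-- counting triples with a bad point -/
lemma count_bad (P B : Finset ℂ) (X : Finset (ℂ × ℂ × ℂ))
    (hX : ∀ x ∈ X, x.1 ∈ P ∧ x.2.1 ∈ P ∧ x.2.2 ∈ P)
    (hB : ∀ x ∈ X, x.1 ∈ B ∨ x.2.1 ∈ B ∨ x.2.2 ∈ B) :
    (X.card : ℝ) ≤ 3 * B.card * (P.card : ℝ) ^ 2 := by
  have hsub : X ⊆ (B ×ˢ P ×ˢ P) ∪ ((P ×ˢ B ×ˢ P) ∪ (P ×ˢ P ×ˢ B)) := by
    intro x hx
    obtain ⟨h1, h2, h3⟩ := hX x hx
    rw [mem_union, mem_union]
    simp only [mem_product]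
    rcases hB x hx with h | h | h
    · exact Or.inl ⟨h, h2, h3⟩
    · exact Or.inr (Or.inl ⟨h1, h, h3⟩)
    · exact Or.inr (Or.inr ⟨h1, h2, h⟩)
  have h1 := card_le_card hsub
  have h2 := card_union_le (B ×ˢ P ×ˢ P) ((P ×ˢ B ×ˢ P) ∪ (P ×ˢ P ×ˢ B))
  have h3 := card_union_le (P ×ˢ B ×ˢ P) (P ×ˢ P ×ˢ B)
  simp only [card_product] at h2 h3
  have h4 : X.card ≤ B.card * (P.card * P.card) + (P.card * (B.card * P.card) +
      P.card * (P.card * B.card)) := by omega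
  have h5 : (X.card : ℝ) ≤ B.card * (P.card * P.card) + (P.card * (B.card * P.card) +
      P.card * (P.card * B.card)) := by exact_mod_cast h4
  linarith

open Classical in
/-- counting triples with a mixed pair -/
lemma count_mix (P : Finset ℂ) (M : Finset (ℂ × ℂ)) (X : Finset (ℂ × ℂ × ℂ))
    (hX : ∀ x ∈ X, x.1 ∈ P ∧ x.2.1 ∈ P ∧ x.2.2 ∈ P)
    (hM : ∀ x ∈ X, (x.1, x.2.1) ∈ M ∨ (x.2.1, x.2.2) ∈ M) :
    (X.card : ℝ) ≤ 2 * P.card * M.card := by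
  have hsub : X ⊆ ((M ×ˢ P).image (fun w => (w.1.1, w.1.2, w.2))) ∪ (P ×ˢ M) := by
    intro x hx
    obtain ⟨h1, h2, h3⟩ := hX x hx
    rw [mem_union]
    rcases hM x hx with h | h
    · left
      rw [mem_image]
      exact ⟨((x.1, x.2.1), x.2.2), mem_product.2 ⟨h, h3⟩, rfl⟩
    · right
      exact mem_product.2 ⟨h1, h⟩
  have h1 := card_le_card hsub
  have h2 := card_union_le ((M ×ˢ P).image (fun w => (w.1.1, w.1.2, w.2))) (P ×ˢ M)
  have h3 : ((M ×ˢ P).image (fun w => (w.1.1, w.1.2, w.2))).card ≤ (M ×ˢ P).card :=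
    card_image_le
  rw [card_product] at h2 h3
  have h4 : X.card ≤ M.card * P.card + P.card * M.card := by omega
  have h5 : (X.card : ℝ) ≤ M.card * P.card + P.card * M.card := by exact_mod_cast h4
  linarith

lemma sq_le_helper {x y : ℝ} (hy : 0 ≤ y) (h : x ^ 2 ≤ y ^ 2) : x ≤ y :=
  le_of_sq_le_sq h hy

end Pool.RF.MIXD

namespace Pool.RF

open Pool.BK Pool.BD MIXD

open Classical in
/-- the sum over the isometries -/
lemma MIXD.sum_bound (hCENZ : Stmt_CENZ) (hLINC : Stmt_LINC) (P : Finset ℂ) (𝒢 : Finset Gp)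
    (𝒬 : Finset (ℂ × ℂ)) (𝒲 : Finset Gp) (L : ℕ) (δ : ℝ) (hctx : Ctx P 𝒢 𝒬 𝒲 L δ)
    (β β' : ℝ) (E : ℝ) (hE0 : 0 ≤ E)
    (hE : (En (Mix P (cen 𝒬) (bb L) β β') : ℝ) ≤ E ^ 2 * (P.card : ℝ) ^ 3)
    (X : Finset (ℂ × ℂ × ℂ))
    (hX : ∀ x ∈ X, (x.1 ∈ Good P (cen 𝒬) (bb L) β β' ∧ x.2.1 ∈ Good P (cen 𝒬) (bb L) β β' ∧
      x.2.2 ∈ Good P (cen 𝒬) (bb L) β β') ∧
      ¬ (Same P (cen 𝒬) (bb L) β x.1 x.2.1 ∧ Same P (cen 𝒬) (bb L) β x.2.1 x.2.2)) :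
    (∑ g ∈ 𝒢, ((X.filter (fun x => act g x ∈ X)).card : ℝ)) ≤
      1 / 10 ^ 8 * (P.card : ℝ) ^ 4 + L * (2 * E * (P.card : ℝ) ^ 4) +
      L * (3 * (P.card : ℝ) ^ 2 * (2 * bb L * (P.card : ℝ) ^ 2 + L * P.card)) := by
  obtain ⟨h𝒢, h𝒬, h𝒲, h𝒲d, hrich, huns⟩ := hctx
  set n : ℝ := (P.card : ℝ) with hn
  have hn0 : 0 ≤ n := Nat.cast_nonneg _
  have hb0 : 0 < bb L := by unfold bb; positivity
  have hXP : ∀ x ∈ X, x.1 ∈ P ∧ x.2.1 ∈ P ∧ x.2.2 ∈ P := fun x hx =>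
    ⟨(mem_Good.1 (hX x hx).1.1).1, (mem_Good.1 (hX x hx).1.2.1).1, (mem_Good.1 (hX x hx).1.2.2).1⟩
  -- coordinates stay in `P`
  have hst : ∀ g : Gp, ∀ x ∈ X, act g x ∈ X → x.1 ∈ st P g ∧ x.2.1 ∈ st P g ∧ x.2.2 ∈ st P g := by
    intro g x hx hgx
    obtain ⟨a1, a2, a3⟩ := hXP x hx
    obtain ⟨b1, b2, b3⟩ := hXP _ hgx
    unfold st
    exact ⟨mem_filter.2 ⟨a1, b1⟩, mem_filter.2 ⟨a2, b2⟩, mem_filter.2 ⟨a3, b3⟩⟩
  set N : Gp → ℝ := fun g => ((X.filter (fun x => act g x ∈ X)).card : ℝ) with hN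
  have hN0 : ∀ g, 0 ≤ N g := fun g => Nat.cast_nonneg _
  -- the trivial bound
  have htriv : ∀ g, N g ≤ ((st P g).card : ℝ) ^ 3 := by
    intro g
    have h1 : (X.filter (fun x => act g x ∈ X)) ⊆ (st P g ×ˢ st P g ×ˢ st P g) := by
      intro x hx
      rw [mem_filter] at hx
      obtain ⟨h1, h2, h3⟩ := hst g x hx.1 hx.2
      exact mem_product.2 ⟨h1, mem_product.2 ⟨h2, h3⟩⟩
    have h2 := card_le_card h1
    rw [card_product, card_product] at h2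
    have h3 : N g ≤ (st P g).card * ((st P g).card * (st P g).card) := by
      change ((X.filter (fun x => act g x ∈ X)).card : ℝ) ≤ _
      exact_mod_cast h2
    calc N g ≤ _ := h3
      _ = _ := by ring
  -- type h
  have htype : ∀ h ∈ 𝒲, ∑ g ∈ 𝒢.filter (fun g => IsTr (g * h⁻¹)), N g ≤ 2 * E * n ^ 4 := by
    intro h hh
    set M := Mix P (cen 𝒬) (bb L) β β' with hM
    have hMP : M ⊆ P ×ˢ P := by
      intro z hz
      rw [hM, Mix, mem_filter, mem_product] at hz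
      exact mem_product.2 ⟨(mem_Good.1 hz.1.1).1, (mem_Good.1 hz.1.2).1⟩
    have h1 := hLINC P M h (𝒢.filter (fun g => IsTr (g * h⁻¹))) hMP (h𝒲d h hh) (by
      intro g hg
      rw [mem_filter] at hg
      exact ⟨(h𝒢 g hg.1).1, hg.2⟩)
    have h2 : ∑ g ∈ 𝒢.filter (fun g => IsTr (g * h⁻¹)),
        ((M.filter (fun z => z.1 ∈ st P g ∧ z.2 ∈ st P g)).card : ℝ) ≤ E * n ^ 3 := by
      apply sq_le_helper (by positivity)
      refine h1.trans ?_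
      calc (En M : ℝ) * n ^ 3 ≤ (E ^ 2 * n ^ 3) * n ^ 3 :=
            mul_le_mul_of_nonneg_right hE (by positivity)
        _ = (E * n ^ 3) ^ 2 := by ring
    have h3 : ∀ g ∈ 𝒢.filter (fun g => IsTr (g * h⁻¹)), N g ≤
        2 * n * ((M.filter (fun z => z.1 ∈ st P g ∧ z.2 ∈ st P g)).card : ℝ) := by
      intro g _
      apply count_mix P (M.filter (fun z => z.1 ∈ st P g ∧ z.2 ∈ st P g))
      · intro x hx
        exact hXP x (mem_filter.1 hx).1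
      · intro x hx
        rw [mem_filter] at hx
        obtain ⟨s1, s2, s3⟩ := hst g x hx.1 hx.2
        obtain ⟨⟨g1, g2, g3⟩, hns⟩ := hX x hx.1
        by_cases hs : Same P (cen 𝒬) (bb L) β x.1 x.2.1
        · right
          have hs' : ¬ Same P (cen 𝒬) (bb L) β x.2.1 x.2.2 := fun h => hns ⟨hs, h⟩
          rw [mem_filter, hM, Mix, mem_filter, mem_product]
          exact ⟨⟨⟨g2, g3⟩, hs'⟩, s2, s3⟩
        · left
          rw [mem_filter, hM, Mix, mem_filter, mem_product]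
          exact ⟨⟨⟨g1, g2⟩, hs⟩, s1, s2⟩
    calc ∑ g ∈ 𝒢.filter (fun g => IsTr (g * h⁻¹)), N g
        ≤ ∑ g ∈ 𝒢.filter (fun g => IsTr (g * h⁻¹)),
          2 * n * ((M.filter (fun z => z.1 ∈ st P g ∧ z.2 ∈ st P g)).card : ℝ) :=
          sum_le_sum h3
      _ = 2 * n * ∑ g ∈ 𝒢.filter (fun g => IsTr (g * h⁻¹)),
          ((M.filter (fun z => z.1 ∈ st P g ∧ z.2 ∈ st P g)).card : ℝ) := by rw [mul_sum]
      _ ≤ 2 * n * (E * n ^ 3) := mul_le_mul_of_nonneg_left h2 (by positivity)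
      _ = 2 * E * n ^ 4 := by ring
  -- type z
  have hztype : ∀ z ∈ 𝒬, ∑ g ∈ 𝒢.filter (fun g => δ * n ≤ ((st P g).card : ℝ) ∧ g z.1 = z.2),
      N g ≤ 3 * n ^ 2 * (2 * bb L * n ^ 2 + L * n) := by
    intro z hz
    set 𝒢z := 𝒢.filter (fun g => δ * n ≤ ((st P g).card : ℝ) ∧ g z.1 = z.2) with h𝒢z
    have h1 := hCENZ P (bb L) z.1 z.2 𝒢z hb0.le (by
      intro g hg
      rw [h𝒢z, mem_filter] at hg
      exact ⟨(h𝒢 g hg.1).1, hg.2.2⟩)
    have h2 : (𝒢z.card : ℝ) ≤ L * n := by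
      refine le_trans ?_ hrich
      have : 𝒢z ⊆ 𝒢.filter (fun g => δ * P.card ≤ ((st P g).card : ℝ)) := by
        intro g hg
        rw [h𝒢z, mem_filter] at hg
        exact mem_filter.2 ⟨hg.1, hg.2.1⟩
      exact_mod_cast card_le_card this
    have h3 : ∀ g ∈ 𝒢z, N g ≤ 3 * (((st P g).filter (fun p => ¬ (p ∈ UP.R P (bb L * P.card) z.1 ∧
        g p ∈ UP.R P (bb L * P.card) z.2))).card : ℝ) * n ^ 2 := by
      intro g _
      apply count_bad P ((st P g).filter (fun p => ¬ (p ∈ UP.R P (bb L * P.card) z.1 ∧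
        g p ∈ UP.R P (bb L * P.card) z.2)))
      · intro x hx
        exact hXP x (mem_filter.1 hx).1
      · intro x hx
        rw [mem_filter] at hx
        obtain ⟨s1, s2, s3⟩ := hst g x hx.1 hx.2
        by_contra hcon
        rw [not_or, not_or] at hcon
        obtain ⟨n1, n2, n3⟩ := hcon
        have key : ∀ p, p ∈ st P g → p ∉ ((st P g).filter (fun p => ¬ (p ∈ UP.R P (bb L * P.card) z.1 ∧
            g p ∈ UP.R P (bb L * P.card) z.2))) → p ∈ UP.R P (bb L * P.card) z.1 := by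
          intro p hp hnp
          by_contra hc
          exact hnp (mem_filter.2 ⟨hp, fun h => hc h.1⟩)
        have r1 := key _ s1 n1
        have r2 := key _ s2 n2
        have r3 := key _ s3 n3
        have hzc : z.1 ∈ cen 𝒬 := by
          unfold cen
          exact mem_union_left _ (mem_image_of_mem _ hz)
        exact (hX x hx.1).2 ⟨Or.inl ⟨z.1, hzc, r1, r2⟩, Or.inl ⟨z.1, hzc, r2, r3⟩⟩
    calc ∑ g ∈ 𝒢z, N g ≤ ∑ g ∈ 𝒢z, 3 * (((st P g).filter (fun p => ¬ (p ∈ UP.R P (bb L * P.card) z.1 ∧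
            g p ∈ UP.R P (bb L * P.card) z.2))).card : ℝ) * n ^ 2 := sum_le_sum h3
      _ = 3 * n ^ 2 * ∑ g ∈ 𝒢z, (((st P g).filter (fun p => ¬ (p ∈ UP.R P (bb L * P.card) z.1 ∧
            g p ∈ UP.R P (bb L * P.card) z.2))).card : ℝ) := by
          rw [mul_sum]
          exact sum_congr rfl fun g _ => by ring
      _ ≤ 3 * n ^ 2 * (2 * bb L * n ^ 2 + L * n) := by
          apply mul_le_mul_of_nonneg_left _ (by positivity)
          linarith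
  -- splitting the sum
  have hsplit : ∀ g ∈ 𝒢, N g ≤
      (if ¬ ((∃ h ∈ 𝒲, IsTr (g * h⁻¹)) ∨
        (δ * P.card ≤ ((st P g).card : ℝ) ∧ ∃ z ∈ 𝒬, g z.1 = z.2)) then
          ((st P g).card : ℝ) ^ 3 else 0) +
      ∑ h ∈ 𝒲, (if IsTr (g * h⁻¹) then N g else 0) +
      ∑ z ∈ 𝒬, (if δ * n ≤ ((st P g).card : ℝ) ∧ g z.1 = z.2 then N g else 0) := by
    intro g _
    have p1 : 0 ≤ ∑ h ∈ 𝒲, (if IsTr (g * h⁻¹) then N g else 0) :=
      sum_nonneg fun h _ => by split_ifs <;> [exact hN0 g; exact le_refl _]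
    have p2 : 0 ≤ ∑ z ∈ 𝒬, (if δ * n ≤ ((st P g).card : ℝ) ∧ g z.1 = z.2 then N g else 0) :=
      sum_nonneg fun h _ => by split_ifs <;> [exact hN0 g; exact le_refl _]
    by_cases hu : ((∃ h ∈ 𝒲, IsTr (g * h⁻¹)) ∨
        (δ * P.card ≤ ((st P g).card : ℝ) ∧ ∃ z ∈ 𝒬, g z.1 = z.2))
    · rw [if_neg (not_not.2 hu)]
      rcases hu with ⟨h, hh, ht⟩ | ⟨hr, z, hz, hgz⟩
      · have := single_le_sum (f := fun h => if IsTr (g * h⁻¹) then N g else 0)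
          (fun h _ => by split_ifs <;> [exact hN0 g; exact le_refl _]) hh
        rw [if_pos ht] at this
        linarith
      · have := single_le_sum (f := fun z : ℂ × ℂ =>
          if δ * n ≤ ((st P g).card : ℝ) ∧ g z.1 = z.2 then N g else 0)
          (fun h _ => by split_ifs <;> [exact hN0 g; exact le_refl _]) hz
        rw [if_pos ⟨hr, hgz⟩] at this
        linarith
    · rw [if_pos hu]
      have := htriv g
      linarith
  have hsum := sum_le_sum hsplit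
  rw [sum_add_distrib, sum_add_distrib, ← sum_filter, sum_comm, sum_comm (s := 𝒢) (t := 𝒬)] at hsum
  have e1 : ∑ h ∈ 𝒲, ∑ g ∈ 𝒢, (if IsTr (g * h⁻¹) then N g else 0) ≤ L * (2 * E * n ^ 4) := by
    calc ∑ h ∈ 𝒲, ∑ g ∈ 𝒢, (if IsTr (g * h⁻¹) then N g else 0)
        = ∑ h ∈ 𝒲, ∑ g ∈ 𝒢.filter (fun g => IsTr (g * h⁻¹)), N g :=
          sum_congr rfl fun h _ => (sum_filter _ _).symm
      _ ≤ ∑ h ∈ 𝒲, 2 * E * n ^ 4 := sum_le_sum htype
      _ = 𝒲.card * (2 * E * n ^ 4) := by rw [sum_const, nsmul_eq_mul]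
      _ ≤ L * (2 * E * n ^ 4) := by
          apply mul_le_mul_of_nonneg_right _ (by positivity)
          exact_mod_cast h𝒲
  have e2 : ∑ z ∈ 𝒬, ∑ g ∈ 𝒢, (if δ * n ≤ ((st P g).card : ℝ) ∧ g z.1 = z.2 then N g else 0) ≤
      L * (3 * n ^ 2 * (2 * bb L * n ^ 2 + L * n)) := by
    calc ∑ z ∈ 𝒬, ∑ g ∈ 𝒢, (if δ * n ≤ ((st P g).card : ℝ) ∧ g z.1 = z.2 then N g else 0)
        = ∑ z ∈ 𝒬, ∑ g ∈ 𝒢.filter (fun g => δ * n ≤ ((st P g).card : ℝ) ∧ g z.1 = z.2), N g :=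
          sum_congr rfl fun h _ => (sum_filter _ _).symm
      _ ≤ ∑ z ∈ 𝒬, 3 * n ^ 2 * (2 * bb L * n ^ 2 + L * n) := sum_le_sum hztype
      _ = 𝒬.card * (3 * n ^ 2 * (2 * bb L * n ^ 2 + L * n)) := by rw [sum_const, nsmul_eq_mul]
      _ ≤ L * (3 * n ^ 2 * (2 * bb L * n ^ 2 + L * n)) := by
          apply mul_le_mul_of_nonneg_right _ (by positivity)
          exact_mod_cast h𝒬
  linarith

open Classical in
theorem stmt_MIXD (hCENZ : Stmt_CENZ) (hLINC : Stmt_LINC) (hEMIX : Stmt_EMIX)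
    (hJUNK : Stmt_JUNK) (hPIG : Stmt_PIG) : Stmt_MIXD := by
  intro δ L β β' hδ hβ' hrr
  have hrr0 : 0 < rr L := by unfold rr; positivity
  have hrr1 : rr L ≤ 1 := by
    unfold rr
    rw [div_le_one (by positivity)]
    have h1 : (1 : ℝ) ≤ (L + 1) ^ 2 := by
      have : (0 : ℝ) ≤ L := Nat.cast_nonneg _
      nlinarith
    nlinarith
  have hβ : 0 < β := by
    by_contra h
    rw [not_lt] at h
    have : rr L * β ≤ 0 := mul_nonpos_of_nonneg_of_nonpos hrr0.le h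
    linarith
  have hle : β' ≤ β := by nlinarith
  have hb0 : 0 < bb L := by unfold bb; positivity
  obtain ⟨n1, hE⟩ := hEMIX (2 * L) (bb L) β β' hb0 hβ' hle
  obtain ⟨K, n2, hJ⟩ := hJUNK (2 * L) (bb L) β β' hb0 hβ' hle
  refine ⟨n1 + n2 + 1000 * K + 4 * 10 ^ 9 * L ^ 2 + 1000, ?_⟩
  intro P 𝒢 𝒬 𝒲 hn hctx hCS hTC hlam
  have hC : (cen 𝒬).card ≤ 2 * L := by
    unfold cen
    have h1 := card_union_le (𝒬.image Prod.fst) (𝒬.image Prod.snd)
    have h2 : (𝒬.image Prod.fst).card ≤ 𝒬.card := card_image_le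
    have h3 : (𝒬.image Prod.snd).card ≤ 𝒬.card := card_image_le
    have h4 := hctx.2.1
    omega
  have hE' := hE P (cen 𝒬) (by omega) hC
  have hJ' := hJ P (cen 𝒬) (by omega) hC
  set n : ℝ := (P.card : ℝ) with hnd
  set Gd := Good P (cen 𝒬) (bb L) β β' with hGd
  have hGP : Gd ⊆ P := fun p hp => (mem_Good.1 hp).1
  have hn1000 : (1000 : ℝ) ≤ n := by
    have : 1000 ≤ P.card := by omega
    rw [hnd]; exact_mod_cast this
  have hnK : 1000 * (K : ℝ) ≤ n := by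
    have : 1000 * K ≤ P.card := by omega
    rw [hnd]; exact_mod_cast this
  have hnL : 4 * 10 ^ 9 * (L : ℝ) ^ 2 ≤ n := by
    have : 4 * 10 ^ 9 * L ^ 2 ≤ P.card := by omega
    rw [hnd]; exact_mod_cast this
  -- the number of good points
  have hm : 0.998 * n ≤ (Gd.card : ℝ) := by
    have h1 : (P \ Gd).card + Gd.card = P.card := card_sdiff_add_card_eq_card hGP
    have h2 : ((P \ Gd).card : ℝ) + Gd.card = n := by rw [hnd]; exact_mod_cast h1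
    have h3 : ((P \ Gd).card : ℝ) ≤ K + (Lam P β' \ Lam P β).card := by exact_mod_cast hJ'
    have h4 : 1000 * ((Lam P β' \ Lam P β).card : ℝ) ≤ n := by rw [hnd]; exact_mod_cast hlam
    linarith
  -- the energy
  set E : ℝ := 2.03 / 10 ^ 9 / (L + 1) with hEd
  have hL0 : (0 : ℝ) ≤ L := Nat.cast_nonneg _
  have hE0 : 0 ≤ E := by rw [hEd]; positivity
  have hEn : (En (Mix P (cen 𝒬) (bb L) β β') : ℝ) ≤ E ^ 2 * n ^ 3 := by
    have h1 : β * (En (Mix P (cen 𝒬) (bb L) β β') : ℝ) ≤ β * (E ^ 2 * n ^ 3) := by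
      refine hE'.trans ?_
      have h2 : 41 * β' ≤ β * E ^ 2 := by
        have h3 : 41 * rr L ≤ E ^ 2 := by
          rw [hEd]
          unfold rr
          rw [div_pow, div_pow, mul_one_div, div_le_div_iff₀ (by positivity) (by positivity)]
          have : (0 : ℝ) < (L + 1) ^ 2 := by positivity
          nlinarith
        nlinarith
      calc 41 * β' * n ^ 3 ≤ (β * E ^ 2) * n ^ 3 :=
            mul_le_mul_of_nonneg_right h2 (by positivity)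
        _ = β * (E ^ 2 * n ^ 3) := by ring
    exact le_of_mul_le_mul_left h1 hβ
  -- the mixed triples
  set r : ℂ → ℂ → Prop := fun p q => Same P (cen 𝒬) (bb L) β p q with hr
  set X := (E3.T3 Gd).filter (fun z => ¬ (r z.1 z.2.1 ∧ r z.2.1 z.2.2)) with hX
  have hXmem : ∀ x ∈ X, (x.1 ∈ Gd ∧ x.2.1 ∈ Gd ∧ x.2.2 ∈ Gd) ∧
      ¬ (r x.1 x.2.1 ∧ r x.2.1 x.2.2) := by
    intro x hx
    rw [hX, mem_filter, E3.mem_T3] at hx
    exact ⟨hx.1.1, hx.2⟩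
  have hS := MIXD.sum_bound hCENZ hLINC P 𝒢 𝒬 𝒲 L δ hctx β β' E hE0 hEn X hXmem
  have hXT : X ⊆ E3.T3 P := by
    intro x hx
    rw [hX, mem_filter, E3.mem_T3] at hx
    rw [E3.mem_T3]
    exact ⟨⟨hGP hx.1.1.1, hGP hx.1.1.2.1, hGP hx.1.1.2.2⟩, hx.1.2⟩
  have hcs := hCS X hXT (fun _ => 1) (fun _ => zero_le_one)
  simp only [sum_const, nsmul_eq_mul, mul_one] at hcs
  -- numerical bound of the sum
  have hSb : (∑ g ∈ 𝒢, ((X.filter (fun x => act g x ∈ X)).card : ℝ)) ≤ 2.1 / 10 ^ 8 * n ^ 4 := by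
    refine hS.trans ?_
    have hn0 : 0 ≤ n := by linarith
    have t1 : (L : ℝ) * (2 * E * n ^ 4) ≤ 4.06 / 10 ^ 9 * n ^ 4 := by
      have : (L : ℝ) * (2 * E) ≤ 4.06 / 10 ^ 9 := by
        rw [hEd]
        have h1 : (L : ℝ) / (L + 1) ≤ 1 := by
          rw [div_le_one (by positivity)]; linarith
        calc (L : ℝ) * (2 * (2.03 / 10 ^ 9 / (L + 1))) = 4.06 / 10 ^ 9 * (L / (L + 1)) := by ring
          _ ≤ 4.06 / 10 ^ 9 * 1 := mul_le_mul_of_nonneg_left h1 (by norm_num)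
          _ = _ := by ring
      calc (L : ℝ) * (2 * E * n ^ 4) = (L * (2 * E)) * n ^ 4 := by ring
        _ ≤ _ := mul_le_mul_of_nonneg_right this (by positivity)
    have t2 : (L : ℝ) * (3 * n ^ 2 * (2 * bb L * n ^ 2 + L * n)) ≤
        6 / 10 ^ 9 * n ^ 4 + 3 / (4 * 10 ^ 9) * n ^ 4 := by
      have h1 : (L : ℝ) * bb L ≤ 1 / 10 ^ 9 := by
        unfold bb
        have h1 : (L : ℝ) / (L + 1) ≤ 1 := by
          rw [div_le_one (by positivity)]; linarith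
        calc (L : ℝ) * (1 / (10 ^ 9 * (L + 1))) = 1 / 10 ^ 9 * (L / (L + 1)) := by
              field_simp
          _ ≤ 1 / 10 ^ 9 * 1 := mul_le_mul_of_nonneg_left h1 (by norm_num)
          _ = _ := by ring
      have h2 : (L : ℝ) ^ 2 ≤ n / (4 * 10 ^ 9) := by
        rw [le_div_iff₀ (by norm_num)]; linarith
      calc (L : ℝ) * (3 * n ^ 2 * (2 * bb L * n ^ 2 + L * n))
          = 6 * (L * bb L) * n ^ 4 + 3 * (L : ℝ) ^ 2 * n ^ 3 := by ring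
        _ ≤ 6 * (1 / 10 ^ 9) * n ^ 4 + 3 * (n / (4 * 10 ^ 9)) * n ^ 3 := by
            gcongr
        _ = _ := by ring
    have t3 : 0 ≤ n ^ 4 := by positivity
    nlinarith
  -- the number of mixed triples
  have hXc : (X.card : ℝ) ≤ 2.1 / 10 ^ 4 * n ^ 3 := by
    have hn0 : 0 ≤ n := by linarith
    apply sq_le_helper (by positivity)
    have hSn : 0 ≤ ∑ g ∈ 𝒢, ((X.filter (fun x => act g x ∈ X)).card : ℝ) :=
      sum_nonneg fun g _ => Nat.cast_nonneg _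
    calc (X.card : ℝ) ^ 2 ≤ 12 * ((TC P).card : ℝ) *
          ∑ g ∈ 𝒢, ((X.filter (fun x => act g x ∈ X)).card : ℝ) := hcs
      _ ≤ (2 * n ^ 2) * (2.1 / 10 ^ 8 * n ^ 4) := by
          apply mul_le_mul hTC hSb hSn (by positivity)
      _ ≤ (2.1 / 10 ^ 4 * n ^ 3) ^ 2 := by
          have : (0 : ℝ) ≤ n ^ 6 := by positivity
          nlinarith
  -- the large class
  have hne : Gd.Nonempty := by
    rw [← card_pos]
    by_contra h
    have h0 : Gd.card = 0 := by omega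
    rw [h0] at hm
    push_cast at hm
    linarith
  obtain ⟨p₀, hp₀, hpig⟩ := hPIG Gd r hne (fun p hp => same_refl hp)
    (fun p _ q _ h => same_symm h) (fun p hp q hq s hs h h' => same_trans hle hp hq hs h h')
  refine ⟨p₀, hp₀, ?_⟩
  rw [← hX] at hpig
  set M := (Gd.filter (fun q => r p₀ q)).card with hM
  have hpig' : (Gd.card : ℝ) ^ 3 ≤ X.card + 3 * (Gd.card : ℝ) ^ 2 + Gd.card * (M : ℝ) ^ 2 := by
    exact_mod_cast hpig
  change 99 / 100 * n ≤ (M : ℝ)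
  set m : ℝ := (Gd.card : ℝ) with hmd
  have hm0 : 0 < m := by linarith
  have hn0 : 0 < n := by linarith
  by_contra hcon
  rw [not_le] at hcon
  have hM0 : (0 : ℝ) ≤ M := Nat.cast_nonneg _
  have hMsq : (M : ℝ) ^ 2 ≤ 0.9801 * n ^ 2 := by
    nlinarith
  -- contradiction
  have h1 : m ^ 3 ≤ 2.1 / 10 ^ 4 * n ^ 3 + 3 * m ^ 2 + m * (0.9801 * n ^ 2) := by
    have : m * (M : ℝ) ^ 2 ≤ m * (0.9801 * n ^ 2) := mul_le_mul_of_nonneg_left hMsq hm0.le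
    linarith
  have hmn : n ≤ 1.003 * m := by linarith
  have h2 : n ^ 2 * n ≤ n ^ 2 * (1.003 * m) := mul_le_mul_of_nonneg_left hmn (by positivity)
  have h3 : m * m ^ 2 ≤ m * (2.2 / 10 ^ 4 * n ^ 2 + 3 * m + 0.9801 * n ^ 2) := by
    nlinarith
  have h4 := le_of_mul_le_mul_left h3 hm0
  have hmn' : m ≤ n := by
    rw [hmd, hnd]; exact_mod_cast card_le_card hGP
  have h5 : (0.998 * n) ^ 2 ≤ m ^ 2 := by
    apply pow_le_pow_left₀ (by positivity) hm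
  nlinarith

end Pool.RF
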