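import Pool.Agent.Work.MP_dc37f8_rf.Interface

/-! NCB: few rich isometries which are not half-collinear. -/

set_option autoImplicit false

open Finset

namespace Pool.RF

open Pool.BK Pool.BD

namespace NCB

/-- the line of space which belongs to a pair of points of the plane -/
noncomputable def lin (z : ℂ × ℂ) : (Fin 3 → ℝ) × (Fin 3 → ℝ) :=
  (![(z.1.re + z.2.re) / 2, (z.1.im + z.2.im) / 2, 0],
   ![-(z.2.im - z.1.im) / 2, (z.2.re - z.1.re) / 2, 1])

theorem lin_inj {z z' : ℂ × ℂ} (h : lin z = lin z') : z = z' := by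
  have h1 := congrArg Prod.fst h
  have h2 := congrArg Prod.snd h
  have a0 := congrFun h1 0
  have a1 := congrFun h1 1
  have b0 := congrFun h2 0
  have b1 := congrFun h2 1
  simp only [lin, Matrix.cons_val_zero, Matrix.cons_val_one] at a0 a1 b0 b1
  refine Prod.ext (Complex.ext ?_ ?_) (Complex.ext ?_ ?_) <;> linarith

/-- the points of a line -/
theorem on_lin (z : ℂ × ℂ) (x : Fin 3 → ℝ) : OnM (lin z) x ↔
    x 0 = (z.1.re + z.2.re) / 2 + x 2 * (-(z.2.im - z.1.im) / 2) ∧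
    x 1 = (z.1.im + z.2.im) / 2 + x 2 * ((z.2.re - z.1.re) / 2) := by
  constructor
  · rintro ⟨s, hs⟩
    have a0 := congrFun hs 0
    have a1 := congrFun hs 1
    have a2 := congrFun hs 2
    simp only [lin, Pi.add_apply, Pi.smul_apply, smul_eq_mul, Matrix.cons_val_zero,
      Matrix.cons_val_one, Matrix.cons_val] at a0 a1 a2
    have h2 : s = x 2 := by rw [a2]; ring
    subst h2
    exact ⟨a0, a1⟩
  · rintro ⟨h0, h1⟩
    refine ⟨x 2, ?_⟩
    ext i
    fin_cases i
    · simpa [lin] using h0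
    · simpa [lin] using h1
    · simp [lin]

theorem lin_LF (Q : Finset (ℂ × ℂ)) [DecidableEq ((Fin 3 → ℝ) × (Fin 3 → ℝ))] :
    LF (Q.image lin) := by
  refine ⟨?_, ?_⟩
  · intro l hl
    obtain ⟨z, _, rfl⟩ := mem_image.1 hl
    intro h
    have := congrFun h 2
    simp [lin] at this
  · intro l hl l' hl' hne x y h1 h2 h3 h4
    obtain ⟨z, _, rfl⟩ := mem_image.1 hl
    obtain ⟨z', _, rfl⟩ := mem_image.1 hl'
    rw [on_lin] at h1 h2 h3 h4
    obtain ⟨a1, b1⟩ := h1
    obtain ⟨a2, b2⟩ := h2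
    obtain ⟨a3, b3⟩ := h3
    obtain ⟨a4, b4⟩ := h4
    by_cases hxy : x 2 = y 2
    · ext i
      fin_cases i
      · show x 0 = y 0
        rw [a1, a2, hxy]
      · show x 1 = y 1
        rw [b1, b2, hxy]
      · exact hxy
    · exfalso
      apply hne
      have hd : x 2 - y 2 ≠ 0 := sub_ne_zero.2 hxy
      have e1 : (x 2 - y 2) * ((-(z.2.im - z.1.im) / 2) - (-(z'.2.im - z'.1.im) / 2)) = 0 := by
        linarith
      have e2 : (x 2 - y 2) * (((z.2.re - z.1.re) / 2) - ((z'.2.re - z'.1.re) / 2)) = 0 := by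
        linarith
      have f1 := (mul_eq_zero.1 e1).resolve_left hd
      have f2 := (mul_eq_zero.1 e2).resolve_left hd
      have g1 : (z.1.re + z.2.re) / 2 = (z'.1.re + z'.2.re) / 2 := by
        have : x 2 * (-(z.2.im - z.1.im) / 2) = x 2 * (-(z'.2.im - z'.1.im) / 2) := by
          rw [sub_eq_zero.1 f1]
        linarith
      have g2 : (z.1.im + z.2.im) / 2 = (z'.1.im + z'.2.im) / 2 := by
        have : x 2 * ((z.2.re - z.1.re) / 2) = x 2 * ((z'.2.re - z'.1.re) / 2) := by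
          rw [sub_eq_zero.1 f2]
        linarith
      have : z = z' := by
        refine Prod.ext (Complex.ext ?_ ?_) (Complex.ext ?_ ?_) <;> linarith
      rw [this]

/-- the rotation with the data `(c, τ)` maps `a` to `b` iff its point is on the line of `(a,b)` -/
theorem key {w t a b : ℂ} {τ : ℝ} (hw : w.re ^ 2 + w.im ^ 2 = 1) (hw1 : w.re ≠ 1)
    (hτ : τ = w.im / (1 - w.re)) :
    b = w * a + t ↔
      ((t.re - τ * t.im) / 2 = (a.re + b.re) / 2 + τ * (-(b.im - a.im) / 2) ∧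
       (t.im + τ * t.re) / 2 = (a.im + b.im) / 2 + τ * ((b.re - a.re) / 2)) := by
  have h0 : 1 - w.re ≠ 0 := sub_ne_zero.2 (Ne.symm hw1)
  have hy : w.im = τ * (1 - w.re) := by rw [hτ]; field_simp
  have hx : (1 + τ ^ 2) * (1 - w.re) = 2 := by
    have : (1 - w.re) * ((1 + τ ^ 2) * (1 - w.re) - 2) = 0 := by
      rw [hy] at hw
      nlinarith [hw]
    have := (mul_eq_zero.1 this).resolve_left h0
    linarith
  set X : ℝ := w.re with hX
  constructor
  · intro h
    have hr : b.re = X * a.re - w.im * a.im + t.re := by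
      rw [h]; simp [Complex.add_re, Complex.mul_re, hX]
    have hi : b.im = X * a.im + w.im * a.re + t.im := by
      rw [h]; simp [Complex.add_im, Complex.mul_im, hX]
    rw [hy] at hr hi
    have hX2 : X * (1 + τ ^ 2) = τ ^ 2 - 1 := by linarith
    constructor
    · rw [hr, hi]
      linear_combination (-(a.re / 2)) * hX2
    · rw [hr, hi]
      linear_combination (-(a.im / 2)) * hX2
  · rintro ⟨h1, h2⟩
    have hX2 : X * (1 + τ ^ 2) = τ ^ 2 - 1 := by linarith
    have hpos : (1 + τ ^ 2) ≠ 0 := by positivity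
    have hr : b.re = X * a.re - w.im * a.im + t.re := by
      rw [hy]
      apply mul_left_cancel₀ hpos
      linear_combination (-2) * h1 + (-2) * τ * h2 - a.re * hX2 + τ * a.im * hx
    have hi : b.im = X * a.im + w.im * a.re + t.im := by
      rw [hy]
      apply mul_left_cancel₀ hpos
      linear_combination (-2) * h2 + 2 * τ * h1 - a.im * hX2 - τ * a.re * hx
    apply Complex.ext
    · rw [hr]; simp [Complex.add_re, Complex.mul_re, hX]
    · rw [hi]; simp [Complex.add_im, Complex.mul_im, hX]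

/-- the data of a rotation -/
theorem data {g : Gp} (h : IsDir g) (h' : ¬ IsTr g) :
    ∃ (w t : ℂ) (τ : ℝ), (∀ z, g z = w * z + t) ∧ w.re ^ 2 + w.im ^ 2 = 1 ∧ w.re ≠ 1 ∧
      τ = w.im / (1 - w.re) := by
  obtain ⟨w, t, hw, hg⟩ := h
  have hn : w.re ^ 2 + w.im ^ 2 = 1 := by
    have h1 : Complex.normSq w = 1 := by
      rw [Complex.normSq_eq_norm_sq, hw]; norm_num
    rw [Complex.normSq_apply] at h1
    nlinarith
  refine ⟨w, t, _, hg, hn, ?_, rfl⟩
  intro h1
  apply h'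
  refine ⟨t, fun z => ?_⟩
  have h2 : w.im = 0 := by
    rw [h1] at hn
    have : w.im ^ 2 = 0 := by linarith
    exact pow_eq_zero_iff (two_ne_zero) |>.1 this
  have h3 : w = 1 := Complex.ext (by rw [h1]; rfl) (by rw [h2]; rfl)
  rw [hg, h3, one_mul]

open Classical in
/-- the point of space of an isometry -/
noncomputable def pt (g : Gp) : Fin 3 → ℝ :=
  if h : IsDir g ∧ ¬ IsTr g then
    let w := (data h.1 h.2).choose
    let t := (data h.1 h.2).choose_spec.choose
    let τ := w.im / (1 - w.re)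
    ![(t.re - τ * t.im) / 2, (t.im + τ * t.re) / 2, τ]
  else 0

theorem pt_spec {g : Gp} (h : IsDir g) (h' : ¬ IsTr g) :
    ∃ (w t : ℂ) (τ : ℝ), (∀ z, g z = w * z + t) ∧ w.re ^ 2 + w.im ^ 2 = 1 ∧ w.re ≠ 1 ∧
      τ = w.im / (1 - w.re) ∧ pt g = ![(t.re - τ * t.im) / 2, (t.im + τ * t.re) / 2, τ] := by
  have h1 := (data h h').choose_spec.choose_spec.choose_spec
  refine ⟨(data h h').choose, (data h h').choose_spec.choose, _, h1.1, h1.2.1, h1.2.2.1,
    rfl, ?_⟩
  rw [pt, dif_pos ⟨h, h'⟩]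

theorem on_pt {g : Gp} (h : IsDir g) (h' : ¬ IsTr g) (a b : ℂ) :
    OnM (lin (a, b)) (pt g) ↔ b = g a := by
  obtain ⟨w, t, τ, h1, h2, h3, h4, h5⟩ := pt_spec h h'
  rw [on_lin, h1 a, key h2 h3 h4, h5]
  simp

theorem pt_inj {g g' : Gp} (h : IsDir g) (h' : ¬ IsTr g) (k : IsDir g') (k' : ¬ IsTr g')
    (e : pt g = pt g') : g = g' := by
  ext1 z
  have h1 : OnM (lin (z, g z)) (pt g) := (on_pt h h' z (g z)).2 rfl
  rw [e] at h1
  exact (on_pt k k' z (g z)).1 h1

/-- three points which are not collinear give independent directions -/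
theorem indep {g : Gp} (h : IsDir g) (h' : ¬ IsTr g) {a b c : ℂ} (hab : a ≠ b)
    (hc : ¬ On (a, b - a) c) :
    LinearIndependent ℝ (fun i => (![lin (a, g a), lin (b, g b), lin (c, g c)] i).2) := by
  obtain ⟨w, t, τ, h1, h2, h3, h4, h5⟩ := pt_spec h h'
  have hw : w - 1 ≠ 0 := by
    intro hw
    apply h3
    have : w = 1 := sub_eq_zero.1 hw
    rw [this]; rfl
  rw [Fintype.linearIndependent_iff]
  intro x hx
  have e0 := congrFun hx 0
  have e1 := congrFun hx 1
  have e2 := congrFun hx 2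
  simp only [Fin.sum_univ_three, lin, Pi.add_apply, Pi.smul_apply, smul_eq_mul,
    Matrix.cons_val_zero, Matrix.cons_val_one, Matrix.cons_val, Pi.zero_apply] at e0 e1 e2
  have s0 : x 0 + x 1 + x 2 = 0 := by linarith
  have s1 : (x 0 : ℂ) * (g a - a) + x 1 * (g b - b) + x 2 * (g c - c) = 0 := by
    apply Complex.ext
    · simp
      linarith
    · simp
      linarith
  have s2 : (w - 1) * ((x 0 : ℂ) * a + x 1 * b + x 2 * c) = 0 := by
    rw [h1, h1, h1] at s1
    have s0' : (x 0 : ℂ) + x 1 + x 2 = 0 := by exact_mod_cast s0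
    linear_combination s1 - t * s0'
  have s3 := (mul_eq_zero.1 s2).resolve_left hw
  have s4 : (x 1 : ℂ) * (b - a) + x 2 * (c - a) = 0 := by
    have s0' : (x 0 : ℂ) + x 1 + x 2 = 0 := by exact_mod_cast s0
    linear_combination s3 - a * s0'
  have hx2 : x 2 = 0 := by
    by_contra hne
    apply hc
    refine ⟨-(x 1) / x 2, ?_⟩
    have hne' : (x 2 : ℂ) ≠ 0 := by exact_mod_cast hne
    show c = a + ((-(x 1) / x 2 : ℝ) : ℂ) * (b - a)
    push_cast
    field_simp
    linear_combination s4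
  have hx1 : x 1 = 0 := by
    rw [hx2] at s4
    have : (x 1 : ℂ) * (b - a) = 0 := by simpa using s4
    rcases mul_eq_zero.1 this with h6 | h6
    · exact_mod_cast h6
    · exact absurd (sub_eq_zero.1 h6).symm hab
  have hx0 : x 0 = 0 := by rw [hx1, hx2] at s0; linarith
  intro i
  fin_cases i
  · exact hx0
  · exact hx1
  · exact hx2

end NCB

open NCB

set_option maxHeartbeats 4000000 in
theorem stmt_NCB (hI : Stmt_INC3) : Stmt_NCB := by
  classical
  obtain ⟨C, hC, hI⟩ := hI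
  refine ⟨2 * C, by positivity, ?_⟩
  intro P k 𝒢 hk h𝒢
  rcases 𝒢.eq_empty_or_nonempty with he | ⟨g₀, hg₀⟩
  · rw [he, card_empty]
    simp
    positivity
  set n : ℕ := P.card with hn
  have hkn : k ≤ n := (h𝒢 g₀ hg₀).2.2.1.trans (card_filter_le _ _)
  set 𝓛 : Finset ((Fin 3 → ℝ) × (Fin 3 → ℝ)) := (P ×ˢ P).image lin with h𝓛
  set R : Finset (Fin 3 → ℝ) := 𝒢.image pt with hR
  have hRc : R.card = 𝒢.card := by
    apply card_image_of_injOn
    intro g hg g' hg' e
    have a := h𝒢 g hg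
    have b := h𝒢 g' hg'
    exact pt_inj a.1 a.2.1 b.1 b.2.1 e
  have h𝓛c : 𝓛.card ≤ n * n := by
    refine card_image_le.trans ?_
    rw [card_product]
  have hJT : JT k R 𝓛 := by
    intro x hx
    obtain ⟨g, hg, rfl⟩ := mem_image.1 hx
    obtain ⟨g1, g2, g3, g4⟩ := h𝒢 g hg
    have hinj : ∀ a b : ℂ, lin (a, g a) = lin (b, g b) → a = b := by
      intro a b h
      exact congrArg Prod.fst (lin_inj h)
    have hthr : thr 𝓛 (pt g) = (st P g).image (fun a => lin (a, g a)) := by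
      ext l
      simp only [thr, mem_filter, mem_image]
      constructor
      · rintro ⟨hl, hon⟩
        obtain ⟨⟨a, b⟩, hz, rfl⟩ := mem_image.1 hl
        have hb := (on_pt g1 g2 a b).1 hon
        obtain ⟨ha1, hb1⟩ := mem_product.1 hz
        refine ⟨a, mem_filter.2 ⟨ha1, ?_⟩, ?_⟩
        · rw [← hb]; exact hb1
        · rw [← hb]
      · rintro ⟨a, ha, rfl⟩
        obtain ⟨ha1, ha2⟩ := mem_filter.1 ha
        refine ⟨mem_image.2 ⟨(a, g a), mem_product.2 ⟨ha1, ha2⟩, rfl⟩, ?_⟩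
        exact (on_pt g1 g2 a (g a)).2 rfl
    have hthrc : (thr 𝓛 (pt g)).card = (st P g).card := by
      rw [hthr]
      exact card_image_of_injective _ (fun a b h => hinj a b h)
    refine ⟨by rw [hthrc]; exact g3, ?_⟩
    intro 𝓜 h𝓜 hc
    set M : Finset ℂ := (st P g).filter (fun a => lin (a, g a) ∈ 𝓜) with hM
    have hMc : M.card = 𝓜.card := by
      have : M.image (fun a => lin (a, g a)) = 𝓜 := by
        ext l
        simp only [mem_image, hM, mem_filter]
        constructor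
        · rintro ⟨a, ⟨_, ha⟩, rfl⟩
          exact ha
        · intro hl
          have := h𝓜 hl
          rw [hthr] at this
          obtain ⟨a, ha, rfl⟩ := mem_image.1 this
          exact ⟨a, ⟨ha, hl⟩, rfl⟩
      rw [← this]
      exact (card_image_of_injective _ (fun a b h => hinj a b h)).symm
    have hMs : (st P g).card ≤ 2 * M.card := by rw [hMc, ← hthrc]; exact hc
    have h1M : 1 < M.card := by omega
    obtain ⟨a, ha, b, hb, hab⟩ := one_lt_card.1 h1M
    have : ∃ c ∈ M, ¬ On (a, b - a) c := by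
      by_contra hcon
      push Not at hcon
      apply g4
      refine ⟨(a, b - a), sub_ne_zero.2 (Ne.symm hab), ?_⟩
      refine hMs.trans (Nat.mul_le_mul_left _ (card_le_card ?_))
      intro c hc'
      exact mem_filter.2 ⟨(mem_filter.1 hc').1, hcon c hc'⟩
    obtain ⟨c, hc', hcon⟩ := this
    refine ⟨![lin (a, g a), lin (b, g b), lin (c, g c)], ?_, indep g1 g2 hab hcon⟩
    intro i
    fin_cases i
    · exact (mem_filter.1 ha).2
    · exact (mem_filter.1 hb).2
    · exact (mem_filter.1 hc').2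
  have hmain := hI k R 𝓛 hk (lin_LF _) hJT
  rw [hRc] at hmain
  refine hmain.trans ?_
  have hL : (𝓛.card : ℝ) ≤ (n : ℝ) ^ 2 := by
    have : (𝓛.card : ℝ) ≤ ((n * n : ℕ) : ℝ) := by exact_mod_cast h𝓛c
    push_cast at this
    nlinarith
  have hL0 : (0 : ℝ) ≤ 𝓛.card := Nat.cast_nonneg _
  have hk' : (k : ℝ) ≤ n := by exact_mod_cast hkn
  have a1 : (𝓛.card : ℝ) ^ 9 ≤ ((n : ℝ) ^ 2) ^ 9 := pow_le_pow_left₀ hL0 hL 9
  have a2 : (𝓛.card : ℝ) ^ 5 ≤ ((n : ℝ) ^ 2) ^ 5 := pow_le_pow_left₀ hL0 hL 5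
  have a3 : (k : ℝ) ^ 8 ≤ (n : ℝ) ^ 8 := pow_le_pow_left₀ (Nat.cast_nonneg _) hk' 8
  have a4 : (𝓛.card : ℝ) ^ 5 * (k : ℝ) ^ 8 ≤ ((n : ℝ) ^ 2) ^ 5 * (n : ℝ) ^ 8 :=
    mul_le_mul a2 a3 (by positivity) (by positivity)
  calc C * ((𝓛.card : ℝ) ^ 9 + (𝓛.card : ℝ) ^ 5 * (k : ℝ) ^ 8)
      ≤ C * (((n : ℝ) ^ 2) ^ 9 + ((n : ℝ) ^ 2) ^ 5 * (n : ℝ) ^ 8) :=
        mul_le_mul_of_nonneg_left (add_le_add a1 a4) hC.le
    _ = 2 * C * (n : ℝ) ^ 18 := by ring

end Pool.RF
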