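import Pool.Agent.Work.MP_dc37f8_rf.Interface

/-!
# Block NCT (helper36): the third moment over the isometries which are not half-collinear
-/

set_option autoImplicit false

open Finset

namespace Pool.RF

open Pool.BK Pool.BD

namespace NCT

theorem ex_idx {x r : ℝ} (hr : 0 < r) (hx : r ≤ x) :
    ∃ i : ℕ, x / 2 ^ (i + 1) < r ∧ r ≤ x / 2 ^ i := by
  classical
  have hex : ∃ i : ℕ, x / 2 ^ (i + 1) < r := by
    obtain ⟨N, hN⟩ := exists_nat_gt (x / r)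
    refine ⟨N, ?_⟩
    have h1 : ((N : ℕ) : ℝ) < 2 ^ N := by
      have : N < 2 ^ N := Nat.lt_two_pow_self
      exact_mod_cast this
    have h2 : (2 : ℝ) ^ N ≤ 2 ^ (N + 1) := by
      rw [pow_succ]
      have : (0 : ℝ) < 2 ^ N := by positivity
      linarith
    have h3 : x / r < 2 ^ (N + 1) := by linarith
    rw [div_lt_iff₀ (by positivity)]
    rw [div_lt_iff₀ hr] at h3
    linarith
  refine ⟨Nat.find hex, Nat.find_spec hex, ?_⟩
  rcases Nat.eq_zero_or_pos (Nat.find hex) with h0 | h0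
  · rw [h0]
    simpa using hx
  · have h1 := Nat.find_min hex (m := Nat.find hex - 1) (by omega)
    have h2 : Nat.find hex - 1 + 1 = Nat.find hex := by omega
    rw [h2] at h1
    exact not_lt.1 h1

theorem geo (N : ℕ) : ∑ i ∈ range N, (4 / 5 : ℝ) ^ i ≤ 5 := by
  rw [geom_sum_eq (by norm_num)]
  have : (0 : ℝ) ≤ (4 / 5) ^ N := by positivity
  rw [div_le_iff_of_neg (by norm_num)]
  linarith

end NCT

open NCT

/-- NCT -/
theorem stmt_NCT (h : Stmt_NCB) : Stmt_NCT := by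
  classical
  obtain ⟨C, hC, hN⟩ := h
  intro η hη
  obtain ⟨δ, hδ⟩ : ∃ δ, δ = min 1 ((η / 5) ^ 5 / (8192 * C)) := ⟨_, rfl⟩
  have hδ0 : 0 < δ := by
    rw [hδ]
    exact lt_min one_pos (by positivity)
  have hδ1 : δ ≤ 1 := by
    rw [hδ]
    exact min_le_left _ _
  have hδ2 : 8192 * C * δ ^ 2 ≤ (η / 5) ^ 5 := by
    have h1 : δ ≤ (η / 5) ^ 5 / (8192 * C) := by
      rw [hδ]
      exact min_le_right _ _
    rw [le_div_iff₀ (by positivity)] at h1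
    have h2 : δ ^ 2 ≤ δ := by nlinarith
    have h3 : 8192 * C * δ ^ 2 ≤ 8192 * C * δ := by gcongr
    linarith
  refine ⟨δ, hδ0, ?_⟩
  intro P 𝒢 h𝒢
  have hn0 : (0 : ℝ) ≤ P.card := Nat.cast_nonneg _
  have hex : ∀ g : Gp, ∃ i : ℕ, g ∈ 𝒢 → δ * P.card / 2 ^ (i + 1) < ((st P g).card : ℝ) ∧
      ((st P g).card : ℝ) ≤ δ * P.card / 2 ^ i := by
    intro g
    by_cases hg : g ∈ 𝒢
    · have h1 := (h𝒢 g hg).2.2.1
      have h2 : (0 : ℝ) < (st P g).card := by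
        have : 0 < (st P g).card := by omega
        exact_mod_cast this
      obtain ⟨i, hi⟩ := ex_idx h2 (h𝒢 g hg).2.2.2.2
      exact ⟨i, fun _ => hi⟩
    · exact ⟨0, fun h => absurd h hg⟩
  choose idx hidx using hex
  have hblock : ∀ i : ℕ, ∑ g ∈ 𝒢.filter (fun g => idx g = i), ((st P g).card : ℝ) ^ 3 ≤
      η / 5 * (P.card : ℝ) ^ 4 * (4 / 5) ^ i := by
    intro i
    obtain ⟨t, ht⟩ : ∃ t, t = δ * P.card / 2 ^ i := ⟨_, rfl⟩
    have ht0 : 0 ≤ t := by rw [ht]; positivity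
    obtain ⟨𝒜, h𝒜⟩ : ∃ 𝒜, 𝒜 = 𝒢.filter (fun g => idx g = i) := ⟨_, rfl⟩
    rw [← h𝒜]
    have hA : ∀ g ∈ 𝒜, g ∈ 𝒢 ∧ t / 2 < ((st P g).card : ℝ) ∧ ((st P g).card : ℝ) ≤ t := by
      intro g hg
      rw [h𝒜, mem_filter] at hg
      have h1 := hidx g hg.1
      rw [hg.2, ← ht] at h1
      have h2 : δ * (P.card : ℝ) / 2 ^ (i + 1) = t / 2 := by
        rw [ht, pow_succ]
        field_simp
      rw [h2] at h1
      exact ⟨hg.1, h1⟩
    have h1 : ∑ g ∈ 𝒜, ((st P g).card : ℝ) ^ 3 ≤ 𝒜.card * t ^ 3 := by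
      calc ∑ g ∈ 𝒜, ((st P g).card : ℝ) ^ 3 ≤ ∑ g ∈ 𝒜, t ^ 3 := by
            apply sum_le_sum
            intro g hg
            exact pow_le_pow_left₀ (Nat.cast_nonneg _) (hA g hg).2.2 3
        _ = 𝒜.card * t ^ 3 := by rw [sum_const, nsmul_eq_mul]
    refine h1.trans ?_
    -- the fifth powers
    obtain ⟨k, hk⟩ : ∃ k, k = max 28 ⌈t / 2⌉₊ := ⟨_, rfl⟩
    have hk28 : 28 ≤ k := by rw [hk]; exact le_max_left _ _
    have hkt : t / 2 ≤ k := by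
      have h2 := Nat.le_ceil (t / 2)
      have h3 : ((⌈t / 2⌉₊ : ℕ) : ℝ) ≤ k := by
        have : ⌈t / 2⌉₊ ≤ k := by rw [hk]; exact le_max_right _ _
        exact_mod_cast this
      linarith
    have h2 := hN P k 𝒜 hk28 (by
      intro g hg
      have h3 := hA g hg
      have h4 := h𝒢 g h3.1
      refine ⟨h4.1, h4.2.1, ?_, h4.2.2.2.1⟩
      rw [hk]
      exact max_le h4.2.2.1 (Nat.ceil_le.2 h3.2.1.le))
    have h3 : (𝒜.card : ℝ) ^ 5 * (t / 2) ^ 13 ≤ C * (P.card : ℝ) ^ 18 := by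
      refine le_trans ?_ h2
      gcongr
    have h4 : ((𝒜.card : ℝ) * t ^ 3) ^ 5 ≤ (η / 5 * (P.card : ℝ) ^ 4 * (4 / 5) ^ i) ^ 5 := by
      calc ((𝒜.card : ℝ) * t ^ 3) ^ 5 = 8192 * t ^ 2 * ((𝒜.card : ℝ) ^ 5 * (t / 2) ^ 13) := by ring
        _ ≤ 8192 * t ^ 2 * (C * (P.card : ℝ) ^ 18) := by gcongr
        _ = 8192 * C * δ ^ 2 * (P.card : ℝ) ^ 20 * (1 / 4) ^ i := by
            rw [ht, div_pow (δ * (P.card : ℝ)), ← pow_mul, mul_comm i 2, pow_mul, div_pow]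
            norm_num
            ring
        _ ≤ (η / 5) ^ 5 * (P.card : ℝ) ^ 20 * ((4 / 5) ^ 5) ^ i := by
            gcongr
            norm_num
        _ = (η / 5 * (P.card : ℝ) ^ 4 * (4 / 5) ^ i) ^ 5 := by
            have h5 : (((4 : ℝ) / 5) ^ 5) ^ i = ((4 / 5) ^ i) ^ 5 := by
              rw [← pow_mul, ← pow_mul, mul_comm]
            rw [h5, mul_pow, mul_pow, ← pow_mul (P.card : ℝ)]
    exact le_of_pow_le_pow_left₀ (by norm_num) (by positivity) h4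
  obtain ⟨N, hNd⟩ : ∃ N, N = 𝒢.sup idx + 1 := ⟨_, rfl⟩
  have hmap : ∀ g ∈ 𝒢, idx g ∈ range N := by
    intro g hg
    rw [mem_range, hNd]
    have := Finset.le_sup (f := idx) hg
    omega
  rw [← sum_fiberwise_of_maps_to hmap]
  calc ∑ i ∈ range N, ∑ g ∈ 𝒢.filter (fun g => idx g = i), ((st P g).card : ℝ) ^ 3
      ≤ ∑ i ∈ range N, η / 5 * (P.card : ℝ) ^ 4 * (4 / 5) ^ i := sum_le_sum (fun i _ => hblock i)
    _ = η / 5 * (P.card : ℝ) ^ 4 * ∑ i ∈ range N, (4 / 5 : ℝ) ^ i := by rw [mul_sum]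
    _ ≤ η / 5 * (P.card : ℝ) ^ 4 * 5 := by
        gcongr
        exact geo N
    _ = η * (P.card : ℝ) ^ 4 := by ring

end Pool.RF
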