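import Pool.Agent.Work.MP_dc37f8_rf.InterfaceC

/-! NEGA: the isometries which do not fix `c` are negligible. -/

set_option autoImplicit false

open Finset

namespace Pool.RF

open Pool.BK Pool.BD

namespace NEGA

theorem cover {α β γ : Type} (𝒢 : Finset α) (𝒲 : Finset β) (𝒬 : Finset γ) (a : β → α → Prop)
    (r : α → Prop) (b : γ → α → Prop) (f : α → ℝ) (hf : ∀ g, 0 ≤ f g)
    [DecidablePred (fun g => ¬ ((∃ h ∈ 𝒲, a h g) ∨ (r g ∧ ∃ z ∈ 𝒬, b z g)))]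
    [∀ h, DecidablePred (fun g => a h g)] [∀ z, DecidablePred (fun g => r g ∧ b z g)] :
    ∑ g ∈ 𝒢, f g ≤
      ∑ g ∈ 𝒢.filter (fun g => ¬ ((∃ h ∈ 𝒲, a h g) ∨ (r g ∧ ∃ z ∈ 𝒬, b z g))), f g +
      ∑ h ∈ 𝒲, ∑ g ∈ 𝒢.filter (fun g => a h g), f g +
      ∑ z ∈ 𝒬, ∑ g ∈ 𝒢.filter (fun g => r g ∧ b z g), f g := by
  classical
  have e1 : ∑ h ∈ 𝒲, ∑ g ∈ 𝒢.filter (fun g => a h g), f g =
      ∑ g ∈ 𝒢, ∑ h ∈ 𝒲, (if a h g then f g else 0) := by
    rw [sum_comm]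
    refine sum_congr rfl fun h _ => ?_
    rw [sum_filter]
  have e2 : ∑ z ∈ 𝒬, ∑ g ∈ 𝒢.filter (fun g => r g ∧ b z g), f g =
      ∑ g ∈ 𝒢, ∑ z ∈ 𝒬, (if r g ∧ b z g then f g else 0) := by
    rw [sum_comm]
    refine sum_congr rfl fun h _ => ?_
    rw [sum_filter]
  rw [e1, e2, sum_filter, ← sum_add_distrib, ← sum_add_distrib]
  refine sum_le_sum fun g _ => ?_
  have h1 : 0 ≤ ∑ h ∈ 𝒲, (if a h g then f g else 0) :=
    sum_nonneg fun h _ => by split_ifs; exacts [hf g, le_rfl]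
  have h2 : 0 ≤ ∑ z ∈ 𝒬, (if r g ∧ b z g then f g else 0) :=
    sum_nonneg fun h _ => by split_ifs; exacts [hf g, le_rfl]
  by_cases h : ¬ ((∃ h ∈ 𝒲, a h g) ∨ (r g ∧ ∃ z ∈ 𝒬, b z g))
  · rw [if_pos h]; linarith
  · rw [if_neg h]
    push Not at h
    rcases h with ⟨h, hh, ha⟩ | ⟨hr, z, hz, hb⟩
    · have h3 : f g ≤ ∑ h ∈ 𝒲, (if a h g then f g else 0) := by
        have := single_le_sum (f := fun h => if a h g then f g else 0)
          (fun i _ => by split_ifs; exacts [hf g, le_rfl]) hh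
        simp only [if_pos ha] at this
        exact this
      linarith
    · have h3 : f g ≤ ∑ z ∈ 𝒬, (if r g ∧ b z g then f g else 0) := by
        have := single_le_sum (f := fun z => if r g ∧ b z g then f g else 0)
          (fun i _ => by split_ifs; exacts [hf g, le_rfl]) hz
        simp only [if_pos (And.intro hr hb)] at this
        exact this
      linarith

/-- the energy of a set on few circles -/
theorem en_le (hENU : Stmt_ENU) (hECIRC : Stmt_ECIRC) {P Q : Finset ℂ} {β : ℝ} (hβ : 0 < β)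
    (hP : 0 < P.card) (c : ℂ) (hQ : Q ⊆ UP.R P (β * P.card) c) :
    (En (Q ×ˢ Q) : ℝ) * β ^ 2 ≤ 3 * (P.card : ℝ) ^ 2 := by
  classical
  have hn : (0 : ℝ) < P.card := by exact_mod_cast hP
  set S : Finset ℝ := (UP.R P (β * P.card) c).image (fun p => dist p c) with hS
  have hs : (S.card : ℝ) * β ≤ 1 := by
    have := UP.radii_le P (b := β * P.card) c
    rw [← hS] at this
    have h2 : (S.card : ℝ) * β * P.card ≤ 1 * P.card := by linarith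
    exact le_of_mul_le_mul_right h2 hn
  have hQP : Q ⊆ P := hQ.trans (UP.R_sub _ _ _)
  have hQc : Q.card ≤ P.card := card_le_card hQP
  have hu : Q ×ˢ Q = S.biUnion (fun ρ => (Q.filter (fun p => dist p c = ρ)) ×ˢ Q) := by
    ext z
    simp only [mem_product, mem_biUnion, mem_filter]
    constructor
    · rintro ⟨h1, h2⟩
      exact ⟨dist z.1 c, mem_image_of_mem _ (hQ h1), ⟨h1, rfl⟩, h2⟩
    · rintro ⟨ρ, _, ⟨h1, _⟩, h2⟩
      exact ⟨h1, h2⟩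
  have h1 : En (Q ×ˢ Q) ≤ S.card * ∑ ρ ∈ S, En ((Q.filter (fun p => dist p c = ρ)) ×ˢ Q) := by
    have := hENU.2.1 ℝ S (fun ρ => (Q.filter (fun p => dist p c = ρ)) ×ˢ Q)
    refine le_trans (le_of_eq ?_) this
    rw [hu]
  have h2 : ∀ ρ ∈ S, En ((Q.filter (fun p => dist p c = ρ)) ×ˢ Q) ≤ 3 * P.card ^ 2 := by
    intro ρ _
    refine (hECIRC (Q.filter (fun p => dist p c = ρ)) Q c ρ
      (fun p hp => (mem_filter.1 hp).2)).trans ?_
    have h3 : (Q.filter (fun p => dist p c = ρ)).card ≤ P.card :=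
      (card_filter_le _ _).trans hQc
    calc (Q.filter (fun p => dist p c = ρ)).card * Q.card + 2 * Q.card ^ 2
        ≤ P.card * P.card + 2 * P.card ^ 2 :=
          add_le_add (Nat.mul_le_mul h3 hQc) (Nat.mul_le_mul_left _ (Nat.pow_le_pow_left hQc 2))
      _ = 3 * P.card ^ 2 := by ring
  have h3 : En (Q ×ˢ Q) ≤ S.card * (S.card * (3 * P.card ^ 2)) := by
    refine h1.trans (Nat.mul_le_mul_left _ ?_)
    refine (sum_le_sum h2).trans (le_of_eq ?_)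
    rw [sum_const, smul_eq_mul]
  have h4 : (En (Q ×ˢ Q) : ℝ) ≤ S.card * (S.card * (3 * (P.card : ℝ) ^ 2)) := by
    exact_mod_cast h3
  have hs0 : 0 ≤ (S.card : ℝ) * β := by positivity
  calc (En (Q ×ˢ Q) : ℝ) * β ^ 2
      ≤ S.card * (S.card * (3 * (P.card : ℝ) ^ 2)) * β ^ 2 := by gcongr
    _ = ((S.card : ℝ) * β) ^ 2 * (3 * (P.card : ℝ) ^ 2) := by ring
    _ ≤ 1 ^ 2 * (3 * (P.card : ℝ) ^ 2) := by gcongr
    _ = _ := by ring

theorem st_sub_st {P Q : Finset ℂ} (h : Q ⊆ P) (g : Gp) : st Q g ⊆ st P g := by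
  intro p hp
  obtain ⟨h1, h2⟩ := mem_filter.1 hp
  exact mem_filter.2 ⟨h h1, h h2⟩

/-- the third moment over isometries with a given linear part -/
theorem lin_part (hLINC : Stmt_LINC) {P Q : Finset ℂ} (hQP : Q ⊆ P) {h : Gp} (hh : IsDir h)
    {H : Finset Gp} (hH : ∀ g ∈ H, IsDir g ∧ IsTr (g * h⁻¹)) {ε : ℝ} (hε : 0 ≤ ε)
    (hE : (En (Q ×ˢ Q) : ℝ) ≤ ε ^ 2 * (P.card : ℝ) ^ 3) :
    ∑ g ∈ H, ((st Q g).card : ℝ) ^ 3 ≤ ε * (P.card : ℝ) ^ 4 := by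
  classical
  have h1 := hLINC P (Q ×ˢ Q) h H (product_subset_product hQP hQP) hh hH
  set F : Gp → ℝ := fun g => (((Q ×ˢ Q).filter (fun z => z.1 ∈ st P g ∧ z.2 ∈ st P g)).card : ℝ)
    with hF
  have h2 : ∀ g ∈ H, ((st Q g).card : ℝ) ^ 3 ≤ (P.card : ℝ) * F g := by
    intro g _
    have e1 : (st Q g).card * (st Q g).card ≤
        ((Q ×ˢ Q).filter (fun z => z.1 ∈ st P g ∧ z.2 ∈ st P g)).card := by
      rw [← card_product]
      refine card_le_card ?_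
      intro z hz
      obtain ⟨h3, h4⟩ := mem_product.1 hz
      exact mem_filter.2 ⟨mem_product.2 ⟨(mem_filter.1 h3).1, (mem_filter.1 h4).1⟩,
        st_sub_st hQP g h3, st_sub_st hQP g h4⟩
    have e2 : ((st Q g).card : ℝ) * (st Q g).card ≤ F g := by
      simp only [hF]; exact_mod_cast e1
    have e3 : ((st Q g).card : ℝ) ≤ P.card := by
      exact_mod_cast (card_le_card (st_sub_st hQP g)).trans (card_filter_le _ _)
    calc ((st Q g).card : ℝ) ^ 3 = (st Q g).card * (((st Q g).card : ℝ) * (st Q g).card) := by ring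
      _ ≤ _ := mul_le_mul e3 e2 (by positivity) (Nat.cast_nonneg _)
  have h3 : ∑ g ∈ H, F g ≤ ε * (P.card : ℝ) ^ 3 := by
    refine le_of_sq_le_sq ?_ (by positivity)
    have h4 : (∑ g ∈ H, F g) ^ 2 ≤ En (Q ×ˢ Q) * (P.card : ℝ) ^ 3 := by
      refine le_trans (le_of_eq ?_) h1
      congr 1
    refine h4.trans ?_
    calc (En (Q ×ˢ Q) : ℝ) * (P.card : ℝ) ^ 3
        ≤ (ε ^ 2 * (P.card : ℝ) ^ 3) * (P.card : ℝ) ^ 3 := by gcongr
      _ = (ε * (P.card : ℝ) ^ 3) ^ 2 := by ring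
  calc ∑ g ∈ H, ((st Q g).card : ℝ) ^ 3 ≤ ∑ g ∈ H, (P.card : ℝ) * F g := sum_le_sum h2
    _ = (P.card : ℝ) * ∑ g ∈ H, F g := by rw [mul_sum]
    _ ≤ (P.card : ℝ) * (ε * (P.card : ℝ) ^ 3) := by gcongr
    _ = _ := by ring

/-- the third moment over isometries with given centres -/
theorem cen_part (hCENZ : Stmt_CENZ) {P Q : Finset ℂ} (hQP : Q ⊆ P) {b : ℝ} (hb : 0 ≤ b)
    {c c' : ℂ} {H : Finset Gp} (hH : ∀ g ∈ H, IsDir g ∧ g c = c')
    (hcc : (∀ q ∈ Q, q ∉ UP.R P (b * P.card) c) ∨ (∀ q ∈ Q, q ∉ UP.R P (b * P.card) c')) :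
    ∑ g ∈ H, ((st Q g).card : ℝ) ^ 3 ≤
      (P.card : ℝ) ^ 2 * (2 * b * (P.card : ℝ) ^ 2 + H.card) := by
  classical
  have h1 := hCENZ P b c c' H hb hH
  set F : Gp → ℝ := fun g => (((st P g).filter (fun p => ¬ (p ∈ UP.R P (b * P.card) c ∧
      g p ∈ UP.R P (b * P.card) c'))).card : ℝ) with hF
  have h2 : ∀ g ∈ H, ((st Q g).card : ℝ) ^ 3 ≤ (P.card : ℝ) ^ 2 * F g := by
    intro g _
    have e1 : (st Q g).card ≤ ((st P g).filter (fun p => ¬ (p ∈ UP.R P (b * P.card) c ∧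
      g p ∈ UP.R P (b * P.card) c'))).card := by
      refine card_le_card ?_
      intro p hp
      refine mem_filter.2 ⟨st_sub_st hQP g hp, ?_⟩
      rintro ⟨k1, k2⟩
      obtain ⟨hp1, hp2⟩ := mem_filter.1 hp
      rcases hcc with h | h
      · exact h p hp1 k1
      · exact h _ hp2 k2
    have e2 : ((st Q g).card : ℝ) ≤ F g := by
      simp only [hF]; exact_mod_cast e1
    have e3 : ((st Q g).card : ℝ) ≤ P.card := by
      exact_mod_cast (card_le_card (st_sub_st hQP g)).trans (card_filter_le _ _)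
    calc ((st Q g).card : ℝ) ^ 3 = ((st Q g).card : ℝ) ^ 2 * (st Q g).card := by ring
      _ ≤ (P.card : ℝ) ^ 2 * F g := by gcongr
  have h3 : ∑ g ∈ H, F g ≤ 2 * b * (P.card : ℝ) ^ 2 + H.card := by
    refine le_trans (le_of_eq ?_) h1
    refine sum_congr rfl fun g _ => ?_
    rw [hF]
  calc ∑ g ∈ H, ((st Q g).card : ℝ) ^ 3 ≤ ∑ g ∈ H, (P.card : ℝ) ^ 2 * F g := sum_le_sum h2
    _ = (P.card : ℝ) ^ 2 * ∑ g ∈ H, F g := by rw [mul_sum]
    _ ≤ _ := by gcongr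

theorem mem_cen_left {𝒬 : Finset (ℂ × ℂ)} {z : ℂ × ℂ} (hz : z ∈ 𝒬) : z.1 ∈ cen 𝒬 := by
  unfold cen
  exact mem_union_left _ (mem_image_of_mem _ hz)

theorem mem_cen_right {𝒬 : Finset (ℂ × ℂ)} {z : ℂ × ℂ} (hz : z ∈ 𝒬) : z.2 ∈ cen 𝒬 := by
  unfold cen
  exact mem_union_right _ (mem_image_of_mem _ hz)

theorem bb_pos (L : ℕ) : 0 < bb L := by unfold bb; positivity

end NEGA

set_option maxHeartbeats 4000000 in
theorem stmt_NEGA (hCENZ : Stmt_CENZ) (hLINC : Stmt_LINC) (hENU : Stmt_ENU)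
    (hECIRC : Stmt_ECIRC) : Stmt_NEGA := by
  classical
  intro δ L hδ
  refine ⟨3 * 10 ^ 34 * (L + 1) ^ 4, ?_⟩
  intro P Q 𝒢 𝒬 𝒲 c hP hCtx hQ hcen
  obtain ⟨hG, h𝒬, h𝒲, hW, hrich, hun⟩ := hCtx
  set n : ℝ := (P.card : ℝ) with hn
  have hPpos : 0 < P.card := lt_of_lt_of_le (by positivity) hP
  have hn0 : 0 < n := by rw [hn]; exact_mod_cast hPpos
  have hnL : 3 * 10 ^ 34 * ((L : ℝ) + 1) ^ 4 ≤ n := by rw [hn]; exact_mod_cast hP
  have hQP : Q ⊆ P := hQ.trans (UP.R_sub _ _ _)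
  have hL0 : (0 : ℝ) ≤ L := Nat.cast_nonneg _
  have hL𝒬 : (𝒬.card : ℝ) ≤ L := by exact_mod_cast h𝒬
  have hL𝒲 : (𝒲.card : ℝ) ≤ L := by exact_mod_cast h𝒲
  set ε : ℝ := 1 / (10 ^ 8 * (L + 1)) with hε
  have hε0 : 0 < ε := by positivity
  -- the energy
  have hE : (En (Q ×ˢ Q) : ℝ) ≤ ε ^ 2 * (P.card : ℝ) ^ 3 := by
    have h1 := NEGA.en_le hENU hECIRC (NEGA.bb_pos L) hPpos c hQ
    rw [← hn] at h1 ⊢
    have h2 : (bb L) ^ 2 * (10 ^ 9 * ((L : ℝ) + 1)) ^ 2 = 1 := by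
      unfold bb; field_simp
    have h3 : (En (Q ×ˢ Q) : ℝ) ≤ 3 * n ^ 2 * (10 ^ 9 * ((L : ℝ) + 1)) ^ 2 := by
      calc (En (Q ×ˢ Q) : ℝ) = (En (Q ×ˢ Q) : ℝ) * (bb L) ^ 2 * (10 ^ 9 * ((L : ℝ) + 1)) ^ 2 := by
            rw [mul_assoc, h2, mul_one]
        _ ≤ _ := mul_le_mul_of_nonneg_right h1 (by positivity)
    refine h3.trans ?_
    have h4 : ε ^ 2 * (10 ^ 8 * ((L : ℝ) + 1)) ^ 2 = 1 := by
      rw [hε]; field_simp
    have h5 : 3 * (10 ^ 9 * ((L : ℝ) + 1)) ^ 2 * (10 ^ 8 * ((L : ℝ) + 1)) ^ 2 ≤ n := by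
      refine le_trans (le_of_eq ?_) hnL
      ring
    calc 3 * n ^ 2 * (10 ^ 9 * ((L : ℝ) + 1)) ^ 2
        = ε ^ 2 * n ^ 2 * (3 * (10 ^ 9 * ((L : ℝ) + 1)) ^ 2 * (10 ^ 8 * ((L : ℝ) + 1)) ^ 2) := by
          have : ε ^ 2 * n ^ 2 * (3 * (10 ^ 9 * ((L : ℝ) + 1)) ^ 2 * (10 ^ 8 * ((L : ℝ) + 1)) ^ 2) =
            (ε ^ 2 * (10 ^ 8 * ((L : ℝ) + 1)) ^ 2) * (3 * n ^ 2 * (10 ^ 9 * ((L : ℝ) + 1)) ^ 2) := by
            ring
          rw [this, h4, one_mul]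
      _ ≤ ε ^ 2 * n ^ 2 * n := by gcongr
      _ = ε ^ 2 * n ^ 3 := by ring
  set 𝒢' := 𝒢.filter (fun g => g c ≠ c) with h𝒢'
  have hcov := NEGA.cover 𝒢' 𝒲 𝒬 (fun h g => IsTr (g * h⁻¹))
    (fun g => δ * P.card ≤ ((st P g).card : ℝ)) (fun z g => g z.1 = z.2)
    (fun g => ((st Q g).card : ℝ) ^ 3) (fun g => by positivity)
  -- unstructured
  have p1 : ∑ g ∈ 𝒢'.filter (fun g => ¬ ((∃ h ∈ 𝒲, IsTr (g * h⁻¹)) ∨
      (δ * P.card ≤ ((st P g).card : ℝ) ∧ ∃ z ∈ 𝒬, g z.1 = z.2))), ((st Q g).card : ℝ) ^ 3 ≤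
      1 / 10 ^ 8 * n ^ 4 := by
    refine le_trans ?_ hun
    refine le_trans (sum_le_sum (g := fun g => ((st P g).card : ℝ) ^ 3) fun g _ => ?_) ?_
    · have : ((st Q g).card : ℝ) ≤ (st P g).card := by
        exact_mod_cast card_le_card (NEGA.st_sub_st hQP g)
      exact pow_le_pow_left₀ (Nat.cast_nonneg _) this 3
    · refine sum_le_sum_of_subset_of_nonneg ?_ fun g _ _ => by positivity
      intro g hg
      obtain ⟨h1, h2⟩ := mem_filter.1 hg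
      exact mem_filter.2 ⟨(mem_filter.1 h1).1, h2⟩
  -- type h
  have p2 : ∑ h ∈ 𝒲, ∑ g ∈ 𝒢'.filter (fun g => IsTr (g * h⁻¹)), ((st Q g).card : ℝ) ^ 3 ≤
      1 / 10 ^ 8 * n ^ 4 := by
    have h1 : ∀ h ∈ 𝒲, ∑ g ∈ 𝒢'.filter (fun g => IsTr (g * h⁻¹)), ((st Q g).card : ℝ) ^ 3 ≤
        ε * n ^ 4 := by
      intro h hh
      refine NEGA.lin_part hLINC hQP (hW h hh) ?_ hε0.le hE
      intro g hg
      obtain ⟨h2, h3⟩ := mem_filter.1 hg
      exact ⟨(hG g (mem_filter.1 h2).1).1, h3⟩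
    refine (sum_le_sum h1).trans ?_
    rw [sum_const, nsmul_eq_mul]
    have h2 : (𝒲.card : ℝ) * ε ≤ 1 / 10 ^ 8 := by
      have h3 : ((L : ℝ) + 1) * ε = 1 / 10 ^ 8 := by rw [hε]; field_simp
      have h4 : (𝒲.card : ℝ) * ε ≤ ((L : ℝ) + 1) * ε := by gcongr; linarith
      linarith
    calc (𝒲.card : ℝ) * (ε * n ^ 4) = ((𝒲.card : ℝ) * ε) * n ^ 4 := by ring
      _ ≤ _ := by gcongr
  -- type z
  have p3 : ∑ z ∈ 𝒬, ∑ g ∈ 𝒢'.filter (fun g => δ * P.card ≤ ((st P g).card : ℝ) ∧ g z.1 = z.2),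
      ((st Q g).card : ℝ) ^ 3 ≤ 1 / 10 ^ 8 * n ^ 4 := by
    have h1 : ∀ z ∈ 𝒬, ∑ g ∈ 𝒢'.filter (fun g => δ * P.card ≤ ((st P g).card : ℝ) ∧ g z.1 = z.2),
        ((st Q g).card : ℝ) ^ 3 ≤ n ^ 2 * (2 * bb L * n ^ 2 + L * n) := by
      intro z hz
      by_cases hne : (𝒢'.filter (fun g => δ * P.card ≤ ((st P g).card : ℝ) ∧
          g z.1 = z.2)).Nonempty
      · have hcc : (∀ q ∈ Q, q ∉ UP.R P (bb L * P.card) z.1) ∨
            (∀ q ∈ Q, q ∉ UP.R P (bb L * P.card) z.2) := by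
          by_cases hz1 : z.1 = c
          · right
            obtain ⟨g, hg⟩ := hne
            obtain ⟨h2, _, h3⟩ := mem_filter.1 hg
            have h4 := (mem_filter.1 h2).2
            refine hcen z.2 (NEGA.mem_cen_right hz) ?_
            rw [← h3, hz1]; exact h4
          · left
            exact hcen z.1 (NEGA.mem_cen_left hz) hz1
        have h2 := NEGA.cen_part hCENZ hQP (NEGA.bb_pos L).le (c := z.1) (c' := z.2)
          (H := 𝒢'.filter (fun g => δ * P.card ≤ ((st P g).card : ℝ) ∧ g z.1 = z.2))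
          (fun g hg => ⟨(hG g (mem_filter.1 (mem_filter.1 hg).1).1).1, (mem_filter.1 hg).2.2⟩) hcc
        refine h2.trans ?_
        have h3 : ((𝒢'.filter (fun g => δ * P.card ≤ ((st P g).card : ℝ) ∧
            g z.1 = z.2)).card : ℝ) ≤ L * n := by
          refine le_trans ?_ hrich
          have : (𝒢'.filter (fun g => δ * P.card ≤ ((st P g).card : ℝ) ∧ g z.1 = z.2)).card ≤
              (𝒢.filter (fun g => δ * P.card ≤ ((st P g).card : ℝ))).card := by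
            refine card_le_card ?_
            intro g hg
            obtain ⟨h2, h3, _⟩ := mem_filter.1 hg
            exact mem_filter.2 ⟨(mem_filter.1 h2).1, h3⟩
          exact_mod_cast this
        rw [← hn]
        gcongr
      · rw [not_nonempty_iff_eq_empty.1 hne, sum_empty]
        have := NEGA.bb_pos L
        positivity
    refine (sum_le_sum h1).trans ?_
    rw [sum_const, nsmul_eq_mul]
    have h2 : (L : ℝ) * bb L ≤ 1 / 10 ^ 9 := by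
      unfold bb
      rw [mul_one_div, div_le_div_iff₀ (by positivity) (by positivity)]
      nlinarith
    have h3 : (L : ℝ) ^ 2 ≤ 1 / 10 ^ 9 * n := by
      have h4 : (L : ℝ) ^ 2 ≤ ((L : ℝ) + 1) ^ 4 := by
        have h5 : (L : ℝ) ^ 2 ≤ ((L : ℝ) + 1) ^ 2 := pow_le_pow_left₀ hL0 (by linarith) 2
        have h6 : ((L : ℝ) + 1) ^ 2 ≤ ((L : ℝ) + 1) ^ 4 :=
          pow_le_pow_right₀ (by linarith) (by norm_num)
        linarith
      have h7 : (0 : ℝ) ≤ ((L : ℝ) + 1) ^ 4 := by positivity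
      nlinarith
    have hbb := NEGA.bb_pos L
    calc (𝒬.card : ℝ) * (n ^ 2 * (2 * bb L * n ^ 2 + L * n))
        ≤ L * (n ^ 2 * (2 * bb L * n ^ 2 + L * n)) := by gcongr
      _ = 2 * ((L : ℝ) * bb L) * n ^ 4 + (L : ℝ) ^ 2 * n ^ 3 := by ring
      _ ≤ 2 * (1 / 10 ^ 9) * n ^ 4 + (1 / 10 ^ 9 * n) * n ^ 3 := by gcongr
      _ ≤ 1 / 10 ^ 8 * n ^ 4 := by
        have : (0 : ℝ) < n ^ 4 := by positivity
        nlinarith
  have hfin : 3 / 10 ^ 8 * n ^ 4 = 1 / 10 ^ 8 * n ^ 4 + 1 / 10 ^ 8 * n ^ 4 + 1 / 10 ^ 8 * n ^ 4 := by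
    ring
  rw [hfin]
  refine hcov.trans ?_
  refine add_le_add (add_le_add ?_ ?_) ?_
  · convert p1
  · convert p2
  · convert p3

end Pool.RF
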