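import Pool.Agent.Work.MP_dc37f8_rf.InterfaceC

/-!
# NEGB: the isometries which are no translations or half-turns are negligible for a set on few
parallel lines
-/

set_option autoImplicit false

open Finset

namespace Pool.RF

open Pool.BK Pool.BD

namespace NEGB

/-- the coordinate orthogonal to `v` -/
noncomputable def ph (v q : ℂ) : ℝ := (q * (starRingEnd ℂ) v).im

theorem on_iff {v : ℂ} (hv : v ≠ 0) (q y : ℂ) : On (q, v) y ↔ ph v y = ph v q := by
  have hv2 : v * (starRingEnd ℂ) v = ((Complex.normSq v : ℝ) : ℂ) := Complex.mul_conj v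
  have hn : (Complex.normSq v : ℝ) ≠ 0 := fun h => hv (Complex.normSq_eq_zero.mp h)
  constructor
  · rintro ⟨s, hs⟩
    change y = q + s * v at hs
    unfold ph
    rw [hs, add_mul, Complex.add_im, mul_assoc, hv2, ← Complex.ofReal_mul, Complex.ofReal_im,
      add_zero]
  · intro h
    unfold ph at h
    have h1 : ((y - q) * (starRingEnd ℂ) v).im = 0 := by
      rw [sub_mul, Complex.sub_im, h, sub_self]
    have h2 : (y - q) * (starRingEnd ℂ) v = ((((y - q) * (starRingEnd ℂ) v).re : ℝ) : ℂ) := by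
      apply Complex.ext
      · rw [Complex.ofReal_re]
      · rw [Complex.ofReal_im, h1]
    refine ⟨((y - q) * (starRingEnd ℂ) v).re / Complex.normSq v, ?_⟩
    change y = q + _ * v
    have h3 : (y - q) * ((Complex.normSq v : ℝ) : ℂ) =
        ((((y - q) * (starRingEnd ℂ) v).re : ℝ) : ℂ) * v := by
      rw [← h2, ← hv2]
      ring
    have hn' : ((Complex.normSq v : ℝ) : ℂ) ≠ 0 := by
      exact_mod_cast hn
    rw [Complex.ofReal_div, div_mul_eq_mul_div, ← h3, mul_div_assoc, div_self hn']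
    ring

theorem inj {v : ℂ} (hv : v ≠ 0) {g : Gp} (hg : IsDir g) (hw : ¬ (g 1 - g 0 = 1 ∨ g 1 - g 0 = -1))
    {q q' : ℂ} (h1 : ph v q = ph v q') (h2 : ph v (g q) = ph v (g q')) : q = q' := by
  obtain ⟨w, t, hn, hz⟩ := hg
  have hw1 : g 1 - g 0 = w := by rw [hz, hz]; ring
  rw [hw1] at hw
  have hwi : w.im ≠ 0 := by
    intro h0
    apply hw
    have h3 : w.re * w.re + w.im * w.im = 1 := by
      rw [← Complex.normSq_apply, Complex.normSq_eq_norm_sq, hn]
      norm_num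
    rw [h0] at h3
    have h4 : (w.re - 1) * (w.re + 1) = 0 := by linarith
    rcases mul_eq_zero.mp h4 with h | h
    · left
      apply Complex.ext
      · rw [Complex.one_re]
        linarith
      · rw [Complex.one_im, h0]
    · right
      apply Complex.ext
      · rw [Complex.neg_re, Complex.one_re]
        linarith
      · rw [Complex.neg_im, Complex.one_im, h0]
        norm_num
  unfold ph at h1 h2
  have h3 : ((q - q') * (starRingEnd ℂ) v).im = 0 := by
    rw [sub_mul, Complex.sub_im, h1, sub_self]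
  have h4 : (w * ((q - q') * (starRingEnd ℂ) v)).im = 0 := by
    have h5 : w * ((q - q') * (starRingEnd ℂ) v) =
        g q * (starRingEnd ℂ) v - g q' * (starRingEnd ℂ) v := by
      rw [hz, hz]
      ring
    rw [h5, Complex.sub_im, h2, sub_self]
  rw [Complex.mul_im, h3, mul_zero, zero_add] at h4
  have h5 : ((q - q') * (starRingEnd ℂ) v).re = 0 := by
    rcases mul_eq_zero.mp h4 with h | h
    · exact absurd h hwi
    · exact h
  have h6 : (q - q') * (starRingEnd ℂ) v = 0 := Complex.ext h5 h3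
  rcases mul_eq_zero.mp h6 with h | h
  · exact sub_eq_zero.mp h
  · exact absurd ((map_eq_zero (starRingEnd ℂ)).mp h) hv

theorem dir_ext {g h : Gp} (hg : IsDir g) (hh : IsDir h) {p q : ℂ} (hpq : p ≠ q) (h1 : g p = h p)
    (h2 : g q = h q) : g = h := by
  obtain ⟨w, t, -, hz⟩ := hg
  obtain ⟨w', t', -, hz'⟩ := hh
  rw [hz, hz'] at h1 h2
  have h3 : (w - w') * (p - q) = 0 := by linear_combination h1 - h2
  have h4 : w = w' := by
    rcases mul_eq_zero.mp h3 with h | h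
    · exact sub_eq_zero.mp h
    · exact absurd (sub_eq_zero.mp h) hpq
  have h5 : t = t' := by
    rw [h4] at h1
    exact add_left_cancel h1
  apply Equiv.ext
  intro z
  rw [hz, hz', h4, h5]

theorem dir_dist {g : Gp} (hg : IsDir g) (p q : ℂ) : dist (g p) (g q) = dist p q := by
  obtain ⟨w, t, hn, hz⟩ := hg
  rw [hz, hz, dist_eq_norm, dist_eq_norm]
  have : w * p + t - (w * q + t) = w * (p - q) := by ring
  rw [this, norm_mul, hn, one_mul]

open Classical in
/-- the number of the isometries -/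
theorem card_le (hUD : Stmt_UD) (P : Finset ℂ) (𝒢 : Finset Gp)
    (h𝒢 : ∀ g ∈ 𝒢, IsDir g ∧ 2 ≤ (st P g).card) :
    (𝒢.card : ℝ) ≤ (P.card : ℝ) ^ 2 * (3 * P.card * Real.sqrt P.card) := by
  have hch : ∀ g : Gp, ∃ z : ℂ × ℂ, g ∈ 𝒢 → z.1 ∈ st P g ∧ z.2 ∈ st P g ∧ z.1 ≠ z.2 := by
    intro g
    by_cases hg : g ∈ 𝒢
    · obtain ⟨a, ha, b, hb, hab⟩ := Finset.one_lt_card.mp
        (show 1 < (st P g).card by have := (h𝒢 g hg).2; omega)
      exact ⟨(a, b), fun _ => ⟨ha, hb, hab⟩⟩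
    · exact ⟨0, fun h => absurd h hg⟩
  choose z hz using hch
  set D : Finset (ℂ × ℂ) := (P ×ˢ P).filter (fun z => z.1 ≠ z.2) with hD
  set T : Finset ((ℂ × ℂ) × (ℂ × ℂ)) := D.biUnion (fun x =>
    ((P ×ˢ P).filter (fun y => dist y.1 y.2 = dist x.1 x.2)).image (fun y => (x, y))) with hT
  have h1 : 𝒢.card ≤ T.card := by
    refine card_le_card_of_injOn (fun g => (z g, (g (z g).1, g (z g).2))) ?_ ?_
    · intro g hg
      have hg' : g ∈ 𝒢 := hg
      obtain ⟨ha, hb, hab⟩ := hz g hg'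
      have ha' := mem_filter.mp ha
      have hb' := mem_filter.mp hb
      refine mem_coe.mpr (mem_biUnion.mpr ⟨z g, ?_, mem_image.mpr ⟨(g (z g).1, g (z g).2), ?_, rfl⟩⟩)
      · exact mem_filter.mpr ⟨mem_product.mpr ⟨ha'.1, hb'.1⟩, hab⟩
      · exact mem_filter.mpr ⟨mem_product.mpr ⟨ha'.2, hb'.2⟩, dir_dist (h𝒢 g hg').1 _ _⟩
    · intro g hg h hh he
      have hg' : g ∈ 𝒢 := hg
      have hh' : h ∈ 𝒢 := hh
      obtain ⟨ha, hb, hab⟩ := hz g hg'
      have e1 : z g = z h := congrArg Prod.fst he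
      have e2 : (g (z g).1, g (z g).2) = (h (z h).1, h (z h).2) := congrArg Prod.snd he
      rw [← e1] at e2
      exact dir_ext (h𝒢 g hg').1 (h𝒢 h hh').1 hab (congrArg Prod.fst e2) (congrArg Prod.snd e2)
  have h2 : (T.card : ℝ) ≤ ∑ _x ∈ D, (3 * P.card * Real.sqrt P.card : ℝ) := by
    calc (T.card : ℝ) ≤ ∑ x ∈ D, ((((P ×ˢ P).filter
          (fun y => dist y.1 y.2 = dist x.1 x.2)).image (fun y => (x, y))).card : ℝ) := by
          exact_mod_cast card_biUnion_le
      _ ≤ ∑ _x ∈ D, (3 * P.card * Real.sqrt P.card : ℝ) := by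
          refine sum_le_sum fun x hx => ?_
          have hne := (mem_filter.mp hx).2
          refine le_trans ?_ (hUD P (dist x.1 x.2) (dist_pos.mpr hne))
          exact_mod_cast card_image_le
  have h3 : (D.card : ℝ) ≤ (P.card : ℝ) ^ 2 := by
    have : D.card ≤ P.card ^ 2 := by
      calc D.card ≤ (P ×ˢ P).card := card_filter_le _ _
        _ = P.card ^ 2 := by rw [card_product, sq]
    exact_mod_cast this
  calc (𝒢.card : ℝ) ≤ T.card := by exact_mod_cast h1
    _ ≤ ∑ _x ∈ D, (3 * P.card * Real.sqrt P.card : ℝ) := h2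
    _ = D.card * (3 * P.card * Real.sqrt P.card) := by rw [sum_const, nsmul_eq_mul]
    _ ≤ (P.card : ℝ) ^ 2 * (3 * P.card * Real.sqrt P.card) := by
        apply mul_le_mul_of_nonneg_right h3
        positivity

open Classical in
/-- few lines of direction `v` -/
theorem image_le {β : ℝ} (P Q : Finset ℂ) {v : ℂ} (hv : v ≠ 0) (hP : 0 < P.card)
    (hQ : ∀ q ∈ Q, β * P.card ≤ ((pts P (q, v)).card : ℝ)) :
    ((Q.image (ph v)).card : ℝ) * β ≤ 1 := by
  have h1 : ∑ r ∈ Q.image (ph v), (β * P.card : ℝ) ≤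
      ∑ r ∈ Q.image (ph v), ((P.filter (fun y => ph v y = r)).card : ℝ) := by
    refine sum_le_sum fun r hr => ?_
    obtain ⟨q, hq, rfl⟩ := mem_image.mp hr
    have h2 : pts P (q, v) = P.filter (fun y => ph v y = ph v q) := by
      ext y
      unfold pts
      rw [mem_filter, mem_filter, on_iff hv]
    rw [← h2]
    exact hQ q hq
  have h3 : ∑ r ∈ Q.image (ph v), (P.filter (fun y => ph v y = r)).card ≤ P.card := by
    rw [← card_biUnion]
    · apply card_le_card
      intro y hy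
      obtain ⟨r, _, hr⟩ := mem_biUnion.mp hy
      exact (mem_filter.mp hr).1
    · intro r _ r' _ hne
      rw [Function.onFun, disjoint_left]
      intro y hy hy'
      exact hne ((mem_filter.mp hy).2.symm.trans (mem_filter.mp hy').2)
  have h4 : (∑ r ∈ Q.image (ph v), ((P.filter (fun y => ph v y = r)).card : ℝ)) ≤ P.card := by
    exact_mod_cast h3
  rw [sum_const, nsmul_eq_mul] at h1
  have h5 : ((Q.image (ph v)).card : ℝ) * β * P.card ≤ 1 * P.card := by
    calc ((Q.image (ph v)).card : ℝ) * β * P.card = (Q.image (ph v)).card * (β * P.card) := by ring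
      _ ≤ P.card := h1.trans h4
      _ = 1 * P.card := by ring
  exact le_of_mul_le_mul_right h5 (by exact_mod_cast hP)

end NEGB

open Classical NEGB in
theorem stmt_NEGB (hUD : Stmt_UD) : Stmt_NEGB := by
  intro β hβ
  refine ⟨⌈(10 ^ 16 / β ^ 12 : ℝ)⌉₊ + 1, ?_⟩
  intro P Q 𝒢 v hn hv hQP hQ h𝒢
  have hP : 0 < P.card := by omega
  have hP' : (0 : ℝ) < P.card := by exact_mod_cast hP
  set S := Q.image (ph v) with hS
  have hSβ : (S.card : ℝ) * β ≤ 1 := image_le P Q hv hP hQ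
  have hSle : (S.card : ℝ) ≤ 1 / β := by rwa [le_div_iff₀ hβ]
  set 𝒢' := 𝒢.filter (fun g => ¬ (g 1 - g 0 = 1 ∨ g 1 - g 0 = -1)) with h𝒢'
  have h1 : ∀ g ∈ 𝒢', ((st Q g).card : ℝ) ^ 3 ≤ (1 / β) ^ 6 := by
    intro g hg
    obtain ⟨hg1, hg2⟩ := mem_filter.mp hg
    have h2 : (st Q g).card ≤ (S ×ˢ S).card := by
      refine card_le_card_of_injOn (fun q => (ph v q, ph v (g q))) ?_ ?_
      · intro q hq
        have hq' := mem_filter.mp (mem_coe.mp hq)
        exact mem_coe.mpr (mem_product.mpr ⟨mem_image_of_mem _ hq'.1, mem_image_of_mem _ hq'.2⟩)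
      · intro q _ q' _ he
        exact inj hv (h𝒢 g hg1).1 hg2 (congrArg Prod.fst he) (congrArg Prod.snd he)
    rw [card_product] at h2
    have h3 : ((st Q g).card : ℝ) ≤ (1 / β) * (1 / β) := by
      calc ((st Q g).card : ℝ) ≤ (S.card : ℝ) * S.card := by exact_mod_cast h2
        _ ≤ (1 / β) * (1 / β) := by gcongr
    calc ((st Q g).card : ℝ) ^ 3 ≤ ((1 / β) * (1 / β)) ^ 3 := by gcongr
      _ = (1 / β) ^ 6 := by ring
  have h2 : (𝒢'.card : ℝ) ≤ (P.card : ℝ) ^ 2 * (3 * P.card * Real.sqrt P.card) :=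
    card_le hUD P 𝒢' (fun g hg => h𝒢 g (mem_filter.mp hg).1)
  -- `n` is large
  have h3 : (10 ^ 16 / β ^ 12 : ℝ) ≤ (P.card : ℝ) :=
    (Nat.le_ceil (10 ^ 16 / β ^ 12 : ℝ)).trans (Nat.cast_le.mpr (by omega))
  have h4 : (10 ^ 8 * (1 / β) ^ 6 : ℝ) ≤ Real.sqrt P.card := by
    apply Real.le_sqrt_of_sq_le
    have h5 : ((10 : ℝ) ^ 8 * (1 / β) ^ 6) ^ 2 = 10 ^ 16 / β ^ 12 := by
      rw [mul_pow, ← pow_mul, ← pow_mul, one_div, inv_pow, div_eq_mul_inv]
    rw [h5]
    exact h3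
  have hs : Real.sqrt P.card * Real.sqrt P.card = (P.card : ℝ) := Real.mul_self_sqrt hP'.le
  have hs0 : 0 ≤ Real.sqrt P.card := Real.sqrt_nonneg _
  calc ∑ g ∈ 𝒢', ((st Q g).card : ℝ) ^ 3 ≤ ∑ _g ∈ 𝒢', (1 / β) ^ 6 := sum_le_sum h1
    _ = 𝒢'.card * (1 / β) ^ 6 := by rw [sum_const, nsmul_eq_mul]
    _ ≤ ((P.card : ℝ) ^ 2 * (3 * P.card * Real.sqrt P.card)) * (1 / β) ^ 6 := by gcongr
    _ = 3 / 10 ^ 8 * (P.card : ℝ) ^ 3 * Real.sqrt P.card * (10 ^ 8 * (1 / β) ^ 6) := by ring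
    _ ≤ 3 / 10 ^ 8 * (P.card : ℝ) ^ 3 * Real.sqrt P.card * Real.sqrt P.card := by gcongr
    _ = 3 / 10 ^ 8 * (P.card : ℝ) ^ 3 * (Real.sqrt P.card * Real.sqrt P.card) := by ring
    _ = 3 / 10 ^ 8 * (P.card : ℝ) ^ 4 := by rw [hs]; ring

end Pool.RF
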