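import Pool.Agent.Work.MP_dc37f8_rf.Interface

/-!
Block PART: partitioning by polynomials (from HS).
-/

set_option autoImplicit false

open Finset

namespace Pool.RF

namespace PART

theorem geom (n : ℕ) : ∑ t ∈ range n, (4 / 7 : ℝ) ^ t = 7 / 3 * (1 - (4 / 7) ^ n) := by
  induction n with
  | zero => simp
  | succ n ih =>
    rw [Finset.sum_range_succ, ih, pow_succ]
    ring

theorem degs (m i : ℕ) (hm : 0 < m) :
    ∑ t ∈ range (m * i), m * 2 ^ (t / m + 2) + 4 * m ^ 2 = 4 * m ^ 2 * 2 ^ i := by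
  induction i with
  | zero => simp
  | succ i ih =>
    rw [Nat.mul_succ, Finset.sum_range_add]
    have h1 : ∀ s ∈ range m, m * 2 ^ ((m * i + s) / m + 2) = m * 2 ^ (i + 2) := by
      intro s hs
      rw [mem_range] at hs
      have : (m * i + s) / m = i := by
        rw [Nat.mul_add_div hm, Nat.div_eq_of_lt hs, add_zero]
      rw [this]
    rw [Finset.sum_congr rfl h1, Finset.sum_const, card_range, smul_eq_mul]
    have h2 : m * (m * 2 ^ (i + 2)) = 4 * m ^ 2 * 2 ^ i := by
      rw [pow_add]; ring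
    have h3 : 4 * m ^ 2 * 2 ^ (i + 1) = 2 * (4 * m ^ 2 * 2 ^ i) := by ring
    rw [h2, h3]
    linarith

theorem size (m j : ℕ) (hm : 2 ≤ m) : 5 * 2 ^ j + 1 ≤ (2 ^ (j / m + 2)) ^ m := by
  rw [← pow_mul]
  have h1 : j < m * (j / m) + m := by
    have := Nat.lt_mul_div_succ j (show 0 < m by omega)
    rw [Nat.mul_add, Nat.mul_one] at this
    exact this
  have h2 : j + 3 ≤ (j / m + 2) * m := by
    have h3 : (j / m + 2) * m = m * (j / m) + m + m := by ring
    rw [h3]
    omega
  have h3 : (2 : ℕ) ^ (j + 3) ≤ 2 ^ ((j / m + 2) * m) := Nat.pow_le_pow_right (by norm_num) h2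
  have h4 : (2 : ℕ) ^ (j + 3) = 8 * 2 ^ j := by rw [pow_add]; ring
  have h5 : 1 ≤ (2 : ℕ) ^ j := Nat.one_le_two_pow
  omega

open Classical in
/-- the pairs with the same non-zero signs -/
noncomputable def EE {m j : ℕ} (R : Finset (Fin m → ℝ)) (F : Fin j → MvPolynomial (Fin m) ℝ) :
    Finset ((Fin m → ℝ) × (Fin m → ℝ)) :=
  (R ×ˢ R).filter (fun z => ∀ t, 0 < MvPolynomial.eval z.1 (F t) * MvPolynomial.eval z.2 (F t))

open Classical in
theorem build (hHS : Stmt_HS) (m : ℕ) (hm : 2 ≤ m) (R : Finset (Fin m → ℝ)) (j : ℕ) :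
    ∃ F : Fin j → MvPolynomial (Fin m) ℝ, (∀ t, F t ≠ 0) ∧
      ∑ t, (F t).totalDegree ≤ ∑ t ∈ range j, m * 2 ^ (t / m + 2) ∧
      ((EE R F).card : ℝ) ≤
        (4 / 7) ^ j * (R.card : ℝ) ^ 2 + (R.card : ℝ) * ∑ t ∈ range j, (4 / 7 : ℝ) ^ t := by
  classical
  induction j with
  | zero =>
    refine ⟨fun t => 1, fun t => t.elim0, by simp, ?_⟩
    have : ((EE R (fun t : Fin 0 => (1 : MvPolynomial (Fin m) ℝ))).card : ℝ) ≤
        ((R ×ˢ R).card : ℝ) := by
      exact_mod_cast card_le_card (filter_subset _ _)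
    rw [card_product] at this
    push_cast at this
    simp only [pow_zero, one_mul, Finset.range_zero, Finset.sum_empty, mul_zero, add_zero]
    nlinarith [this]
  | succ j ih =>
    obtain ⟨F, hF0, hFd, hFE⟩ := ih
    let sg : (Fin m → ℝ) → (Fin j → Bool) := fun x t => decide (0 < MvPolynomial.eval x (F t))
    let c : (Fin m → ℝ) → ℕ := fun x => (Fintype.equivFin (Fin j → Bool) (sg x) : ℕ)
    have hc : ∀ x y, c x = c y → sg x = sg y := by
      intro x y h
      exact (Fintype.equivFin (Fin j → Bool)).injective (Fin.ext h)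
    let Rj : Finset (Fin m → ℝ) := R.filter (fun x => ∀ t, MvPolynomial.eval x (F t) ≠ 0)
    have hcN : ∀ x ∈ Rj, c x < 2 ^ j := by
      intro x _
      have h1 : c x < Fintype.card (Fin j → Bool) := (Fintype.equivFin (Fin j → Bool) (sg x)).2
      have h2 : Fintype.card (Fin j → Bool) = 2 ^ j := by simp
      rw [h2] at h1
      exact h1
    obtain ⟨p, hp0, hpd, hpE⟩ := hHS m (2 ^ (j / m + 2)) (2 ^ j) Rj c (by omega) hcN (size m j hm)
    refine ⟨Fin.snoc F p, ?_, ?_, ?_⟩
    · intro t
      refine Fin.lastCases ?_ (fun t => ?_) t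
      · rw [Fin.snoc_last]; exact hp0
      · rw [Fin.snoc_castSucc]; exact hF0 t
    · rw [Fin.sum_univ_castSucc, Finset.sum_range_succ]
      simp only [Fin.snoc_castSucc, Fin.snoc_last]
      exact add_le_add hFd hpd
    · have h1 : (EE R (Fin.snoc F p : Fin (j + 1) → MvPolynomial (Fin m) ℝ)) ⊆
          (Rj ×ˢ Rj).filter (fun z => c z.1 = c z.2 ∧
            0 < MvPolynomial.eval z.1 p * MvPolynomial.eval z.2 p) := by
        intro z hz
        unfold EE at hz
        rw [mem_filter, mem_product] at hz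
        obtain ⟨⟨hz1, hz2⟩, hz3⟩ := hz
        have h2 : ∀ t : Fin j, 0 < MvPolynomial.eval z.1 (F t) * MvPolynomial.eval z.2 (F t) := by
          intro t
          have := hz3 (Fin.castSucc t)
          rwa [Fin.snoc_castSucc] at this
        have h3 : 0 < MvPolynomial.eval z.1 p * MvPolynomial.eval z.2 p := by
          have := hz3 (Fin.last j)
          rwa [Fin.snoc_last] at this
        rw [mem_filter, mem_product]
        refine ⟨⟨?_, ?_⟩, ?_, h3⟩
        · refine mem_filter.2 ⟨hz1, fun t h => ?_⟩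
          have := h2 t
          rw [h, zero_mul] at this
          exact lt_irrefl _ this
        · refine mem_filter.2 ⟨hz2, fun t h => ?_⟩
          have := h2 t
          rw [h, mul_zero] at this
          exact lt_irrefl _ this
        · have h4 : sg z.1 = sg z.2 := by
            funext t
            show decide _ = decide _
            rw [decide_eq_decide]
            rcases mul_pos_iff.1 (h2 t) with h | h
            · exact ⟨fun _ => h.2, fun _ => h.1⟩
            · exact ⟨fun h' => absurd h' (not_lt.2 h.1.le), fun h' => absurd h' (not_lt.2 h.2.le)⟩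
          show (Fintype.equivFin (Fin j → Bool) (sg z.1) : ℕ) = Fintype.equivFin (Fin j → Bool) (sg z.2)
          rw [h4]
      have h5 : (Rj ×ˢ Rj).filter (fun z => c z.1 = c z.2) ⊆ EE R F := by
        intro z hz
        rw [mem_filter, mem_product] at hz
        obtain ⟨⟨hz1, hz2⟩, hz3⟩ := hz
        have hz1' := mem_filter.1 hz1
        have hz2' := mem_filter.1 hz2
        unfold EE
        rw [mem_filter, mem_product]
        refine ⟨⟨hz1'.1, hz2'.1⟩, fun t => ?_⟩
        have h6 := congrFun (hc _ _ hz3) t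
        have h7 : (0 < MvPolynomial.eval z.1 (F t)) ↔ (0 < MvPolynomial.eval z.2 (F t)) :=
          decide_eq_decide.1 h6
        rcases lt_trichotomy 0 (MvPolynomial.eval z.1 (F t)) with h | h | h
        · exact mul_pos h (h7.1 h)
        · exact absurd h.symm (hz1'.2 t)
        · refine mul_pos_of_neg_of_neg h ?_
          rcases lt_trichotomy 0 (MvPolynomial.eval z.2 (F t)) with h' | h' | h'
          · exact absurd (h7.2 h') (not_lt.2 h.le)
          · exact absurd h'.symm (hz2'.2 t)
          · exact h'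
      have h8 : ((EE R (Fin.snoc F p : Fin (j + 1) → MvPolynomial (Fin m) ℝ)).card : ℝ) ≤
          (((Rj ×ˢ Rj).filter (fun z => c z.1 = c z.2 ∧
            0 < MvPolynomial.eval z.1 p * MvPolynomial.eval z.2 p)).card : ℝ) := by
        exact_mod_cast card_le_card h1
      have h9 : (((Rj ×ˢ Rj).filter (fun z => c z.1 = c z.2)).card : ℝ) ≤ ((EE R F).card : ℝ) := by
        exact_mod_cast card_le_card h5
      have h10 : (Rj.card : ℝ) ≤ R.card := by exact_mod_cast card_le_card (filter_subset _ _)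
      have h11 : ∑ t ∈ range (j + 1), (4 / 7 : ℝ) ^ t = 4 / 7 * ∑ t ∈ range j, (4 / 7 : ℝ) ^ t + 1 :=
        geom_sum_succ
      rw [h11, pow_succ]
      have h12 : ((EE R (Fin.snoc F p : Fin (j + 1) → MvPolynomial (Fin m) ℝ)).card : ℝ) ≤
          4 / 7 * ((4 / 7) ^ j * (R.card : ℝ) ^ 2 + (R.card : ℝ) * ∑ t ∈ range j, (4 / 7 : ℝ) ^ t) +
            R.card := by
        linarith
      nlinarith [h12]

end PART

open Classical in
/-- PART: partitioning by polynomials (from HS) -/
theorem stmt_PART (hHS : Stmt_HS) : Stmt_PART := by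
  classical
  intro m i R hm
  obtain ⟨F, hF0, hFd, hFE⟩ := PART.build hHS m hm R (m * i)
  refine ⟨F, hF0, ?_, ?_⟩
  · have := PART.degs m i (by omega)
    omega
  · rw [PART.geom] at hFE
    have h1 : (0 : ℝ) ≤ R.card := Nat.cast_nonneg _
    have h2 : (0 : ℝ) ≤ (4 / 7 : ℝ) ^ (m * i) := by positivity
    have h3 : (R.card : ℝ) * (7 / 3 * (1 - (4 / 7) ^ (m * i))) ≤ 7 / 3 * R.card := by
      nlinarith [mul_nonneg h1 h2]
    refine le_trans hFE ?_
    linarith

end Pool.RF
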