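import Pool.Agent.Work.MP_dc37f8_rf.InterfaceC

/-!
# MP_dc37f8_co, project rf: block PIG (few mixed triples give a large class)
-/

set_option autoImplicit false

open Finset

namespace Pool.RF

open Pool.BK Pool.BD

open Classical in
theorem stmt_PIG : Stmt_PIG := by
  intro G r hne hr hs ht
  obtain ⟨p₀, hp₀, hmax⟩ :=
    Finset.exists_max_image G (fun p => (G.filter (fun q => r p q)).card) hne
  refine ⟨p₀, hp₀, ?_⟩
  have hsub : G ×ˢ G ×ˢ G ⊆
      ((E3.T3 G).filter (fun z => ¬ (r z.1 z.2.1 ∧ r z.2.1 z.2.2)) ∪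
        ((G ×ˢ G).image (fun z : ℂ × ℂ => (z.1, z.1, z.2)) ∪
          ((G ×ˢ G).image (fun z : ℂ × ℂ => (z.1, z.2, z.2)) ∪
            (G ×ˢ G).image (fun z : ℂ × ℂ => (z.1, z.2, z.1))))) ∪
      G.biUnion (fun b => ((G.filter (fun q => r b q)) ×ˢ (G.filter (fun q => r b q))).image
        (fun z : ℂ × ℂ => (z.1, b, z.2))) := by
    rintro ⟨a, b, c⟩ hz
    rw [Finset.mem_product, Finset.mem_product] at hz
    obtain ⟨ha, hb, hc⟩ := hz
    simp only at ha hb hc
    by_cases h1 : a = b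
    · subst h1
      refine Finset.mem_union_left _ (Finset.mem_union_right _ (Finset.mem_union_left _ ?_))
      exact Finset.mem_image.2 ⟨(a, c), Finset.mem_product.2 ⟨ha, hc⟩, rfl⟩
    by_cases h2 : b = c
    · subst h2
      refine Finset.mem_union_left _ (Finset.mem_union_right _ (Finset.mem_union_right _
        (Finset.mem_union_left _ ?_)))
      exact Finset.mem_image.2 ⟨(a, b), Finset.mem_product.2 ⟨ha, hb⟩, rfl⟩
    by_cases h3 : a = c
    · subst h3
      refine Finset.mem_union_left _ (Finset.mem_union_right _ (Finset.mem_union_right _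
        (Finset.mem_union_right _ ?_)))
      exact Finset.mem_image.2 ⟨(a, b), Finset.mem_product.2 ⟨ha, hb⟩, rfl⟩
    by_cases h4 : r a b ∧ r b c
    · refine Finset.mem_union_right _ (Finset.mem_biUnion.2 ⟨b, hb, ?_⟩)
      exact Finset.mem_image.2 ⟨(a, c), Finset.mem_product.2
        ⟨Finset.mem_filter.2 ⟨ha, hs a ha b hb h4.1⟩, Finset.mem_filter.2 ⟨hc, h4.2⟩⟩, rfl⟩
    · refine Finset.mem_union_left _ (Finset.mem_union_left _ ?_)
      exact Finset.mem_filter.2 ⟨E3.mem_T3.2 ⟨⟨ha, hb, hc⟩, h1, h2, h3⟩, h4⟩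
  have hc0 : (G ×ˢ G ×ˢ G).card = G.card ^ 3 := by
    rw [Finset.card_product, Finset.card_product]; ring
  have him : ∀ f : ℂ × ℂ → ℂ × ℂ × ℂ, ((G ×ˢ G).image f).card ≤ G.card ^ 2 := by
    intro f
    refine Finset.card_image_le.trans ?_
    rw [Finset.card_product, sq]
  have hbi : (G.biUnion (fun b => ((G.filter (fun q => r b q)) ×ˢ
      (G.filter (fun q => r b q))).image (fun z : ℂ × ℂ => (z.1, b, z.2)))).card ≤
      G.card * (G.filter (fun q => r p₀ q)).card ^ 2 := by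
    refine Finset.card_biUnion_le.trans ?_
    refine (Finset.sum_le_card_nsmul _ _ ((G.filter (fun q => r p₀ q)).card ^ 2) ?_).trans ?_
    · intro b hb
      refine Finset.card_image_le.trans ?_
      rw [Finset.card_product, ← sq]
      exact Nat.pow_le_pow_left (hmax b hb) 2
    · rw [smul_eq_mul]
  have h := Finset.card_le_card hsub
  rw [hc0] at h
  have u1 := Finset.card_union_le
    ((E3.T3 G).filter (fun z => ¬ (r z.1 z.2.1 ∧ r z.2.1 z.2.2)) ∪
        ((G ×ˢ G).image (fun z : ℂ × ℂ => (z.1, z.1, z.2)) ∪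
          ((G ×ˢ G).image (fun z : ℂ × ℂ => (z.1, z.2, z.2)) ∪
            (G ×ˢ G).image (fun z : ℂ × ℂ => (z.1, z.2, z.1)))))
    (G.biUnion (fun b => ((G.filter (fun q => r b q)) ×ˢ (G.filter (fun q => r b q))).image
        (fun z : ℂ × ℂ => (z.1, b, z.2))))
  have u2 := Finset.card_union_le
    ((E3.T3 G).filter (fun z => ¬ (r z.1 z.2.1 ∧ r z.2.1 z.2.2)))
        ((G ×ˢ G).image (fun z : ℂ × ℂ => (z.1, z.1, z.2)) ∪
          ((G ×ˢ G).image (fun z : ℂ × ℂ => (z.1, z.2, z.2)) ∪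
            (G ×ˢ G).image (fun z : ℂ × ℂ => (z.1, z.2, z.1))))
  have u3 := Finset.card_union_le
        ((G ×ˢ G).image (fun z : ℂ × ℂ => (z.1, z.1, z.2)))
          ((G ×ˢ G).image (fun z : ℂ × ℂ => (z.1, z.2, z.2)) ∪
            (G ×ˢ G).image (fun z : ℂ × ℂ => (z.1, z.2, z.1)))
  have u4 := Finset.card_union_le
          ((G ×ˢ G).image (fun z : ℂ × ℂ => (z.1, z.2, z.2)))
            ((G ×ˢ G).image (fun z : ℂ × ℂ => (z.1, z.2, z.1)))
  have v1 := him (fun z : ℂ × ℂ => (z.1, z.1, z.2))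
  have v2 := him (fun z : ℂ × ℂ => (z.1, z.2, z.2))
  have v3 := him (fun z : ℂ × ℂ => (z.1, z.2, z.1))
  omega

end Pool.RF
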