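import Pool.Agent.Work.MP_dc37f8_rf.Interface

/-!
# MP_dc37f8_co, project rf, block PRUNE (helper64)
-/

set_option autoImplicit false

open Finset

namespace Pool.RF

open Classical in
theorem PRUNE.step (α β : Type) (𝓛 : Finset β) (I : α → Finset β) (k D : ℕ) :
    ∀ S : Finset α, (∀ x ∈ S, I x ⊆ 𝓛 ∧ k ≤ (I x).card) →
      2 * ∑ l ∈ 𝓛, min ((S.filter (fun y => l ∈ I y)).card) D < k * S.card →
      ∃ T ⊆ S, T.Nonempty ∧ ∀ x ∈ T,
        (I x).card ≤ 2 * ((I x).filter (fun l => D < (T.filter (fun y => l ∈ I y)).card)).card := by
  intro S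
  induction S using Finset.strongInduction with
  | H S ih =>
    intro hI hlt
    by_cases hgood : ∀ x ∈ S, (I x).card ≤
        2 * ((I x).filter (fun l => D < (S.filter (fun y => l ∈ I y)).card)).card
    · refine ⟨S, Finset.Subset.refl _, ?_, hgood⟩
      rw [Finset.nonempty_iff_ne_empty]
      rintro rfl
      simp at hlt
    · push Not at hgood
      obtain ⟨x, hx, hbad⟩ := hgood
      have hss : S.erase x ⊂ S := Finset.erase_ssubset hx
      have hcs : ((I x).filter (fun l => ¬ D < (S.filter (fun y => l ∈ I y)).card)).card =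
          ∑ l ∈ 𝓛, if l ∈ I x ∧ ¬ D < (S.filter (fun y => l ∈ I y)).card then 1 else 0 := by
        rw [← Finset.card_filter]
        apply congrArg
        ext l
        simp only [Finset.mem_filter]
        constructor
        · rintro ⟨h1, h2⟩
          exact ⟨(hI x hx).1 h1, h1, h2⟩
        · rintro ⟨_, h1, h2⟩
          exact ⟨h1, h2⟩
      have key : ∑ l ∈ 𝓛, min (((S.erase x).filter (fun y => l ∈ I y)).card) D +
          ((I x).filter (fun l => ¬ D < (S.filter (fun y => l ∈ I y)).card)).card ≤
          ∑ l ∈ 𝓛, min ((S.filter (fun y => l ∈ I y)).card) D := by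
        rw [hcs, ← Finset.sum_add_distrib]
        apply Finset.sum_le_sum
        intro l _
        have hmono : ((S.erase x).filter (fun y => l ∈ I y)).card ≤
            (S.filter (fun y => l ∈ I y)).card :=
          Finset.card_le_card (Finset.filter_subset_filter _ (Finset.erase_subset _ _))
        by_cases hl : l ∈ I x ∧ ¬ D < (S.filter (fun y => l ∈ I y)).card
        · rw [if_pos hl]
          have h1 : ((S.erase x).filter (fun y => l ∈ I y)).card + 1 =
              (S.filter (fun y => l ∈ I y)).card := by
            rw [Finset.filter_erase]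
            apply Finset.card_erase_add_one
            rw [Finset.mem_filter]
            exact ⟨hx, hl.1⟩
          have h2 := hl.2
          omega
        · rw [if_neg hl]
          omega
      have hcard := Finset.card_filter_add_card_filter_not (s := I x)
        (fun l => D < (S.filter (fun y => l ∈ I y)).card)
      have h1 : (S.erase x).card + 1 = S.card := Finset.card_erase_add_one hx
      have h2 := (hI x hx).2
      have h3 : 2 * ∑ l ∈ 𝓛, min (((S.erase x).filter (fun y => l ∈ I y)).card) D <
          k * (S.erase x).card := by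
        have h4 : k * S.card = k * (S.erase x).card + k := by
          rw [← h1]; ring
        omega
      obtain ⟨T, hT, hne, hg⟩ := ih (S.erase x) hss
        (fun y hy => hI y (Finset.mem_of_mem_erase hy)) h3
      exact ⟨T, hT.trans (Finset.erase_subset _ _), hne, hg⟩

open Classical in
theorem stmt_PRUNE : Stmt_PRUNE := by
  intro α β R 𝓛 I k D hI hlt
  apply PRUNE.step α β 𝓛 I k D R hI
  refine lt_of_le_of_lt ?_ hlt
  apply Nat.mul_le_mul_left
  calc ∑ l ∈ 𝓛, min ((R.filter (fun y => l ∈ I y)).card) D ≤ ∑ _l ∈ 𝓛, D :=
        Finset.sum_le_sum (fun l _ => min_le_right _ _)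
    _ = 𝓛.card * D := by simp

end Pool.RF
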