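import Pool.Agent.Work.MP_dc37f8_rf.Interface

set_option autoImplicit false

open Finset

namespace Pool.RF

open Pool.BK Pool.BD

namespace RB

/-- rich translations are few -/
theorem trans (δ : ℝ) (P : Finset ℂ) (𝒢 : Finset Gp)
    (h : ∀ g ∈ 𝒢, IsTr g ∧ δ * P.card ≤ ((st P g).card : ℝ)) :
    δ * P.card * (𝒢.card : ℝ) ≤ (P.card : ℝ) ^ 2 := by
  classical
  have h1 : ∑ g ∈ 𝒢, (st P g).card ≤ (P ×ˢ P).card := by
    have h2 : (𝒢.sigma (fun g => st P g)).card = ∑ g ∈ 𝒢, (st P g).card :=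
      Finset.card_sigma _ _
    rw [← h2]
    refine Finset.card_le_card_of_injOn (fun x => (x.2, x.1 x.2)) ?_ ?_
    · intro x hx
      have hx' := Finset.mem_sigma.1 (Finset.mem_coe.1 hx)
      have hx2 : x.2 ∈ P.filter (fun p => x.1 p ∈ P) := hx'.2
      have hx3 := Finset.mem_filter.1 hx2
      exact Finset.mem_coe.2 (Finset.mem_product.2 ⟨hx3.1, hx3.2⟩)
    · intro x hx y hy hxy
      have hx' := Finset.mem_sigma.1 (Finset.mem_coe.1 hx)
      have hy' := Finset.mem_sigma.1 (Finset.mem_coe.1 hy)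
      obtain ⟨t, ht⟩ := (h x.1 hx'.1).1
      obtain ⟨s, hs⟩ := (h y.1 hy'.1).1
      have e1 : x.2 = y.2 := congrArg Prod.fst hxy
      have e2 : x.1 x.2 = y.1 y.2 := congrArg Prod.snd hxy
      rw [ht, hs, e1] at e2
      have e3 : t = s := add_left_cancel e2
      have e4 : x.1 = y.1 := by
        apply Equiv.ext
        intro z
        rw [ht, hs, e3]
      rcases x with ⟨x1, x2⟩
      rcases y with ⟨y1, y2⟩
      simp only at e1 e4
      subst e1 e4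
      rfl
  rw [Finset.card_product] at h1
  have h3 : ∑ g ∈ 𝒢, (δ * P.card) ≤ ∑ g ∈ 𝒢, ((st P g).card : ℝ) :=
    Finset.sum_le_sum (fun g hg => (h g hg).2)
  rw [Finset.sum_const, nsmul_eq_mul] at h3
  have h4 : ((∑ g ∈ 𝒢, (st P g).card : ℕ) : ℝ) ≤ ((P.card * P.card : ℕ) : ℝ) := by
    exact_mod_cast h1
  push_cast at h4
  nlinarith [h3, h4]

end RB

theorem stmt_RB (hNCB : Stmt_NCB) (hRBHC : Stmt_RBHC) : Stmt_RB := by
  classical
  intro δ hδ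
  obtain ⟨C₀, hC₀, hN⟩ := hNCB
  obtain ⟨n₁, hH⟩ := hRBHC δ hδ
  set C' : ℝ := max 1 (C₀ / δ ^ 13) with hC'
  have hC'1 : 1 ≤ C' := le_max_left _ _
  have hC'2 : C₀ / δ ^ 13 ≤ C' := le_max_right _ _
  refine ⟨1 / δ + 16 / δ + C', max n₁ (⌈28 / δ⌉₊ + 1), by positivity, ?_⟩
  intro P 𝒢 hn hg
  have hn1 : n₁ ≤ P.card := le_trans (le_max_left _ _) hn
  have hn2 : ⌈28 / δ⌉₊ + 1 ≤ P.card := le_trans (le_max_right _ _) hn
  have hn3 : 28 / δ ≤ (P.card : ℝ) := by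
    have h1 : (28 / δ) ≤ (⌈28 / δ⌉₊ : ℝ) := Nat.le_ceil _
    have h2 : ((⌈28 / δ⌉₊ + 1 : ℕ) : ℝ) ≤ (P.card : ℝ) := by exact_mod_cast hn2
    push_cast at h2
    linarith
  have hnpos : (0 : ℝ) < (P.card : ℝ) := by
    have : (0 : ℝ) < 28 / δ := by positivity
    linarith
  have h28 : 28 ≤ δ * (P.card : ℝ) := by
    have := (div_le_iff₀ hδ).1 hn3
    linarith
  set 𝒢T := 𝒢.filter (fun g => IsTr g) with h𝒢T
  set 𝒢H := (𝒢.filter (fun g => ¬ IsTr g)).filter (fun g => HC P g) with h𝒢H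
  set 𝒢N := (𝒢.filter (fun g => ¬ IsTr g)).filter (fun g => ¬ HC P g) with h𝒢N
  have hsum : 𝒢.card = 𝒢T.card + (𝒢H.card + 𝒢N.card) := by
    rw [h𝒢H, h𝒢N, Finset.card_filter_add_card_filter_not, h𝒢T,
      Finset.card_filter_add_card_filter_not]
  -- translations
  have hT : (𝒢T.card : ℝ) ≤ 1 / δ * P.card := by
    have h1 := RB.trans δ P 𝒢T (fun g hg' =>
      ⟨(Finset.mem_filter.1 hg').2, (hg g (Finset.mem_filter.1 hg').1).2⟩)
    have h2 : δ * (𝒢T.card : ℝ) ≤ P.card := by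
      have h3 : (δ * (𝒢T.card : ℝ)) * P.card ≤ (P.card : ℝ) * P.card := by nlinarith [h1]
      exact le_of_mul_le_mul_right h3 hnpos
    rw [one_div, inv_mul_eq_div, le_div_iff₀ hδ]
    linarith
  -- half-collinear
  have hHc : (𝒢H.card : ℝ) ≤ 16 / δ * P.card := by
    have h1 := hH P 𝒢H hn1 (fun g hg' => by
      have h2 := Finset.mem_filter.1 hg'
      have h3 := Finset.mem_filter.1 h2.1
      exact ⟨(hg g h3.1).1, h2.2, (hg g h3.1).2⟩)
    rw [div_mul_eq_mul_div, le_div_iff₀ hδ]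
    linarith
  -- the rest
  have hNc : (𝒢N.card : ℝ) ≤ C' * P.card := by
    set k : ℕ := ⌈δ * (P.card : ℝ)⌉₊ with hk
    have hk1 : δ * (P.card : ℝ) ≤ (k : ℝ) := Nat.le_ceil _
    have hk2 : 28 ≤ k := by
      have : ((28 : ℕ) : ℝ) ≤ (k : ℝ) := by push_cast; linarith
      exact_mod_cast this
    have h1 := hN P k 𝒢N hk2 (fun g hg' => by
      have h2 := Finset.mem_filter.1 hg'
      have h3 := Finset.mem_filter.1 h2.1
      refine ⟨(hg g h3.1).1, h3.2, ?_, h2.2⟩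
      exact Nat.ceil_le.2 (hg g h3.1).2)
    have h2 : (𝒢N.card : ℝ) ^ 5 * (δ * (P.card : ℝ)) ^ 13 ≤ C₀ * (P.card : ℝ) ^ 18 := by
      refine le_trans ?_ h1
      apply mul_le_mul_of_nonneg_left _ (by positivity)
      exact pow_le_pow_left₀ (by positivity) hk1 13
    have h3 : ((𝒢N.card : ℝ) ^ 5 * δ ^ 13) * (P.card : ℝ) ^ 13 ≤
        (C₀ * (P.card : ℝ) ^ 5) * (P.card : ℝ) ^ 13 := by
      calc ((𝒢N.card : ℝ) ^ 5 * δ ^ 13) * (P.card : ℝ) ^ 13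
          = (𝒢N.card : ℝ) ^ 5 * (δ * (P.card : ℝ)) ^ 13 := by ring
        _ ≤ C₀ * (P.card : ℝ) ^ 18 := h2
        _ = (C₀ * (P.card : ℝ) ^ 5) * (P.card : ℝ) ^ 13 := by ring
    have h4 : (𝒢N.card : ℝ) ^ 5 * δ ^ 13 ≤ C₀ * (P.card : ℝ) ^ 5 :=
      le_of_mul_le_mul_right h3 (by positivity)
    have h5 : (𝒢N.card : ℝ) ^ 5 ≤ (C' * P.card) ^ 5 := by
      have h6 : (𝒢N.card : ℝ) ^ 5 ≤ C₀ * (P.card : ℝ) ^ 5 / δ ^ 13 := by
        rw [le_div_iff₀ (by positivity)]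
        exact h4
      calc (𝒢N.card : ℝ) ^ 5 ≤ C₀ * (P.card : ℝ) ^ 5 / δ ^ 13 := h6
        _ = (C₀ / δ ^ 13) * (P.card : ℝ) ^ 5 := by ring
        _ ≤ C' * (P.card : ℝ) ^ 5 := mul_le_mul_of_nonneg_right hC'2 (by positivity)
        _ ≤ C' ^ 5 * (P.card : ℝ) ^ 5 := by
            apply mul_le_mul_of_nonneg_right _ (by positivity)
            calc C' = C' ^ 1 := (pow_one _).symm
              _ ≤ C' ^ 5 := pow_le_pow_right₀ hC'1 (by norm_num)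
        _ = (C' * P.card) ^ 5 := by ring
    exact le_of_pow_le_pow_left₀ (by norm_num) (by positivity) h5
  have hfin : (𝒢.card : ℝ) = (𝒢T.card : ℝ) + ((𝒢H.card : ℝ) + (𝒢N.card : ℝ)) := by
    exact_mod_cast hsum
  rw [hfin]
  calc (𝒢T.card : ℝ) + ((𝒢H.card : ℝ) + (𝒢N.card : ℝ))
      ≤ 1 / δ * P.card + (16 / δ * P.card + C' * P.card) := by linarith
    _ = (1 / δ + 16 / δ + C') * P.card := by ring

end Pool.RF
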