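import Pool.Agent.Work.MP_dc37f8_rf.HCP

/-!
# Block RBHC (helper36): few rich half-collinear isometries
-/

set_option autoImplicit false

open Finset

namespace Pool.RF

open Pool.BK Pool.BD

open HCP

/-- RBHC -/
theorem stmt_RBHC (hRR : Stmt_RR) : Stmt_RBHC := by
  classical
  intro δ hδ
  refine ⟨⌈16 / δ ^ 2⌉₊ + 1, ?_⟩
  intro P 𝒢 hP h𝒢
  have hn1 : (16 : ℝ) / δ ^ 2 ≤ P.card := by
    have h1 := Nat.le_ceil ((16 : ℝ) / δ ^ 2)
    have h2 : ((⌈16 / δ ^ 2⌉₊ : ℕ) : ℝ) ≤ P.card := by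
      have : ⌈16 / δ ^ 2⌉₊ ≤ P.card := by omega
      exact_mod_cast this
    linarith
  have hn0 : (0 : ℝ) < P.card := by
    have : 0 < P.card := by omega
    exact_mod_cast this
  have hex : ∀ g : Gp, ∃ l : ℂ × ℂ, g ∈ 𝒢 → l.2 ≠ 0 ∧ (st P g).card ≤ 2 * (pts (st P g) l).card := by
    intro g
    by_cases hg : g ∈ 𝒢
    · obtain ⟨l, hl⟩ := (h𝒢 g hg).2.1
      exact ⟨l, fun _ => hl⟩
    · exact ⟨0, fun h => absurd h hg⟩
  choose L hL using hex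
  have hm : ∀ g ∈ 𝒢, δ * P.card / 2 ≤ ((pts (st P g) (L g)).card : ℝ) := by
    intro g hg
    have h1 := (hL g hg).2
    have h2 := (h𝒢 g hg).2.2
    have h3 : ((st P g).card : ℝ) ≤ 2 * ((pts (st P g) (L g)).card : ℝ) := by exact_mod_cast h1
    linarith
  have hmK : ∀ g ∈ 𝒢, ⌈δ * P.card / 2⌉₊ ≤ (pts (st P g) (L g)).card := by
    intro g hg
    exact Nat.ceil_le.2 (hm g hg)
  have hK : 4 * P.card ≤ ⌈δ * P.card / 2⌉₊ ^ 2 := by
    have h1 := Nat.le_ceil (δ * (P.card : ℝ) / 2)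
    have h2 : (4 : ℝ) * P.card ≤ (δ * P.card / 2) ^ 2 := by
      have h3 : 16 ≤ P.card * δ ^ 2 := by
        rwa [div_le_iff₀ (by positivity)] at hn1
      nlinarith
    have h4 : (δ * (P.card : ℝ) / 2) ^ 2 ≤ ((⌈δ * P.card / 2⌉₊ : ℕ) : ℝ) ^ 2 :=
      pow_le_pow_left₀ (by positivity) h1 2
    have h5 : (4 : ℝ) * P.card ≤ ((⌈δ * P.card / 2⌉₊ : ℕ) : ℝ) ^ 2 := h2.trans h4
    exact_mod_cast h5
  have h1 : ∀ g ∈ 𝒢, (pts (st P g) (L g)).card ≤ (pts P (L g)).card := by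
    intro g _
    apply card_le_card
    intro a ha
    unfold pts st at *
    rw [mem_filter, mem_filter] at ha
    rw [mem_filter]
    exact ⟨ha.1.1, ha.2⟩
  have h2 : ∀ g ∈ 𝒢, (pts (st P g) (L g)).card ≤
      (pts P (g (L g).1, g ((L g).1 + (L g).2) - g (L g).1)).card := by
    intro g hg
    apply card_le_card_of_injOn g
    · intro a ha
      have ha' := mem_coe.1 ha
      unfold pts st at ha'
      rw [mem_filter, mem_filter] at ha'
      rw [mem_coe]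
      unfold pts
      rw [mem_filter]
      exact ⟨ha'.1.2, on_img (h𝒢 g hg).1 ha'.2⟩
    · intro a _ b _ hab
      exact g.injective hab
  have h3 := hRR P ⌈δ * P.card / 2⌉₊ 𝒢 L hK (fun g hg => ⟨(h𝒢 g hg).1, (hL g hg).1,
    (hmK g hg).trans (h1 g hg), (hmK g hg).trans (h2 g hg)⟩)
  have h4 : (𝒢.card : ℝ) * (δ * P.card / 2) ≤ 8 * (P.card : ℝ) ^ 2 := by
    calc (𝒢.card : ℝ) * (δ * P.card / 2) = ∑ g ∈ 𝒢, (δ * P.card / 2) := by
          rw [sum_const, nsmul_eq_mul]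
      _ ≤ ∑ g ∈ 𝒢, ((pts (st P g) (L g)).card : ℝ) := sum_le_sum hm
      _ ≤ 8 * (P.card : ℝ) ^ 2 := by exact_mod_cast h3
  have h5 : (P.card : ℝ) * (δ * 𝒢.card) ≤ P.card * (16 * P.card) := by nlinarith
  exact le_of_mul_le_mul_left h5 hn0

end Pool.RF
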