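import Pool.Agent.Work.MP_dc37f8_rf.Interface

/-!
# RICHL: the number of points on very rich lines, with multiplicity
-/

set_option autoImplicit false

open Finset

namespace Pool.RF.RICHL

/-- Bonferroni -/
theorem bonf {α β : Type} [DecidableEq α] [DecidableEq β] (A : β → Finset α) (s : Finset β)
    (h : ∀ l ∈ s, ∀ l' ∈ s, l ≠ l' → (A l ∩ A l').card ≤ 1) :
    2 * ∑ l ∈ s, (A l).card ≤ 2 * (s.biUnion A).card + s.card * (s.card - 1) := by
  induction s using Finset.induction_on with
  | empty => simp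
  | insert a s ha ih =>
    have ih' := ih (fun l hl l' hl' => h l (mem_insert_of_mem hl) l' (mem_insert_of_mem hl'))
    rw [sum_insert ha, biUnion_insert, card_insert_of_notMem ha]
    have h1 : (A a ∩ s.biUnion A).card ≤ s.card := by
      have e : A a ∩ s.biUnion A = s.biUnion (fun l => A a ∩ A l) := by
        rw [inter_biUnion]
      rw [e]
      refine card_biUnion_le.trans ?_
      have : ∑ l ∈ s, (A a ∩ A l).card ≤ ∑ _l ∈ s, 1 := by
        refine sum_le_sum fun l hl => ?_
        refine h a (mem_insert_self a s) l (mem_insert_of_mem hl) ?_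
        rintro rfl
        exact ha hl
      simpa using this
    have h2 := card_union_add_card_inter (A a) (s.biUnion A)
    have h3 : (s.card + 1) * (s.card + 1 - 1) = 2 * s.card + s.card * (s.card - 1) := by
      rcases Nat.eq_zero_or_pos s.card with h0 | h0
      · simp [h0]
      · obtain ⟨m, hm⟩ : ∃ m, s.card = m + 1 := ⟨s.card - 1, by omega⟩
        rw [hm]
        simp only [Nat.add_sub_cancel]
        ring
    rw [h3]
    omega

end Pool.RF.RICHL

namespace Pool.RF

open Pool.BK Pool.BD

open Classical in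
theorem stmt_RICHL : Stmt_RICHL := by
  intro P K 𝓝 hK hl hi
  set n := P.card with hn
  have hsub : ∀ s : Finset (ℂ × ℂ), (s.biUnion (fun l => pts P l)).card ≤ n := by
    intro s
    refine card_le_card ?_
    refine biUnion_subset.2 fun l _ => ?_
    exact filter_subset _ _
  rcases Nat.eq_zero_or_pos n with h0 | h0
  · have : ∀ l ∈ 𝓝, (pts P l).card = 0 := by
      intro l _
      have : (pts P l).card ≤ P.card := card_le_card (filter_subset _ _)
      omega
    rw [sum_eq_zero this]
    omega
  have hK2 : 2 ≤ K := by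
    by_contra hc
    have : K ≤ 1 := by omega
    have : K ^ 2 ≤ 1 := by nlinarith
    omega
  -- few lines
  have hN : 𝓝.card * K ≤ 2 * n := by
    by_contra hc
    push Not at hc
    set M := 2 * n / K + 1 with hM
    have hMK : 2 * n < M * K := by
      have := Nat.lt_div_mul_add (a := 2 * n) (b := K) (by omega)
      rw [hM]
      nlinarith
    have hMN : M ≤ 𝓝.card := by
      by_contra hc2
      push Not at hc2
      have : 𝓝.card ≤ 2 * n / K := by omega
      have h3 : 𝓝.card * K ≤ 2 * n / K * K := Nat.mul_le_mul_right K this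
      have h4 := Nat.div_mul_le_self (2 * n) K
      omega
    have hM2 : M ≤ K := by
      have h4 := Nat.div_mul_le_self (2 * n) K
      have h5 : (2 * (2 * n / K)) * K ≤ K * K := by
        calc (2 * (2 * n / K)) * K = 2 * (2 * n / K * K) := by ring
          _ ≤ 2 * (2 * n) := Nat.mul_le_mul_left 2 h4
          _ = 4 * n := by ring
          _ ≤ K ^ 2 := hK
          _ = K * K := by ring
      have h6 : 2 * (2 * n / K) ≤ K := Nat.le_of_mul_le_mul_right h5 (by omega)
      omega
    obtain ⟨𝓜, h𝓜, hcard⟩ := exists_subset_card_eq hMN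
    have hb := RICHL.bonf (fun l => pts P l) 𝓜
      (fun l hl1 l' hl2 hne => hi l (h𝓜 hl1) l' (h𝓜 hl2) hne)
    have h7 : M * K ≤ ∑ l ∈ 𝓜, (pts P l).card := by
      rw [← hcard, ← smul_eq_mul, ← sum_const]
      exact sum_le_sum fun l hl1 => (hl l (h𝓜 hl1)).2
    have h8 := hsub 𝓜
    rw [hcard] at hb
    obtain ⟨m, hm⟩ : ∃ m, M = m + 1 := ⟨2 * n / K, hM⟩
    rw [hm] at hb h7 hMK hM2
    simp only [Nat.add_sub_cancel] at hb
    nlinarith
  have hb := RICHL.bonf (fun l => pts P l) 𝓝 hi
  have h8 := hsub 𝓝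
  have h9 : 𝓝.card * 𝓝.card ≤ n := by
    have h10 : (𝓝.card * K) * (𝓝.card * K) ≤ (2 * n) * (2 * n) := Nat.mul_le_mul hN hN
    have h11 : (𝓝.card * 𝓝.card) * K ^ 2 ≤ n * K ^ 2 := by
      calc (𝓝.card * 𝓝.card) * K ^ 2 = (𝓝.card * K) * (𝓝.card * K) := by ring
        _ ≤ (2 * n) * (2 * n) := h10
        _ = n * (4 * n) := by ring
        _ ≤ n * K ^ 2 := Nat.mul_le_mul_left n hK
    exact Nat.le_of_mul_le_mul_right h11 (by positivity)
  have h12 : 𝓝.card * (𝓝.card - 1) ≤ 𝓝.card * 𝓝.card := Nat.mul_le_mul_left _ (by omega)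
  omega

end Pool.RF
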