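import Pool.Agent.Work.MP_dc37f8_rf.InterfaceC

/-!
# RL: representatives of the rich lines
-/

set_option autoImplicit false

open Finset

namespace Pool.RF.RL

open Pool.BK Pool.BD

/-- a line through two points -/
theorem two {l : ℂ × ℂ} {x y : ℂ} (hx : On l x) (hy : On l y) (hxy : x ≠ y) :
    (∃ r : ℝ, r ≠ 0 ∧ y - x = r * l.2) ∧ ∀ z, On l z ↔ ∃ t : ℝ, z = x + t * (y - x) := by
  obtain ⟨a, ha⟩ := hx
  obtain ⟨b, hb⟩ := hy
  have hab : b - a ≠ 0 := by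
    intro h
    have : b = a := by linarith
    apply hxy
    rw [ha, hb, this]
  have hd : y - x = ((b - a : ℝ) : ℂ) * l.2 := by
    rw [ha, hb]
    push_cast
    ring
  have hab' : ((b - a : ℝ) : ℂ) ≠ 0 := by
    exact_mod_cast hab
  refine ⟨⟨b - a, hab, hd⟩, fun z => ⟨?_, ?_⟩⟩
  · rintro ⟨s, hs⟩
    refine ⟨(s - a) / (b - a), ?_⟩
    rw [hd, hs, ha, ← mul_assoc]
    have : (((s - a) / (b - a) : ℝ) : ℂ) * ((b - a : ℝ) : ℂ) = ((s - a : ℝ) : ℂ) := by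
      rw [← Complex.ofReal_mul]
      rw [div_mul_cancel₀ _ hab]
    rw [this]
    push_cast
    ring
  · rintro ⟨t, ht⟩
    refine ⟨a + t * (b - a), ?_⟩
    rw [ht, hd, ha]
    push_cast
    ring

/-- two points determine a line -/
theorem det {l l' : ℂ × ℂ} {x y : ℂ} (hx : On l x) (hy : On l y) (hx' : On l' x)
    (hy' : On l' y) (hxy : x ≠ y) : (∃ s : ℝ, l'.2 = s * l.2) ∧ ∀ z, On l z ↔ On l' z := by
  obtain ⟨⟨r, hr, h1⟩, h2⟩ := two hx hy hxy
  obtain ⟨⟨r', hr', h1'⟩, h2'⟩ := two hx' hy' hxy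
  refine ⟨⟨r / r', ?_⟩, fun z => (h2 z).trans (h2' z).symm⟩
  have hr'' : (r' : ℂ) ≠ 0 := by exact_mod_cast hr'
  rw [h1] at h1'
  push_cast
  rw [div_mul_eq_mul_div, eq_div_iff hr'', mul_comm, ← h1']

end Pool.RF.RL

namespace Pool.RF

open Pool.BK Pool.BD

open Classical in
theorem stmt_RL (hRICHL : Stmt_RICHL) : Stmt_RL := by
  intro P K hK1 hK
  rcases Nat.eq_zero_or_pos P.card with h0 | h0
  · refine ⟨∅, by simp, by simp, ?_, by simp, by simp⟩
    intro p v _ hp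
    have : (pts P (p, v)).card ≤ P.card := card_le_card (filter_subset _ _)
    omega
  have hK2 : 2 ≤ K := by
    by_contra hc
    have : K ≤ 1 := by omega
    have : K ^ 2 ≤ 1 := by nlinarith
    omega
  have hmem : ∀ (l : ℂ × ℂ) (y : ℂ), y ∈ pts P l → On l y := by
    intro l y hy
    exact (mem_filter.1 hy).2
  -- choose a line for each set
  set 𝒮 : Finset (Finset ℂ) := P.powerset.filter
    (fun S => K ≤ S.card ∧ ∃ l : ℂ × ℂ, l.2 ≠ 0 ∧ pts P l = S) with h𝒮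
  have hch : ∀ S : Finset ℂ, ∃ l : ℂ × ℂ, S ∈ 𝒮 → l.2 ≠ 0 ∧ pts P l = S := by
    intro S
    by_cases hS : S ∈ 𝒮
    · obtain ⟨_, _, l, hl⟩ := mem_filter.1 hS
      exact ⟨l, fun _ => hl⟩
    · exact ⟨0, fun h => absurd h hS⟩
  choose f hf using hch
  have hN1 : ∀ l ∈ 𝒮.image f, l.2 ≠ 0 ∧ K ≤ (pts P l).card := by
    intro l hl
    obtain ⟨S, hS, rfl⟩ := mem_image.1 hl
    refine ⟨(hf S hS).1, ?_⟩
    rw [(hf S hS).2]
    exact (mem_filter.1 hS).2.1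
  have hN2 : ∀ l ∈ 𝒮.image f, ∀ l' ∈ 𝒮.image f, l ≠ l' → (pts P l ∩ pts P l').card ≤ 1 := by
    intro l hl l' hl' hne
    obtain ⟨S, hS, rfl⟩ := mem_image.1 hl
    obtain ⟨S', hS', rfl⟩ := mem_image.1 hl'
    by_contra hc
    push Not at hc
    obtain ⟨x, hx, y, hy, hxy⟩ := one_lt_card.1 hc
    rw [mem_inter] at hx hy
    have h1 := (RL.det (hmem _ _ hx.1) (hmem _ _ hy.1) (hmem _ _ hx.2) (hmem _ _ hy.2) hxy).2
    have h2 : pts P (f S) = pts P (f S') := by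
      unfold pts
      exact filter_congr fun z _ => h1 z
    rw [(hf S hS).2, (hf S' hS').2] at h2
    exact hne (by rw [h2])
  have hsum := hRICHL P K (𝒮.image f) hK hN1 hN2
  refine ⟨𝒮.image f, hN1, hN2, ?_, ?_, hsum⟩
  · intro p v hv hp
    have hS : pts P (p, v) ∈ 𝒮 := by
      refine mem_filter.2 ⟨mem_powerset.2 (filter_subset _ _), hp, (p, v), hv, rfl⟩
    refine ⟨f (pts P (p, v)), mem_image_of_mem f hS, (hf _ hS).2, ?_⟩
    have h2 : 1 < (pts P (p, v)).card := by omega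
    obtain ⟨x, hx, y, hy, hxy⟩ := one_lt_card.1 h2
    have hx' : x ∈ pts P (f (pts P (p, v))) := by rw [(hf _ hS).2]; exact hx
    have hy' : y ∈ pts P (f (pts P (p, v))) := by rw [(hf _ hS).2]; exact hy
    exact (RL.det (hmem _ _ hx') (hmem _ _ hy') (hmem _ _ hx) (hmem _ _ hy) hxy).1
  · refine le_trans ?_ hsum
    rw [← smul_eq_mul, ← sum_const]
    exact sum_le_sum fun l hl1 => (hN1 l hl1).2

end Pool.RF
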