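import Pool.Agent.Work.MP_dc37f8_rf.Interface

set_option autoImplicit false

open Finset

namespace Pool.RF

open Pool.BK Pool.BD

namespace RR

lemma mem_pts {P : Finset ℂ} {l : ℂ × ℂ} {y : ℂ} : y ∈ pts P l ↔ y ∈ P ∧ On l y := by
  classical
  unfold pts
  rw [Finset.mem_filter]

lemma on_iff {l : ℂ × ℂ} {p q : ℂ} (hp : On l p) (hq : On l q) (h : p ≠ q) (y : ℂ) :
    On l y ↔ ∃ s : ℝ, y = p + s * (q - p) := by
  obtain ⟨a, ha⟩ := hp
  obtain ⟨b, hb⟩ := hq
  have hab : a ≠ b := by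
    rintro rfl
    exact h (ha.trans hb.symm)
  have hab' : (b : ℂ) - a ≠ 0 := by
    intro h0
    apply hab
    have : (b : ℂ) = a := sub_eq_zero.mp h0
    exact_mod_cast this.symm
  constructor
  · rintro ⟨t, ht⟩
    refine ⟨(t - a) / (b - a), ?_⟩
    rw [ht, ha, hb]
    push_cast
    field_simp
    ring
  · rintro ⟨s, hs⟩
    refine ⟨a + s * (b - a), ?_⟩
    rw [hs, ha, hb]
    push_cast
    ring

lemma dir {l : ℂ × ℂ} {p q : ℂ} (hp : On l p) (hq : On l q) (h : p ≠ q) :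
    ∃ s : ℝ, s ≠ 0 ∧ l.2 * s = q - p := by
  obtain ⟨a, ha⟩ := hp
  obtain ⟨b, hb⟩ := hq
  refine ⟨b - a, ?_, ?_⟩
  · intro h0
    have : b = a := by linarith
    subst this
    exact h (ha.trans hb.symm)
  · rw [ha, hb]; push_cast; ring

lemma pts_eq {P : Finset ℂ} {l l' : ℂ × ℂ} {p q : ℂ} (h : p ≠ q) (hp : On l p) (hq : On l q)
    (hp' : On l' p) (hq' : On l' q) : pts P l = pts P l' := by
  ext y
  rw [mem_pts, mem_pts, on_iff hp hq h, on_iff hp' hq' h]

open Classical in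
noncomputable def SS (P : Finset ℂ) (K : ℕ) : Finset (Finset ℂ) :=
  P.powerset.filter (fun S => K ≤ S.card ∧ ∃ l : ℂ × ℂ, l.2 ≠ 0 ∧ pts P l = S)

lemma mem_SS {P : Finset ℂ} {K : ℕ} {l : ℂ × ℂ} (h0 : l.2 ≠ 0) (hK : K ≤ (pts P l).card) :
    pts P l ∈ SS P K := by
  classical
  unfold SS
  rw [Finset.mem_filter, Finset.mem_powerset]
  refine ⟨fun y hy => (mem_pts.mp hy).1, hK, l, h0, rfl⟩

lemma sumS (hR : Stmt_RICHL) (P : Finset ℂ) (K : ℕ) (hK : 4 * P.card ≤ K ^ 2) :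
    ∑ S ∈ SS P K, S.card ≤ 2 * P.card := by
  classical
  have hex : ∀ S : Finset ℂ, ∃ l : ℂ × ℂ, S ∈ SS P K → l.2 ≠ 0 ∧ pts P l = S := by
    intro S
    by_cases hS : S ∈ SS P K
    · have h1 := hS
      unfold SS at h1
      rw [Finset.mem_filter] at h1
      obtain ⟨l, hl⟩ := h1.2.2
      exact ⟨l, fun _ => hl⟩
    · exact ⟨0, fun h => absurd h hS⟩
  choose r hr using hex
  have hcard : ∀ S ∈ SS P K, K ≤ S.card := by
    intro S hS
    unfold SS at hS
    rw [Finset.mem_filter] at hS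
    exact hS.2.1
  have hinj : Set.InjOn r (SS P K : Set (Finset ℂ)) := by
    intro S hS S' hS' h
    have h1 := (hr S (by exact_mod_cast hS)).2
    have h2 := (hr S' (by exact_mod_cast hS')).2
    rw [← h1, ← h2, h]
  have hmain := hR P K ((SS P K).image r) hK ?_ ?_
  · rw [Finset.sum_image hinj] at hmain
    refine le_trans (le_of_eq ?_) hmain
    exact Finset.sum_congr rfl (fun S hS => by rw [(hr S hS).2])
  · intro l hl
    obtain ⟨S, hS, rfl⟩ := Finset.mem_image.mp hl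
    refine ⟨(hr S hS).1, ?_⟩
    rw [(hr S hS).2]
    exact hcard S hS
  · intro l hl l' hl' hne
    obtain ⟨S, hS, rfl⟩ := Finset.mem_image.mp hl
    obtain ⟨S', hS', rfl⟩ := Finset.mem_image.mp hl'
    by_contra hcon
    have h2 : 1 < (pts P (r S) ∩ pts P (r S')).card := by
      convert not_le.mp hcon
    obtain ⟨p, hp, q, hq, hpq⟩ := Finset.one_lt_card.mp h2
    rw [Finset.mem_inter] at hp hq
    have := pts_eq (P := P) hpq (mem_pts.mp hp.1).2 (mem_pts.mp hq.1).2 (mem_pts.mp hp.2).2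
      (mem_pts.mp hq.2).2
    rw [(hr S hS).2, (hr S' hS').2] at this
    exact hne (by rw [this])

/-- the image line -/
noncomputable def L' (L : Gp → ℂ × ℂ) (g : Gp) : ℂ × ℂ :=
  (g (L g).1, g ((L g).1 + (L g).2) - g (L g).1)

lemma dir_val {g : Gp} (hg : IsDir g) (z : ℂ) : g z = (g 1 - g 0) * z + g 0 := by
  obtain ⟨w, t, hw, h⟩ := hg
  rw [h z, h 1, h 0]; ring

lemma dir_norm {g : Gp} (hg : IsDir g) : ‖g 1 - g 0‖ = 1 := by
  obtain ⟨w, t, hw, h⟩ := hg
  rw [h 1, h 0]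
  have : w * 1 + t - (w * 0 + t) = w := by ring
  rw [this, hw]

lemma two_vals {g g₀ : Gp} (hg : IsDir g) (hg₀ : IsDir g₀) (L : Gp → ℂ × ℂ)
    (h0 : (L g).2 ≠ 0) (h0' : (L g₀).2 ≠ 0)
    {p q p' q' : ℂ} (hpq : p ≠ q) (hpq' : p' ≠ q')
    (h1 : On (L g) p) (h2 : On (L g) q) (h3 : On (L g₀) p) (h4 : On (L g₀) q)
    (h1' : On (L' L g) p') (h2' : On (L' L g) q') (h3' : On (L' L g₀) p')
    (h4' : On (L' L g₀) q') :
    g 1 - g 0 = g₀ 1 - g₀ 0 ∨ g 1 - g 0 = -(g₀ 1 - g₀ 0) := by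
  obtain ⟨a, ha, ha'⟩ := dir h1 h2 hpq
  obtain ⟨b, hb, hb'⟩ := dir h3 h4 hpq
  obtain ⟨c, hc, hc'⟩ := dir h1' h2' hpq'
  obtain ⟨d, hd, hd'⟩ := dir h3' h4' hpq'
  have e1 : (L' L g).2 = (g 1 - g 0) * (L g).2 := by
    simp only [L']
    rw [dir_val hg ((L g).1 + (L g).2), dir_val hg (L g).1]; ring
  have e2 : (L' L g₀).2 = (g₀ 1 - g₀ 0) * (L g₀).2 := by
    simp only [L']
    rw [dir_val hg₀ ((L g₀).1 + (L g₀).2), dir_val hg₀ (L g₀).1]; ring
  set w := g 1 - g 0 with hw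
  set w₀ := g₀ 1 - g₀ 0 with hw₀
  have n1 : ‖w‖ = 1 := dir_norm hg
  have n2 : ‖w₀‖ = 1 := dir_norm hg₀
  rw [e1] at hc'
  rw [e2] at hd'
  have e3 : (L g).2 * a = (L g₀).2 * b := ha'.trans hb'.symm
  have e4 : w * (L g).2 * c = w₀ * (L g₀).2 * d := hc'.trans hd'.symm
  have hb2 : (b : ℂ) ≠ 0 := by exact_mod_cast hb
  have ha2 : (a : ℂ) ≠ 0 := by exact_mod_cast ha
  have e5 : w * ((c * b : ℝ) : ℂ) = w₀ * ((d * a : ℝ) : ℂ) := by
    have h5 : (L g).2 * (w * ((c * b : ℝ) : ℂ)) = (L g).2 * (w₀ * ((d * a : ℝ) : ℂ)) := by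
      push_cast
      calc (L g).2 * (w * (c * b)) = (w * (L g).2 * c) * b := by ring
        _ = (w₀ * (L g₀).2 * d) * b := by rw [e4]
        _ = w₀ * d * ((L g₀).2 * b) := by ring
        _ = w₀ * d * ((L g).2 * a) := by rw [e3]
        _ = (L g).2 * (w₀ * (d * a)) := by ring
    exact mul_left_cancel₀ h0 h5
  have e6 : |c * b| = |d * a| := by
    have := congrArg norm e5
    rw [norm_mul, norm_mul, n1, n2, Complex.norm_real, Complex.norm_real] at this
    simpa using this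
  have hcb : ((c * b : ℝ) : ℂ) ≠ 0 := by
    have : c * b ≠ 0 := mul_ne_zero hc hb
    exact_mod_cast this
  rcases abs_eq_abs.mp e6 with h | h
  · left
    rw [← h] at e5
    exact mul_right_cancel₀ hcb e5
  · right
    have h7 : d * a = -(c * b) := by rw [h]; ring
    rw [h7] at e5
    push_cast at e5
    have h8 : w * ((c : ℂ) * b) = (-w₀) * ((c : ℂ) * b) := by rw [e5]; ring
    have hcb' : ((c : ℂ) * b) ≠ 0 := by
      have := hcb
      push_cast at this
      exact this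
    exact mul_right_cancel₀ hcb' h8

end RR

open RR in
theorem stmt_RR (hR : Stmt_RICHL) : Stmt_RR := by
  classical
  intro P K 𝒢 L hK h
  rcases P.eq_empty_or_nonempty with rfl | hP
  · rw [Finset.sum_eq_zero]
    · positivity
    · intro g _
      have : pts (st ∅ g) (L g) = ∅ := by
        ext y
        rw [mem_pts]
        simp [st]
      rw [this]; simp
  have hK2 : 2 ≤ K := by
    have : 1 ≤ P.card := hP.card_pos
    nlinarith
  set T := 𝒢.sigma (fun g => pts (st P g) (L g)) with hT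
  set U := (SS P K ×ˢ SS P K).sigma (fun z => z.1 ×ˢ z.2) with hU
  have hcT : ∑ g ∈ 𝒢, (pts (st P g) (L g)).card = T.card := by
    rw [hT, Finset.card_sigma]
  have hcU : U.card ≤ (2 * P.card) * (2 * P.card) := by
    rw [hU, Finset.card_sigma]
    calc ∑ z ∈ SS P K ×ˢ SS P K, (z.1 ×ˢ z.2).card
        = (∑ S ∈ SS P K, S.card) * (∑ S ∈ SS P K, S.card) := by
          rw [Finset.sum_product, Finset.sum_mul_sum]
          simp [Finset.card_product]
      _ ≤ (2 * P.card) * (2 * P.card) := Nat.mul_le_mul (sumS hR P K hK) (sumS hR P K hK)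
  let φ : (Σ _ : Gp, ℂ) → (Σ _ : Finset ℂ × Finset ℂ, ℂ × ℂ) := fun z =>
    ⟨(pts P (L z.1), pts P (L' L z.1)), (z.2, z.1 z.2)⟩
  have hmaps : ∀ z ∈ T, φ z ∈ U := by
    rintro ⟨g, a⟩ hz
    rw [hT, Finset.mem_sigma] at hz
    obtain ⟨hg, ha⟩ := hz
    simp only at hg ha
    obtain ⟨hd, hv, hk, hk'⟩ := h g hg
    rw [mem_pts] at ha
    obtain ⟨hast, haL⟩ := ha
    have hast' : a ∈ P ∧ g a ∈ P := by
      simpa [st] using hast
    rw [hU, Finset.mem_sigma]
    have hv' : (L' L g).2 ≠ 0 := by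
      simp only [L']
      intro h0
      have h1 : g ((L g).1 + (L g).2) = g (L g).1 := sub_eq_zero.mp h0
      have h2 := g.injective h1
      apply hv
      have := congrArg (fun x => x - (L g).1) h2
      simpa using this
    refine ⟨?_, ?_⟩
    · rw [Finset.mem_product]
      exact ⟨mem_SS hv hk, mem_SS hv' hk'⟩
    · rw [Finset.mem_product]
      refine ⟨mem_pts.mpr ⟨hast'.1, haL⟩, mem_pts.mpr ⟨hast'.2, ?_⟩⟩
      obtain ⟨s, hs⟩ := haL
      refine ⟨s, ?_⟩
      simp only [L', φ]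
      rw [dir_val hd a, dir_val hd (L g).1, dir_val hd ((L g).1 + (L g).2), hs]
      ring
  have hfib : ∀ u ∈ U, (T.filter (fun z => φ z = u)).card ≤ 2 := by
    intro u _
    rcases (T.filter (fun z => φ z = u)).eq_empty_or_nonempty with he | ⟨z₀, hz₀⟩
    · rw [he]; simp
    have hz₀' := Finset.mem_filter.mp hz₀
    obtain ⟨hz₀T, hz₀u⟩ := hz₀'
    have hg₀ : z₀.1 ∈ 𝒢 := (Finset.mem_sigma.mp hz₀T).1
    obtain ⟨hd₀, hv₀, hk₀, hk₀'⟩ := h z₀.1 hg₀
    have key : ∀ z ∈ T.filter (fun z => φ z = u), z.2 = z₀.2 ∧ z.1 z.2 = z₀.1 z₀.2 ∧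
        IsDir z.1 ∧ (z.1 1 - z.1 0 = z₀.1 1 - z₀.1 0 ∨ z.1 1 - z.1 0 = -(z₀.1 1 - z₀.1 0)) := by
      intro z hz
      obtain ⟨hzT, hzu⟩ := Finset.mem_filter.mp hz
      have hg : z.1 ∈ 𝒢 := (Finset.mem_sigma.mp hzT).1
      obtain ⟨hd, hv, hk, hk'⟩ := h z.1 hg
      have he : φ z = φ z₀ := hzu.trans hz₀u.symm
      have he1 := congrArg Sigma.fst he
      have he2 : (φ z).2 = (φ z₀).2 := by
        have := Sigma.mk.inj_iff.mp he
        exact eq_of_heq this.2
      simp only [φ, Prod.mk.injEq] at he1 he2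
      refine ⟨he2.1, he2.2, hd, ?_⟩
      obtain ⟨p, hp, q, hq, hpq⟩ := Finset.one_lt_card.mp
        (lt_of_lt_of_le (by omega : 1 < K) hk)
      obtain ⟨p', hp', q', hq', hpq'⟩ := Finset.one_lt_card.mp
        (lt_of_lt_of_le (by omega : 1 < K) hk')
      have hp2 : p ∈ pts P (L z₀.1) := he1.1 ▸ hp
      have hq2 : q ∈ pts P (L z₀.1) := he1.1 ▸ hq
      have hp3 : p' ∈ pts P (L' L z₀.1) := he1.2 ▸ hp'
      have hq3 : q' ∈ pts P (L' L z₀.1) := he1.2 ▸ hq'
      exact two_vals hd hd₀ L hv hv₀ hpq hpq' (mem_pts.mp hp).2 (mem_pts.mp hq).2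
        (mem_pts.mp hp2).2 (mem_pts.mp hq2).2 (mem_pts.mp hp').2 (mem_pts.mp hq').2
        (mem_pts.mp hp3).2 (mem_pts.mp hq3).2
    have hle : (T.filter (fun z => φ z = u)).card ≤
        ({z₀.1 1 - z₀.1 0, -(z₀.1 1 - z₀.1 0)} : Finset ℂ).card := by
      apply Finset.card_le_card_of_injOn (fun z => z.1 1 - z.1 0)
      · intro z hz
        have := (key z (by exact_mod_cast hz)).2.2.2
        simp only [Finset.coe_insert, Finset.coe_singleton, Set.mem_insert_iff,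
          Set.mem_singleton_iff]
        exact this
      · intro z hz z' hz' hzz
        obtain ⟨a1, a2, a3, _⟩ := key z (by exact_mod_cast hz)
        obtain ⟨b1, b2, b3, _⟩ := key z' (by exact_mod_cast hz')
        simp only at hzz
        have h2 : z.2 = z'.2 := a1.trans b1.symm
        have h3 : z.1 z.2 = z'.1 z'.2 := a2.trans b2.symm
        have h1 : z.1 = z'.1 := by
          apply Equiv.ext
          intro x
          rw [dir_val a3 x, dir_val b3 x]
          rw [dir_val a3 z.2, dir_val b3 z'.2] at h3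
          rw [← h2] at h3
          rw [hzz] at h3 ⊢
          have : z.1 0 = z'.1 0 := by linear_combination h3
          rw [this]
        cases z; cases z'
        simp only at h1 h2
        subst h1; subst h2; rfl
    exact hle.trans Finset.card_le_two
  have hfin := Finset.card_le_mul_card_image_of_maps_to hmaps 2 hfib
  rw [hcT]
  calc T.card ≤ 2 * U.card := hfin
    _ ≤ 2 * ((2 * P.card) * (2 * P.card)) := Nat.mul_le_mul_left _ hcU
    _ = 8 * P.card ^ 2 := by ring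

end Pool.RF
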