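import Pool.Agent.Work.MP_dc37f8_rf.Interface

/-!
# MP_dc37f8_co, block SEL (helper67, adapted from helper83's file of the second round)
-/

set_option autoImplicit false

open Finset

namespace Pool.RF

open Pool.BK Pool.BD

namespace SEL

open Classical in
/-- the uncovered elements of `G` -/
noncomputable def unc (G : Finset Gp) (Q : Finset (ℂ × ℂ)) (W : Finset Gp) : Finset Gp :=
  G.filter (fun g => (∀ z ∈ Q, g z.1 ≠ z.2) ∧ ∀ h ∈ W, ¬ IsTr (g * h⁻¹))

lemma mem_unc {G : Finset Gp} {Q : Finset (ℂ × ℂ)} {W : Finset Gp} {g : Gp} :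
    g ∈ unc G Q W ↔ g ∈ G ∧ (∀ z ∈ Q, g z.1 ≠ z.2) ∧ ∀ h ∈ W, ¬ IsTr (g * h⁻¹) := by
  classical
  simp only [unc, Finset.mem_filter]

lemma card_le_unc {G : Finset Gp} {Q : Finset (ℂ × ℂ)} {W : Finset Gp} (p : Gp → Prop)
    (inst : DecidablePred p)
    (hp : ∀ g, p g → (∀ z ∈ Q, g z.1 ≠ z.2) ∧ ∀ h ∈ W, ¬ IsTr (g * h⁻¹)) :
    (@Finset.filter Gp p inst G).card ≤ (unc G Q W).card := by
  apply Finset.card_le_card
  intro g hg
  exact mem_unc.2 ⟨(Finset.mem_filter.1 hg).1, hp g (Finset.mem_filter.1 hg).2⟩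

end SEL

open Classical in
theorem stmt_SEL (hSTR : Stmt_STR) (hRB : Stmt_RB) : Stmt_SEL := by
  intro δ ε hδ hε
  obtain ⟨ε', n₁, hε', hS⟩ := hSTR δ ε hδ hε
  obtain ⟨C, n₂, hC, hR⟩ := hRB δ hδ
  refine ⟨⌈C / ε'⌉₊ + 1, n₁ + n₂ + 1, ?_⟩
  intro P hn G hG hrich
  set n : ℝ := (P.card : ℝ) with hndef
  have hn1 : (n₁ : ℝ) + (n₂ : ℝ) + 1 ≤ n := by
    rw [hndef]; exact_mod_cast hn
  have hnn : (0:ℝ) ≤ (n₁ : ℝ) := Nat.cast_nonneg _
  have hnn' : (0:ℝ) ≤ (n₂ : ℝ) := Nat.cast_nonneg _
  have hnpos : 0 < n := by linarith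
  -- the number of rich isometries
  have hGn : (G.card : ℝ) ≤ C * n := hR P G (by omega) (fun g hg => ⟨hG g hg, hrich g hg⟩)
  -- greedy selection
  have key : ∀ m : ℕ, ∃ (Q : Finset (ℂ × ℂ)) (W : Finset Gp), Q.card ≤ m ∧ W.card ≤ m ∧
      (∀ h ∈ W, IsDir h) ∧
      (((SEL.unc G Q W).card : ℝ) ≤ ε * n ∨
        ((SEL.unc G Q W).card : ℝ) + m * (ε' * n) ≤ G.card) := by
    intro m
    induction m with
    | zero =>
      refine ⟨∅, ∅, by simp, by simp, by simp, Or.inr ?_⟩
      have h0 : (SEL.unc G ∅ ∅).card ≤ G.card := by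
        apply Finset.card_le_card
        intro g hg
        exact (SEL.mem_unc.1 hg).1
      have h0' : ((SEL.unc G ∅ ∅).card : ℝ) ≤ G.card := by exact_mod_cast h0
      push_cast
      linarith
    | succ m ih =>
      obtain ⟨Q, W, hQ, hW, hWI, h⟩ := ih
      rcases h with h | h
      · exact ⟨Q, W, by omega, by omega, hWI, Or.inl h⟩
      by_cases hle : ((SEL.unc G Q W).card : ℝ) ≤ ε * n
      · exact ⟨Q, W, by omega, by omega, hWI, Or.inl hle⟩
      rw [not_le] at hle
      have hsp : ∀ (p : Gp → Prop) (_ : DecidablePred p),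
          ε' * n ≤ (((SEL.unc G Q W).filter p).card : ℝ) →
          ((((SEL.unc G Q W).filter (fun g => ¬ p g)).card : ℝ)) + ((m : ℝ) + 1) * (ε' * n) ≤
            G.card := by
        intro p _ hc
        have hadd := Finset.card_filter_add_card_filter_not (s := SEL.unc G Q W) p
        have hadd' : ((((SEL.unc G Q W).filter p).card : ℝ)) +
            ((((SEL.unc G Q W).filter (fun g => ¬ p g)).card : ℝ)) =
            ((SEL.unc G Q W).card : ℝ) := by exact_mod_cast hadd
        linarith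
      rcases hS P (by omega) (SEL.unc G Q W)
        (fun g hg => hG g (SEL.mem_unc.1 hg).1)
        (fun g hg => hrich g (SEL.mem_unc.1 hg).1) (by rw [← hndef]; exact hle.le)
        with ⟨c, c', hc⟩ | ⟨h', hh', hc⟩
      · rw [← hndef] at hc
        refine ⟨insert (c, c') Q, W, (Finset.card_insert_le _ _).trans (by omega), by omega,
          hWI, Or.inr ?_⟩
        have hsplit : SEL.unc G (insert (c, c') Q) W =
            (SEL.unc G Q W).filter (fun g => ¬ g c = c') := by
          ext g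
          simp only [Finset.mem_filter, SEL.mem_unc, Finset.mem_insert, forall_eq_or_imp]
          tauto
        rw [hsplit]
        push_cast
        exact hsp (fun g => g c = c') _ hc
      · rw [← hndef] at hc
        refine ⟨Q, insert h' W, by omega, (Finset.card_insert_le _ _).trans (by omega),
          ?_, Or.inr ?_⟩
        · intro h hh
          rw [Finset.mem_insert] at hh
          rcases hh with rfl | hh
          · exact hG _ (SEL.mem_unc.1 hh').1
          · exact hWI h hh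
        have hsplit : SEL.unc G Q (insert h' W) =
            (SEL.unc G Q W).filter (fun g => ¬ IsTr (g * h'⁻¹)) := by
          ext g
          simp only [Finset.mem_filter, SEL.mem_unc, Finset.mem_insert, forall_eq_or_imp]
          tauto
        rw [hsplit]
        push_cast
        exact hsp (fun g => IsTr (g * h'⁻¹)) _ hc
  obtain ⟨Q, W, hQ, hW, hWI, h⟩ := key (⌈C / ε'⌉₊ + 1)
  refine ⟨Q, W, hQ, hW, hWI, ?_⟩
  rcases h with h | h
  · refine le_trans ?_ h
    exact Nat.cast_le.2 (SEL.card_le_unc _ _ (fun g hg => hg))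
  · exfalso
    have h1 : C / ε' ≤ (⌈C / ε'⌉₊ : ℝ) :=
      Nat.le_ceil _
    rw [div_le_iff₀ hε'] at h1
    push_cast at h
    have h0 : (0:ℝ) ≤ ((SEL.unc G Q W).card : ℝ) := Nat.cast_nonneg _
    have h2 : ((⌈C / ε'⌉₊ : ℝ) + 1) * (ε' * n) ≤ C * n := by
      linarith
    have h3 : C * n ≤ ((⌈C / ε'⌉₊ : ℝ) * ε') * n :=
      mul_le_mul_of_nonneg_right h1 hnpos.le
    have h4 : 0 < ε' * n := by positivity
    nlinarith [h2, h3, h4]

end Pool.RF
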