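import Pool.Agent.Work.MP_dc37f8_rf.Interface

/-!
# MP_dc37f8_co, project rf, block STR (helper79, adapted from helper83): rich direct isometries have
a common pair of centres or a common linear part
-/

set_option autoImplicit false

open Finset

namespace Pool.RF

open Pool.BK Pool.BD

open scoped Pointwise

theorem stmt_STR (hQUO : Pool.RF.Stmt_QUO) (hBSG : Pool.BK.Stmt_BSG) (hPOP : Pool.BK.Stmt_POP)
    (hCORE : Pool.BD.Stmt_CORE) (hGEO : Pool.BK.Stmt_GEO) : Pool.RF.Stmt_STR := by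
  classical
  intro δ ε hδ hε
  obtain ⟨K₀, n₀, hK₀, hQ⟩ := hQUO δ ε hδ hε
  obtain ⟨c, K', hc, hK', hB⟩ := hBSG (δ ^ 2 / 2) K₀ (by positivity) hK₀
  obtain ⟨ε₁, N, hε₁, hC⟩ := hCORE K' hK'
  obtain ⟨M, hM⟩ := exists_nat_ge ((N : ℝ) / (c * ε))
  refine ⟨ε₁ * (c * ε), max n₀ (max 1 M), by positivity, ?_⟩
  intro P hn 𝒢 hDir hst hcard
  have hn0 : n₀ ≤ P.card := le_trans (le_max_left _ _) hn
  have hn1 : 1 ≤ P.card := le_trans (le_trans (le_max_left _ _) (le_max_right _ _)) hn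
  have hnM : M ≤ P.card := le_trans (le_trans (le_max_right _ _) (le_max_right _ _)) hn
  have hP1 : (1 : ℝ) ≤ P.card := by exact_mod_cast hn1
  have hPM : (M : ℝ) ≤ P.card := by exact_mod_cast hnM
  have hHpos : (0 : ℝ) < 𝒢.card := lt_of_lt_of_le (by positivity) hcard
  have hHne : 𝒢.Nonempty := by
    rw [← card_pos]
    exact_mod_cast hHpos
  obtain ⟨U, hU1, hU2⟩ := hQ P hn0 𝒢 hDir hst hcard
  obtain ⟨A, hAs, hAc, hAK⟩ := hB Gp 𝒢 U hHne
    hU2 hU1
  have hApos : (0 : ℝ) < A.card := lt_of_lt_of_le (by positivity) hAc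
  have hAne : A.Nonempty := by
    rw [← card_pos]
    exact_mod_cast hApos
  obtain ⟨S, a, haA, h1S, hSinv, hSsub, hSc, hSm⟩ := hPOP K' hK' Gp A hAne hAK
  have hAD : ∀ g ∈ A, IsDir g := fun g hg => hDir g (hAs hg)
  obtain ⟨g1, g2, g3, g4, -⟩ := hGEO
  have hSD : ∀ x ∈ S, IsDir x := by
    intro x hx
    obtain ⟨y, hy, z, hz, rfl⟩ := Finset.mem_mul.mp (hSsub hx)
    rw [Finset.mem_inv'] at hy
    have h5 := g3 _ (hAD _ hy)
    rw [inv_inv] at h5
    exact g1 _ _ h5 (hAD _ hz)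
  have hcA : c * ε * P.card ≤ A.card := by
    calc c * ε * P.card = c * (ε * P.card) := by ring
      _ ≤ c * 𝒢.card := mul_le_mul_of_nonneg_left hcard hc.le
      _ ≤ A.card := hAc
  have hNA : N ≤ A.card := by
    have h6 : (N : ℝ) ≤ A.card := by
      refine le_trans ?_ hcA
      have h7 : (N : ℝ) / (c * ε) ≤ P.card := le_trans hM hPM
      rw [div_le_iff₀ (by positivity)] at h7
      linarith
    exact_mod_cast h6
  have hfin : ∀ (p : Gp → Prop), ε₁ * A.card ≤ ((A.filter p).card : ℝ) →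
      ε₁ * (c * ε) * P.card ≤ ((𝒢.filter p).card : ℝ) := by
    intro p hp
    have h8 : (A.filter p).card ≤ (𝒢.filter p).card :=
      card_le_card (filter_subset_filter _ hAs)
    have h9 : ((A.filter p).card : ℝ) ≤ ((𝒢.filter p).card : ℝ) := by exact_mod_cast h8
    calc ε₁ * (c * ε) * P.card = ε₁ * (c * ε * P.card) := by ring
      _ ≤ ε₁ * A.card := mul_le_mul_of_nonneg_left hcA hε₁.le
      _ ≤ _ := le_trans hp h9
  rcases hC A S a (Or.inl hAD) haA h1S hSinv hSD hSc hSm hNA with ⟨z, z', hz⟩ | ⟨h, hh, hz⟩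
  · exact Or.inl ⟨z, z', hfin _ hz⟩
  · exact Or.inr ⟨h, hAs hh, hfin _ hz⟩

end Pool.RF
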