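import Pool.Agent.Work.MP_dc37f8_rf.Interface

/-!
# TAIL: poor isometries are negligible (from NCT, HCP, UD)
-/

set_option autoImplicit false

open Finset

namespace Pool.RF.TAIL

open Pool.BK Pool.BD

theorem dir_dist {g : Gp} (hg : IsDir g) (a b : ℂ) : dist (g a) (g b) = dist a b := by
  obtain ⟨w, t, hw, h⟩ := hg
  rw [h a, h b, dist_eq_norm, dist_eq_norm]
  have : w * a + t - (w * b + t) = w * (a - b) := by ring
  rw [this, norm_mul, hw, one_mul]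

theorem dir_ext {g h : Gp} (hg : IsDir g) (hh : IsDir h) {a b : ℂ} (hab : a ≠ b)
    (ha : g a = h a) (hb : g b = h b) : g = h := by
  obtain ⟨w, t, _, h1⟩ := hg
  obtain ⟨w', t', _, h2⟩ := hh
  rw [h1, h2] at ha hb
  have e : (w - w') * (a - b) = 0 := by linear_combination ha - hb
  have hw : w = w' := by
    rcases mul_eq_zero.1 e with h3 | h3
    · exact sub_eq_zero.1 h3
    · exact absurd (sub_eq_zero.1 h3) hab
  have ht : t = t' := by
    rw [hw] at ha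
    exact add_left_cancel ha
  ext z
  rw [h1, h2, hw, ht]

open Classical in
theorem tr_sum (P : Finset ℂ) (𝒢 : Finset Gp) (h : ∀ g ∈ 𝒢, IsTr g) :
    ∑ g ∈ 𝒢, (st P g).card ≤ P.card ^ 2 := by
  rw [← card_sigma, pow_two, ← card_product]
  refine card_le_card_of_injOn (fun z => (z.2, z.1 z.2)) ?_ ?_
  · rintro ⟨g, a⟩ hz
    have hz' := mem_sigma.1 (mem_coe.1 hz)
    have h1 := mem_filter.1 hz'.2
    exact mem_coe.2 (mem_product.2 ⟨h1.1, h1.2⟩)
  · rintro ⟨g, a⟩ hz ⟨g', a'⟩ hz' he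
    have hz1 := (mem_sigma.1 (mem_coe.1 hz)).1
    have hz2 := (mem_sigma.1 (mem_coe.1 hz')).1
    simp only [Prod.mk.injEq] at he
    obtain ⟨rfl, he2⟩ := he
    obtain ⟨t, ht⟩ := h g hz1
    obtain ⟨t', ht'⟩ := h g' hz2
    rw [ht, ht'] at he2
    have : t = t' := add_left_cancel he2
    have e : g = g' := by
      ext z
      rw [ht, ht', this]
    rw [e]

open Classical in
theorem pair_sum (hUD : Stmt_UD) (P : Finset ℂ) (𝒢 : Finset Gp) (h : ∀ g ∈ 𝒢, IsDir g) :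
    ∑ g ∈ 𝒢, ((st P g).card : ℝ) * ((st P g).card - 1) ≤
      3 * (P.card : ℝ) ^ 3 * Real.sqrt P.card := by
  set S : Finset ((_ : Gp) × ℂ × ℂ) := 𝒢.sigma (fun g => (st P g).offDiag) with hS
  set B : Finset (ℂ × ℂ) := (P ×ˢ P).filter (fun z => z.1 ≠ z.2) with hB
  set T : Finset ((_ : ℂ × ℂ) × ℂ × ℂ) := B.sigma (fun z =>
    (P ×ˢ P).filter (fun y => dist y.1 y.2 = dist z.1 z.2)) with hT
  have h1 : ∑ g ∈ 𝒢, ((st P g).card : ℝ) * ((st P g).card - 1) = (S.card : ℝ) := by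
    rw [hS, card_sigma, Nat.cast_sum]
    refine sum_congr rfl fun g _ => ?_
    rw [offDiag_card, Nat.cast_sub (Nat.le_mul_self _)]
    push_cast
    ring
  have h2 : S.card ≤ T.card := by
    refine card_le_card_of_injOn (fun z => ⟨z.2, (z.1 z.2.1, z.1 z.2.2)⟩) ?_ ?_
    · rintro ⟨g, a, b⟩ hz
      have hz' := mem_sigma.1 (mem_coe.1 hz)
      have h3 := mem_offDiag.1 hz'.2
      have h4 := mem_filter.1 h3.1
      have h5 := mem_filter.1 h3.2.1
      refine mem_coe.2 (mem_sigma.2 ⟨mem_filter.2 ⟨mem_product.2 ⟨h4.1, h5.1⟩, h3.2.2⟩,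
        mem_filter.2 ⟨mem_product.2 ⟨h4.2, h5.2⟩, ?_⟩⟩)
      exact dir_dist (h g hz'.1) a b
    · rintro ⟨g, a, b⟩ hz ⟨g', a', b'⟩ hz' he
      have hz1 := mem_sigma.1 (mem_coe.1 hz)
      have hz2 := mem_sigma.1 (mem_coe.1 hz')
      simp only [Sigma.mk.injEq, Prod.mk.injEq, heq_eq_eq] at he
      obtain ⟨⟨rfl, rfl⟩, he2, he3⟩ := he
      have hab : a ≠ b := (mem_offDiag.1 hz1.2).2.2
      have e : g = g' := dir_ext (h g hz1.1) (h g' hz2.1) hab he2 he3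
      rw [e]
  have h3 : (T.card : ℝ) ≤ ∑ z ∈ B, 3 * (P.card : ℝ) * Real.sqrt P.card := by
    rw [hT, card_sigma, Nat.cast_sum]
    refine sum_le_sum fun z hz => ?_
    refine hUD P (dist z.1 z.2) ?_
    exact dist_pos.2 (mem_filter.1 hz).2
  rw [sum_const, nsmul_eq_mul] at h3
  have h4 : (B.card : ℝ) ≤ (P.card : ℝ) ^ 2 := by
    have : B.card ≤ (P ×ˢ P).card := card_filter_le _ _
    rw [card_product] at this
    calc (B.card : ℝ) ≤ ((P.card * P.card : ℕ) : ℝ) := by exact_mod_cast this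
      _ = (P.card : ℝ) ^ 2 := by push_cast; ring
  have h5 : (0 : ℝ) ≤ 3 * (P.card : ℝ) * Real.sqrt P.card := by positivity
  rw [h1]
  calc (S.card : ℝ) ≤ T.card := by exact_mod_cast h2
    _ ≤ B.card * (3 * (P.card : ℝ) * Real.sqrt P.card) := h3
    _ ≤ (P.card : ℝ) ^ 2 * (3 * (P.card : ℝ) * Real.sqrt P.card) :=
        mul_le_mul_of_nonneg_right h4 h5
    _ = 3 * (P.card : ℝ) ^ 3 * Real.sqrt P.card := by ring

end Pool.RF.TAIL

namespace Pool.RF

open Pool.BK Pool.BD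

open Classical in
theorem stmt_TAIL (hNCT : Stmt_NCT) (hHCP : Stmt_HCP) (hUD : Stmt_UD) : Stmt_TAIL := by
  intro η hη
  obtain ⟨δ₁, hδ₁, hnct⟩ := hNCT (η / 5) (by positivity)
  obtain ⟨n₁, hhcp⟩ := hHCP (η / 5) (by positivity)
  set δ : ℝ := min δ₁ (min 1 (η / 80)) with hδ
  have hδ0 : 0 < δ := lt_min hδ₁ (lt_min one_pos (by positivity))
  have hδa : δ ≤ δ₁ := min_le_left _ _
  have hδb : δ ≤ 1 := (min_le_right _ _).trans (min_le_left _ _)
  have hδc : δ ≤ η / 80 := (min_le_right _ _).trans (min_le_right _ _)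
  have hδ2 : δ ^ 2 ≤ η / 80 := by
    calc δ ^ 2 = δ * δ := by ring
      _ ≤ 1 * (η / 80) := mul_le_mul hδb hδc hδ0.le zero_le_one
      _ = η / 80 := one_mul _
  obtain ⟨n₂, hn₂⟩ := exists_nat_gt ((840 / η) ^ 2)
  refine ⟨δ, max n₁ n₂, hδ0, ?_⟩
  intro P 𝒢 hn h𝒢
  have hn1 : n₁ ≤ P.card := (le_max_left _ _).trans hn
  have hn2 : n₂ ≤ P.card := (le_max_right _ _).trans hn
  set n : ℝ := (P.card : ℝ) with hnn
  have hn0 : 0 ≤ n := Nat.cast_nonneg _
  have hsq : 840 / η ≤ Real.sqrt n := by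
    apply Real.le_sqrt_of_sq_le
    have : (n₂ : ℝ) ≤ n := Nat.cast_le.2 hn2
    linarith
  have hss : Real.sqrt n * Real.sqrt n = n := Real.mul_self_sqrt hn0
  -- the four parts
  set 𝒯 := 𝒢.filter (fun g => IsTr g) with h𝒯
  set 𝒮 := (𝒢.filter (fun g => ¬ IsTr g)).filter (fun g => (st P g).card < 28) with h𝒮
  set ℛ := (𝒢.filter (fun g => ¬ IsTr g)).filter (fun g => ¬ (st P g).card < 28) with hℛ
  set ℋ := ℛ.filter (fun g => HC P g) with hℋ
  set 𝒩 := ℛ.filter (fun g => ¬ HC P g) with h𝒩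
  have hsplit : ∑ g ∈ 𝒢, ((st P g).card : ℝ) ^ 3 = ∑ g ∈ 𝒯, ((st P g).card : ℝ) ^ 3 +
      (∑ g ∈ 𝒮, ((st P g).card : ℝ) ^ 3 + (∑ g ∈ ℋ, ((st P g).card : ℝ) ^ 3 +
        ∑ g ∈ 𝒩, ((st P g).card : ℝ) ^ 3)) := by
    rw [hℋ, h𝒩, sum_filter_add_sum_filter_not, h𝒮, hℛ, sum_filter_add_sum_filter_not, h𝒯,
      sum_filter_add_sum_filter_not]
  -- translations
  have hT : ∑ g ∈ 𝒯, ((st P g).card : ℝ) ^ 3 ≤ η / 5 * n ^ 4 := by
    have h1 : ∑ g ∈ 𝒯, ((st P g).card : ℝ) ^ 3 ≤ ∑ g ∈ 𝒯, (δ * n) ^ 2 * ((st P g).card : ℝ) := by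
      refine sum_le_sum fun g hg => ?_
      have h2 := (h𝒢 g (mem_filter.1 hg).1).2.2
      have h3 : (0 : ℝ) ≤ ((st P g).card : ℝ) := Nat.cast_nonneg _
      have h4 : ((st P g).card : ℝ) ^ 2 ≤ (δ * n) ^ 2 := pow_le_pow_left₀ h3 h2 2
      calc ((st P g).card : ℝ) ^ 3 = ((st P g).card : ℝ) ^ 2 * ((st P g).card : ℝ) := by ring
        _ ≤ (δ * n) ^ 2 * ((st P g).card : ℝ) := mul_le_mul_of_nonneg_right h4 h3
    have h2 : ∑ g ∈ 𝒯, ((st P g).card : ℝ) ≤ n ^ 2 := by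
      have := TAIL.tr_sum P 𝒯 (fun g hg => (mem_filter.1 hg).2)
      calc ∑ g ∈ 𝒯, ((st P g).card : ℝ) = ((∑ g ∈ 𝒯, (st P g).card : ℕ) : ℝ) := by push_cast; rfl
        _ ≤ ((P.card ^ 2 : ℕ) : ℝ) := by exact_mod_cast this
        _ = n ^ 2 := by push_cast; rfl
    rw [← mul_sum] at h1
    calc ∑ g ∈ 𝒯, ((st P g).card : ℝ) ^ 3 ≤ (δ * n) ^ 2 * ∑ g ∈ 𝒯, ((st P g).card : ℝ) := h1
      _ ≤ (δ * n) ^ 2 * n ^ 2 := mul_le_mul_of_nonneg_left h2 (by positivity)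
      _ = δ ^ 2 * n ^ 4 := by ring
      _ ≤ η / 5 * n ^ 4 := by
          refine mul_le_mul_of_nonneg_right ?_ (by positivity)
          linarith
  -- few points
  have hS : ∑ g ∈ 𝒮, ((st P g).card : ℝ) ^ 3 ≤ η / 5 * n ^ 4 := by
    have h1 : ∑ g ∈ 𝒮, ((st P g).card : ℝ) ^ 3 ≤
        ∑ g ∈ 𝒮, 56 * (((st P g).card : ℝ) * ((st P g).card - 1)) := by
      refine sum_le_sum fun g hg => ?_
      have hg1 := mem_filter.1 hg
      have hg2 := mem_filter.1 hg1.1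
      have h2 : 2 ≤ (st P g).card := (h𝒢 g hg2.1).2.1
      have h3 : (2 : ℝ) ≤ ((st P g).card : ℝ) := by exact_mod_cast h2
      have h4 : ((st P g).card : ℝ) ≤ 28 := by exact_mod_cast (le_of_lt hg1.2)
      set r : ℝ := ((st P g).card : ℝ) with hr
      have h5 : r ≤ 2 * (r - 1) := by linarith
      calc r ^ 3 = r * r * r := by ring
        _ ≤ 28 * r * (2 * (r - 1)) := by
            refine mul_le_mul ?_ h5 (by linarith) (by linarith)
            exact mul_le_mul_of_nonneg_right h4 (by linarith)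
        _ = 56 * (r * (r - 1)) := by ring
    have h2 := TAIL.pair_sum hUD P 𝒮 (fun g hg =>
      (h𝒢 g (mem_filter.1 (mem_filter.1 hg).1).1).1)
    rw [← mul_sum] at h1
    have h3 : 168 * Real.sqrt n ≤ η / 5 * n := by
      have h4 : 168 = η / 5 * (840 / η) := by
        field_simp
        norm_num
      calc 168 * Real.sqrt n = η / 5 * ((840 / η) * Real.sqrt n) := by
            rw [← mul_assoc, ← h4]
        _ ≤ η / 5 * (Real.sqrt n * Real.sqrt n) := by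
            refine mul_le_mul_of_nonneg_left ?_ (by positivity)
            exact mul_le_mul_of_nonneg_right hsq (Real.sqrt_nonneg _)
        _ = η / 5 * n := by rw [hss]
    calc ∑ g ∈ 𝒮, ((st P g).card : ℝ) ^ 3
        ≤ 56 * ∑ g ∈ 𝒮, (((st P g).card : ℝ) * ((st P g).card - 1)) := h1
      _ ≤ 56 * (3 * n ^ 3 * Real.sqrt n) := by
          refine mul_le_mul_of_nonneg_left h2 (by norm_num)
      _ = n ^ 3 * (168 * Real.sqrt n) := by ring
      _ ≤ n ^ 3 * (η / 5 * n) := mul_le_mul_of_nonneg_left h3 (by positivity)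
      _ = η / 5 * n ^ 4 := by ring
  -- half-collinear
  have hH : ∑ g ∈ ℋ, ((st P g).card : ℝ) ^ 3 ≤ 2 * (η / 5) * n ^ 4 := by
    have h1 := hhcp P δ ℋ hn1 hδ0.le (fun g hg => by
      have hg1 := mem_filter.1 hg
      have hg2 := mem_filter.1 hg1.1
      have hg3 := mem_filter.1 hg2.1
      have := h𝒢 g hg3.1
      exact ⟨this.1, hg1.2, by omega, this.2.2⟩)
    refine h1.trans ?_
    refine mul_le_mul_of_nonneg_right ?_ (by positivity)
    linarith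
  -- the rest
  have hN : ∑ g ∈ 𝒩, ((st P g).card : ℝ) ^ 3 ≤ η / 5 * n ^ 4 := by
    refine hnct P 𝒩 (fun g hg => ?_)
    have hg1 := mem_filter.1 hg
    have hg2 := mem_filter.1 hg1.1
    have hg3 := mem_filter.1 hg2.1
    have := h𝒢 g hg3.1
    refine ⟨this.1, hg3.2, by omega, hg1.2, this.2.2.trans ?_⟩
    exact mul_le_mul_of_nonneg_right hδa hn0
  rw [hsplit]
  linarith

end Pool.RF
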