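import Pool.Agent.Work.MP_dc37f8_rf.InterfaceC

/-! TRW: weights for the classes of triples under translations. -/

set_option autoImplicit false

open Finset

namespace Pool.RF

open Pool.BK Pool.BD

namespace TRW

/-- the translation class of a triple -/
def cls (x : ℂ × ℂ × ℂ) : ℂ × ℂ := (x.2.1 - x.1, x.2.2 - x.1)

theorem fib (Q : Finset ℂ) (z : ℂ × ℂ) [DecidablePred (fun x : ℂ × ℂ × ℂ => cls x = z)] :
    ((Q ×ˢ Q ×ˢ Q).filter (fun x => cls x = z)).card = rep3 Q z := by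
  classical
  unfold rep3
  refine card_bij' (fun x _ => x.1) (fun p _ => (p, p + z.1, p + z.2)) ?_ ?_ ?_ ?_
  · rintro ⟨a, b, c⟩ hx
    obtain ⟨h1, h2⟩ := mem_filter.1 hx
    obtain ⟨ha, h1⟩ := mem_product.1 h1
    obtain ⟨hb, hc⟩ := mem_product.1 h1
    subst h2
    refine mem_filter.2 ⟨ha, ?_, ?_⟩
    · show a + (b - a) ∈ Q
      rw [add_sub_cancel]; exact hb
    · show a + (c - a) ∈ Q
      rw [add_sub_cancel]; exact hc
  · intro p hp
    obtain ⟨h1, h2, h3⟩ := mem_filter.1 hp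
    refine mem_filter.2 ⟨mem_product.2 ⟨h1, mem_product.2 ⟨h2, h3⟩⟩, ?_⟩
    show (p + z.1 - p, p + z.2 - p) = z
    rw [add_sub_cancel_left, add_sub_cancel_left]
  · rintro ⟨a, b, c⟩ hx
    obtain ⟨h1, h2⟩ := mem_filter.1 hx
    subst h2
    show (a, a + (b - a), a + (c - a)) = (a, b, c)
    rw [add_sub_cancel, add_sub_cancel]
  · intro p _
    rfl

theorem lamT_nonneg (Q : Finset ℂ) (J : ℕ) (x : ℂ × ℂ × ℂ) : 0 ≤ lamT Q J x := by
  unfold lamT
  exact div_nonneg zero_le_one (le_max_of_le_right (Nat.cast_nonneg _))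

theorem lamT_le (Q : Finset ℂ) {J : ℕ} (hJ : 1 ≤ J) (x : ℂ × ℂ × ℂ) : lamT Q J x ≤ 1 / J := by
  unfold lamT
  have : (0 : ℝ) < J := by exact_mod_cast hJ
  exact one_div_le_one_div_of_le this (le_max_right _ _)

theorem mul_lamT (a : ℝ) (J : ℕ) (ha : 0 ≤ a) (hJ : 1 ≤ J) :
    a * (1 / max a (J : ℝ)) = min a J / J := by
  have hJ0 : (0 : ℝ) < J := by exact_mod_cast hJ
  rcases le_total a J with h | h
  · rw [max_eq_right h, min_eq_left h]; ring
  · rw [max_eq_left h, min_eq_right h]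
    have : 0 < a := lt_of_lt_of_le hJ0 h
    field_simp

theorem frac_le (a : ℝ) (J : ℕ) (ha : 0 ≤ a) (hJ : 1 ≤ J) : a * (1 / max a (J : ℝ)) ≤ 1 := by
  have hJ0 : (0 : ℝ) < J := by exact_mod_cast hJ
  rw [mul_lamT a J ha hJ, div_le_one hJ0]
  exact min_le_right _ _

open scoped Pointwise

theorem total (hZK : Stmt_ZK) (Q : Finset ℂ) {J : ℕ} (hJ : 1 ≤ J) (hJQ : J ≤ Q.card) :
    3 * (Q.card : ℝ) ^ 2 - 3 * J * Q.card ≤ ∑ x ∈ Q ×ˢ Q ×ˢ Q, lamT Q J x := by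
  classical
  have hJ0 : (0 : ℝ) < J := by exact_mod_cast hJ
  have hmap : ∀ x ∈ Q ×ˢ Q ×ˢ Q, cls x ∈ (Q - Q) ×ˢ (Q - Q) := by
    rintro ⟨a, b, c⟩ hx
    obtain ⟨ha, h1⟩ := mem_product.1 hx
    obtain ⟨hb, hc⟩ := mem_product.1 h1
    exact mem_product.2 ⟨Finset.sub_mem_sub hb ha, Finset.sub_mem_sub hc ha⟩
  have h1 : ∑ x ∈ Q ×ˢ Q ×ˢ Q, lamT Q J x =
      ∑ z ∈ (Q - Q) ×ˢ (Q - Q), (min (rep3 Q z : ℝ) (J : ℝ)) / J := by
    rw [← sum_fiberwise_of_maps_to hmap]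
    refine sum_congr rfl fun z _ => ?_
    have h2 : ∀ x ∈ (Q ×ˢ Q ×ˢ Q).filter (fun x => cls x = z),
        lamT Q J x = 1 / max (rep3 Q z : ℝ) J := by
      intro x hx
      have := (mem_filter.1 hx).2
      rw [← this]
      rfl
    rw [sum_congr rfl h2, sum_const, fib, nsmul_eq_mul]
    exact mul_lamT _ J (Nat.cast_nonneg _) hJ
  rw [h1, ← sum_div, le_div_iff₀ hJ0]
  have h2 := hZK Q J hJQ
  have h3 : (3 * (Q.card : ℝ) ^ 2 - 3 * J * Q.card) * J =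
      3 * (J : ℝ) * (Q.card : ℝ) ^ 2 - 3 * (J : ℝ) ^ 2 * Q.card := by ring
  rw [h3]
  refine h2.trans (le_of_eq ?_)
  refine sum_congr ?_ fun z _ => ?_
  · congr 1
  · rfl

theorem first (hZK : Stmt_ZK) (Q : Finset ℂ) {J : ℕ} (hJ : 1 ≤ J) (hJQ : J ≤ Q.card) :
    3 * (Q.card : ℝ) ^ 2 - 3 * J * Q.card - 3 * (Q.card : ℝ) ^ 2 / J ≤
      ∑ x ∈ E3.T3 Q, lamT Q J x := by
  classical
  have hJ0 : (0 : ℝ) < J := by exact_mod_cast hJ
  have hsub : E3.T3 Q ⊆ Q ×ˢ Q ×ˢ Q := filter_subset _ _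
  have h1 := sum_sdiff (f := lamT Q J) hsub
  have h2 := total hZK Q hJ hJQ
  have h3 : ∑ x ∈ (Q ×ˢ Q ×ˢ Q) \ E3.T3 Q, lamT Q J x ≤ 3 * (Q.card : ℝ) ^ 2 / J := by
    have h4 : (((Q ×ˢ Q ×ˢ Q) \ E3.T3 Q).card : ℝ) ≤ 3 * (Q.card : ℝ) ^ 2 := by
      rw [card_sdiff_of_subset hsub, Nat.cast_sub (card_le_card hsub), E3.card_T3,
        card_product, card_product]
      push_cast
      nlinarith [Nat.cast_nonneg (α := ℝ) Q.card]
    calc ∑ x ∈ (Q ×ˢ Q ×ˢ Q) \ E3.T3 Q, lamT Q J x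
        ≤ ∑ _x ∈ (Q ×ˢ Q ×ˢ Q) \ E3.T3 Q, 1 / (J : ℝ) := sum_le_sum fun x _ => lamT_le Q hJ x
      _ = (((Q ×ˢ Q ×ˢ Q) \ E3.T3 Q).card : ℝ) / J := by
          rw [sum_const, nsmul_eq_mul]; ring
      _ ≤ _ := by gcongr
  linarith

/-- direct isometries with linear part `1` -/
theorem dir_form {g : Gp} (hg : IsDir g) : ∀ z, g z = (g 1 - g 0) * z + g 0 := by
  obtain ⟨w, t, _, h⟩ := hg
  intro z
  rw [h z, h 1, h 0]; ring

/-- the translations which map a triple into `Q` -/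
theorem one_class (Q : Finset ℂ) {J : ℕ} (hJ : 1 ≤ J) (𝒢 : Finset Gp) (ε : ℂ) (hε : ε ≠ 0)
    (hG : ∀ g ∈ 𝒢, IsDir g ∧ g 1 - g 0 = ε) (x : ℂ × ℂ × ℂ) :
    ∑ g ∈ 𝒢, (open Classical in if act g x ∈ E3.T3 Q then lamT Q J (act g x) else 0) ≤ 1 := by
  classical
  set z : ℂ × ℂ := (ε * (x.2.1 - x.1), ε * (x.2.2 - x.1)) with hz
  have hcls : ∀ g ∈ 𝒢, cls (act g x) = z := by
    intro g hg
    have h1 := dir_form (hG g hg).1
    rw [(hG g hg).2] at h1
    unfold cls act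
    simp only
    rw [h1 x.1, h1 x.2.1, h1 x.2.2, hz]
    refine Prod.ext ?_ ?_
    · simp only; ring
    · simp only; ring
  have hval : ∀ g ∈ 𝒢, lamT Q J (act g x) = 1 / max (rep3 Q z : ℝ) J := by
    intro g hg
    rw [← hcls g hg]; rfl
  have hcard : (𝒢.filter (fun g => act g x ∈ E3.T3 Q)).card ≤ rep3 Q z := by
    rw [← fib Q z]
    refine card_le_card_of_injOn (fun g => act g x) ?_ ?_
    · intro g hg
      obtain ⟨h1, h2⟩ := mem_filter.1 (mem_coe.1 hg)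
      exact mem_coe.2 (mem_filter.2 ⟨(mem_filter.1 h2).1, hcls g h1⟩)
    · intro g hg g' hg' he
      obtain ⟨h1, -⟩ := mem_filter.1 (mem_coe.1 hg)
      obtain ⟨h1', -⟩ := mem_filter.1 (mem_coe.1 hg')
      have e1 := dir_form (hG g h1).1
      have e2 := dir_form (hG g' h1').1
      rw [(hG g h1).2] at e1
      rw [(hG g' h1').2] at e2
      have e3 : g x.1 = g' x.1 := congrArg Prod.fst he
      rw [e1 x.1, e2 x.1] at e3
      have e4 : g 0 = g' 0 := add_left_cancel e3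
      refine Equiv.ext fun y => ?_
      rw [e1 y, e2 y, e4]
  rw [← sum_filter]
  calc ∑ g ∈ 𝒢.filter (fun g => act g x ∈ E3.T3 Q), lamT Q J (act g x)
      = ∑ g ∈ 𝒢.filter (fun g => act g x ∈ E3.T3 Q), 1 / max (rep3 Q z : ℝ) J :=
        sum_congr rfl fun g hg => hval g (mem_filter.1 hg).1
    _ = ((𝒢.filter (fun g => act g x ∈ E3.T3 Q)).card : ℝ) * (1 / max (rep3 Q z : ℝ) J) := by
        rw [sum_const, nsmul_eq_mul]
    _ ≤ (rep3 Q z : ℝ) * (1 / max (rep3 Q z : ℝ) J) := by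
        apply mul_le_mul_of_nonneg_right (by exact_mod_cast hcard)
        exact div_nonneg zero_le_one (le_max_of_le_right (Nat.cast_nonneg _))
    _ ≤ 1 := frac_le _ J (Nat.cast_nonneg _) hJ

theorem second (Q : Finset ℂ) {J : ℕ} (hJ : 1 ≤ J) (𝒢 : Finset Gp)
    (hG : ∀ g ∈ 𝒢, IsDir g ∧ (g 1 - g 0 = 1 ∨ g 1 - g 0 = -1)) :
    ∑ g ∈ 𝒢, ∑ x ∈ (E3.T3 Q).filter (fun x => act g x ∈ E3.T3 Q),
        lamT Q J x * lamT Q J (act g x) ≤ 2 * ∑ x ∈ E3.T3 Q, lamT Q J x := by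
  classical
  have h1 : ∑ g ∈ 𝒢, ∑ x ∈ (E3.T3 Q).filter (fun x => act g x ∈ E3.T3 Q),
        lamT Q J x * lamT Q J (act g x) =
      ∑ x ∈ E3.T3 Q, lamT Q J x *
        ∑ g ∈ 𝒢, (if act g x ∈ E3.T3 Q then lamT Q J (act g x) else 0) := by
    calc ∑ g ∈ 𝒢, ∑ x ∈ (E3.T3 Q).filter (fun x => act g x ∈ E3.T3 Q),
        lamT Q J x * lamT Q J (act g x)
        = ∑ g ∈ 𝒢, ∑ x ∈ E3.T3 Q,
            lamT Q J x * (if act g x ∈ E3.T3 Q then lamT Q J (act g x) else 0) := by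
          refine sum_congr rfl fun g _ => ?_
          rw [sum_filter]
          refine sum_congr rfl fun x _ => ?_
          split_ifs
          · rfl
          · rw [mul_zero]
      _ = _ := by
          rw [sum_comm]
          refine sum_congr rfl fun x _ => ?_
          rw [mul_sum]
  have h2 : ∀ x, ∑ g ∈ 𝒢, (if act g x ∈ E3.T3 Q then lamT Q J (act g x) else 0) ≤ 2 := by
    intro x
    have a1 := one_class Q hJ (𝒢.filter (fun g => g 1 - g 0 = 1)) 1 one_ne_zero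
      (fun g hg => ⟨(hG g (mem_filter.1 hg).1).1, (mem_filter.1 hg).2⟩) x
    have a2 := one_class Q hJ (𝒢.filter (fun g => g 1 - g 0 = -1)) (-1) (by simp)
      (fun g hg => ⟨(hG g (mem_filter.1 hg).1).1, (mem_filter.1 hg).2⟩) x
    rw [sum_filter] at a1 a2
    have h3 : ∑ g ∈ 𝒢, (if act g x ∈ E3.T3 Q then lamT Q J (act g x) else 0) ≤
        ∑ g ∈ 𝒢, ((if g 1 - g 0 = 1 then
          (if act g x ∈ E3.T3 Q then lamT Q J (act g x) else 0) else 0) +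
          (if g 1 - g 0 = -1 then
          (if act g x ∈ E3.T3 Q then lamT Q J (act g x) else 0) else 0)) := by
      refine sum_le_sum fun g hg => ?_
      have h0 : 0 ≤ (if act g x ∈ E3.T3 Q then lamT Q J (act g x) else 0) := by
        split_ifs
        · exact lamT_nonneg _ _ _
        · exact le_rfl
      rcases (hG g hg).2 with h | h
      · rw [if_pos h]
        have : 0 ≤ (if g 1 - g 0 = -1 then
          (if act g x ∈ E3.T3 Q then lamT Q J (act g x) else 0) else 0) := by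
          split_ifs at h0 ⊢ <;> first | exact le_rfl | exact h0
        linarith
      · rw [if_pos h]
        have : 0 ≤ (if g 1 - g 0 = 1 then
          (if act g x ∈ E3.T3 Q then lamT Q J (act g x) else 0) else 0) := by
          split_ifs at h0 ⊢ <;> first | exact le_rfl | exact h0
        linarith
    rw [sum_add_distrib] at h3
    linarith
  rw [h1, mul_sum]
  refine sum_le_sum fun x _ => ?_
  rw [mul_comm 2]
  exact mul_le_mul_of_nonneg_left (h2 x) (lamT_nonneg _ _ _)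

end TRW

theorem stmt_TRW (hZK : Pool.BD.Stmt_ZK) : Stmt_TRW := by
  classical
  intro Q J hJ hJQ
  refine ⟨TRW.first hZK Q hJ hJQ, ?_⟩
  intro 𝒢 hG
  have := TRW.second Q hJ 𝒢 hG
  convert this

end Pool.RF
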