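import Pool.Agent.Work.MP_dc37f8_rf.Interface

/-! UD: few pairs of points at a given distance. -/

set_option autoImplicit false

open Finset

namespace Pool.RF

open Pool.BK Pool.BD

set_option maxHeartbeats 4000000 in
theorem stmt_UD : Stmt_UD := by
  classical
  intro P d hd
  set n : ℕ := P.card with hn
  set E : Finset (ℂ × ℂ) := (P ×ˢ P).filter (fun z => dist z.1 z.2 = d) with hE
  -- degrees
  set dg : ℂ → ℕ := fun q => (P.filter (fun p => dist p q = d)).card with hdg
  have h1 : E.card = ∑ q ∈ P, dg q := by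
    have e1 : E.card = ∑ q ∈ P, (E.filter (fun z => z.2 = q)).card := by
      apply card_eq_sum_card_fiberwise
      intro z hz
      have := (mem_filter.1 hz).1
      exact (mem_product.1 this).2
    rw [e1]
    refine sum_congr rfl (fun q hq => ?_)
    refine card_bij (fun z _ => z.1) ?_ ?_ ?_
    · intro z hz
      obtain ⟨hz1, hz2⟩ := mem_filter.1 hz
      obtain ⟨hz3, hz4⟩ := mem_filter.1 hz1
      refine mem_filter.2 ⟨(mem_product.1 hz3).1, ?_⟩
      rw [← hz2]; exact hz4
    · intro z hz z' hz' h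
      have a1 := (mem_filter.1 hz).2
      have a2 := (mem_filter.1 hz').2
      exact Prod.ext h (a1.trans a2.symm)
    · intro p hp
      obtain ⟨hp1, hp2⟩ := mem_filter.1 hp
      exact ⟨(p, q), mem_filter.2 ⟨mem_filter.2 ⟨mem_product.2 ⟨hp1, hq⟩, hp2⟩, rfl⟩, rfl⟩
  -- pairs of neighbours
  have h2 : ∑ q ∈ P, dg q * (dg q - 1) ≤ 2 * (n * n) := by
    have e2 : ∀ q ∈ P, dg q * (dg q - 1) =
        (((P ×ˢ P).filter (fun z => z.1 ≠ z.2)).filter
          (fun z => dist z.1 q = d ∧ dist z.2 q = d)).card := by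
      intro q _
      have : (((P ×ˢ P).filter (fun z => z.1 ≠ z.2)).filter
          (fun z => dist z.1 q = d ∧ dist z.2 q = d)) =
          (P.filter (fun p => dist p q = d)).offDiag := by
        ext z
        simp only [mem_filter, mem_product, mem_offDiag]
        tauto
      rw [this, offDiag_card, Nat.mul_sub_one]
    rw [sum_congr rfl e2]
    have e3 : ∑ q ∈ P, (((P ×ˢ P).filter (fun z => z.1 ≠ z.2)).filter
          (fun z => dist z.1 q = d ∧ dist z.2 q = d)).card =
        ∑ z ∈ (P ×ˢ P).filter (fun z => z.1 ≠ z.2),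
          (P.filter (fun q => dist z.1 q = d ∧ dist z.2 q = d)).card :=
      sum_card_bipartiteAbove_eq_sum_card_bipartiteBelow _
    rw [e3]
    calc ∑ z ∈ (P ×ˢ P).filter (fun z => z.1 ≠ z.2),
          (P.filter (fun q => dist z.1 q = d ∧ dist z.2 q = d)).card
        ≤ ∑ z ∈ (P ×ˢ P).filter (fun z => z.1 ≠ z.2), 2 := by
          refine sum_le_sum (fun z hz => ?_)
          refine le_trans (card_le_card ?_) (UP.circ_inter P (mem_filter.1 hz).2 d d)
          intro q hq
          obtain ⟨a, b, c⟩ := mem_filter.1 hq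
          exact mem_filter.2 ⟨a, by rw [dist_comm]; exact b, by rw [dist_comm]; exact c⟩
      _ = ((P ×ˢ P).filter (fun z => z.1 ≠ z.2)).card * 2 := by
          rw [sum_const, smul_eq_mul]
      _ ≤ (n * n) * 2 := by
          refine Nat.mul_le_mul_right _ (le_trans (card_filter_le _ _) ?_)
          rw [card_product]
      _ = 2 * (n * n) := by ring
  -- Cauchy-Schwarz
  have h3 : (E.card : ℝ) ^ 2 ≤ n * ∑ q ∈ P, (dg q : ℝ) ^ 2 := by
    have := sq_sum_le_card_mul_sum_sq (s := P) (f := fun q => (dg q : ℝ))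
    rw [h1]; push_cast
    exact this
  have h4 : ∑ q ∈ P, (dg q : ℝ) ^ 2 ≤ 2 * (n : ℝ) ^ 2 + E.card := by
    have e4 : ∑ q ∈ P, (dg q : ℝ) ^ 2 = ((∑ q ∈ P, dg q * (dg q - 1) : ℕ) : ℝ) + (E.card : ℝ) := by
      rw [h1]; push_cast
      rw [← sum_add_distrib]
      refine sum_congr rfl (fun q _ => ?_)
      rcases Nat.eq_zero_or_pos (dg q) with h | h
      · rw [h]; norm_num
      · rw [Nat.cast_sub (by omega)]; push_cast; ring
    rw [e4]
    have : ((∑ q ∈ P, dg q * (dg q - 1) : ℕ) : ℝ) ≤ ((2 * (n * n) : ℕ) : ℝ) := by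
      exact_mod_cast h2
    push_cast at this
    push_cast
    nlinarith [this]
  show (E.card : ℝ) ≤ 3 * (n : ℝ) * Real.sqrt n
  by_contra hcon
  push Not at hcon
  have hn0 : (1 : ℝ) ≤ n := by
    rcases Nat.eq_zero_or_pos n with h | h
    · exfalso
      have hP : P = ∅ := card_eq_zero.1 (hn ▸ h)
      have : E = ∅ := by rw [hE, hP]; rfl
      rw [this, h] at hcon
      norm_num at hcon
    · exact_mod_cast h
  set s : ℝ := Real.sqrt n with hs
  have hs2 : s * s = n := Real.mul_self_sqrt (by linarith)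
  have hs1 : 1 ≤ s := by
    rw [hs]; exact Real.one_le_sqrt.2 hn0
  have hm : (E.card : ℝ) * ((E.card : ℝ) - n) ≤ 2 * (n : ℝ) ^ 3 := by
    nlinarith [h3, h4, hn0, mul_le_mul_of_nonneg_left h4 (by linarith : (0 : ℝ) ≤ n)]
  have hm2 : 2 * (n : ℝ) * s ≤ (E.card : ℝ) - n := by nlinarith
  have hm3 : (3 * (n : ℝ) * s) * (2 * (n : ℝ) * s) ≤ (E.card : ℝ) * ((E.card : ℝ) - n) := by
    apply mul_le_mul hcon.le hm2 (by positivity) (by positivity)
  have : (3 * (n : ℝ) * s) * (2 * (n : ℝ) * s) = 6 * (n : ℝ) ^ 3 := by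
    calc (3 * (n : ℝ) * s) * (2 * (n : ℝ) * s) = 6 * (n : ℝ) ^ 2 * (s * s) := by ring
      _ = 6 * (n : ℝ) ^ 3 := by rw [hs2]; ring
  have hn3 : 0 < (n : ℝ) ^ 3 := by positivity
  linarith

end Pool.RF
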