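import Pool.Agent.Work.MP_dc37f8_rf.Interface

/-!
Block VAN: a polynomial of degree at most `D` cannot vanish on `R` if each point of `R` is on `m`
independent lines with more than `D` points of `R`.
-/

set_option autoImplicit false

open Finset

namespace Pool.RF

namespace VAN

open MvPolynomial

/-- the restriction to a line -/
noncomputable def restr {m : ℕ} (x b : Fin m → ℝ) (P : MvPolynomial (Fin m) ℝ) : Polynomial ℝ :=
  aeval (fun j => Polynomial.C (x j) + Polynomial.X * Polynomial.C (b j)) P

theorem restr_natDegree {m : ℕ} (x b : Fin m → ℝ) (P : MvPolynomial (Fin m) ℝ) (D : ℕ)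
    (h : P.totalDegree ≤ D) : (restr x b P).natDegree ≤ D := by
  have h1 := aeval_natDegree_le P h (fun j => Polynomial.C (x j) + Polynomial.X * Polynomial.C (b j))
    (n := 1) (fun i => by
      refine (Polynomial.natDegree_add_le _ _).trans ?_
      rw [Polynomial.natDegree_C]
      refine max_le (by omega) ?_
      refine (Polynomial.natDegree_mul_le).trans ?_
      rw [Polynomial.natDegree_C, Polynomial.natDegree_X])
  rw [mul_one] at h1
  exact h1

theorem restr_eval {m : ℕ} (x b : Fin m → ℝ) (P : MvPolynomial (Fin m) ℝ) (s : ℝ) :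
    (restr x b P).eval s = MvPolynomial.eval (x + s • b) P := by
  unfold restr
  induction P using MvPolynomial.induction_on with
  | C a => simp
  | add p q hp hq => rw [map_add, Polynomial.eval_add, hp, hq, map_add]
  | mul_X p i hp =>
    rw [map_mul, Polynomial.eval_mul, hp, map_mul, aeval_X, eval_X]
    simp only [Polynomial.eval_add, Polynomial.eval_C, Polynomial.eval_mul, Polynomial.eval_X,
      Pi.add_apply, Pi.smul_apply, smul_eq_mul]

theorem restr_deriv {m : ℕ} (x b : Fin m → ℝ) (P : MvPolynomial (Fin m) ℝ) :
    Polynomial.derivative (restr x b P) =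
      ∑ j, Polynomial.C (b j) * restr x b (pderiv j P) := by
  unfold restr
  induction P using MvPolynomial.induction_on with
  | C a => simp
  | add p q hp hq =>
    rw [map_add, map_add, hp, hq, ← sum_add_distrib]
    refine sum_congr rfl (fun j _ => ?_)
    rw [map_add, map_add, mul_add]
  | mul_X p i hp =>
    rw [map_mul, Polynomial.derivative_mul, hp, aeval_X]
    have h1 : ∀ j, Polynomial.C (b j) * aeval (fun j => Polynomial.C (x j) +
        Polynomial.X * Polynomial.C (b j)) (pderiv j (p * X i)) =
        Polynomial.C (b j) * aeval (fun j => Polynomial.C (x j) +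
          Polynomial.X * Polynomial.C (b j)) (pderiv j p) *
          (Polynomial.C (x i) + Polynomial.X * Polynomial.C (b i)) +
        (if i = j then Polynomial.C (b j) * aeval (fun j => Polynomial.C (x j) +
          Polynomial.X * Polynomial.C (b j)) p else 0) := by
      intro j
      rw [pderiv_mul, map_add, map_mul, map_mul, aeval_X]
      by_cases hij : i = j
      · subst hij
        rw [pderiv_X_self, map_one, if_pos rfl]
        ring
      · rw [pderiv_X_of_ne hij, map_zero, if_neg hij]
        ring
    rw [sum_congr rfl (fun j _ => h1 j), sum_add_distrib, ← sum_mul, sum_ite_eq]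
    simp only [mem_univ, if_true]
    simp only [Polynomial.derivative_add, Polynomial.derivative_C, Polynomial.derivative_mul,
      Polynomial.derivative_X]
    ring

theorem totalDegree_pderiv_lt {m : ℕ} (P : MvPolynomial (Fin m) ℝ) (j : Fin m)
    (h : pderiv j P ≠ 0) : (pderiv j P).totalDegree < P.totalDegree := by
  have hne : (pderiv j P).support.Nonempty := by
    rw [Finset.nonempty_iff_ne_empty]
    intro h1
    exact h (MvPolynomial.support_eq_empty.1 h1)
  obtain ⟨s, hs, hs2⟩ := Finset.exists_mem_eq_sup _ hne (fun s : Fin m →₀ ℕ => s.sum fun _ e => e)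
  have h1 : (pderiv j P).totalDegree = s.sum fun _ e => e := hs2
  rw [h1]
  rw [mem_support_iff, coeff_pderiv] at hs
  have h2 : s + Finsupp.single j 1 ∈ P.support := by
    rw [mem_support_iff]
    exact left_ne_zero_of_mul hs
  have h3 := le_totalDegree h2
  rw [Finsupp.sum_add_index' (fun _ => rfl) (fun _ _ _ => rfl), Finsupp.sum_single_index rfl] at h3
  omega

theorem eq_C_of_pderiv {m : ℕ} (P : MvPolynomial (Fin m) ℝ) (h : ∀ j, pderiv j P = 0) :
    P = C (coeff 0 P) := by
  ext s
  rw [coeff_C]
  by_cases hs : (0 : Fin m →₀ ℕ) = s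
  · rw [if_pos hs, hs]
  · rw [if_neg hs]
    obtain ⟨j, hj⟩ : ∃ j, s j ≠ 0 := by
      by_contra hc
      push Not at hc
      apply hs
      ext j
      rw [hc j]
      rfl
    have h1 : s - Finsupp.single j 1 + Finsupp.single j 1 = s := by
      apply tsub_add_cancel_of_le
      rw [Finsupp.single_le_iff]
      omega
    have h2 := coeff_pderiv (i := j) P (s - Finsupp.single j 1)
    rw [h j, coeff_zero, h1] at h2
    have h3 : ((((s - Finsupp.single j 1 : Fin m →₀ ℕ) j : ℕ) : ℝ)) + 1 ≠ 0 := by positivity
    rcases mul_eq_zero.1 h2.symm with h4 | h4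
    · exact h4
    · exact absurd h4 h3

open Classical in
theorem main (m D : ℕ) (R : Finset (Fin m → ℝ)) (hR : R.Nonempty)
    (hlines : ∀ x ∈ R, ∃ b : Fin m → Fin m → ℝ, LinearIndependent ℝ b ∧
      ∀ i, D < (R.filter (fun y => ∃ s : ℝ, y = x + s • b i)).card) :
    ∀ n : ℕ, ∀ P : MvPolynomial (Fin m) ℝ, P.totalDegree = n → P ≠ 0 → P.totalDegree ≤ D →
      ¬ (∀ x ∈ R, MvPolynomial.eval x P = 0) := by
  intro n
  induction n using Nat.strong_induction_on with
  | _ n ih =>
    intro P hn hP hD hvan
    have hder : ∀ j, pderiv j P = 0 := by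
      intro j
      by_contra hj
      have hlt := totalDegree_pderiv_lt P j hj
      refine ih _ (by omega) (pderiv j P) rfl hj (by omega) ?_
      intro x hx
      obtain ⟨b, hb, hcard⟩ := hlines x hx
      -- each restriction vanishes
      have hz : ∀ i, restr x (b i) P = 0 := by
        intro i
        have hbi : b i ≠ 0 := hb.ne_zero i
        set T := R.filter (fun y => ∃ s : ℝ, y = x + s • b i) with hT
        have hex : ∀ y ∈ T, ∃ s : ℝ, y = x + s • b i := fun y hy => (mem_filter.1 hy).2
        choose! s hs using hex
        have hinj : Set.InjOn s T := by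
          intro y hy y' hy' hss
          rw [hs y hy, hs y' hy', hss]
        apply Polynomial.eq_zero_of_natDegree_lt_card_of_eval_eq_zero' _ (T.image s)
        · intro t ht
          obtain ⟨y, hy, rfl⟩ := mem_image.1 ht
          rw [restr_eval, ← hs y hy]
          exact hvan y (mem_filter.1 hy).1
        · rw [card_image_of_injOn hinj]
          exact lt_of_le_of_lt (restr_natDegree x (b i) P D hD) (hcard i)
      -- the gradient is orthogonal to the `b i`
      have horth : ∀ i, ∑ k, b i k * MvPolynomial.eval x (pderiv k P) = 0 := by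
        intro i
        have h1 := restr_deriv x (b i) P
        rw [hz i, Polynomial.derivative_zero] at h1
        have h2 := congrArg (Polynomial.eval 0) h1
        rw [Polynomial.eval_zero, Polynomial.eval_finsetSum] at h2
        rw [h2]
        refine sum_congr rfl (fun k _ => ?_)
        rw [Polynomial.eval_mul, Polynomial.eval_C, restr_eval, zero_smul, add_zero]
      have hunit : IsUnit (Matrix.of b) := Matrix.linearIndependent_rows_iff_isUnit.1 hb
      have hinj := Matrix.mulVec_injective_of_isUnit hunit
      have h3 : (Matrix.of b).mulVec (fun k => MvPolynomial.eval x (pderiv k P)) =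
          (Matrix.of b).mulVec 0 := by
        rw [Matrix.mulVec_zero]
        ext i
        exact horth i
      have h4 := congrFun (hinj h3) j
      exact h4
    have hC := eq_C_of_pderiv P hder
    obtain ⟨x, hx⟩ := hR
    have h1 := hvan x hx
    rw [hC, eval_C] at h1
    rw [h1, map_zero] at hC
    exact hP hC

end VAN

theorem stmt_VAN : Stmt_VAN := by
  intro m D R P hP hD hR hvan hlines
  exact VAN.main m D R hR hlines P.totalDegree P rfl hP hD hvan

end Pool.RF
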