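import Pool.Agent.Work.MP_dc37f8_rf.InterfaceC

/-!
# MP_dc37f8_co, block WCSD (helper24): weighted Cauchy-Schwarz over direct isometries
-/

set_option autoImplicit false

open Finset

namespace Pool.RF.WCSD

open Pool.BK Pool.BD Pool.BK.E3

/-- the oriented area of a triple -/
noncomputable def ar (x : ℂ × ℂ × ℂ) : ℝ :=
  ((x.2.1 - x.1) * (starRingEnd ℂ) (x.2.2 - x.1)).im

/-- the scalar product of a triple -/
noncomputable def sp (x : ℂ × ℂ × ℂ) : ℝ :=
  ((x.2.1 - x.1) * (starRingEnd ℂ) (x.2.2 - x.1)).re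

/-- the scalar product as a function of the key -/
noncomputable def ksp (k : ℝ × ℝ × ℝ) : ℝ := (k.1 ^ 2 + k.2.2 ^ 2 - k.2.1 ^ 2) / 2

/-- the square of the area as a function of the key -/
noncomputable def kar (k : ℝ × ℝ × ℝ) : ℝ := k.1 ^ 2 * k.2.2 ^ 2 - ksp k ^ 2

lemma dist_sq (a b : ℂ) : dist a b ^ 2 = (a.re - b.re) ^ 2 + (a.im - b.im) ^ 2 := by
  rw [Complex.dist_eq, ← Complex.normSq_eq_norm_sq, Complex.normSq_apply]
  simp only [Complex.sub_re, Complex.sub_im]
  ring

lemma sp_eq (x : ℂ × ℂ × ℂ) : sp x = ksp (key x) := by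
  obtain ⟨a, b, c⟩ := x
  unfold sp ksp key
  simp only [dist_sq, Complex.mul_re, Complex.sub_re, Complex.sub_im, Complex.conj_re,
    Complex.conj_im]
  ring

lemma ar_sq (x : ℂ × ℂ × ℂ) : ar x ^ 2 = kar (key x) := by
  unfold kar
  rw [← sp_eq]
  obtain ⟨a, b, c⟩ := x
  unfold sp ar key
  simp only [dist_sq, Complex.mul_re, Complex.mul_im, Complex.sub_re, Complex.sub_im,
    Complex.conj_re, Complex.conj_im]
  ring

/-- the refined key -/
noncomputable def rk (x : ℂ × ℂ × ℂ) : (ℝ × ℝ × ℝ) × SignType := (key x, SignType.sign (ar x))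

open Classical in
lemma card_rk (P : Finset ℂ) : ((T3 P).image rk).card ≤ 12 * (TC P).card := by
  have h1 : (T3 P).image rk ⊆ ((T3 P).image key).biUnion
      (fun k => if kar k = 0 then {(k, (0 : SignType))} else {(k, 1), (k, -1)}) := by
    intro v hv
    obtain ⟨x, hx, rfl⟩ := Finset.mem_image.mp hv
    rw [Finset.mem_biUnion]
    refine ⟨key x, Finset.mem_image_of_mem key hx, ?_⟩
    by_cases h0 : kar (key x) = 0
    · rw [if_pos h0, Finset.mem_singleton]
      have : ar x = 0 := by
        have h2 := ar_sq x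
        rw [h0] at h2
        exact pow_eq_zero_iff (two_ne_zero) |>.mp h2
      unfold rk
      rw [this, sign_zero]
    · rw [if_neg h0, Finset.mem_insert, Finset.mem_singleton]
      have hne : ar x ≠ 0 := by
        intro h
        apply h0
        rw [← ar_sq, h]
        norm_num
      unfold rk
      rcases lt_or_gt_of_ne hne with h | h
      · right
        rw [sign_neg h]
      · left
        rw [sign_pos h]
  have h2 : ∀ k ∈ (T3 P).image key, (if kar k = 0 then {(k, (0 : SignType))} else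
      {(k, (1 : SignType)), (k, -1)} : Finset ((ℝ × ℝ × ℝ) × SignType)).card ≤ 2 := by
    intro k _
    split_ifs
    · rw [Finset.card_singleton]
      norm_num
    · exact Finset.card_le_two
  have h3 := card_keys P
  calc ((T3 P).image rk).card ≤ _ := Finset.card_le_card h1
    _ ≤ ((T3 P).image key).card * 2 := Finset.card_biUnion_le_card_mul _ _ _ h2
    _ ≤ 12 * (TC P).card := by omega

/-- the direct isometry `z ↦ w z + t` -/
noncomputable def dg (w t : ℂ) (hw : w ≠ 0) : Gp where
  toFun z := w * z + t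
  invFun z := w⁻¹ * (z - t)
  left_inv z := by field_simp; ring
  right_inv z := by field_simp; ring

lemma exists_dir {x y : ℂ × ℂ × ℂ} (hx : x.1 ≠ x.2.1) (h : rk x = rk y) :
    ∃ g : Gp, IsDir g ∧ act g x = y := by
  obtain ⟨a, b, c⟩ := x
  obtain ⟨a', b', c'⟩ := y
  simp only at hx
  have hk : key (a, b, c) = key (a', b', c') := congrArg Prod.fst h
  have hs : SignType.sign (ar (a, b, c)) = SignType.sign (ar (a', b', c')) :=
    congrArg Prod.snd h
  have hd : dist a b = dist a' b' := congrArg (fun w : ℝ × ℝ × ℝ => w.1) hk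
  have hsp : sp (a, b, c) = sp (a', b', c') := by rw [sp_eq, sp_eq, hk]
  have har2 : ar (a, b, c) ^ 2 = ar (a', b', c') ^ 2 := by rw [ar_sq, ar_sq, hk]
  have har : ar (a, b, c) = ar (a', b', c') := by
    rcases sq_eq_sq_iff_eq_or_eq_neg.mp har2 with h1 | h1
    · exact h1
    · rw [h1] at hs
      have h2 : SignType.sign (-ar (a', b', c')) = -SignType.sign (ar (a', b', c')) :=
        Left.sign_neg _
      rw [h2] at hs
      have h3 : ar (a', b', c') = 0 := by
        rcases lt_trichotomy (ar (a', b', c')) 0 with h4 | h4 | h4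
        · rw [sign_neg h4] at hs
          exact absurd hs (by decide)
        · exact h4
        · rw [sign_pos h4] at hs
          exact absurd hs (by decide)
      rw [h1, h3, neg_zero]
  have hba : b - a ≠ 0 := sub_ne_zero.mpr (Ne.symm hx)
  have hnn : ‖b' - a'‖ = ‖b - a‖ := by
    rw [dist_comm a b, dist_comm a' b', Complex.dist_eq, Complex.dist_eq] at hd
    exact hd.symm
  have hba' : b' - a' ≠ 0 := by
    intro h0
    rw [h0, norm_zero] at hnn
    exact hba (norm_eq_zero.mp hnn.symm)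
  have hprod : (b - a) * (starRingEnd ℂ) (c - a) = (b' - a') * (starRingEnd ℂ) (c' - a') :=
    Complex.ext hsp har
  have hconj : (starRingEnd ℂ) (b - a) * (c - a) = (starRingEnd ℂ) (b' - a') * (c' - a') := by
    have := congrArg (starRingEnd ℂ) hprod
    simpa using this
  have hcross : (c - a) * (b' - a') = (c' - a') * (b - a) := by
    have h1 : (b - a) * (starRingEnd ℂ) (b - a) = (b' - a') * (starRingEnd ℂ) (b' - a') := by
      rw [Complex.mul_conj, Complex.mul_conj, Complex.normSq_eq_norm_sq,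
        Complex.normSq_eq_norm_sq, hnn]
    have h2 : (starRingEnd ℂ) (b' - a') ≠ 0 := by
      intro h0
      exact hba' ((map_eq_zero _).mp h0)
    have h3 : ((c - a) * (b' - a')) * ((b' - a') * (starRingEnd ℂ) (b' - a')) =
        ((c' - a') * (b - a)) * ((b' - a') * (starRingEnd ℂ) (b' - a')) := by
      calc ((c - a) * (b' - a')) * ((b' - a') * (starRingEnd ℂ) (b' - a'))
          = ((c - a) * (b' - a')) * ((b - a) * (starRingEnd ℂ) (b - a)) := by rw [h1]
        _ = ((starRingEnd ℂ) (b - a) * (c - a)) * ((b' - a') * (b - a)) := by ring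
        _ = ((starRingEnd ℂ) (b' - a') * (c' - a')) * ((b' - a') * (b - a)) := by rw [hconj]
        _ = _ := by ring
    exact mul_right_cancel₀ (mul_ne_zero hba' h2) h3
  set w : ℂ := (b' - a') / (b - a) with hw
  have hw0 : w ≠ 0 := div_ne_zero hba' hba
  have hw1 : ‖w‖ = 1 := by
    rw [hw, norm_div, hnn, div_self (norm_ne_zero_iff.mpr hba)]
  refine ⟨dg w (a' - w * a) hw0, ⟨w, a' - w * a, hw1, fun z => rfl⟩, ?_⟩
  have e1 : dg w (a' - w * a) hw0 a = a' := by
    show w * a + (a' - w * a) = a'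
    ring
  have e2 : dg w (a' - w * a) hw0 b = b' := by
    show w * b + (a' - w * a) = b'
    have : w * (b - a) = b' - a' := div_mul_cancel₀ _ hba
    linear_combination this
  have e3 : dg w (a' - w * a) hw0 c = c' := by
    show w * c + (a' - w * a) = c'
    have : w * (c - a) = c' - a' := by
      rw [hw, div_mul_eq_mul_div, div_eq_iff hba]
      linear_combination hcross
    linear_combination this
  unfold act
  simp only [e1, e2, e3]

/-- weighted Cauchy-Schwarz for the fibres of a map -/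
lemma wcs {α β : Type*} [DecidableEq α] [DecidableEq β] (s : Finset α) (f : α → β) (u : α → ℝ) :
    (∑ x ∈ s, u x) ^ 2 ≤ ((s.image f).card : ℝ) *
      ∑ z ∈ (s ×ˢ s).filter (fun z => f z.1 = f z.2), u z.1 * u z.2 := by
  have h1 : ∑ x ∈ s, u x = ∑ b ∈ s.image f, ∑ x ∈ s.filter (fun a => f a = b), u x :=
    (Finset.sum_fiberwise_of_maps_to (fun x hx => Finset.mem_image_of_mem f hx) u).symm
  have h2 : ∑ z ∈ (s ×ˢ s).filter (fun z => f z.1 = f z.2), u z.1 * u z.2 =
      ∑ b ∈ s.image f, (∑ x ∈ s.filter (fun a => f a = b), u x) ^ 2 := by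
    rw [← Finset.sum_fiberwise_of_maps_to (s := (s ×ˢ s).filter (fun z => f z.1 = f z.2))
      (t := s.image f) (g := fun z : α × α => f z.1) (fun z hz =>
        Finset.mem_image_of_mem f (Finset.mem_product.mp (Finset.mem_filter.mp hz).1).1)]
    apply Finset.sum_congr rfl
    intro b _
    have h4 : ((s ×ˢ s).filter (fun z => f z.1 = f z.2)).filter (fun z => f z.1 = b) =
        (s.filter (fun a => f a = b)) ×ˢ (s.filter (fun a => f a = b)) := by
      ext z
      simp only [Finset.mem_filter, Finset.mem_product]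
      constructor
      · rintro ⟨⟨⟨h1, h2⟩, h3⟩, h4⟩
        exact ⟨⟨h1, h4⟩, h2, by rw [← h3]; exact h4⟩
      · rintro ⟨⟨h1, h2⟩, h3, h4⟩
        exact ⟨⟨⟨h1, h3⟩, by rw [h2, h4]⟩, h2⟩
    rw [h4, Finset.sum_product, sq, Finset.sum_mul_sum]
  rw [h1, h2]
  exact sq_sum_le_card_mul_sum_sq

end Pool.RF.WCSD

namespace Pool.RF

open Pool.BK Pool.BD Pool.BK.E3 Pool.RF.WCSD

set_option maxHeartbeats 4000000 in
open Classical in
theorem stmt_WCSD : Stmt_WCSD := by
  intro P
  set E := (T3 P ×ˢ T3 P).filter (fun z => rk z.1 = rk z.2) with hE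
  have hex : ∀ z : (ℂ × ℂ × ℂ) × (ℂ × ℂ × ℂ), ∃ g : Gp, z ∈ E →
      (IsDir g ∧ act g z.1 = z.2) := by
    intro z
    by_cases hz : z ∈ E
    · obtain ⟨h1, h2⟩ := Finset.mem_filter.mp hz
      obtain ⟨h3, h4⟩ := Finset.mem_product.mp h1
      obtain ⟨g, hg⟩ := exists_dir (mem_T3.mp h3).2.1 h2
      exact ⟨g, fun _ => hg⟩
    · exact ⟨1, fun h => absurd h hz⟩
  choose φ hφ using hex
  refine ⟨E.image φ, ?_, ?_⟩
  · intro g hg
    obtain ⟨z, hz, rfl⟩ := Finset.mem_image.mp hg
    refine ⟨(hφ z hz).1, ?_⟩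
    have k := (hφ z hz).2
    have k1 : φ z z.1.1 = z.2.1 := congrArg (fun w : ℂ × ℂ × ℂ => w.1) k
    have k2 : φ z z.1.2.1 = z.2.2.1 := congrArg (fun w : ℂ × ℂ × ℂ => w.2.1) k
    obtain ⟨h1, h2⟩ := Finset.mem_filter.mp hz
    obtain ⟨h3, h4⟩ := Finset.mem_product.mp h1
    obtain ⟨⟨a1, a2, a3⟩, a4, _⟩ := mem_T3.mp h3
    obtain ⟨⟨b1, b2, b3⟩, _⟩ := mem_T3.mp h4
    have m1 : z.1.1 ∈ st P (φ z) := Finset.mem_filter.mpr ⟨a1, by rw [k1]; exact b1⟩
    have m2 : z.1.2.1 ∈ st P (φ z) := Finset.mem_filter.mpr ⟨a2, by rw [k2]; exact b2⟩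
    exact Finset.one_lt_card.mpr ⟨_, m1, _, m2, a4⟩
  · intro X hX lam hlam
    set EX := (X ×ˢ X).filter (fun z => rk z.1 = rk z.2) with hEX
    have hsub : EX ⊆ E := by
      intro z hz
      obtain ⟨h1, h2⟩ := Finset.mem_filter.mp hz
      obtain ⟨h3, h4⟩ := Finset.mem_product.mp h1
      exact Finset.mem_filter.mpr ⟨Finset.mem_product.mpr ⟨hX h3, hX h4⟩, h2⟩
    have h1 := wcs X rk lam
    have h2 : (((X.image rk).card : ℕ) : ℝ) ≤ 12 * (TC P).card := by
      exact_mod_cast (Finset.card_le_card (Finset.image_subset_image hX)).trans (card_rk P)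
    have h3 : ∑ z ∈ EX, lam z.1 * lam z.2 ≤ ∑ g ∈ E.image φ,
        ∑ x ∈ X.filter (fun x => act g x ∈ X), lam x * lam (act g x) := by
      rw [← Finset.sum_fiberwise_of_maps_to (s := EX) (t := E.image φ) (g := φ)
        (fun z hz => Finset.mem_image_of_mem φ (hsub hz))]
      apply Finset.sum_le_sum
      intro g hg
      have h4 : ∑ z ∈ EX.filter (fun z => φ z = g), lam z.1 * lam z.2 =
          ∑ x ∈ (EX.filter (fun z => φ z = g)).image Prod.fst, lam x * lam (act g x) := by
        rw [Finset.sum_image]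
        · apply Finset.sum_congr rfl
          intro z hz
          obtain ⟨hz1, hz2⟩ := Finset.mem_filter.mp hz
          have h5 := (hφ z (hsub hz1)).2
          rw [hz2] at h5
          rw [h5]
        · intro z hz w hw hzw
          obtain ⟨hz1, hz2⟩ := Finset.mem_filter.mp (Finset.mem_coe.mp hz)
          obtain ⟨hw1, hw2⟩ := Finset.mem_filter.mp (Finset.mem_coe.mp hw)
          have k1 := (hφ z (hsub hz1)).2
          have k2 := (hφ w (hsub hw1)).2
          rw [hz2] at k1
          rw [hw2] at k2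
          have hzw' : z.1 = w.1 := hzw
          apply Prod.ext hzw'
          rw [← k1, ← k2, hzw']
      rw [h4]
      apply Finset.sum_le_sum_of_subset_of_nonneg
      · intro x hx
        obtain ⟨z, hz, rfl⟩ := Finset.mem_image.mp hx
        obtain ⟨hz1, hz2⟩ := Finset.mem_filter.mp hz
        have h5 := (hφ z (hsub hz1)).2
        rw [hz2] at h5
        obtain ⟨h6, h7⟩ := Finset.mem_product.mp (Finset.mem_filter.mp hz1).1
        refine Finset.mem_filter.mpr ⟨h6, ?_⟩
        rw [h5]
        exact h7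
      · intro x _ _
        exact mul_nonneg (hlam _) (hlam _)
    have h0 : 0 ≤ ∑ z ∈ EX, lam z.1 * lam z.2 :=
      Finset.sum_nonneg fun z _ => mul_nonneg (hlam _) (hlam _)
    calc (∑ x ∈ X, lam x) ^ 2 ≤ ((X.image rk).card : ℝ) * ∑ z ∈ EX, lam z.1 * lam z.2 := h1
      _ ≤ 12 * (TC P).card * ∑ g ∈ E.image φ,
          ∑ x ∈ X.filter (fun x => act g x ∈ X), lam x * lam (act g x) := by
          apply mul_le_mul h2 h3 h0 (by positivity)

end Pool.RF
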