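import Pool.Agent.Work.MP_dc37f8_rf.FINALQ
import Pool.Agent.Work.MP_dc37f8_rf.GEN
import Pool.Agent.Work.MP_dc37f8_rf.BIS
import Pool.Agent.Work.MP_dc37f8_rf.HS
import Pool.Agent.Work.MP_dc37f8_rf.PART
import Pool.Agent.Work.MP_dc37f8_rf.CELL
import Pool.Agent.Work.MP_dc37f8_rf.PRUNE
import Pool.Agent.Work.MP_dc37f8_rf.VAN
import Pool.Agent.Work.MP_dc37f8_rf.INCX
import Pool.Agent.Work.MP_dc37f8_rf.INC2
import Pool.Agent.Work.MP_dc37f8_rf.INC3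
import Pool.Agent.Work.MP_dc37f8_rf.UD
import Pool.Agent.Work.MP_dc37f8_rf.NCB
import Pool.Agent.Work.MP_dc37f8_rf.NCT
import Pool.Agent.Work.MP_dc37f8_rf.LCOUNT
import Pool.Agent.Work.MP_dc37f8_rf.CT3
import Pool.Agent.Work.MP_dc37f8_rf.RICHL
import Pool.Agent.Work.MP_dc37f8_rf.RR
import Pool.Agent.Work.MP_dc37f8_rf.HCP
import Pool.Agent.Work.MP_dc37f8_rf.RBHC
import Pool.Agent.Work.MP_dc37f8_rf.TAIL
import Pool.Agent.Work.MP_dc37f8_rf.RB
import Pool.Agent.Work.MP_dc37f8_rf.QUO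
import Pool.Agent.Work.MP_dc37f8_rf.STR
import Pool.Agent.Work.MP_dc37f8_rf.SEL
import Pool.Agent.Work.MP_dc37f8_rf.WCSD
import Pool.Agent.Work.MP_dc37f8_rf.NSUM
import Pool.Agent.Work.MP_dc37f8_rf.CENZ
import Pool.Agent.Work.MP_dc37f8_rf.LINC
import Pool.Agent.Work.MP_dc37f8_rf.ENU
import Pool.Agent.Work.MP_dc37f8_rf.ECIRC
import Pool.Agent.Work.MP_dc37f8_rf.ELINE
import Pool.Agent.Work.MP_dc37f8_rf.RL
import Pool.Agent.Work.MP_dc37f8_rf.EMIX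
import Pool.Agent.Work.MP_dc37f8_rf.JUNK
import Pool.Agent.Work.MP_dc37f8_rf.PIG
import Pool.Agent.Work.MP_dc37f8_rf.MIXD
import Pool.Agent.Work.MP_dc37f8_rf.NEGA
import Pool.Agent.Work.MP_dc37f8_rf.NEGB
import Pool.Agent.Work.MP_dc37f8_rf.NEGC
import Pool.Agent.Work.MP_dc37f8_rf.TRW
import Pool.Agent.Work.MP_dc37f8_rf.CIW
import Pool.Agent.Work.MP_dc37f8_rf.CASEA
import Pool.Agent.Work.MP_dc37f8_rf.CASET
import Pool.Agent.Work.MP_dc37f8_rf.MAINC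

/-! The assembled statements. -/

set_option autoImplicit false

open Finset

namespace Pool.RF

open Pool.Agent.ConvTri (Plane toC ofC toC_inj dist_toC toC_ofC toC_add)

theorem full_BIS : Stmt_BIS := stmt_BIS stmt_GEN
theorem full_PART : Stmt_PART := stmt_PART (stmt_HS full_BIS)
theorem full_INCX : Stmt_INCX := stmt_INCX full_PART stmt_CELL stmt_PRUNE stmt_VAN
theorem full_NCB : Stmt_NCB := stmt_NCB (stmt_INC3 full_INCX)
theorem full_NCT : Stmt_NCT := stmt_NCT full_NCB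
theorem full_CT3 : Stmt_CT3 := stmt_CT3 (stmt_LCOUNT (stmt_INC2 full_INCX))
theorem full_RR : Stmt_RR := stmt_RR stmt_RICHL
theorem full_HCP : Stmt_HCP := stmt_HCP full_CT3 stmt_UD full_RR
theorem full_RBHC : Stmt_RBHC := stmt_RBHC full_RR
theorem full_TAIL : Stmt_TAIL := stmt_TAIL full_NCT full_HCP stmt_UD
theorem full_RB : Stmt_RB := stmt_RB full_NCB full_RBHC
theorem full_QUO : Stmt_QUO := stmt_QUO full_RB Pool.BD.full_GEO
theorem full_STR : Stmt_STR :=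
  stmt_STR full_QUO Pool.BD.full_BSG Pool.BD.full_POP Pool.BD.full_CORE Pool.BD.full_GEO
theorem full_SEL : Stmt_SEL := stmt_SEL full_STR full_RB
theorem full_NSUM : Stmt_NSUM := stmt_NSUM full_TAIL full_SEL full_RB
theorem full_RL : Stmt_RL := stmt_RL stmt_RICHL
theorem full_EMIX : Stmt_EMIX := stmt_EMIX stmt_ENU stmt_ECIRC stmt_ELINE full_RL
theorem full_JUNK : Stmt_JUNK := stmt_JUNK full_RL
theorem full_MIXD : Stmt_MIXD := stmt_MIXD stmt_CENZ stmt_LINC full_EMIX full_JUNK stmt_PIG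
theorem full_NEGA : Stmt_NEGA := stmt_NEGA stmt_CENZ stmt_LINC stmt_ENU stmt_ECIRC
theorem full_NEGB : Stmt_NEGB := stmt_NEGB stmt_UD
theorem full_NEGC : Stmt_NEGC := stmt_NEGC stmt_CENZ
theorem full_CASEA : Stmt_CASEA := stmt_CASEA full_NEGA stmt_CIW
theorem full_CASET : Stmt_CASET := stmt_CASET (stmt_TRW Pool.BD.full_ZK)
theorem full_MAINC : Stmt_MAINC :=
  stmt_MAINC stmt_WCSD full_NSUM full_MIXD full_CASEA full_CASET full_NEGB full_NEGC

open FINALB in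
open Pool.Agent.ConvTri in
/-- **Large sets without additive structure.** -/
theorem dbl : ∃ K : ℝ, 0 < K ∧ ∀ β : ℝ, 0 < β → ∃ n0 : ℕ, ∀ P P' : Finset Plane, P' ⊆ P →
    n0 ≤ P.card → 6 * (P.card - P'.card) ≤ P.card →
    (∀ Q ⊆ P', (P.card : ℝ) ≤ K * Q.card → (numDiffs Q : ℝ) ≤ K * Q.card →
      ∃ l : AffineSubspace ℝ Plane, Module.finrank ℝ l.direction = 1 ∧
        β * Q.card ≤ (((Q : Set Plane) ∩ (l : Set Plane)).ncard : ℝ)) →
    round ((P.card : ℝ) ^ 2 / 12) ≤ ((TC P).card : ℤ) ∧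
    (((TC P).card : ℤ) = round ((P.card : ℝ) ^ 2 / 12) →
      ∃ c, Conc.IsRegularPolygon P.card c P) :=
  dbl_final full_MAINC Pool.BD.full_ADD

end Pool.RF
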