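import Pool.Agent.Work.MP_dc37f8_rf.InterfaceC

/-! EMIX: the energy of the pairs of different kinds (from ENU, ECIRC, ELINE, RL). -/

set_option autoImplicit false

open Finset

namespace Pool.RF

open Pool.BK Pool.BD

namespace EMIX

open Classical in
theorem bU (hENU : Stmt_ENU) {ι : Type} (s : Finset ι) (G : ι → Finset (ℂ × ℂ)) (S X : ℝ)
    (hS : (s.card : ℝ) ≤ S) (hX0 : 0 ≤ X) (hX : ∀ i ∈ s, (En (G i) : ℝ) ≤ X) :
    (En (s.biUnion G) : ℝ) ≤ S ^ 2 * X := by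
  have h1 : (En (s.biUnion G) : ℝ) ≤ s.card * ∑ i ∈ s, (En (G i) : ℝ) := by
    have := hENU.2.1 ι s G
    exact_mod_cast this
  have h2 : ∑ i ∈ s, (En (G i) : ℝ) ≤ s.card * X := by
    calc ∑ i ∈ s, (En (G i) : ℝ) ≤ ∑ _i ∈ s, X := sum_le_sum hX
      _ = s.card * X := by rw [sum_const, nsmul_eq_mul]
  have h0 : (0 : ℝ) ≤ s.card := Nat.cast_nonneg _
  calc (En (s.biUnion G) : ℝ) ≤ s.card * ∑ i ∈ s, (En (G i) : ℝ) := h1
    _ ≤ s.card * (s.card * X) := mul_le_mul_of_nonneg_left h2 h0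
    _ = (s.card : ℝ) ^ 2 * X := by ring
    _ ≤ S ^ 2 * X := mul_le_mul_of_nonneg_right (pow_le_pow_left₀ h0 hS 2) hX0

open Classical in
/-- the circles -/
noncomputable def I1 (P C : Finset ℂ) (b : ℝ) : Finset (ℂ × ℝ) :=
  C.biUnion (fun c => ((UP.R P (b * P.card) c).image (fun p => dist p c)).image (fun ρ => (c, ρ)))

open Classical in
noncomputable def Z1 (P C : Finset ℂ) (b : ℝ) : Finset (ℂ × ℂ) :=
  (I1 P C b).biUnion (fun i => (P.filter (fun p => dist p i.1 = i.2)) ×ˢ P)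

open Classical in
theorem cardI1 (P C : Finset ℂ) (b : ℝ) (L : ℕ) (hb : 0 < b) (hP : 0 < P.card) (hC : C.card ≤ L) :
    ((I1 P C b).card : ℝ) ≤ L / b := by
  have hn : (0 : ℝ) < P.card := by exact_mod_cast hP
  have h1 : ((I1 P C b).card : ℝ) ≤ ∑ c ∈ C, (1 / b : ℝ) := by
    have h2 : (I1 P C b).card ≤ ∑ c ∈ C, ((UP.R P (b * P.card) c).image (fun p => dist p c)).card := by
      refine card_biUnion_le.trans (sum_le_sum fun c _ => card_image_le)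
    have h3 : ((I1 P C b).card : ℝ) ≤
        ∑ c ∈ C, (((UP.R P (b * P.card) c).image (fun p => dist p c)).card : ℝ) := by
      exact_mod_cast h2
    refine h3.trans (sum_le_sum fun c _ => ?_)
    have h4 := UP.radii_le P (b := b * P.card) c
    rw [le_div_iff₀ hb]
    have h5 : ((((UP.R P (b * P.card) c).image (fun p => dist p c)).card : ℝ) * b) * P.card ≤
        1 * P.card := by linarith
    exact le_of_mul_le_mul_right h5 hn
  refine h1.trans ?_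
  rw [sum_const, nsmul_eq_mul, mul_one_div]
  have : (C.card : ℝ) ≤ L := by exact_mod_cast hC
  gcongr

open Classical in
theorem enZ1 (hENU : Stmt_ENU) (hEC : Stmt_ECIRC) (P C : Finset ℂ) (b : ℝ) (L : ℕ) (hb : 0 < b)
    (hP : 0 < P.card) (hC : C.card ≤ L) :
    (En (Z1 P C b) : ℝ) ≤ (L / b) ^ 2 * (3 * (P.card : ℝ) ^ 2) := by
  refine bU hENU _ _ _ _ (cardI1 P C b L hb hP hC) (by positivity) ?_
  intro i _
  have h1 := hEC (P.filter (fun p => dist p i.1 = i.2)) P i.1 i.2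
    (fun p hp => (mem_filter.1 hp).2)
  have h2 : (P.filter (fun p => dist p i.1 = i.2)).card ≤ P.card := card_filter_le _ _
  have h3 : En ((P.filter (fun p => dist p i.1 = i.2)) ×ˢ P) ≤ 3 * P.card ^ 2 := by
    calc En ((P.filter (fun p => dist p i.1 = i.2)) ×ˢ P)
        ≤ (P.filter (fun p => dist p i.1 = i.2)).card * P.card + 2 * P.card ^ 2 := h1
      _ ≤ P.card * P.card + 2 * P.card ^ 2 := by gcongr
      _ = 3 * P.card ^ 2 := by ring
  exact_mod_cast h3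

open Classical in
noncomputable def Z3 (P : Finset ℂ) (N : Finset (ℂ × ℂ)) : Finset (ℂ × ℂ) :=
  ((N ×ˢ N).filter (fun z : (ℂ × ℂ) × (ℂ × ℂ) => ¬ ∃ s : ℝ, z.2.2 = s * z.1.2)).biUnion
    (fun z => pts P z.1 ×ˢ pts P z.2)

open Classical in
theorem enZ3 (hENU : Stmt_ENU) (hEL : Stmt_ELINE) (P : Finset ℂ) (N : Finset (ℂ × ℂ)) (β : ℝ)
    (hN : (N.card : ℝ) ≤ 2 / β) :
    (En (Z3 P N) : ℝ) ≤ ((2 / β) ^ 2) ^ 2 * (P.card : ℝ) ^ 2 := by
  refine bU hENU _ _ _ _ ?_ (by positivity) ?_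
  · have h1 : ((N ×ˢ N).filter (fun z : (ℂ × ℂ) × (ℂ × ℂ) => ¬ ∃ s : ℝ, z.2.2 = s * z.1.2)).card ≤ N.card ^ 2 := by
      refine (card_filter_le _ _).trans ?_
      rw [card_product, sq]
    calc (((N ×ˢ N).filter (fun z : (ℂ × ℂ) × (ℂ × ℂ) => ¬ ∃ s : ℝ, z.2.2 = s * z.1.2)).card : ℝ)
        ≤ (N.card : ℝ) ^ 2 := by exact_mod_cast h1
      _ ≤ (2 / β) ^ 2 := pow_le_pow_left₀ (Nat.cast_nonneg _) hN 2
  · intro z hz
    have hz2 := (mem_filter.1 hz).2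
    have h1 := hEL.2 (pts P z.1) (pts P z.2) z.1 z.2 (fun p hp => (mem_filter.1 hp).2)
      (fun p hp => (mem_filter.1 hp).2) hz2
    have h2 : (pts P z.1).card ≤ P.card := card_filter_le _ _
    have h3 : (pts P z.2).card ≤ P.card := card_filter_le _ _
    have h4 : En (pts P z.1 ×ˢ pts P z.2) ≤ P.card ^ 2 := by
      refine h1.trans ?_
      rw [sq]
      exact Nat.mul_le_mul h2 h3
    exact_mod_cast h4

open Classical in
noncomputable def Z4 (P : Finset ℂ) (N : Finset (ℂ × ℂ)) (β' : ℝ) : Finset (ℂ × ℂ) :=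
  N.biUnion (fun l => pts P l ×ˢ (P \ Lam P β'))

theorem pts_eq {P : Finset ℂ} {p v y : ℂ} (hy : On (p, v) y) : pts P (p, v) = pts P (y, v) := by
  obtain ⟨s, hs⟩ := hy
  simp only at hs
  ext x
  simp only [pts, mem_filter]
  refine and_congr_right fun _ => ?_
  constructor
  · rintro ⟨t, ht⟩
    refine ⟨t - s, ?_⟩
    simp only at ht ⊢
    rw [ht, hs]; push_cast; ring
  · rintro ⟨t, ht⟩
    refine ⟨t + s, ?_⟩
    simp only at ht ⊢
    rw [ht, hs]; push_cast; ring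

theorem pts_smul {P : Finset ℂ} {p v : ℂ} {t : ℝ} (ht : t ≠ 0) :
    pts P (p, (t : ℂ) * v) = pts P (p, v) := by
  have htc : (t : ℂ) ≠ 0 := by exact_mod_cast ht
  ext x
  simp only [pts, mem_filter]
  refine and_congr_right fun _ => ?_
  constructor
  · rintro ⟨s, hs⟩
    refine ⟨s * t, ?_⟩
    simp only at hs ⊢
    rw [hs]; push_cast; ring
  · rintro ⟨s, hs⟩
    refine ⟨s / t, ?_⟩
    simp only at hs ⊢
    rw [hs]; push_cast; field_simp

open Classical in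
theorem ptsB {P : Finset ℂ} {β' : ℝ} (hβ : 0 ≤ β') {p v : ℂ} (hv : v ≠ 0) :
    (pts (P \ Lam P β') (p, v)).card ≤ ⌊β' * P.card⌋₊ := by
  rcases (pts (P \ Lam P β') (p, v)).eq_empty_or_nonempty with h | ⟨y, hy⟩
  · rw [h]; simp
  · obtain ⟨hy1, hy2⟩ := mem_filter.1 hy
    obtain ⟨hyP, hyL⟩ := mem_sdiff.1 hy1
    have h1 : ¬ β' * P.card ≤ ((pts P (y, v)).card : ℝ) := by
      intro h
      exact hyL (mem_filter.2 ⟨hyP, v, hv, h⟩)
    push Not at h1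
    rw [← pts_eq hy2] at h1
    have h2 : (pts (P \ Lam P β') (p, v)).card ≤ (pts P (p, v)).card := by
      refine card_le_card ?_
      intro x hx
      obtain ⟨hx1, hx2⟩ := mem_filter.1 hx
      exact mem_filter.2 ⟨(mem_sdiff.1 hx1).1, hx2⟩
    refine Nat.le_floor ?_
    calc ((pts (P \ Lam P β') (p, v)).card : ℝ) ≤ (pts P (p, v)).card := by exact_mod_cast h2
      _ ≤ β' * P.card := h1.le

open Classical in
theorem enZ4 (hENU : Stmt_ENU) (hEL : Stmt_ELINE) (P : Finset ℂ) (N : Finset (ℂ × ℂ)) (β β' : ℝ)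
    (hβ : 0 < β) (hβ' : 0 ≤ β') (hN0 : ∀ l ∈ N, l.2 ≠ 0)
    (hN : (N.card : ℝ) ≤ 2 / β) (hS : ∑ l ∈ N, (pts P l).card ≤ 2 * P.card) :
    (En (Z4 P N β') : ℝ) ≤ 4 * β' / β * (P.card : ℝ) ^ 3 := by
  have h1 : (En (Z4 P N β') : ℝ) ≤
      N.card * ∑ l ∈ N, (En (pts P l ×ˢ (P \ Lam P β')) : ℝ) := by
    have := hENU.2.1 _ N (fun l => pts P l ×ˢ (P \ Lam P β'))
    exact_mod_cast this
  have h2 : ∀ l ∈ N, (En (pts P l ×ˢ (P \ Lam P β')) : ℝ) ≤
      (pts P l).card * (P.card * (β' * P.card)) := by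
    intro l hl
    have h3 := hEL.1 (pts P l) (P \ Lam P β') l ⌊β' * P.card⌋₊ (fun p hp => (mem_filter.1 hp).2)
      (fun p => ptsB hβ' (hN0 l hl))
    have h4 : (⌊β' * (P.card : ℝ)⌋₊ : ℝ) ≤ β' * P.card := Nat.floor_le (by positivity)
    have h5 : ((P \ Lam P β').card : ℝ) ≤ P.card := by
      exact_mod_cast card_le_card sdiff_subset
    calc (En (pts P l ×ˢ (P \ Lam P β')) : ℝ)
        ≤ (((pts P l).card * (P \ Lam P β').card * ⌊β' * P.card⌋₊ : ℕ) : ℝ) := by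
          exact_mod_cast h3
      _ = (pts P l).card * ((P \ Lam P β').card * (⌊β' * (P.card : ℝ)⌋₊ : ℝ)) := by
          push_cast; ring
      _ ≤ _ := by gcongr
  have h3 : ∑ l ∈ N, (En (pts P l ×ˢ (P \ Lam P β')) : ℝ) ≤
      (2 * P.card) * (P.card * (β' * P.card)) := by
    refine (sum_le_sum h2).trans ?_
    rw [← sum_mul]
    refine mul_le_mul_of_nonneg_right ?_ (by positivity)
    exact_mod_cast hS
  have h4 : 0 ≤ ∑ l ∈ N, (En (pts P l ×ˢ (P \ Lam P β')) : ℝ) :=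
    sum_nonneg fun _ _ => Nat.cast_nonneg _
  calc (En (Z4 P N β') : ℝ) ≤ N.card * ∑ l ∈ N, (En (pts P l ×ˢ (P \ Lam P β')) : ℝ) := h1
    _ ≤ (2 / β) * ((2 * P.card) * (P.card * (β' * P.card))) := by
        exact mul_le_mul hN h3 h4 (by positivity)
    _ = 4 * β' / β * (P.card : ℝ) ^ 3 := by ring

end EMIX

open Classical in
theorem stmt_EMIX (hENU : Stmt_ENU) (hEC : Stmt_ECIRC) (hEL : Stmt_ELINE) (hRL : Stmt_RL) :
    Stmt_EMIX := by
  intro L b β β' hb hβ' hββ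
  have hβ : 0 < β := lt_of_lt_of_le hβ' hββ
  obtain ⟨n₀, hn₀⟩ := exists_nat_ge
    (4 / β ^ 2 + 5 * β * (6 * (L / b) ^ 2 + ((2 / β) ^ 2) ^ 2) / β' + 1)
  refine ⟨n₀, ?_⟩
  intro P C hP hC
  set n : ℝ := (P.card : ℝ) with hn
  have t1 : 0 ≤ 4 / β ^ 2 := by positivity
  have t2 : 0 ≤ 5 * β * (6 * (L / b) ^ 2 + ((2 / β) ^ 2) ^ 2) / β' := by positivity
  have hnn : (n₀ : ℝ) ≤ n := by rw [hn]; exact_mod_cast hP
  have hn1 : 1 ≤ n := by linarith
  have hn2 : 4 / β ^ 2 ≤ n := by linarith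
  have hn3 : 5 * β * (6 * (L / b) ^ 2 + ((2 / β) ^ 2) ^ 2) / β' ≤ n := by linarith
  have hPpos : 0 < P.card := by
    have : (0 : ℝ) < P.card := by rw [← hn]; linarith
    exact_mod_cast this
  have hn0 : 0 < n := by linarith
  set K : ℕ := ⌈β * n⌉₊ with hK
  have hKge : β * n ≤ K := Nat.le_ceil _
  have hKpos : 0 < K := Nat.ceil_pos.2 (by positivity)
  have hK4 : 4 * P.card ≤ K ^ 2 := by
    have h1 : (4 : ℝ) * n ≤ (K : ℝ) ^ 2 := by
      have h2 : (β * n) ^ 2 ≤ (K : ℝ) ^ 2 := pow_le_pow_left₀ (by positivity) hKge 2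
      have h3 : 4 ≤ n * β ^ 2 := by
        rwa [div_le_iff₀ (by positivity)] at hn2
      nlinarith
    rw [hn] at h1
    exact_mod_cast h1
  obtain ⟨N, hN1, hN2, hN3, hN4, hN5⟩ := hRL P K hKpos hK4
  have hNc : (N.card : ℝ) ≤ 2 / β := by
    rw [le_div_iff₀ hβ]
    have h1 : (N.card : ℝ) * K ≤ 2 * n := by rw [hn]; exact_mod_cast hN4
    have h2 : (N.card : ℝ) * (β * n) ≤ (N.card : ℝ) * K :=
      mul_le_mul_of_nonneg_left hKge (Nat.cast_nonneg _)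
    have h3 : ((N.card : ℝ) * β) * n ≤ 2 * n := by linarith
    exact le_of_mul_le_mul_right h3 hn0
  -- the five sets
  set W1 := EMIX.Z1 P C b with hW1
  set W3 := EMIX.Z3 P N with hW3
  set W4 := EMIX.Z4 P N β' with hW4
  set W : Fin 5 → Finset (ℂ × ℂ) :=
    ![W1, W1.image Prod.swap, W3, W4, W4.image Prod.swap] with hW
  have hrich : ∀ p ∈ P, ∀ v : ℂ, v ≠ 0 → β * P.card ≤ ((pts P (p, v)).card : ℝ) →
      ∃ l ∈ N, p ∈ pts P l ∧ ∃ s : ℝ, v = s * l.2 := by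
    intro p hp v hv h
    have h1 : K ≤ (pts P (p, v)).card := Nat.ceil_le.2 h
    obtain ⟨l, hl, h2, h3⟩ := hN3 p v hv h1
    refine ⟨l, hl, ?_, h3⟩
    rw [h2]
    exact mem_filter.2 ⟨hp, 0, by simp⟩
  have hsub : Mix P C b β β' ⊆ (univ : Finset (Fin 5)).biUnion W := by
    rintro ⟨p, q⟩ hz
    obtain ⟨hz1, hz2⟩ := mem_filter.1 hz
    obtain ⟨hpG, hqG⟩ := mem_product.1 hz1
    obtain ⟨hpP, hp1, hp2, hp3, hp4⟩ := mem_filter.1 hpG
    obtain ⟨hqP, hq1, hq2, hq3, hq4⟩ := mem_filter.1 hqG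
    simp only at hz2 hpP hqP hp4 hq4
    rw [mem_biUnion]
    have hcirc : ∀ x ∈ P, ∀ y ∈ P, (∃ c ∈ C, x ∈ UP.R P (b * P.card) c) → (x, y) ∈ W1 := by
      rintro x hx y hy ⟨c, hc, hxc⟩
      refine mem_biUnion.2 ⟨(c, dist x c), ?_, ?_⟩
      · refine mem_biUnion.2 ⟨c, hc, mem_image.2 ⟨dist x c, mem_image.2 ⟨x, hxc, rfl⟩, rfl⟩⟩
      · exact mem_product.2 ⟨mem_filter.2 ⟨hx, rfl⟩, hy⟩
    by_cases h1 : ∃ c ∈ C, p ∈ UP.R P (b * P.card) c
    · exact ⟨0, mem_univ _, hcirc p hpP q hqP h1⟩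
    by_cases h2 : ∃ c ∈ C, q ∈ UP.R P (b * P.card) c
    · exact ⟨1, mem_univ _, mem_image.2 ⟨(q, p), hcirc q hqP p hpP h2, rfl⟩⟩
    have hline : ∀ x ∈ P, ∀ y ∈ P, x ∈ Lam P β → y ∉ Lam P β' → (x, y) ∈ W4 := by
      intro x hx y hy hx1 hy1
      obtain ⟨_, v, hv, h⟩ := mem_filter.1 hx1
      obtain ⟨l, hl, hxl, _⟩ := hrich x hx v hv h
      exact mem_biUnion.2 ⟨l, hl, mem_product.2 ⟨hxl, mem_sdiff.2 ⟨hy, hy1⟩⟩⟩
    by_cases h3 : p ∈ Lam P β
    · by_cases h4 : q ∈ Lam P β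
      · refine ⟨2, mem_univ _, ?_⟩
        obtain ⟨_, v, hv, h5⟩ := mem_filter.1 h3
        obtain ⟨_, v', hv', h6⟩ := mem_filter.1 h4
        obtain ⟨l, hl, hpl, s, hs⟩ := hrich p hpP v hv h5
        obtain ⟨l', hl', hql, s', hs'⟩ := hrich q hqP v' hv' h6
        refine mem_biUnion.2 ⟨(l, l'), mem_filter.2 ⟨mem_product.2 ⟨hl, hl'⟩, ?_⟩,
          mem_product.2 ⟨hpl, hql⟩⟩
        rintro ⟨t, ht⟩
        simp only at ht
        apply hz2
        right; left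
        have hs0 : s ≠ 0 := by
          rintro rfl
          apply hv
          rw [hs]; simp
        have hs'0 : s' ≠ 0 := by
          rintro rfl
          apply hv'
          rw [hs']; simp
        have ht0 : t ≠ 0 := by
          rintro rfl
          apply hv'
          rw [hs', ht]; simp
        have hsc : (s : ℂ) ≠ 0 := by exact_mod_cast hs0
        refine ⟨v, hv, h5, ?_⟩
        have e1 : v' = ((s' * t / s : ℝ) : ℂ) * v := by
          rw [hs', ht, hs]; push_cast; field_simp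
        have e2 : pts P (q, v') = pts P (q, v) := by
          rw [e1]
          exact EMIX.pts_smul (by positivity)
        rw [← e2]; exact h6
      · have h5 : q ∉ Lam P β' := fun h => h4 (hq4 h)
        exact ⟨3, mem_univ _, hline p hpP q hqP h3 h5⟩
    · by_cases h4 : q ∈ Lam P β
      · have h5 : p ∉ Lam P β' := fun h => h3 (hp4 h)
        exact ⟨4, mem_univ _, mem_image.2 ⟨(q, p), hline q hqP p hpP h4 h5, rfl⟩⟩
      · exfalso
        apply hz2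
        right; right
        push Not at h1 h2
        exact ⟨⟨h1, h3⟩, h2, h4⟩
  have e1 : (En W1 : ℝ) ≤ (L / b) ^ 2 * (3 * n ^ 2) := EMIX.enZ1 hENU hEC P C b L hb hPpos hC
  have e3 : (En W3 : ℝ) ≤ ((2 / β) ^ 2) ^ 2 * n ^ 2 := EMIX.enZ3 hENU hEL P N β hNc
  have e4 : (En W4 : ℝ) ≤ 4 * β' / β * n ^ 3 :=
    EMIX.enZ4 hENU hEL P N β β' hβ hβ'.le (fun l hl => (hN1 l hl).1) hNc hN5
  have e5 : (En (Mix P C b β β') : ℝ) ≤ 5 * ∑ i : Fin 5, (En (W i) : ℝ) := by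
    have h1 := hENU.1 _ _ hsub
    have h2 := hENU.2.1 (Fin 5) univ W
    have h3 : En (Mix P C b β β') ≤ 5 * ∑ i : Fin 5, En (W i) := by
      refine h1.trans (h2.trans ?_)
      simp
    exact_mod_cast h3
  have e6 : ∑ i : Fin 5, (En (W i) : ℝ) = 2 * En W1 + En W3 + 2 * En W4 := by
    rw [Fin.sum_univ_five]
    simp only [hW, Matrix.cons_val]
    rw [hENU.2.2 W1, hENU.2.2 W4]
    ring
  rw [e6] at e5
  have e7 : (En (Mix P C b β β') : ℝ) ≤
      5 * (2 * ((L / b) ^ 2 * (3 * n ^ 2)) + ((2 / β) ^ 2) ^ 2 * n ^ 2 +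
        2 * (4 * β' / β * n ^ 3)) := by linarith
  have e8 : β * (En (Mix P C b β β') : ℝ) ≤
      β * (5 * (2 * ((L / b) ^ 2 * (3 * n ^ 2)) + ((2 / β) ^ 2) ^ 2 * n ^ 2 +
        2 * (4 * β' / β * n ^ 3))) := mul_le_mul_of_nonneg_left e7 hβ.le
  have e9 : β * (5 * (2 * ((L / b) ^ 2 * (3 * n ^ 2)) + ((2 / β) ^ 2) ^ 2 * n ^ 2 +
        2 * (4 * β' / β * n ^ 3))) =
      (5 * β * (6 * (L / b) ^ 2 + ((2 / β) ^ 2) ^ 2)) * n ^ 2 + 40 * β' * n ^ 3 := by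
    field_simp
    ring
  have e10 : 5 * β * (6 * (L / b) ^ 2 + ((2 / β) ^ 2) ^ 2) ≤ n * β' := by
    rwa [div_le_iff₀ hβ'] at hn3
  have e11 : (5 * β * (6 * (L / b) ^ 2 + ((2 / β) ^ 2) ^ 2)) * n ^ 2 ≤ (n * β') * n ^ 2 :=
    mul_le_mul_of_nonneg_right e10 (by positivity)
  calc β * (En (Mix P C b β β') : ℝ)
      ≤ (5 * β * (6 * (L / b) ^ 2 + ((2 / β) ^ 2) ^ 2)) * n ^ 2 + 40 * β' * n ^ 3 := by
        rw [← e9]; exact e8
    _ ≤ (n * β') * n ^ 2 + 40 * β' * n ^ 3 := by linarith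
    _ = 41 * β' * n ^ 3 := by ring

end Pool.RF
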