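import Pool.Agent.Work.MP_dc37f8_rf.Interface

/-!
# MP_dc37f8_co: large sets without a lattice-like rotation (helper36), part C

The statements of the blocks of part C. Proofs on paper: BLUEPRINTC.md.
-/

set_option autoImplicit false

open Finset

namespace Pool.RF

open Pool.BK Pool.BD

/-- the image of a triple -/
def act (g : Gp) (x : ℂ × ℂ × ℂ) : ℂ × ℂ × ℂ := (g x.1, g x.2.1, g x.2.2)

open Classical in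
/-- weighted Cauchy-Schwarz over the isometries of `𝒢` -/
def CS (P : Finset ℂ) (𝒢 : Finset Gp) : Prop :=
  ∀ X ⊆ E3.T3 P, ∀ lam : ℂ × ℂ × ℂ → ℝ, (∀ x, 0 ≤ lam x) →
    (∑ x ∈ X, lam x) ^ 2 ≤ 12 * (TC P).card *
      ∑ g ∈ 𝒢, ∑ x ∈ X.filter (fun x => act g x ∈ X), lam x * lam (act g x)

open Classical in
/-- the isometries of `𝒢` which are not of one of boundedly many types are negligible -/
def Ctx (P : Finset ℂ) (𝒢 : Finset Gp) (𝒬 : Finset (ℂ × ℂ)) (𝒲 : Finset Gp) (L : ℕ)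
    (δ : ℝ) : Prop :=
  (∀ g ∈ 𝒢, IsDir g ∧ 2 ≤ (st P g).card) ∧ 𝒬.card ≤ L ∧ 𝒲.card ≤ L ∧ (∀ h ∈ 𝒲, IsDir h) ∧
  ((𝒢.filter (fun g => δ * P.card ≤ ((st P g).card : ℝ))).card : ℝ) ≤ L * P.card ∧
  ∑ g ∈ 𝒢.filter (fun g => ¬ ((∃ h ∈ 𝒲, IsTr (g * h⁻¹)) ∨
    (δ * P.card ≤ ((st P g).card : ℝ) ∧ ∃ z ∈ 𝒬, g z.1 = z.2))), ((st P g).card : ℝ) ^ 3 ≤
    1 / 10 ^ 8 * (P.card : ℝ) ^ 4

open Classical in
/-- the centres -/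
noncomputable def cen (𝒬 : Finset (ℂ × ℂ)) : Finset ℂ := 𝒬.image Prod.fst ∪ 𝒬.image Prod.snd

/-- the threshold for rich circles -/
noncomputable def bb (L : ℕ) : ℝ := 1 / (10 ^ 9 * (L + 1))

/-- the ratio of two consecutive thresholds for rich lines -/
noncomputable def rr (L : ℕ) : ℝ := 1 / (10 ^ 19 * (L + 1) ^ 2)

open Classical in
/-- the points of `P` in general position with respect to the rich lines and circles -/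
noncomputable def Good (P C : Finset ℂ) (b β β' : ℝ) : Finset ℂ :=
  P.filter (fun p =>
    (∀ c ∈ C, ∀ c' ∈ C, p ∈ UP.R P (b * P.card) c → p ∈ UP.R P (b * P.card) c' → c = c') ∧
    (∀ c ∈ C, p ∈ UP.R P (b * P.card) c → p ∉ Lam P β') ∧
    (∀ v v' : ℂ, v ≠ 0 → v' ≠ 0 → β * P.card ≤ ((pts P (p, v)).card : ℝ) →
      β * P.card ≤ ((pts P (p, v')).card : ℝ) → ∃ s : ℝ, v' = s * v) ∧
    (p ∈ Lam P β' → p ∈ Lam P β))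

/-- the points `p`, `q` are of the same kind: on rich circles with the same centre, on parallel
rich lines, or on no rich line and circle -/
def Same (P C : Finset ℂ) (b β : ℝ) (p q : ℂ) : Prop :=
  (∃ c ∈ C, p ∈ UP.R P (b * P.card) c ∧ q ∈ UP.R P (b * P.card) c) ∨
  (∃ v : ℂ, v ≠ 0 ∧ β * P.card ≤ ((pts P (p, v)).card : ℝ) ∧
    β * P.card ≤ ((pts P (q, v)).card : ℝ)) ∨
  (((∀ c ∈ C, p ∉ UP.R P (b * P.card) c) ∧ p ∉ Lam P β) ∧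
    (∀ c ∈ C, q ∉ UP.R P (b * P.card) c) ∧ q ∉ Lam P β)

open Classical in
/-- pairs of points of different kinds -/
noncomputable def Mix (P C : Finset ℂ) (b β β' : ℝ) : Finset (ℂ × ℂ) :=
  (Good P C b β β' ×ˢ Good P C b β β').filter (fun z => ¬ Same P C b β z.1 z.2)

open Classical in
/-- the additive energy of a set of pairs -/
noncomputable def En (G : Finset (ℂ × ℂ)) : ℕ :=
  ((G ×ˢ G).filter (fun z => z.1.1 - z.1.2 = z.2.1 - z.2.2)).card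

open Classical in
/-- the number of pairs of triples of `Q` which differ by a direct isometry with linear part `w` -/
noncomputable def SX (Q : Finset ℂ) (w : ℂ) : ℕ :=
  (((Q ×ˢ Q ×ˢ Q) ×ˢ (Q ×ˢ Q ×ˢ Q)).filter (fun z =>
    z.2.1 - z.2.2.1 = w * (z.1.1 - z.1.2.1) ∧ z.2.1 - z.2.2.2 = w * (z.1.1 - z.1.2.2))).card

/-- WCSD -/
def Stmt_WCSD : Prop :=
  ∀ P : Finset ℂ, ∃ 𝒢 : Finset Gp, (∀ g ∈ 𝒢, IsDir g ∧ 2 ≤ (st P g).card) ∧ CS P 𝒢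

/-- NSUM (from TAIL, SEL, RB) -/
def Stmt_NSUM : Prop :=
  ∃ (δ : ℝ) (L n₀ : ℕ), 0 < δ ∧ ∀ (P : Finset ℂ) (𝒢 : Finset Gp), n₀ ≤ P.card →
    (∀ g ∈ 𝒢, IsDir g ∧ 2 ≤ (st P g).card) →
    ∃ (𝒬 : Finset (ℂ × ℂ)) (𝒲 : Finset Gp), Ctx P 𝒢 𝒬 𝒲 L δ

open Classical in
/-- CENZ: isometries with given centres move points of rich circles to points of rich circles -/
def Stmt_CENZ : Prop :=
  ∀ (P : Finset ℂ) (b : ℝ) (c c' : ℂ) (𝒢 : Finset Gp), 0 ≤ b → (∀ g ∈ 𝒢, IsDir g ∧ g c = c') →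
    ∑ g ∈ 𝒢, (((st P g).filter (fun p => ¬ (p ∈ UP.R P (b * P.card) c ∧
      g p ∈ UP.R P (b * P.card) c'))).card : ℝ) ≤ 2 * b * (P.card : ℝ) ^ 2 + 𝒢.card

open Classical in
/-- LINC: isometries with given linear part and pairs of points -/
def Stmt_LINC : Prop :=
  ∀ (P : Finset ℂ) (G : Finset (ℂ × ℂ)) (h : Gp) (𝒢 : Finset Gp), G ⊆ P ×ˢ P → IsDir h →
    (∀ g ∈ 𝒢, IsDir g ∧ IsTr (g * h⁻¹)) →
    (∑ g ∈ 𝒢, ((G.filter (fun z => z.1 ∈ st P g ∧ z.2 ∈ st P g)).card : ℝ)) ^ 2 ≤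
      En G * (P.card : ℝ) ^ 3

open Classical in
/-- ENU: energies of unions -/
def Stmt_ENU : Prop :=
  (∀ G G' : Finset (ℂ × ℂ), G ⊆ G' → En G ≤ En G') ∧
  (∀ (ι : Type) (s : Finset ι) (G : ι → Finset (ℂ × ℂ)),
    En (s.biUnion G) ≤ s.card * ∑ i ∈ s, En (G i)) ∧
  (∀ G : Finset (ℂ × ℂ), En (G.image Prod.swap) = En G)

/-- ECIRC: points on a circle -/
def Stmt_ECIRC : Prop :=
  ∀ (A B : Finset ℂ) (c : ℂ) (ρ : ℝ), (∀ p ∈ A, dist p c = ρ) →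
    En (A ×ˢ B) ≤ A.card * B.card + 2 * B.card ^ 2

/-- ELINE: points on a line -/
def Stmt_ELINE : Prop :=
  (∀ (A B : Finset ℂ) (l : ℂ × ℂ) (m : ℕ), (∀ p ∈ A, On l p) →
    (∀ p : ℂ, (pts B (p, l.2)).card ≤ m) → En (A ×ˢ B) ≤ A.card * B.card * m) ∧
  (∀ (A B : Finset ℂ) (l l' : ℂ × ℂ), (∀ p ∈ A, On l p) → (∀ p ∈ B, On l' p) →
    (¬ ∃ s : ℝ, l'.2 = s * l.2) → En (A ×ˢ B) ≤ A.card * B.card)

open Classical in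
/-- RL: representatives of the rich lines (from RICHL) -/
def Stmt_RL : Prop :=
  ∀ (P : Finset ℂ) (K : ℕ), 1 ≤ K → 4 * P.card ≤ K ^ 2 → ∃ N : Finset (ℂ × ℂ),
    (∀ l ∈ N, l.2 ≠ 0 ∧ K ≤ (pts P l).card) ∧
    (∀ l ∈ N, ∀ l' ∈ N, l ≠ l' → (pts P l ∩ pts P l').card ≤ 1) ∧
    (∀ p v : ℂ, v ≠ 0 → K ≤ (pts P (p, v)).card →
      ∃ l ∈ N, pts P l = pts P (p, v) ∧ ∃ s : ℝ, v = s * l.2) ∧
    N.card * K ≤ 2 * P.card ∧ ∑ l ∈ N, (pts P l).card ≤ 2 * P.card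

/-- EMIX: the energy of the pairs of different kinds (from ENU, ECIRC, ELINE, RL) -/
def Stmt_EMIX : Prop :=
  ∀ (L : ℕ) (b β β' : ℝ), 0 < b → 0 < β' → β' ≤ β → ∃ n₀ : ℕ, ∀ (P C : Finset ℂ),
    n₀ ≤ P.card → C.card ≤ L →
    β * (En (Mix P C b β β') : ℝ) ≤ 41 * β' * (P.card : ℝ) ^ 3

open Classical in
/-- JUNK: few points are not in general position (from RL) -/
def Stmt_JUNK : Prop :=
  ∀ (L : ℕ) (b β β' : ℝ), 0 < b → 0 < β' → β' ≤ β → ∃ (K n₀ : ℕ), ∀ (P C : Finset ℂ),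
    n₀ ≤ P.card → C.card ≤ L →
    (P \ Good P C b β β').card ≤ K + (Lam P β' \ Lam P β).card

open Classical in
/-- PIG: few mixed triples give a large class -/
def Stmt_PIG : Prop :=
  ∀ (G : Finset ℂ) (r : ℂ → ℂ → Prop), G.Nonempty → (∀ p ∈ G, r p p) →
    (∀ p ∈ G, ∀ q ∈ G, r p q → r q p) →
    (∀ p ∈ G, ∀ q ∈ G, ∀ s ∈ G, r p q → r q s → r p s) →
    ∃ p₀ ∈ G, G.card ^ 3 ≤
      ((E3.T3 G).filter (fun z => ¬ (r z.1 z.2.1 ∧ r z.2.1 z.2.2))).card + 3 * G.card ^ 2 +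
        G.card * (G.filter (fun q => r p₀ q)).card ^ 2

open Classical in
/-- MIXD: one kind contains almost all points (from CENZ, LINC, EMIX, JUNK, PIG) -/
def Stmt_MIXD : Prop :=
  ∀ (δ : ℝ) (L : ℕ) (β β' : ℝ), 0 < δ → 0 < β' → β' ≤ rr L * β →
    ∃ n₀ : ℕ, ∀ (P : Finset ℂ) (𝒢 : Finset Gp) (𝒬 : Finset (ℂ × ℂ)) (𝒲 : Finset Gp),
      n₀ ≤ P.card → Ctx P 𝒢 𝒬 𝒲 L δ → CS P 𝒢 →
      12 * ((TC P).card : ℝ) ≤ 2 * (P.card : ℝ) ^ 2 →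
      1000 * (Lam P β' \ Lam P β).card ≤ P.card →
      ∃ p₀ ∈ Good P (cen 𝒬) (bb L) β β', 99 / 100 * (P.card : ℝ) ≤
        (((Good P (cen 𝒬) (bb L) β β').filter (fun q => Same P (cen 𝒬) (bb L) β p₀ q)).card : ℝ)

open Classical in
/-- NEGA (from CENZ, LINC, ENU, ECIRC) -/
def Stmt_NEGA : Prop :=
  ∀ (δ : ℝ) (L : ℕ), 0 < δ → ∃ n₀ : ℕ, ∀ (P Q : Finset ℂ) (𝒢 : Finset Gp)
    (𝒬 : Finset (ℂ × ℂ)) (𝒲 : Finset Gp) (c : ℂ), n₀ ≤ P.card → Ctx P 𝒢 𝒬 𝒲 L δ →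
    Q ⊆ UP.R P (bb L * P.card) c →
    (∀ c' ∈ cen 𝒬, c' ≠ c → ∀ q ∈ Q, q ∉ UP.R P (bb L * P.card) c') →
    ∑ g ∈ 𝒢.filter (fun g => g c ≠ c), ((st Q g).card : ℝ) ^ 3 ≤
      3 / 10 ^ 8 * (P.card : ℝ) ^ 4

open Classical in
/-- NEGB (from UD) -/
def Stmt_NEGB : Prop :=
  ∀ (β : ℝ), 0 < β → ∃ n₀ : ℕ, ∀ (P Q : Finset ℂ) (𝒢 : Finset Gp) (v : ℂ),
    n₀ ≤ P.card → v ≠ 0 → Q ⊆ P → (∀ q ∈ Q, β * P.card ≤ ((pts P (q, v)).card : ℝ)) →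
    (∀ g ∈ 𝒢, IsDir g ∧ 2 ≤ (st P g).card) →
    ∑ g ∈ 𝒢.filter (fun g => ¬ (g 1 - g 0 = 1 ∨ g 1 - g 0 = -1)), ((st Q g).card : ℝ) ^ 3 ≤
      3 / 10 ^ 8 * (P.card : ℝ) ^ 4

open Classical in
/-- NEGC (from CENZ) -/
def Stmt_NEGC : Prop :=
  ∀ (δ : ℝ) (L : ℕ), 0 < δ → ∃ n₀ : ℕ, ∀ (P Q : Finset ℂ) (𝒢 : Finset Gp)
    (𝒬 : Finset (ℂ × ℂ)) (𝒲 : Finset Gp), n₀ ≤ P.card → Ctx P 𝒢 𝒬 𝒲 L δ → Q ⊆ P →
    (∀ c' ∈ cen 𝒬, ∀ q ∈ Q, q ∉ UP.R P (bb L * P.card) c') →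
    (∀ w : ℂ, ‖w‖ = 1 → w ≠ 1 → w ≠ -1 →
      (SX Q w : ℝ) ≤ 1 / (10 ^ 8 * (L + 1)) * (P.card : ℝ) ^ 4) →
    ∑ g ∈ 𝒢.filter (fun g => ¬ (g 1 - g 0 = 1 ∨ g 1 - g 0 = -1)), ((st Q g).card : ℝ) ^ 3 ≤
      3 / 10 ^ 8 * (P.card : ℝ) ^ 4

/-- weights for translation classes -/
noncomputable def lamT (Q : Finset ℂ) (J : ℕ) (x : ℂ × ℂ × ℂ) : ℝ :=
  1 / max (rep3 Q (x.2.1 - x.1, x.2.2 - x.1) : ℝ) J

open Classical in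
/-- TRW (from Pool.BD.Stmt_ZK) -/
def Stmt_TRW : Prop :=
  ∀ (Q : Finset ℂ) (J : ℕ), 1 ≤ J → J ≤ Q.card →
    3 * (Q.card : ℝ) ^ 2 - 3 * J * Q.card - 3 * (Q.card : ℝ) ^ 2 / J ≤
      ∑ x ∈ E3.T3 Q, lamT Q J x ∧
    ∀ 𝒢 : Finset Gp, (∀ g ∈ 𝒢, IsDir g ∧ (g 1 - g 0 = 1 ∨ g 1 - g 0 = -1)) →
      ∑ g ∈ 𝒢, ∑ x ∈ (E3.T3 Q).filter (fun x => act g x ∈ E3.T3 Q),
        lamT Q J x * lamT Q J (act g x) ≤ 2 * ∑ x ∈ E3.T3 Q, lamT Q J x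

/-- weights for triples on circles about `c` -/
noncomputable def lamC (Q : Finset ℂ) (c : ℂ) (J : ℕ) (x : ℂ × ℂ × ℂ) : ℝ :=
  1 / max (min (UP.nc Q c (dist x.1 c) : ℝ)
    (min (UP.nc Q c (dist x.2.1 c) : ℝ) (UP.nc Q c (dist x.2.2 c) : ℝ))) J

open Classical in
/-- CIW -/
def Stmt_CIW : Prop :=
  ∀ (Q : Finset ℂ) (c : ℂ) (J : ℕ), 1 ≤ J → 2 * J ≤ Q.card → c ∉ Q →
    ((∀ ρ : ℝ, UP.nc Q c ρ + J ≤ Q.card) →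
      7 / 4 * (Q.card : ℝ) ^ 2 - 3 * (Q.card : ℝ) ^ 2 / J ≤ ∑ x ∈ E3.T3 Q, lamC Q c J x) ∧
    ∀ 𝒢 : Finset Gp, (∀ g ∈ 𝒢, IsDir g ∧ g c = c) →
      ∑ g ∈ 𝒢, ∑ x ∈ (E3.T3 Q).filter (fun x => act g x ∈ E3.T3 Q),
        lamC Q c J x * lamC Q c J (act g x) ≤ ∑ x ∈ E3.T3 Q, lamC Q c J x

open Classical in
/-- CASEA: almost all points on rich circles with the same centre (from NEGA, CIW) -/
def Stmt_CASEA : Prop :=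
  ∀ (δ : ℝ) (L : ℕ), 0 < δ → ∃ n₀ : ℕ, ∀ (P Q : Finset ℂ) (𝒢 : Finset Gp)
    (𝒬 : Finset (ℂ × ℂ)) (𝒲 : Finset Gp) (c : ℂ), n₀ ≤ P.card → Ctx P 𝒢 𝒬 𝒲 L δ →
    CS P 𝒢 → Q ⊆ UP.R P (bb L * P.card) c →
    (∀ c' ∈ cen 𝒬, c' ≠ c → ∀ q ∈ Q, q ∉ UP.R P (bb L * P.card) c') →
    99 / 100 * (P.card : ℝ) ≤ (Q.card : ℝ) →
    100 * (12 * ((TC P).card : ℝ)) ≤ 145 * (P.card : ℝ) ^ 2 →
    ∃ ρ : ℝ, 0 < ρ ∧ 19 / 20 * (P.card : ℝ) ≤ ((P.filter (fun p => dist p c = ρ)).card : ℝ)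

open Classical in
/-- CASET: only translations and half-turns (from TRW) -/
def Stmt_CASET : Prop :=
  ∃ n₀ : ℕ, ∀ (P Q : Finset ℂ) (𝒢 : Finset Gp), n₀ ≤ P.card →
    (∀ g ∈ 𝒢, IsDir g ∧ 2 ≤ (st P g).card) → CS P 𝒢 → Q ⊆ P →
    99 / 100 * (P.card : ℝ) ≤ (Q.card : ℝ) →
    ∑ g ∈ 𝒢.filter (fun g => ¬ (g 1 - g 0 = 1 ∨ g 1 - g 0 = -1)), ((st Q g).card : ℝ) ^ 3 ≤
      3 / 10 ^ 8 * (P.card : ℝ) ^ 4 →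
    145 * (P.card : ℝ) ^ 2 < 100 * (12 * ((TC P).card : ℝ))

open Classical in
/-- MAINC: a large circle (from WCSD, NSUM, MIXD, CASEA, CASET, NEGB, NEGC) -/
def Stmt_MAINC : Prop :=
  ∃ δ₀ : ℝ, 0 < δ₀ ∧ ∀ β : ℝ, 0 < β → ∃ n₀ : ℕ, ∀ P : Finset ℂ, n₀ ≤ P.card →
    (∀ w : ℂ, ‖w‖ = 1 → w ≠ 1 → w ≠ -1 →
      (SX (P \ Lam P β) w : ℝ) ≤ δ₀ * (P.card : ℝ) ^ 4) →
    100 * (12 * ((TC P).card : ℝ)) ≤ 145 * (P.card : ℝ) ^ 2 →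
    ∃ (c : ℂ) (ρ : ℝ), 0 < ρ ∧
      19 / 20 * (P.card : ℝ) ≤ ((P.filter (fun p => dist p c = ρ)).card : ℝ)

end Pool.RF
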