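import Pool.Agent.Work.MP_dc37f8_bd.FIN
import Pool.Agent.Work.MP_dc37f8_rf.InterfaceC

/-! FINAL: transfer to the plane. -/

set_option autoImplicit false

open Finset

namespace Pool.RF

open Pool.BK Pool.BD

open Pool.Agent.ConvTri (Plane toC ofC toC_inj dist_toC toC_ofC toC_add)

namespace FINAL

/-- rotation by the angle `φ` -/
noncomputable def rot (φ : ℝ) (v : Plane) : Plane :=
  !₂[Real.cos φ * v 0 - Real.sin φ * v 1, Real.sin φ * v 0 + Real.cos φ * v 1]

open Classical in
/-- the points of `P` which are on no line with at least `β |P|` points of `P` -/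
noncomputable def poorPoints (β : ℝ) (P : Finset Plane) : Finset Plane :=
  P.filter (fun p => ∀ l : AffineSubspace ℝ Plane, Module.finrank ℝ l.direction = 1 → p ∈ l →
    (((P : Set Plane) ∩ (l : Set Plane)).ncard : ℝ) < β * P.card)

open Classical in
/-- the number of sextuples -/
noncomputable def rotCount (Q : Finset Plane) (φ : ℝ) : ℕ :=
  (((Q ×ˢ Q ×ˢ Q) ×ˢ (Q ×ˢ Q ×ˢ Q)).filter (fun z =>
    z.2.1 - z.2.2.1 = rot φ (z.1.1 - z.1.2.1) ∧ z.2.1 - z.2.2.2 = rot φ (z.1.1 - z.1.2.2))).card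

theorem sq_eq_one_iff_of_side_cond {x : ℝ} (h : x ^ 2 = 1) : x = 1 ∨ x = -1 := by
  have h2 : (x - 1) * (x + 1) = 0 := by nlinarith
  rcases mul_eq_zero.1 h2 with h3 | h3
  · exact Or.inl (by linarith)
  · exact Or.inr (by linarith)

theorem toC_sub (p q : Plane) : toC (p - q) = toC p - toC q := by
  have h := toC_add (p - q) q
  rw [sub_add_cancel] at h
  rw [h]; ring

theorem toC_rot (φ : ℝ) (v : Plane) : toC (rot φ v) = Complex.exp (φ * Complex.I) * toC v := by
  rw [Complex.exp_mul_I, ← Complex.ofReal_cos, ← Complex.ofReal_sin]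
  apply Complex.ext
  · simp only [toC, rot, Complex.mul_re, Complex.add_re, Complex.add_im, Complex.mul_im,
      Complex.ofReal_re, Complex.ofReal_im, Complex.I_re, Complex.I_im]
    simp
  · simp only [toC, rot, Complex.mul_re, Complex.add_re, Complex.add_im, Complex.mul_im,
      Complex.ofReal_re, Complex.ofReal_im, Complex.I_re, Complex.I_im]
    simp
    ring

open Classical in
theorem rotCount_eq (Q : Finset Plane) (φ : ℝ) :
    SX (Q.image toC) (Complex.exp (φ * Complex.I)) = rotCount Q φ := by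
  unfold SX rotCount
  have hinj : Function.Injective (fun z : (Plane × Plane × Plane) × (Plane × Plane × Plane) =>
      (((toC z.1.1, toC z.1.2.1, toC z.1.2.2), (toC z.2.1, toC z.2.2.1, toC z.2.2.2)) :
        (ℂ × ℂ × ℂ) × (ℂ × ℂ × ℂ))) := by
    rintro ⟨⟨a, b, c⟩, ⟨a', b', c'⟩⟩ ⟨⟨d, e, f⟩, ⟨d', e', f'⟩⟩ h
    simp only [Prod.mk.injEq] at h
    obtain ⟨⟨h1, h2, h3⟩, h4, h5, h6⟩ := h
    rw [toC_inj h1, toC_inj h2, toC_inj h3, toC_inj h4, toC_inj h5, toC_inj h6]
  rw [← card_image_of_injective _ hinj]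
  congr 1
  ext ⟨⟨a, b, c⟩, ⟨a', b', c'⟩⟩
  simp only [mem_filter, mem_product, mem_image]
  constructor
  · rintro ⟨⟨⟨⟨a1, ha, rfl⟩, ⟨b1, hb, rfl⟩, ⟨c1, hc, rfl⟩⟩, ⟨a2, ha2, rfl⟩, ⟨b2, hb2, rfl⟩,
      ⟨c2, hc2, rfl⟩⟩, h1, h2⟩
    refine ⟨((a1, b1, c1), (a2, b2, c2)), ⟨⟨⟨ha, hb, hc⟩, ha2, hb2, hc2⟩, ?_, ?_⟩, rfl⟩
    · apply toC_inj
      rw [toC_sub, toC_rot, toC_sub]
      exact h1
    · apply toC_inj
      rw [toC_sub, toC_rot, toC_sub]
      exact h2
  · rintro ⟨⟨⟨a1, b1, c1⟩, ⟨a2, b2, c2⟩⟩, ⟨⟨⟨ha, hb, hc⟩, ha2, hb2, hc2⟩, h1, h2⟩, he⟩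
    simp only [Prod.mk.injEq] at he
    obtain ⟨⟨e1, e2, e3⟩, e4, e5, e6⟩ := he
    subst e1 e2 e3 e4 e5 e6
    refine ⟨⟨⟨⟨a1, ha, rfl⟩, ⟨b1, hb, rfl⟩, ⟨c1, hc, rfl⟩⟩, ⟨a2, ha2, rfl⟩, ⟨b2, hb2, rfl⟩,
      ⟨c2, hc2, rfl⟩⟩, ?_, ?_⟩
    · simp only at h1
      have := congrArg toC h1
      rw [toC_sub, toC_rot, toC_sub] at this
      exact this
    · simp only at h2
      have := congrArg toC h2
      rw [toC_sub, toC_rot, toC_sub] at this
      exact this

open Classical in
theorem poor_sub (β : ℝ) (P : Finset Plane) :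
    (P.image toC) \ Lam (P.image toC) β ⊆ (poorPoints β P).image toC := by
  intro q hq
  obtain ⟨hq1, hq2⟩ := mem_sdiff.1 hq
  obtain ⟨p, hp, rfl⟩ := mem_image.1 hq1
  refine mem_image_of_mem _ (mem_filter.2 ⟨hp, ?_⟩)
  intro l hl hpl
  by_contra hcon
  push Not at hcon
  apply hq2
  obtain ⟨d, hd0, hd⟩ := finrank_eq_one_iff'.1 hl
  have hv : (toC (d : Plane)) ≠ 0 := by
    intro h0
    apply hd0
    apply Subtype.ext
    apply toC_inj
    rw [h0]
    apply Complex.ext <;> simp [toC]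
  refine mem_filter.2 ⟨hq1, toC (d : Plane), hv, ?_⟩
  have hcard : (P.image toC).card = P.card := card_image_of_injective _ toC_inj
  rw [hcard]
  refine hcon.trans ?_
  have h3 : ((P : Set Plane) ∩ (l : Set Plane)).ncard = (P.filter (fun q => q ∈ l)).card := by
    rw [← Set.ncard_coe_finset]
    congr 1
    ext q
    simp
  rw [h3]
  have hsub : (P.filter (fun q => q ∈ l)).image toC ⊆ pts (P.image toC) (toC p, toC (d : Plane)) := by
    intro y hy
    obtain ⟨q, hq, rfl⟩ := mem_image.1 hy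
    obtain ⟨hqP, hql⟩ := mem_filter.1 hq
    refine mem_filter.2 ⟨mem_image_of_mem _ hqP, ?_⟩
    have h4 : q -ᵥ p ∈ l.direction := AffineSubspace.vsub_mem_direction hql hpl
    obtain ⟨s, hs⟩ := hd ⟨q -ᵥ p, h4⟩
    refine ⟨s, ?_⟩
    have h5 : s • (d : Plane) = q - p := by
      have := congrArg (fun x : l.direction => (x : Plane)) hs
      simpa using this
    show toC q = toC p + s * toC (d : Plane)
    rw [← FIN.toC_smul, h5, toC_sub]
    ring
  have h6 := card_le_card hsub
  rw [card_image_of_injective _ toC_inj] at h6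
  exact_mod_cast h6

end FINAL

open FINAL

open Pool.Agent.ConvTri in
/-- **Large sets without a popular rotation.** -/
theorem rot_final (hMAIN : Stmt_MAINC) :
    ∃ δ : ℝ, 0 < δ ∧ ∀ β : ℝ, 0 < β → ∃ n0 : ℕ, ∀ P P' : Finset Plane, P' ⊆ P →
    n0 ≤ P.card → 6 * (P.card - P'.card) ≤ P.card →
    (∀ φ : ℝ, Real.sin φ ≠ 0 →
      (rotCount (poorPoints β P') φ : ℝ) ≤ δ * (P.card : ℝ) ^ 4) →
    round ((P.card : ℝ) ^ 2 / 12) ≤ ((TC P).card : ℤ) ∧
    (((TC P).card : ℤ) = round ((P.card : ℝ) ^ 2 / 12) →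
      ∃ c, Conc.IsRegularPolygon P.card c P) := by
  classical
  obtain ⟨δ₀, hδ₀, hmain⟩ := hMAIN
  refine ⟨δ₀ / 3, by positivity, ?_⟩
  intro β hβ
  obtain ⟨n₁, h1⟩ := hmain β hβ
  refine ⟨2 * n₁ + 1000, ?_⟩
  intro P P' hsub hn hm hrot
  by_cases hT : 12 * (TC P).card ≤ P.card ^ 2 + 6
  · have hle : P'.card ≤ P.card := card_le_card hsub
    have hcard : (P'.image toC).card = P'.card := card_image_of_injective _ toC_inj
    have hTm : (TC P').card ≤ (TC P).card := card_le_card (TC_mono hsub)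
    obtain ⟨n, hnd⟩ : ∃ n : ℝ, n = (P'.card : ℝ) := ⟨_, rfl⟩
    obtain ⟨N, hNd⟩ : ∃ N : ℝ, N = (P.card : ℝ) := ⟨_, rfl⟩
    obtain ⟨T, hTd⟩ : ∃ T : ℝ, T = ((TC P).card : ℝ) := ⟨_, rfl⟩
    have hT' : 12 * T ≤ N ^ 2 + 6 := by rw [hTd, hNd]; exact_mod_cast hT
    have hnN : 5 * N ≤ 6 * n := by
      rw [hnd, hNd]; exact_mod_cast (by omega : 5 * P.card ≤ 6 * P'.card)
    have hN1000 : 1000 ≤ N := by rw [hNd]; exact_mod_cast (by omega : 1000 ≤ P.card)
    have hn0 : 0 ≤ n := by rw [hnd]; positivity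
    have hnleN : n ≤ N := by rw [hnd, hNd]; exact_mod_cast hle
    have hN2 : N ^ 2 ≤ 36 / 25 * n ^ 2 := by
      have : (5 * N) ^ 2 ≤ (6 * n) ^ 2 := pow_le_pow_left₀ (by linarith) hnN 2
      nlinarith
    have hTm' : ((TC P').card : ℝ) ≤ T := by rw [hTd]; exact_mod_cast hTm
    have h145 : 100 * (12 * ((BK.TC (P'.image toC)).card : ℝ)) ≤
        145 * ((P'.image toC).card : ℝ) ^ 2 := by
      rw [FIN.TC_eq, hcard, ← hnd]
      have : 800 ≤ n := by linarith
      nlinarith
    obtain ⟨c, ρ, hρ, hc⟩ := h1 (P'.image toC) (by rw [hcard]; omega) (by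
      intro w hw1 hw2 hw3
      have hwe : Complex.exp (Complex.arg w * Complex.I) = w := by
        have := Complex.norm_mul_exp_arg_mul_I w
        rw [hw1] at this
        simpa using this
      have hsin : Real.sin (Complex.arg w) ≠ 0 := by
        intro h0
        have him : w.im = 0 := by
          rw [← hwe, Complex.exp_ofReal_mul_I_im]; exact h0
        have hre : w.re ^ 2 = 1 := by
          have := Complex.sq_norm w
          rw [hw1, Complex.normSq_apply, him] at this
          nlinarith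
        rcases sq_eq_one_iff_of_side_cond hre with h | h
        · exact hw2 (Complex.ext (by simpa using h) (by simpa using him))
        · exact hw3 (Complex.ext (by simpa using h) (by simpa using him))
      have e1 : (SX ((P'.image toC) \ Lam (P'.image toC) β) w : ℝ) ≤
          (rotCount (poorPoints β P') (Complex.arg w) : ℝ) := by
        rw [← rotCount_eq, hwe]
        have hm : SX ((P'.image toC) \ Lam (P'.image toC) β) w ≤
            SX ((poorPoints β P').image toC) w := by
          unfold SX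
          apply card_le_card
          apply filter_subset_filter
          have hs := poor_sub β P'
          exact product_subset_product (product_subset_product hs (product_subset_product hs hs))
            (product_subset_product hs (product_subset_product hs hs))
        exact_mod_cast hm
      refine e1.trans ((hrot _ hsin).trans ?_)
      rw [hcard, ← hnd, ← hNd]
      have hN4 : N ^ 4 ≤ 3 * n ^ 4 := by
        have : (N ^ 2) ^ 2 ≤ (36 / 25 * n ^ 2) ^ 2 := pow_le_pow_left₀ (by positivity) hN2 2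
        nlinarith [sq_nonneg (n ^ 2)]
      nlinarith) h145
    have hc2 : (((P'.image toC).filter (fun p => dist p c = ρ)).card : ℝ) ≤
        ((P.filter (fun p => dist p (ofC c) = ρ)).card : ℝ) := by
      have e1 : ((P'.image toC).filter (fun q => dist q c = ρ)).card =
          (P'.filter (fun p => dist p (ofC c) = ρ)).card := by
        rw [filter_image, card_image_of_injective _ toC_inj]
        congr 1
        ext p
        have e : dist (toC p) c = dist p (ofC c) := by
          rw [← dist_toC, toC_ofC]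
        simp only [mem_filter, e]
      rw [e1]
      exact_mod_cast card_le_card (filter_subset_filter _ hsub)
    have h3 : 3 * P.card ≤ 4 * (P.filter (fun p => dist p (ofC c) = ρ)).card := by
      have h5 : 3 * N ≤ 4 * ((P.filter (fun p => dist p (ofC c) = ρ)).card : ℝ) := by
        rw [hcard, ← hnd] at hc
        nlinarith
      rw [hNd] at h5
      exact_mod_cast h5
    have h17 : 17 ≤ P.card := by omega
    have h4 := circle_final (by omega) h3
    exact ⟨h4.1, fun h => ⟨ofC c, h4.2 (Or.inl h17) h⟩⟩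
  · have h1 : P.card ^ 2 ≤ 12 * ((TC P).card - 1) + 5 := by omega
    have h2 := round_le_iff h1
    have h3 : 1 ≤ (TC P).card := by omega
    push_cast [Nat.cast_sub h3] at h2
    exact ⟨by omega, fun h => by omega⟩

end Pool.RF
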