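import Pool.Agent.Work.MP_dc37f8_rf.FINAL

/-! FINALB: large sets without large subsets of small doubling. -/

set_option autoImplicit false

open Finset

namespace Pool.RF

open Pool.BK Pool.BD

open Pool.Agent.ConvTri (Plane toC ofC toC_inj dist_toC toC_ofC toC_add)

open FINAL

namespace FINALB

open scoped Pointwise

open Classical in
/-- the number of differences of points of `Q` -/
noncomputable def numDiffs (Q : Finset Plane) : ℕ := ((Q ×ˢ Q).image (fun z => z.1 - z.2)).card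

open Classical in
theorem sx_le (A : Finset ℂ) (w : ℂ) :
    SX A w ≤ A.card * ∑ z ∈ A ×ˢ A, rep A A (w * (z.2 - z.1)) := by
  have h1 : SX A w ≤ (((A ×ˢ A) ×ˢ (A ×ˢ A)).filter
      (fun z : (ℂ × ℂ) × (ℂ × ℂ) => z.2.1 + w * (z.1.2 - z.1.1) ∈ A)).card := by
    unfold SX
    apply card_le_card_of_injOn (fun z => ((z.1.1, z.1.2.1), (z.2.1, z.1.2.2)))
    · rintro ⟨⟨a, b, c⟩, ⟨a', b', c'⟩⟩ hz
      simp only [coe_filter, mem_product, Set.mem_ofPred_eq] at hz ⊢
      obtain ⟨⟨⟨ha, hb, hc⟩, ha', hb', hc'⟩, h1, h2⟩ := hz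
      refine ⟨⟨⟨ha, hb⟩, ha', hc⟩, ?_⟩
      have : a' + w * (b - a) = b' := by linear_combination h1
      rw [this]
      exact hb'
    · rintro ⟨⟨a, b, c⟩, ⟨a', b', c'⟩⟩ hz ⟨⟨d, e, f⟩, ⟨d', e', f'⟩⟩ hz2 h
      simp only [coe_filter, mem_product, Set.mem_ofPred_eq, Prod.mk.injEq] at hz hz2 h ⊢
      obtain ⟨⟨e1, e2⟩, e3, e4⟩ := h
      obtain ⟨_, h1, h2⟩ := hz
      obtain ⟨_, h3, h4⟩ := hz2
      subst e1 e2 e3 e4
      refine ⟨⟨rfl, rfl, rfl⟩, rfl, ?_, ?_⟩
      · linear_combination h3 - h1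
      · linear_combination h4 - h2
  refine h1.trans ?_
  rw [card_filter, sum_product, mul_sum]
  refine sum_le_sum fun z _ => ?_
  rw [sum_product]
  unfold rep
  rw [card_filter, mul_sum]
  refine sum_le_sum fun p _ => ?_
  simp only
  by_cases hp : p + w * (z.2 - z.1) ∈ A
  · simp [hp]
  · simp [hp]

end FINALB

open FINALB

open scoped Pointwise in
open Pool.Agent.ConvTri in
/-- **Large sets without additive structure.** -/
theorem dbl_final (hMAIN : Stmt_MAINC) (hADD : BD.Stmt_ADD) :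
    ∃ K : ℝ, 0 < K ∧ ∀ β : ℝ, 0 < β → ∃ n0 : ℕ, ∀ P P' : Finset Plane, P' ⊆ P →
    n0 ≤ P.card → 6 * (P.card - P'.card) ≤ P.card →
    (∀ Q ⊆ P', (P.card : ℝ) ≤ K * Q.card → (numDiffs Q : ℝ) ≤ K * Q.card →
      ∃ l : AffineSubspace ℝ Plane, Module.finrank ℝ l.direction = 1 ∧
        β * Q.card ≤ (((Q : Set Plane) ∩ (l : Set Plane)).ncard : ℝ)) →
    round ((P.card : ℝ) ^ 2 / 12) ≤ ((TC P).card : ℤ) ∧
    (((TC P).card : ℤ) = round ((P.card : ℝ) ^ 2 / 12) →
      ∃ c, Conc.IsRegularPolygon P.card c P) := by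
  classical
  obtain ⟨δ, hδ, hrot⟩ := rot_final hMAIN
  obtain ⟨c₁, K₁, hc₁, hK₁, hadd⟩ := hADD δ hδ
  obtain ⟨K, hKd⟩ : ∃ K : ℝ, K = 1 / c₁ + K₁ := ⟨_, rfl⟩
  have hK : 0 < K := by rw [hKd]; positivity
  refine ⟨K, hK, ?_⟩
  intro β hβ
  obtain ⟨n₁, h1⟩ := hrot (β / K) (by positivity)
  refine ⟨n₁ + 1, ?_⟩
  intro P P' hsub hn hm hQ
  refine h1 P P' hsub (by omega) hm ?_
  intro φ hφ
  by_contra hcon
  push Not at hcon
  obtain ⟨A, hA⟩ : ∃ A : Finset ℂ, A = (poorPoints (β / K) P').image toC := ⟨_, rfl⟩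
  obtain ⟨w, hw⟩ : ∃ w : ℂ, w = Complex.exp (φ * Complex.I) := ⟨_, rfl⟩
  have hw0 : w ≠ 0 := by rw [hw]; exact Complex.exp_ne_zero _
  rw [← rotCount_eq, ← hA, ← hw] at hcon
  have hn1 : 1 ≤ P.card := by omega
  have hn0 : (0 : ℝ) < P.card := by exact_mod_cast hn1
  have hAc : A.card ≤ P.card := by
    rw [hA]
    exact card_image_le.trans ((card_le_card (filter_subset _ _)).trans (card_le_card hsub))
  have hAc' : (A.card : ℝ) ≤ P.card := by exact_mod_cast hAc
  have hS : δ * (P.card : ℝ) ^ 3 ≤ ∑ z ∈ A ×ˢ A, (rep A A (w * (z.2 - z.1)) : ℝ) := by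
    have h2 : (SX A w : ℝ) ≤ A.card * ∑ z ∈ A ×ˢ A, (rep A A (w * (z.2 - z.1)) : ℝ) := by
      exact_mod_cast sx_le A w
    have h3 : (0 : ℝ) ≤ ∑ z ∈ A ×ˢ A, (rep A A (w * (z.2 - z.1)) : ℝ) := by positivity
    have h4 := mul_le_mul_of_nonneg_right hAc' h3
    have h5 : δ * (P.card : ℝ) ^ 4 < P.card * ∑ z ∈ A ×ˢ A, (rep A A (w * (z.2 - z.1)) : ℝ) := by
      linarith
    have h6 : (P.card : ℝ) * (δ * (P.card : ℝ) ^ 3) <
        P.card * ∑ z ∈ A ×ˢ A, (rep A A (w * (z.2 - z.1)) : ℝ) := by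
      calc (P.card : ℝ) * (δ * (P.card : ℝ) ^ 3) = δ * (P.card : ℝ) ^ 4 := by ring
        _ < _ := h5
    exact (lt_of_mul_lt_mul_left h6 hn0.le).le
  have hwinj : Function.Injective (fun z : ℂ => w * z) := mul_right_injective₀ hw0
  obtain ⟨A', hA'sub, hA'1, hA'2⟩ := hadd (A.image (fun z => w * z)) A P.card (by omega)
    (card_image_le.trans hAc) hAc (by
      refine hS.trans (le_of_eq ?_)
      rw [sum_product, sum_product, sum_image (fun x _ y _ h => hwinj h)]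
      refine sum_congr rfl fun x _ => ?_
      rw [sum_image (fun x _ y _ h => hwinj h)]
      refine sum_congr rfl fun y _ => ?_
      simp only
      congr 2
      ring)
  obtain ⟨Q, hQd⟩ : ∃ Q : Finset Plane, Q = (poorPoints (β / K) P').filter
      (fun p => w * toC p ∈ A') := ⟨_, rfl⟩
  have hf : Function.Injective (fun p : Plane => w * toC p) := hwinj.comp toC_inj
  have hQim : Q.image (fun p => w * toC p) = A' := by
    ext y
    constructor
    · intro hy
      obtain ⟨p, hp, rfl⟩ := mem_image.1 hy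
      rw [hQd] at hp
      exact (mem_filter.1 hp).2
    · intro hy
      obtain ⟨z, hz, rfl⟩ := mem_image.1 (hA'sub hy)
      rw [hA] at hz
      obtain ⟨p, hp, rfl⟩ := mem_image.1 hz
      refine mem_image.2 ⟨p, ?_, rfl⟩
      rw [hQd]
      exact mem_filter.2 ⟨hp, hy⟩
  have hQc : Q.card = A'.card := by rw [← hQim, card_image_of_injective _ hf]
  have hQdf : numDiffs Q ≤ (A' - A').card := by
    unfold numDiffs
    apply card_le_card_of_injOn (fun v => w * toC v)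
    · intro v hv
      obtain ⟨⟨p, q⟩, hz, rfl⟩ := mem_image.1 (mem_coe.1 hv)
      obtain ⟨hp, hq⟩ := mem_product.1 hz
      have e : w * toC (p - q) = w * toC p - w * toC q := by rw [toC_sub]; ring
      show w * toC (p - q) ∈ _
      rw [e]
      exact mem_coe.2 (sub_mem_sub (hQim ▸ mem_image_of_mem _ hp) (hQim ▸ mem_image_of_mem _ hq))
    · intro v _ v' _ h
      exact hf h
  have hQP : Q ⊆ P' := by
    rw [hQd]
    exact (filter_subset _ _).trans (filter_subset _ _)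
  have hQn : (P.card : ℝ) ≤ K * Q.card := by
    rw [hQc, hKd]
    have h7 : (P.card : ℝ) ≤ 1 / c₁ * A'.card := by
      rw [one_div, inv_mul_eq_div, le_div_iff₀ hc₁]
      linarith
    nlinarith [(Nat.cast_nonneg A'.card : (0 : ℝ) ≤ A'.card)]
  have hQ0 : (0 : ℝ) < Q.card := by
    by_contra h0
    push Not at h0
    nlinarith
  have hQ2 : (numDiffs Q : ℝ) ≤ K * Q.card := by
    have h7 : (numDiffs Q : ℝ) ≤ ((A' - A').card : ℝ) := by exact_mod_cast hQdf
    rw [hQc, hKd]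
    have h8 : 0 < 1 / c₁ := by positivity
    nlinarith [(Nat.cast_nonneg A'.card : (0 : ℝ) ≤ A'.card)]
  obtain ⟨l, hl, hlc⟩ := hQ Q hQP hQn hQ2
  have hpos : 0 < (((Q : Set Plane) ∩ (l : Set Plane)).ncard : ℝ) := lt_of_lt_of_le (by positivity) hlc
  have hne : ((Q : Set Plane) ∩ (l : Set Plane)).Nonempty := by
    rw [← Set.ncard_pos (Q.finite_toSet.inter_of_left _)]
    exact_mod_cast hpos
  obtain ⟨p, hpQ, hpl⟩ := hne
  have hpp : p ∈ poorPoints (β / K) P' := by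
    rw [hQd] at hpQ
    exact (mem_filter.1 (mem_coe.1 hpQ)).1
  have h9 := (mem_filter.1 hpp).2 l hl hpl
  have h10 : (((Q : Set Plane) ∩ (l : Set Plane)).ncard : ℝ) ≤
      (((P' : Set Plane) ∩ (l : Set Plane)).ncard : ℝ) := by
    exact_mod_cast Set.ncard_le_ncard (Set.inter_subset_inter_left _ (coe_subset.2 hQP))
      (P'.finite_toSet.inter_of_left _)
  have h11 : (P'.card : ℝ) ≤ P.card := by exact_mod_cast card_le_card hsub
  have h12 : β / K * P'.card ≤ β * Q.card := by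
    calc β / K * P'.card ≤ β / K * P.card := mul_le_mul_of_nonneg_left h11 (by positivity)
      _ ≤ β / K * (K * Q.card) := mul_le_mul_of_nonneg_left hQn (by positivity)
      _ = β * Q.card := by field_simp
  linarith

end Pool.RF
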