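import Pool.Agent.Work.MP_dc37f8_rf.FINALB

/-! FINALC: sets whose rich lines have few directions. -/

set_option autoImplicit false

open Finset

namespace Pool.RF

open Pool.BK Pool.BD

open Pool.Agent.ConvTri (Plane toC ofC toC_inj dist_toC toC_ofC toC_add)

open FINAL FINALB

open scoped Pointwise in
open Pool.Agent.ConvTri in
/-- **Sets with few rich directions.** -/
theorem dirs_final' (hMAIN : Stmt_MAINC) (hADD : BD.Stmt_ADD) (hLIN : BD.Stmt_LIN) (k : ℕ) :
    ∃ n0 : ℕ, ∀ P P' : Finset Plane, P' ⊆ P → FIN.FewRichDirections k P' →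
    n0 ≤ P.card → 6 * (P.card - P'.card) ≤ P.card →
    round ((P.card : ℝ) ^ 2 / 12) ≤ ((TC P).card : ℤ) ∧
    (((TC P).card : ℤ) = round ((P.card : ℝ) ^ 2 / 12) →
      ∃ c, Conc.IsRegularPolygon P.card c P) := by
  classical
  obtain ⟨K, hK, h⟩ := dbl_final hMAIN hADD
  obtain ⟨J, hJ⟩ := hLIN K k
  obtain ⟨n0, h0⟩ := h (1 / (J + 1)) (by positivity)
  refine ⟨n0, ?_⟩
  intro P P' hsub hP' hn hm
  refine h0 P P' hsub hn hm ?_
  intro Q hQ hQ1 hQ2
  have hQF : FIN.FewRichDirections k Q := by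
    obtain ⟨D, hD, hl⟩ := hP'
    refine ⟨D, hD, fun l hl1 hl2 => hl l hl1 (lt_of_lt_of_le hl2 ?_)⟩
    exact Set.ncard_le_ncard (Set.inter_subset_inter_left _ (coe_subset.2 hQ))
      (P'.finite_toSet.inter_of_left _)
  have hcard : (Q.image toC).card = Q.card := card_image_of_injective _ toC_inj
  have hd : ((Q.image toC - Q.image toC).card : ℝ) ≤ K * (Q.image toC).card := by
    rw [hcard]
    refine le_trans ?_ hQ2
    unfold numDiffs
    have hs : (Q.image toC - Q.image toC) ⊆
        ((Q ×ˢ Q).image (fun z : Plane × Plane => z.1 - z.2)).image toC := by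
      intro y hy
      obtain ⟨a, ha, b, hb, rfl⟩ := mem_sub.1 hy
      obtain ⟨p, hp, rfl⟩ := mem_image.1 ha
      obtain ⟨q, hq, rfl⟩ := mem_image.1 hb
      exact mem_image.2 ⟨p - q, mem_image.2 ⟨(p, q), mem_product.2 ⟨hp, hq⟩, rfl⟩, toC_sub p q⟩
    exact_mod_cast (card_le_card hs).trans card_image_le
  obtain ⟨𝓛, hL1, hL2, hL3⟩ := hJ (Q.image toC) hd (FIN.toDB hQF)
  have hQ0 : 0 < Q.card ∨ Q.card = 0 := by omega
  -- a line with many points
  have hcov : Q.card ≤ ∑ l ∈ 𝓛, (Q.filter (fun q => On l (toC q))).card := by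
    have : Q ⊆ 𝓛.biUnion (fun l => Q.filter (fun q => On l (toC q))) := by
      intro q hq
      obtain ⟨l, hl, hql⟩ := hL3 (toC q) (mem_image_of_mem _ hq)
      exact mem_biUnion.2 ⟨l, hl, mem_filter.2 ⟨hq, hql⟩⟩
    exact (card_le_card this).trans card_biUnion_le
  have hex : ∃ l : ℂ × ℂ, l.2 ≠ 0 ∧
      1 / ((J : ℝ) + 1) * Q.card ≤ ((Q.filter (fun q => On l (toC q))).card : ℝ) := by
    by_contra hcon
    push Not at hcon
    rcases Nat.eq_zero_or_pos Q.card with h1 | h1
    · have := hcon (0, 1) (by simp)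
      rw [h1] at this
      have h2 : (0 : ℝ) ≤ ((Q.filter (fun q => On (0, 1) (toC q))).card : ℝ) := by positivity
      simp at this
      linarith
    · have h2 : (Q.card : ℝ) ≤ ∑ l ∈ 𝓛, ((Q.filter (fun q => On l (toC q))).card : ℝ) := by
        exact_mod_cast hcov
      have h3 : ∑ l ∈ 𝓛, ((Q.filter (fun q => On l (toC q))).card : ℝ) ≤
          ∑ l ∈ 𝓛, 1 / ((J : ℝ) + 1) * Q.card :=
        sum_le_sum fun l hl => (hcon l (hL2 l hl)).le
      rw [sum_const, nsmul_eq_mul] at h3
      have h4 : (𝓛.card : ℝ) ≤ J := by exact_mod_cast hL1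
      have h5 : (0 : ℝ) < Q.card := by exact_mod_cast h1
      have h6 : (𝓛.card : ℝ) * (1 / ((J : ℝ) + 1) * Q.card) ≤ J * (1 / ((J : ℝ) + 1) * Q.card) :=
        mul_le_mul_of_nonneg_right h4 (by positivity)
      have h7 : (J : ℝ) * (1 / ((J : ℝ) + 1) * Q.card) < Q.card := by
        have h8 : (J : ℝ) * (1 / ((J : ℝ) + 1)) < 1 := by
          rw [mul_one_div, div_lt_one (by positivity)]
          linarith
        nlinarith
      linarith
  obtain ⟨⟨p, v⟩, hv, hpv⟩ := hex
  have hv0 : ofC v ≠ 0 := by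
    intro h0
    apply hv
    show v = 0
    rw [← toC_ofC v, h0]
    apply Complex.ext <;> simp [toC]
  refine ⟨AffineSubspace.mk' (ofC p) (Submodule.span ℝ {ofC v}), ?_, ?_⟩
  · rw [AffineSubspace.direction_mk']
    exact finrank_span_singleton hv0
  · refine hpv.trans ?_
    have h3 : ((Q : Set Plane) ∩
        (AffineSubspace.mk' (ofC p) (Submodule.span ℝ {ofC v}) : Set Plane)).ncard =
        (Q.filter (fun q => q ∈ AffineSubspace.mk' (ofC p) (Submodule.span ℝ {ofC v}))).card := by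
      rw [← Set.ncard_coe_finset]
      congr 1
      ext q
      simp
    rw [h3]
    have hs : Q.filter (fun q => On (p, v) (toC q)) ⊆
        Q.filter (fun q => q ∈ AffineSubspace.mk' (ofC p) (Submodule.span ℝ {ofC v})) := by
      intro q hq
      obtain ⟨hqQ, s, hs⟩ := mem_filter.1 hq
      refine mem_filter.2 ⟨hqQ, ?_⟩
      rw [AffineSubspace.mem_mk', Submodule.mem_span_singleton]
      refine ⟨s, ?_⟩
      apply toC_inj
      rw [FIN.toC_smul, toC_ofC]
      have e : toC (q -ᵥ ofC p) = toC q - p := by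
        have := toC_sub q (ofC p)
        rw [toC_ofC] at this
        exact this
      rw [e]
      have hs' : toC q = p + s * v := hs
      rw [hs']
      ring
    exact_mod_cast card_le_card hs

end Pool.RF
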