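import Pool.Agent.Work.MP_dc37f8_rf.FINALB

/-! FINALQ: the version with quadruples. -/

set_option autoImplicit false

open Finset

namespace Pool.RF

open Pool.BK Pool.BD

open Pool.Agent.ConvTri (Plane toC ofC toC_inj dist_toC toC_ofC toC_add)

open FINAL

namespace FINALQ

open Classical in
/-- the number of quadruples `(a, b, c, d)` with `c - d = rot φ (a - b)` -/
noncomputable def rotEnergy (Q : Finset Plane) (φ : ℝ) : ℕ :=
  ((Q ×ˢ Q ×ˢ Q ×ˢ Q).filter (fun z => z.2.2.1 - z.2.2.2 = rot φ (z.1 - z.2.1))).card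

open Classical in
theorem count_le (Q : Finset Plane) (φ : ℝ) : rotCount Q φ ≤ Q.card * rotEnergy Q φ := by
  unfold rotCount rotEnergy
  rw [← card_product]
  apply card_le_card_of_injOn (fun z => (z.1.2.2, (z.1.1, z.1.2.1, z.2.1, z.2.2.1)))
  · rintro ⟨⟨a, b, c⟩, ⟨a', b', c'⟩⟩ hz
    simp only [coe_filter, mem_product, Set.mem_ofPred_eq, coe_product, Set.mem_prod,
      mem_coe] at hz ⊢
    obtain ⟨⟨⟨ha, hb, hc⟩, ha', hb', hc'⟩, h1, h2⟩ := hz
    exact ⟨hc, ⟨ha, hb, ha', hb'⟩, h1⟩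
  · rintro ⟨⟨a, b, c⟩, ⟨a', b', c'⟩⟩ hz ⟨⟨d, e, f⟩, ⟨d', e', f'⟩⟩ hz2 h
    simp only [coe_filter, mem_product, Set.mem_ofPred_eq, Prod.mk.injEq] at hz hz2 h ⊢
    obtain ⟨e1, e2, e3, e4, e5⟩ := h
    obtain ⟨_, h1, h2⟩ := hz
    obtain ⟨_, h3, h4⟩ := hz2
    subst e1 e2 e3 e4 e5
    refine ⟨⟨rfl, rfl, rfl⟩, rfl, rfl, ?_⟩
    rw [← h4] at h2
    exact sub_right_injective h2

end FINALQ

open FINALQ

open Pool.Agent.ConvTri in
/-- **Large sets without a popular rotation**, quadruples. -/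
theorem quad_final (hMAIN : Stmt_MAINC) :
    ∃ δ : ℝ, 0 < δ ∧ ∀ β : ℝ, 0 < β → ∃ n0 : ℕ, ∀ P P' : Finset Plane, P' ⊆ P →
    n0 ≤ P.card → 6 * (P.card - P'.card) ≤ P.card →
    (∀ φ : ℝ, Real.sin φ ≠ 0 →
      (rotEnergy (poorPoints β P') φ : ℝ) ≤ δ * (P.card : ℝ) ^ 3) →
    round ((P.card : ℝ) ^ 2 / 12) ≤ ((TC P).card : ℤ) ∧
    (((TC P).card : ℤ) = round ((P.card : ℝ) ^ 2 / 12) →
      ∃ c, Conc.IsRegularPolygon P.card c P) := by
  classical
  obtain ⟨δ, hδ, h⟩ := rot_final hMAIN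
  refine ⟨δ, hδ, ?_⟩
  intro β hβ
  obtain ⟨n0, h0⟩ := h β hβ
  refine ⟨n0, ?_⟩
  intro P P' hsub hn hm hrot
  refine h0 P P' hsub hn hm ?_
  intro φ hφ
  have h1 : (rotCount (poorPoints β P') φ : ℝ) ≤
      (poorPoints β P').card * rotEnergy (poorPoints β P') φ := by
    exact_mod_cast count_le _ φ
  have h2 : ((poorPoints β P').card : ℝ) ≤ P.card := by
    exact_mod_cast (card_le_card (filter_subset _ _)).trans (card_le_card hsub)
  calc (rotCount (poorPoints β P') φ : ℝ) ≤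
        (poorPoints β P').card * rotEnergy (poorPoints β P') φ := h1
    _ ≤ P.card * (δ * (P.card : ℝ) ^ 3) :=
        mul_le_mul h2 (hrot φ hφ) (by positivity) (by positivity)
    _ = δ * (P.card : ℝ) ^ 4 := by ring

end Pool.RF
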