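import Pool.Agent.Work.MP_dc37f8_bd.Interface

/-!
# MP_dc37f8_co: large sets without a lattice-like rotation (helper36)

The statements of the blocks of parts A (incidences, the tail) and B (the structure of rich
motions). Proofs on paper: BLUEPRINT.md. Part C is in InterfaceC.lean.
-/

set_option autoImplicit false

open Finset

namespace Pool.RF

open Pool.BK Pool.BD

/-! ### Part A1: bisecting vectors and polynomials -/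

open Classical in
/-- GEN: vectors in general position can be bisected -/
def Stmt_GEN : Prop :=
  ∀ (ι κ : Type) [Fintype ι] [Fintype κ] (c : ι → κ) (D : ℕ) (u : ι → Fin D → ℝ),
    D = 1 + ∑ j : κ, min 5 ((univ.filter (fun x => c x = j)).card) →
    (∀ T : Finset ι, T.card = D → LinearIndependent ℝ (fun x : T => u x)) →
    ∃ p : Fin D → ℝ, p ≠ 0 ∧
      (((univ : Finset (ι × ι)).filter
        (fun z => c z.1 = c z.2 ∧ 0 < (u z.1 ⬝ᵥ p) * (u z.2 ⬝ᵥ p))).card : ℝ) ≤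
      4 / 7 * ((univ : Finset (ι × ι)).filter (fun z => c z.1 = c z.2)).card + Fintype.card ι

open Classical in
/-- BIS: all vectors can be bisected (from GEN) -/
def Stmt_BIS : Prop :=
  ∀ (ι κ : Type) [Fintype ι] [Fintype κ] (c : ι → κ) (D : ℕ) (u : ι → Fin D → ℝ),
    1 + ∑ j : κ, min 5 ((univ.filter (fun x => c x = j)).card) ≤ D →
    ∃ p : Fin D → ℝ, p ≠ 0 ∧
      (((univ : Finset (ι × ι)).filter
        (fun z => c z.1 = c z.2 ∧ 0 < (u z.1 ⬝ᵥ p) * (u z.2 ⬝ᵥ p))).card : ℝ) ≤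
      4 / 7 * ((univ : Finset (ι × ι)).filter (fun z => c z.1 = c z.2)).card + Fintype.card ι

open Classical in
/-- HS: a polynomial of small degree which bisects `N` classes (from BIS) -/
def Stmt_HS : Prop :=
  ∀ (m e N : ℕ) (R : Finset (Fin m → ℝ)) (c : (Fin m → ℝ) → ℕ), 1 ≤ m →
    (∀ x ∈ R, c x < N) → 5 * N + 1 ≤ e ^ m →
    ∃ p : MvPolynomial (Fin m) ℝ, p ≠ 0 ∧ p.totalDegree ≤ m * e ∧
      (((R ×ˢ R).filter (fun z => c z.1 = c z.2 ∧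
        0 < MvPolynomial.eval z.1 p * MvPolynomial.eval z.2 p)).card : ℝ) ≤
      4 / 7 * ((R ×ˢ R).filter (fun z => c z.1 = c z.2)).card + R.card

open Classical in
/-- PART: partitioning by polynomials (from HS) -/
def Stmt_PART : Prop :=
  ∀ (m i : ℕ) (R : Finset (Fin m → ℝ)), 2 ≤ m →
    ∃ F : Fin (m * i) → MvPolynomial (Fin m) ℝ, (∀ j, F j ≠ 0) ∧
      ∑ j, (F j).totalDegree ≤ 4 * m ^ 2 * 2 ^ i ∧
      (((R ×ˢ R).filter (fun z => ∀ j,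
        0 < MvPolynomial.eval z.1 (F j) * MvPolynomial.eval z.2 (F j))).card : ℝ) ≤
      (4 / 7) ^ (m * i) * (R.card : ℝ) ^ 2 + 7 / 3 * R.card

/-! ### Part A2: incidences -/

/-- the point `x` is on the line `l.1 + ℝ l.2` of `ℝ^m` -/
def OnM {m : ℕ} (l : (Fin m → ℝ) × (Fin m → ℝ)) (x : Fin m → ℝ) : Prop :=
  ∃ s : ℝ, x = l.1 + s • l.2

/-- a family of lines of `ℝ^m`; two of them have at most one common point -/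
def LF {m : ℕ} (𝓛 : Finset ((Fin m → ℝ) × (Fin m → ℝ))) : Prop :=
  (∀ l ∈ 𝓛, l.2 ≠ 0) ∧ ∀ l ∈ 𝓛, ∀ l' ∈ 𝓛, l ≠ l' → ∀ x y : Fin m → ℝ,
    OnM l x → OnM l y → OnM l' x → OnM l' y → x = y

open Classical in
/-- the lines of `𝓛` through `x` -/
noncomputable def thr {m : ℕ} (𝓛 : Finset ((Fin m → ℝ) × (Fin m → ℝ))) (x : Fin m → ℝ) :
    Finset ((Fin m → ℝ) × (Fin m → ℝ)) := 𝓛.filter (fun l => OnM l x)

/-- each point of `R` is on at least `k` lines, and every half of the lines through a point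
contains `m` lines with independent directions -/
def JT {m : ℕ} (k : ℕ) (R : Finset (Fin m → ℝ)) (𝓛 : Finset ((Fin m → ℝ) × (Fin m → ℝ))) : Prop :=
  ∀ x ∈ R, k ≤ (thr 𝓛 x).card ∧
    ∀ 𝓜 ⊆ thr 𝓛 x, (thr 𝓛 x).card ≤ 2 * 𝓜.card →
      ∃ b : Fin m → (Fin m → ℝ) × (Fin m → ℝ), (∀ i, b i ∈ 𝓜) ∧
        LinearIndependent ℝ (fun i => (b i).2)

open Classical in
/-- CELL: a line meets few cells -/
def Stmt_CELL : Prop :=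
  ∀ (m J : ℕ) (F : Fin J → MvPolynomial (Fin m) ℝ) (l : (Fin m → ℝ) × (Fin m → ℝ))
    (S : Finset (Fin m → ℝ)), (∀ x ∈ S, OnM l x ∧ ∀ j, MvPolynomial.eval x (F j) ≠ 0) →
    (S.image (fun x j => SignType.sign (MvPolynomial.eval x (F j)))).card ≤
      1 + ∑ j, (F j).totalDegree

open Classical in
/-- PRUNE: removing the points with few rich lines -/
def Stmt_PRUNE : Prop :=
  ∀ (α β : Type) (R : Finset α) (𝓛 : Finset β) (I : α → Finset β) (k D : ℕ),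
    (∀ x ∈ R, I x ⊆ 𝓛 ∧ k ≤ (I x).card) → 2 * (𝓛.card * D) < k * R.card →
    ∃ S ⊆ R, S.Nonempty ∧ ∀ x ∈ S,
      (I x).card ≤ 2 * ((I x).filter (fun l => D < (S.filter (fun y => l ∈ I y)).card)).card

open Classical in
/-- VAN: a polynomial of degree at most `D` cannot vanish on `R` if each point of `R` is on `m`
independent lines with more than `D` points of `R` -/
def Stmt_VAN : Prop :=
  ∀ (m D : ℕ) (R : Finset (Fin m → ℝ)) (P : MvPolynomial (Fin m) ℝ), P ≠ 0 →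
    P.totalDegree ≤ D → R.Nonempty → (∀ x ∈ R, MvPolynomial.eval x P = 0) →
    ¬ (∀ x ∈ R, ∃ b : Fin m → Fin m → ℝ, LinearIndependent ℝ b ∧
      ∀ i, D < (R.filter (fun y => ∃ s : ℝ, y = x + s • b i)).card)

/-- INCX: incidences (from PART, CELL, PRUNE, VAN) -/
def Stmt_INCX : Prop :=
  ∀ (m i k : ℕ) (R : Finset (Fin m → ℝ)) (𝓛 : Finset ((Fin m → ℝ) × (Fin m → ℝ))),
    2 ≤ m → 28 ≤ k → LF 𝓛 → JT k R 𝓛 → 6 * (4 / 7 : ℝ) ^ (m * i) * R.card ≤ k →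
    (k : ℝ) * R.card ≤ 4 * 𝓛.card * (1 + 4 * m ^ 2 * 2 ^ i)

/-- INC2: incidences in the plane (from INCX) -/
def Stmt_INC2 : Prop :=
  ∃ C : ℝ, 0 < C ∧ ∀ (k : ℕ) (R : Finset (Fin 2 → ℝ))
    (𝓛 : Finset ((Fin 2 → ℝ) × (Fin 2 → ℝ))), 28 ≤ k → LF 𝓛 → JT k R 𝓛 →
    (R.card : ℝ) * (k : ℝ) ^ 5 ≤ C * ((𝓛.card : ℝ) ^ 3 + 𝓛.card * (k : ℝ) ^ 4)

/-- INC3: incidences in space (from INCX) -/
def Stmt_INC3 : Prop :=
  ∃ C : ℝ, 0 < C ∧ ∀ (k : ℕ) (R : Finset (Fin 3 → ℝ))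
    (𝓛 : Finset ((Fin 3 → ℝ) × (Fin 3 → ℝ))), 28 ≤ k → LF 𝓛 → JT k R 𝓛 →
    (R.card : ℝ) ^ 5 * (k : ℝ) ^ 13 ≤ C * ((𝓛.card : ℝ) ^ 9 + (𝓛.card : ℝ) ^ 5 * (k : ℝ) ^ 8)

/-! ### Part A3: the tail -/

open Classical in
/-- UD: few pairs of points at a given distance -/
def Stmt_UD : Prop :=
  ∀ (P : Finset ℂ) (d : ℝ), 0 < d →
    (((P ×ˢ P).filter (fun z => dist z.1 z.2 = d)).card : ℝ) ≤
      3 * P.card * Real.sqrt P.card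

/-- `g` is half-collinear: at least half of the points which stay in `P` are on a line -/
def HC (P : Finset ℂ) (g : Gp) : Prop :=
  ∃ l : ℂ × ℂ, l.2 ≠ 0 ∧ (st P g).card ≤ 2 * (pts (st P g) l).card

/-- NCB: few rich isometries which are not half-collinear (from INC3) -/
def Stmt_NCB : Prop :=
  ∃ C : ℝ, 0 < C ∧ ∀ (P : Finset ℂ) (k : ℕ) (𝒢 : Finset Gp), 28 ≤ k →
    (∀ g ∈ 𝒢, IsDir g ∧ ¬ IsTr g ∧ k ≤ (st P g).card ∧ ¬ HC P g) →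
    (𝒢.card : ℝ) ^ 5 * (k : ℝ) ^ 13 ≤ C * (P.card : ℝ) ^ 18

/-- NCT: the third moment over the isometries which are not half-collinear (from NCB) -/
def Stmt_NCT : Prop :=
  ∀ η : ℝ, 0 < η → ∃ δ : ℝ, 0 < δ ∧ ∀ (P : Finset ℂ) (𝒢 : Finset Gp),
    (∀ g ∈ 𝒢, IsDir g ∧ ¬ IsTr g ∧ 28 ≤ (st P g).card ∧ ¬ HC P g ∧
      ((st P g).card : ℝ) ≤ δ * P.card) →
    ∑ g ∈ 𝒢, ((st P g).card : ℝ) ^ 3 ≤ η * (P.card : ℝ) ^ 4

open Classical in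
/-- LCOUNT: few rich lines (from INC2) -/
def Stmt_LCOUNT : Prop :=
  ∃ C : ℝ, 0 < C ∧ ∀ (P : Finset ℂ) (k : ℕ) (𝓝 : Finset (ℂ × ℂ)), 28 ≤ k →
    (∀ l ∈ 𝓝, l.2 ≠ 0 ∧ k ≤ (pts P l).card) →
    (∀ l ∈ 𝓝, ∀ l' ∈ 𝓝, l ≠ l' → (pts P l ∩ pts P l').card ≤ 1) →
    (𝓝.card : ℝ) * (k : ℝ) ^ 5 ≤ C * ((P.card : ℝ) ^ 3 + P.card * (k : ℝ) ^ 4)

open Classical in
/-- CT3: few collinear triples on poor lines (from LCOUNT) -/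
def Stmt_CT3 : Prop :=
  ∀ ε : ℝ, 0 < ε → ∃ n₀ : ℕ, ∀ P : Finset ℂ, n₀ ≤ P.card →
    ∃ K : ℕ, 4 * P.card ≤ K ^ 2 ∧
      (((P ×ˢ P ×ˢ P).filter (fun z => z.1 ≠ z.2.1 ∧ On (z.1, z.2.1 - z.1) z.2.2 ∧
        (pts P (z.1, z.2.1 - z.1)).card < K)).card : ℝ) ≤
      ε * (P.card : ℝ) ^ 2 * Real.sqrt P.card

open Classical in
/-- RICHL: the number of points on very rich lines, with multiplicity -/
def Stmt_RICHL : Prop :=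
  ∀ (P : Finset ℂ) (K : ℕ) (𝓝 : Finset (ℂ × ℂ)), 4 * P.card ≤ K ^ 2 →
    (∀ l ∈ 𝓝, l.2 ≠ 0 ∧ K ≤ (pts P l).card) →
    (∀ l ∈ 𝓝, ∀ l' ∈ 𝓝, l ≠ l' → (pts P l ∩ pts P l').card ≤ 1) →
    ∑ l ∈ 𝓝, (pts P l).card ≤ 2 * P.card

/-- RR: isometries which map a rich line to a rich line (from RICHL) -/
def Stmt_RR : Prop :=
  ∀ (P : Finset ℂ) (K : ℕ) (𝒢 : Finset Gp) (L : Gp → ℂ × ℂ), 4 * P.card ≤ K ^ 2 →
    (∀ g ∈ 𝒢, IsDir g ∧ (L g).2 ≠ 0 ∧ K ≤ (pts P (L g)).card ∧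
      K ≤ (pts P (g (L g).1, g ((L g).1 + (L g).2) - g (L g).1)).card) →
    ∑ g ∈ 𝒢, (pts (st P g) (L g)).card ≤ 8 * P.card ^ 2

/-- HCP: the third moment over half-collinear isometries (from CT3, UD, RR) -/
def Stmt_HCP : Prop :=
  ∀ ε : ℝ, 0 < ε → ∃ n₀ : ℕ, ∀ (P : Finset ℂ) (δ : ℝ) (𝒢 : Finset Gp), n₀ ≤ P.card → 0 ≤ δ →
    (∀ g ∈ 𝒢, IsDir g ∧ HC P g ∧ 8 ≤ (st P g).card ∧ ((st P g).card : ℝ) ≤ δ * P.card) →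
    ∑ g ∈ 𝒢, ((st P g).card : ℝ) ^ 3 ≤ (ε + 16 * δ ^ 2) * (P.card : ℝ) ^ 4

/-- RBHC: few rich half-collinear isometries (from RR) -/
def Stmt_RBHC : Prop :=
  ∀ δ : ℝ, 0 < δ → ∃ n₀ : ℕ, ∀ (P : Finset ℂ) (𝒢 : Finset Gp), n₀ ≤ P.card →
    (∀ g ∈ 𝒢, IsDir g ∧ HC P g ∧ δ * P.card ≤ ((st P g).card : ℝ)) →
    δ * (𝒢.card : ℝ) ≤ 16 * P.card

/-- TAIL: poor isometries are negligible (from NCT, HCP, UD) -/
def Stmt_TAIL : Prop :=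
  ∀ η : ℝ, 0 < η → ∃ (δ : ℝ) (n₀ : ℕ), 0 < δ ∧ ∀ (P : Finset ℂ) (𝒢 : Finset Gp),
    n₀ ≤ P.card →
    (∀ g ∈ 𝒢, IsDir g ∧ 2 ≤ (st P g).card ∧ ((st P g).card : ℝ) ≤ δ * P.card) →
    ∑ g ∈ 𝒢, ((st P g).card : ℝ) ^ 3 ≤ η * (P.card : ℝ) ^ 4

/-- RB: the number of rich direct isometries (from NCB, RBHC) -/
def Stmt_RB : Prop :=
  ∀ δ : ℝ, 0 < δ → ∃ (C : ℝ) (n₀ : ℕ), 0 < C ∧ ∀ (P : Finset ℂ) (𝒢 : Finset Gp),
    n₀ ≤ P.card → (∀ g ∈ 𝒢, IsDir g ∧ δ * P.card ≤ ((st P g).card : ℝ)) →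
    (𝒢.card : ℝ) ≤ C * P.card

/-! ### Part B: the structure of the rich motions -/

open Classical in
/-- QUO: many quotients of rich isometries are rich (from RB, GEO) -/
def Stmt_QUO : Prop :=
  ∀ (δ ε : ℝ), 0 < δ → 0 < ε → ∃ (K : ℝ) (n₀ : ℕ), 0 < K ∧
    ∀ (P : Finset ℂ), n₀ ≤ P.card → ∀ 𝒢 : Finset Gp, (∀ g ∈ 𝒢, IsDir g) →
      (∀ g ∈ 𝒢, δ * P.card ≤ ((st P g).card : ℝ)) → ε * P.card ≤ (𝒢.card : ℝ) →
      ∃ U : Finset Gp, (U.card : ℝ) ≤ K * 𝒢.card ∧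
        δ ^ 2 / 2 * (𝒢.card : ℝ) ^ 2 ≤ ((𝒢 ×ˢ 𝒢).filter (fun z => z.1 * z.2⁻¹ ∈ U)).card

open Classical in
/-- STR: rich isometries have a common pair of centres or a common linear part
(from QUO, Pool.BK.Stmt_BSG, Pool.BK.Stmt_POP, Pool.BD.Stmt_CORE, GEO) -/
def Stmt_STR : Prop :=
  ∀ (δ ε : ℝ), 0 < δ → 0 < ε → ∃ (ε' : ℝ) (n₀ : ℕ), 0 < ε' ∧
    ∀ (P : Finset ℂ), n₀ ≤ P.card → ∀ 𝒢 : Finset Gp, (∀ g ∈ 𝒢, IsDir g) →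
      (∀ g ∈ 𝒢, δ * P.card ≤ ((st P g).card : ℝ)) → ε * P.card ≤ (𝒢.card : ℝ) →
      (∃ c c' : ℂ, ε' * P.card ≤ ((𝒢.filter (fun g => g c = c')).card : ℝ)) ∨
      (∃ h ∈ 𝒢, ε' * P.card ≤ ((𝒢.filter (fun g => IsTr (g * h⁻¹))).card : ℝ))

open Classical in
/-- SEL: boundedly many pairs of centres and linear parts (from STR, RB) -/
def Stmt_SEL : Prop :=
  ∀ (δ ε : ℝ), 0 < δ → 0 < ε → ∃ (L n₀ : ℕ),
    ∀ (P : Finset ℂ), n₀ ≤ P.card → ∀ 𝒢 : Finset Gp, (∀ g ∈ 𝒢, IsDir g) →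
      (∀ g ∈ 𝒢, δ * P.card ≤ ((st P g).card : ℝ)) →
      ∃ (𝒬 : Finset (ℂ × ℂ)) (𝒲 : Finset Gp), 𝒬.card ≤ L ∧ 𝒲.card ≤ L ∧ (∀ h ∈ 𝒲, IsDir h) ∧
        ((𝒢.filter (fun g => (∀ z ∈ 𝒬, g z.1 ≠ z.2) ∧ ∀ h ∈ 𝒲, ¬ IsTr (g * h⁻¹))).card : ℝ) ≤
          ε * P.card

end Pool.RF
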