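import Pool.Agent.Work.MP_dc37f8_rf.InterfaceC

/-! MAINC: a large circle. -/

set_option autoImplicit false

open Finset

namespace Pool.RF

open Pool.BK Pool.BD

namespace MAINC

open Classical in
theorem lam_anti (P : Finset ℂ) {β β' : ℝ} (h : β' ≤ β) : Lam P β ⊆ Lam P β' := by
  intro p hp
  obtain ⟨hp1, v, hv, h1⟩ := mem_filter.1 hp
  refine mem_filter.2 ⟨hp1, v, hv, le_trans ?_ h1⟩
  exact mul_le_mul_of_nonneg_right h (by positivity)

open Classical in
theorem sx_mono {Q Q' : Finset ℂ} (h : Q ⊆ Q') (w : ℂ) : SX Q w ≤ SX Q' w := by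
  apply card_le_card
  apply filter_subset_filter
  exact product_subset_product (product_subset_product h (product_subset_product h h))
    (product_subset_product h (product_subset_product h h))

/-- pigeonhole for an increasing sequence of sets -/
theorem pig {α : Type*} [DecidableEq α] (P : Finset α) (F : ℕ → Finset α) (hF : ∀ j, F j ⊆ F (j + 1))
    (hP : ∀ j, F j ⊆ P) (N : ℕ) (hN : 0 < N) : ∃ j < N, N * (F (j + 1) \ F j).card ≤ P.card := by
  by_contra hcon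
  push Not at hcon
  have h1 : ∀ m ≤ N, ∑ j ∈ range m, (F (j + 1) \ F j).card ≤ (F m).card := by
    intro m
    induction m with
    | zero => intro _; simp
    | succ m ih =>
        intro hm
        rw [sum_range_succ]
        have h2 : (F (m + 1) \ F m).card + (F m).card = (F (m + 1)).card :=
          card_sdiff_add_card_eq_card (hF m)
        have h3 := ih (by omega)
        omega
  have h2 := (h1 N le_rfl).trans (card_le_card (hP N))
  have h3 : ∀ j ∈ range N, P.card < N * (F (j + 1) \ F j).card := fun j hj => hcon j (mem_range.1 hj)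
  have h4 : ∑ j ∈ range N, (P.card + 1) ≤ ∑ j ∈ range N, N * (F (j + 1) \ F j).card :=
    sum_le_sum fun j hj => h3 j hj
  rw [← mul_sum, sum_const, card_range, smul_eq_mul] at h4
  have h5 := Nat.le_of_mul_le_mul_left h4 hN
  omega

end MAINC

open MAINC

set_option maxHeartbeats 4000000 in
open Classical in
theorem stmt_MAINC (hW : Stmt_WCSD) (hN : Stmt_NSUM) (hM : Stmt_MIXD) (hA : Stmt_CASEA)
    (hT : Stmt_CASET) (hB : Stmt_NEGB) (hC : Stmt_NEGC) : Stmt_MAINC := by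
  obtain ⟨δ, L, n₁, hδ, hN⟩ := hN
  refine ⟨1 / (10 ^ 8 * (L + 1)), by positivity, ?_⟩
  intro β hβ
  have hrr0 : 0 < rr L := by unfold rr; positivity
  have hrr1 : rr L ≤ 1 := by
    unfold rr
    rw [div_le_one (by positivity)]
    have : (1 : ℝ) ≤ ((L : ℝ) + 1) ^ 2 := by nlinarith [(Nat.cast_nonneg L : (0 : ℝ) ≤ L)]
    nlinarith
  obtain ⟨B, hBd⟩ : ∃ B : ℕ → ℝ, B = fun j => β * rr L ^ j := ⟨_, rfl⟩
  have hB0 : ∀ j, 0 < B j := fun j => by rw [hBd]; positivity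
  have hBs : ∀ j, B (j + 1) = rr L * B j := fun j => by rw [hBd]; ring
  have hBle : ∀ j, B (j + 1) ≤ B j := fun j => by rw [hBs]; nlinarith [hB0 j]
  have hBle0 : ∀ j, B j ≤ β := by
    intro j
    induction j with
    | zero => rw [hBd]; simp
    | succ j ih => exact (hBle j).trans ih
  have h2 : ∀ j, ∃ n₀ : ℕ, ∀ (P : Finset ℂ) (𝒢 : Finset Gp) (𝒬 : Finset (ℂ × ℂ))
      (𝒲 : Finset Gp), n₀ ≤ P.card → Ctx P 𝒢 𝒬 𝒲 L δ → CS P 𝒢 →
      12 * ((TC P).card : ℝ) ≤ 2 * (P.card : ℝ) ^ 2 →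
      1000 * (Lam P (B (j + 1)) \ Lam P (B j)).card ≤ P.card →
      ∃ p₀ ∈ Good P (cen 𝒬) (bb L) (B j) (B (j + 1)), 99 / 100 * (P.card : ℝ) ≤
        (((Good P (cen 𝒬) (bb L) (B j) (B (j + 1))).filter
          (fun q => Same P (cen 𝒬) (bb L) (B j) p₀ q)).card : ℝ) :=
    fun j => hM δ L (B j) (B (j + 1)) hδ (hB0 _) (by rw [hBs])
  choose n₂ h2 using h2
  obtain ⟨nA, hA⟩ := hA δ L hδ
  obtain ⟨nT, hT⟩ := hT
  have h3 := fun j => hB (B j) (hB0 j)
  choose nB h3 using h3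
  obtain ⟨nC, hC⟩ := hC δ L hδ
  obtain ⟨S, hS⟩ : ∃ S : ℕ, S = ∑ j ∈ range 1000, (n₂ j + nB j) := ⟨_, rfl⟩
  refine ⟨n₁ + nA + nT + nC + S, ?_⟩
  intro P hP hw hTC
  obtain ⟨𝒢, hG, hCS⟩ := hW P
  obtain ⟨𝒬, 𝒲, hctx⟩ := hN P 𝒢 (by omega) hG
  have hpg := pig P (fun j => Lam P (B j)) (fun j => lam_anti P (hBle j))
    (fun j => filter_subset _ _)
  obtain ⟨j, hj, hpig⟩ := hpg 1000 (by norm_num)
  have hjs : n₂ j + nB j ≤ S := by
    rw [hS]
    exact single_le_sum (f := fun j => n₂ j + nB j) (fun _ _ => Nat.zero_le _) (mem_range.2 hj)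
  clear hS
  have hn0 : (0 : ℝ) ≤ (P.card : ℝ) ^ 2 := by positivity
  have hn2 : n₂ j ≤ P.card := by omega
  have hTC2 : 12 * ((TC P).card : ℝ) ≤ 2 * (P.card : ℝ) ^ 2 := by linarith
  have h2j := h2 j P 𝒢 𝒬 𝒲 hn2 hctx hCS hTC2
  obtain ⟨p₀, hp₀, hQ⟩ := h2j hpig
  obtain ⟨Q, hQd⟩ : ∃ Q, Q = (Good P (cen 𝒬) (bb L) (B j) (B (j + 1))).filter
      (fun q => Same P (cen 𝒬) (bb L) (B j) p₀ q) := ⟨_, rfl⟩
  rw [← hQd] at hQ
  have hQG : ∀ q ∈ Q, q ∈ Good P (cen 𝒬) (bb L) (B j) (B (j + 1)) := fun q hq => by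
    rw [hQd] at hq; exact (mem_filter.1 hq).1
  have hQS : ∀ q ∈ Q, Same P (cen 𝒬) (bb L) (B j) p₀ q := fun q hq => by
    rw [hQd] at hq; exact (mem_filter.1 hq).2
  have hQP : Q ⊆ P := fun q hq => (mem_filter.1 (hQG q hq)).1
  obtain ⟨hp₀P, g1, g2, g3, g4⟩ := mem_filter.1 hp₀
  by_cases hcir : ∃ c ∈ cen 𝒬, p₀ ∈ UP.R P (bb L * P.card) c
  · -- rich circles
    obtain ⟨c, hc, hpc⟩ := hcir
    have hQc : Q ⊆ UP.R P (bb L * P.card) c := by
      intro q hq
      rcases hQS q hq with ⟨c', hc', h5, h6⟩ | ⟨v, hv, h5, h6⟩ | ⟨⟨h5, h6⟩, h7, h8⟩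
      · rw [g1 c hc c' hc' hpc h5]; exact h6
      · exfalso
        exact g2 c hc hpc (lam_anti P (hBle j) (mem_filter.2 ⟨hp₀P, v, hv, h5⟩))
      · exact absurd hpc (h5 c hc)
    have hQd' : ∀ c' ∈ cen 𝒬, c' ≠ c → ∀ q ∈ Q, q ∉ UP.R P (bb L * P.card) c' := by
      intro c' hc' hne q hq hq'
      obtain ⟨_, k1, _⟩ := mem_filter.1 (hQG q hq)
      exact hne (k1 c' hc' c hc hq' (hQc hq))
    obtain ⟨ρ, hρ, h5⟩ := hA P Q 𝒢 𝒬 𝒲 c (by omega) hctx hCS hQc hQd' hQ hTC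
    exact ⟨c, ρ, hρ, h5⟩
  · exfalso
    push Not at hcir
    have hQn : ∀ c' ∈ cen 𝒬, ∀ q ∈ Q, q ∉ UP.R P (bb L * P.card) c' := by
      intro c' hc' q hq hq'
      obtain ⟨_, k1, k2, k3, k4⟩ := mem_filter.1 (hQG q hq)
      rcases hQS q hq with ⟨c'', hc'', h5, h6⟩ | ⟨v, hv, h5, h6⟩ | ⟨⟨h5, h6⟩, h7, h8⟩
      · exact hcir c'' hc'' h5
      · exact k2 c' hc' hq' (lam_anti P (hBle j) (mem_filter.2 ⟨hQP hq, v, hv, h6⟩))
      · exact h7 c' hc' hq'
    have hfin : ∑ g ∈ 𝒢.filter (fun g => ¬ (g 1 - g 0 = 1 ∨ g 1 - g 0 = -1)),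
        ((st Q g).card : ℝ) ^ 3 ≤ 3 / 10 ^ 8 * (P.card : ℝ) ^ 4 := by
      by_cases hlin : p₀ ∈ Lam P (B j)
      · obtain ⟨_, v, hv, hpv⟩ := mem_filter.1 hlin
        refine h3 j P Q 𝒢 v (by omega) hv hQP ?_ hG
        intro q hq
        rcases hQS q hq with ⟨c'', hc'', h5, h6⟩ | ⟨v', hv', h5, h6⟩ | ⟨⟨h5, h6⟩, h7, h8⟩
        · exact absurd h5 (hcir c'' hc'')
        · obtain ⟨s, hs⟩ := g3 v v' hv hv' hpv h5
          have hs0 : s ≠ 0 := by
            rintro rfl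
            apply hv'
            rw [hs]; simp
          have e : pts P (q, v) = pts P (q, v') := by
            unfold pts
            apply filter_congr
            intro y _
            unfold On
            constructor
            · rintro ⟨t, ht⟩
              refine ⟨t / s, ?_⟩
              simp only at ht ⊢
              rw [ht, hs]
              push_cast
              have : (s : ℂ) ≠ 0 := by exact_mod_cast hs0
              field_simp
            · rintro ⟨t, ht⟩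
              refine ⟨t * s, ?_⟩
              simp only at ht ⊢
              rw [ht, hs]
              push_cast
              ring
          rw [e]
          exact h6
        · exact absurd hlin h6
      · refine hC P Q 𝒢 𝒬 𝒲 (by omega) hctx hQP hQn ?_
        intro w hw1 hw2 hw3
        refine le_trans ?_ (hw w hw1 hw2 hw3)
        have hQsub : Q ⊆ P \ Lam P β := by
          intro q hq
          refine mem_sdiff.2 ⟨hQP hq, ?_⟩
          intro hq'
          have hq2 : q ∉ Lam P (B j) := by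
            rcases hQS q hq with ⟨c'', hc'', h5, h6⟩ | ⟨v', hv', h5, h6⟩ | ⟨⟨h5, h6⟩, h7, h8⟩
            · exact absurd h5 (hcir c'' hc'')
            · exact absurd (mem_filter.2 ⟨hp₀P, v', hv', h5⟩) hlin
            · exact h8
          exact hq2 (lam_anti P (hBle0 j) hq')
        exact_mod_cast sx_mono hQsub w
    have := hT P Q 𝒢 (by omega) hG hCS hQP hQ hfin
    linarith

end Pool.RF
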