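import Pool.Agent.Work.MP_dc37f8_rf.Interface
import Pool.Agent.Work.MP_dc37f8_bd.QUO

/-!
# MP_dc37f8_co, project rf, block QUO (helper79, adapted from helper83)
-/

set_option autoImplicit false

open Finset

namespace Pool.RF

open Pool.BK Pool.BD

open Classical in
theorem stmt_QUO (hRB : Stmt_RB) (hGEO : Pool.BK.Stmt_GEO) : Pool.RF.Stmt_QUO := by
  intro δ ε hδ hε
  obtain ⟨C, n₁, hC, hRBC⟩ := hRB (δ ^ 2 / 2) (by positivity)
  refine ⟨C / ε, n₁ + 1, by positivity, ?_⟩
  intro P hn G hG hrich hGn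
  set n : ℝ := (P.card : ℝ) with hndef
  have hnpos : 0 < n := by
    have : 0 < P.card := by omega
    rw [hndef]
    exact_mod_cast this
  set E : Finset (Gp × Gp) := (G ×ˢ G).filter
    (fun z => δ ^ 2 * n / 2 ≤ (((st P z.1) ∩ (st P z.2)).card : ℝ)) with hE
  refine ⟨E.image (fun z => z.1 * z.2⁻¹), ?_, ?_⟩
  · -- upper bound on `U`
    have hU := hRBC P (E.image (fun z => z.1 * z.2⁻¹)) (by omega) (by
      intro u hu
      rw [Finset.mem_image] at hu
      obtain ⟨z, hz, rfl⟩ := hu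
      rw [hE, Finset.mem_filter, Finset.mem_product] at hz
      refine ⟨hGEO.1 _ _ (hG _ hz.1.1) (hGEO.2.2.1 _ (hG _ hz.1.2)), ?_⟩
      have h1 : (((st P z.1) ∩ (st P z.2)).card : ℝ) ≤ ((st P (z.1 * z.2⁻¹)).card : ℝ) := by
        exact_mod_cast Pool.BD.QUO.st_quot P z.1 z.2
      have h2 := hz.2
      rw [← hndef]
      linarith)
    rw [← hndef] at hU
    rw [div_mul_eq_mul_div, le_div_iff₀ hε]
    calc ((E.image (fun z => z.1 * z.2⁻¹)).card : ℝ) * ε ≤ C * n * ε :=
          mul_le_mul_of_nonneg_right hU hε.le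
      _ = C * (ε * n) := by ring
      _ ≤ C * G.card := mul_le_mul_of_nonneg_left hGn hC.le
  · -- lower bound on the number of pairs
    have hsub : E ⊆ (G ×ˢ G).filter (fun z => z.1 * z.2⁻¹ ∈ E.image (fun z => z.1 * z.2⁻¹)) := by
      intro z hz
      rw [Finset.mem_filter]
      exact ⟨(Finset.mem_filter.1 hz).1, Finset.mem_image_of_mem _ hz⟩
    have hcard : (E.card : ℝ) ≤
        (((G ×ˢ G).filter (fun z => z.1 * z.2⁻¹ ∈ E.image (fun z => z.1 * z.2⁻¹))).card : ℝ) := by
      exact_mod_cast Finset.card_le_card hsub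
    refine le_trans ?_ hcard
    -- Cauchy-Schwarz
    have hs1 : δ * n * G.card ≤ ∑ g ∈ G, ((st P g).card : ℝ) := by
      have := Finset.card_nsmul_le_sum G (fun g => ((st P g).card : ℝ)) (δ * n) hrich
      rw [nsmul_eq_mul] at this
      linarith
    have hcs : (∑ p ∈ P, ((G.filter (fun g => g p ∈ P)).card : ℝ)) ^ 2 ≤
        n * ∑ p ∈ P, ((G.filter (fun g => g p ∈ P)).card : ℝ) ^ 2 :=
      sq_sum_le_card_mul_sum_sq
    rw [← Pool.BD.QUO.sum_st, ← Pool.BD.QUO.sum_inter] at hcs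
    have hs2 : (δ * n * G.card) ^ 2 ≤ (∑ g ∈ G, ((st P g).card : ℝ)) ^ 2 := by
      apply pow_le_pow_left₀ (by positivity) hs1
    have hs3 : δ ^ 2 * n * (G.card : ℝ) ^ 2 ≤
        ∑ z ∈ G ×ˢ G, (((st P z.1) ∩ (st P z.2)).card : ℝ) := by
      have h := le_trans hs2 hcs
      have h' : (δ ^ 2 * n * (G.card : ℝ) ^ 2) * n ≤
        (∑ z ∈ G ×ˢ G, (((st P z.1) ∩ (st P z.2)).card : ℝ)) * n := by nlinarith [h]
      exact le_of_mul_le_mul_right h' hnpos
    have hs4 : ∑ z ∈ G ×ˢ G, (((st P z.1) ∩ (st P z.2)).card : ℝ) ≤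
        n * E.card + δ ^ 2 * n / 2 * (G.card : ℝ) ^ 2 := by
      rw [← Finset.sum_filter_add_sum_filter_not (G ×ˢ G)
        (fun z => δ ^ 2 * n / 2 ≤ (((st P z.1) ∩ (st P z.2)).card : ℝ))]
      apply add_le_add
      · have : ∀ z ∈ E, (((st P z.1) ∩ (st P z.2)).card : ℝ) ≤ n := by
          intro z _
          have h1 : ((st P z.1) ∩ (st P z.2)).card ≤ P.card := by
            apply Finset.card_le_card
            intro p hp
            exact (Finset.mem_filter.1 (Finset.mem_inter.1 hp).1).1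
          rw [hndef]
          exact_mod_cast h1
        have h2 := Finset.sum_le_card_nsmul E _ n this
        rw [nsmul_eq_mul] at h2
        rw [hE] at h2 ⊢
        linarith
      · have : ∀ z ∈ (G ×ˢ G).filter
            (fun z => ¬ δ ^ 2 * n / 2 ≤ (((st P z.1) ∩ (st P z.2)).card : ℝ)),
            (((st P z.1) ∩ (st P z.2)).card : ℝ) ≤ δ ^ 2 * n / 2 := by
          intro z hz
          exact (not_le.1 (Finset.mem_filter.1 hz).2).le
        have h2 := Finset.sum_le_card_nsmul _ _ _ this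
        rw [nsmul_eq_mul] at h2
        refine le_trans h2 ?_
        rw [mul_comm]
        apply mul_le_mul_of_nonneg_left _ (by positivity)
        have h3 : ((G ×ˢ G).filter
            (fun z => ¬ δ ^ 2 * n / 2 ≤ (((st P z.1) ∩ (st P z.2)).card : ℝ))).card ≤
            G.card ^ 2 := by
          refine le_trans (Finset.card_filter_le _ _) ?_
          rw [Finset.card_product, sq]
        exact_mod_cast h3
    have h8 : (δ ^ 2 / 2 * (G.card : ℝ) ^ 2) * n ≤ (E.card : ℝ) * n := by nlinarith [hs3, hs4]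
    exact le_of_mul_le_mul_right h8 hnpos

end Pool.RF
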